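import Pool.Agent.Lib.MP_16285c_agX.Hrn.SpecC
import Mathlib.FieldTheory.SeparableDegree
import Mathlib.RingTheory.Polynomial.UniqueFactorization
import Mathlib.RingTheory.Polynomial.RationalRoot

/-!
# The function field of a hypersurface
-/

set_option autoImplicit false

namespace Pool.Agent.Lib.MP_16285c_agX

open MP7Z MvPolynomial
open scoped IntermediateField

namespace FunM

section ring

variable {F K : Type} [CommRing F] [CommRing K] [Algebra F K] {r : ℕ}

theorem fse_C (c : F) : finSuccEquiv F r (C c) = Polynomial.C (C c) := by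
  exact (finSuccEquiv F r).commutes c

theorem fse_pderiv (G : MvPolynomial (Fin (r + 1)) F) :
    finSuccEquiv F r (pderiv 0 G) = Polynomial.derivative (finSuccEquiv F r G) := by
  induction G using MvPolynomial.induction_on with
  | C a => rw [pderiv_C, map_zero, fse_C, Polynomial.derivative_C]
  | add p q hp hq => simp only [map_add, hp, hq]
  | mul_X p i hp =>
    rw [Derivation.leibniz, map_add, map_mul, Polynomial.derivative_mul, smul_eq_mul, smul_eq_mul,
      map_mul, map_mul, hp, mul_comm (finSuccEquiv F r (X i)), add_comm]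
    congr 2
    refine Fin.cases ?_ (fun j => ?_) i
    · rw [pderiv_X_self, map_one, finSuccEquiv_X_zero, Polynomial.derivative_X]
    · rw [pderiv_X_of_ne (Fin.succ_ne_zero j), map_zero, finSuccEquiv_X_succ,
        Polynomial.derivative_C]

theorem aeval_fse (y : Fin (r + 1) → K) (G : MvPolynomial (Fin (r + 1)) F) :
    aeval y G = (Polynomial.map (aeval (fun i => y i.succ) : MvPolynomial (Fin r) F →ₐ[F] K).toRingHom
      (finSuccEquiv F r G)).eval (y 0) := by
  rw [Polynomial.eval_map]
  induction G using MvPolynomial.induction_on with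
  | C a =>
    rw [fse_C, Polynomial.eval₂_C, aeval_C]
    change _ = aeval (fun i : Fin r => y i.succ) (C a)
    rw [aeval_C]
  | add p q hp hq => rw [map_add, map_add, hp, hq, Polynomial.eval₂_add]
  | mul_X p i hp =>
    rw [map_mul, map_mul, hp, Polynomial.eval₂_mul, aeval_X]
    congr 1
    refine Fin.cases ?_ (fun j => ?_) i
    · rw [finSuccEquiv_X_zero, Polynomial.eval₂_X]
    · rw [finSuccEquiv_X_succ, Polynomial.eval₂_C]
      change _ = aeval (fun i => y i.succ) (X j)
      rw [aeval_X]

theorem irr_fse (G : MvPolynomial (Fin (r + 1)) F) :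
    Irreducible (finSuccEquiv F r G) ↔ Irreducible G :=
  MulEquiv.irreducible_iff (finSuccEquiv F r).toMulEquiv

end ring

section gen

variable {κ E : Type} [Field κ] [Field E] [Algebra κ E] {c : ℕ} {P : MvPolynomial (Fin (c + 1)) κ}
  {ξ : Fin (c + 1) → E}

theorem deg_pos (hP : Irreducible P) (hm : (finSuccEquiv κ c P).Monic) :
    0 < (finSuccEquiv κ c P).natDegree := by
  rw [Nat.pos_iff_ne_zero]
  intro h0
  have h1 := (Polynomial.Monic.natDegree_eq_zero hm).1 h0
  have h2 := (irr_fse P).2 hP
  rw [h1] at h2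
  exact h2.1 isUnit_one

theorem algInd (hP : Irreducible P) (hm : (finSuccEquiv κ c P).Monic)
    (hξ : ∀ A : MvPolynomial (Fin (c + 1)) κ, aeval ξ A = 0 ↔ P ∣ A) :
    AlgebraicIndependent κ (fun i : Fin c => ξ i.succ) := by
  rw [algebraicIndependent_iff]
  intro A hA
  have h1 : aeval ξ ((finSuccEquiv κ c).symm (Polynomial.C A)) = 0 := by
    rw [aeval_fse, AlgEquiv.apply_symm_apply, Polynomial.map_C, Polynomial.eval_C]
    exact hA
  rw [hξ] at h1
  have h2 : finSuccEquiv κ c P ∣ Polynomial.C A := by
    obtain ⟨S, hS⟩ := h1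
    refine ⟨finSuccEquiv κ c S, ?_⟩
    rw [← map_mul, ← hS, AlgEquiv.apply_symm_apply]
  by_contra hA0
  have h3 : (Polynomial.C A : Polynomial (MvPolynomial (Fin c) κ)) ≠ 0 := by
    rwa [Ne, Polynomial.C_eq_zero]
  have h4 := Polynomial.natDegree_le_of_dvd h2 h3
  rw [Polynomial.natDegree_C] at h4
  have := deg_pos hP hm
  omega

theorem root (hξ : ∀ A : MvPolynomial (Fin (c + 1)) κ, aeval ξ A = 0 ↔ P ∣ A) :
    ((finSuccEquiv κ c P).map
      (aeval (fun i : Fin c => ξ i.succ) : MvPolynomial (Fin c) κ →ₐ[κ] E).toRingHom).eval (ξ 0) = 0 := by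
  rw [← aeval_fse]
  exact (hξ P).2 dvd_rfl

theorem der_ne (hs : ¬ P ∣ pderiv 0 P) : Polynomial.derivative (finSuccEquiv κ c P) ≠ 0 := by
  rw [← fse_pderiv]
  intro h
  apply hs
  rw [EmbeddingLike.map_eq_zero_iff] at h
  rw [h]
  exact dvd_zero P

theorem main (hP : Irreducible P) (hm : (finSuccEquiv κ c P).Monic)
    (hξ : ∀ A : MvPolynomial (Fin (c + 1)) κ, aeval ξ A = 0 ↔ P ∣ A)
    (htop : IntermediateField.adjoin κ (Set.range ξ) = ⊤) :
    Module.Finite (IntermediateField.adjoin κ (Set.range fun i : Fin c => ξ i.succ)) E ∧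
      (¬ P ∣ pderiv 0 P →
        Algebra.IsSeparable (IntermediateField.adjoin κ (Set.range fun i : Fin c => ξ i.succ)) E) := by
  have hai := algInd hP hm hξ
  let x : Fin c → E := fun i => ξ i.succ
  let M : IntermediateField κ E := IntermediateField.adjoin κ (Set.range x)
  let x' : Fin c → M := fun i => ⟨x i, IntermediateField.subset_adjoin _ _ ⟨i, rfl⟩⟩
  let Q := finSuccEquiv κ c P
  let φ : MvPolynomial (Fin c) κ →+* M := (aeval x' : MvPolynomial (Fin c) κ →ₐ[κ] M).toRingHom
  have hφ : (algebraMap M E).comp φ = (aeval x : MvPolynomial (Fin c) κ →ₐ[κ] E).toRingHom := by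
    apply MvPolynomial.ringHom_ext
    · intro a
      change algebraMap M E (aeval x' (C a)) = aeval x (C a)
      rw [aeval_C, aeval_C]
      rfl
    · intro i
      change algebraMap M E (aeval x' (X i)) = aeval x (X i)
      rw [aeval_X, aeval_X]
      rfl
  have hinj : Function.Injective φ := by
    have h1 : Function.Injective ((algebraMap M E).comp φ) := by
      rw [hφ]
      exact hai
    rw [RingHom.coe_comp] at h1
    exact Function.Injective.of_comp h1
  have hroot : Polynomial.aeval (ξ 0) (Q.map φ) = 0 := by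
    rw [Polynomial.aeval_def, ← Polynomial.eval_map, Polynomial.map_map, hφ]
    exact root hξ
  have hint : IsIntegral M (ξ 0) := ⟨Q.map φ, hm.map φ, by rwa [← Polynomial.aeval_def]⟩
  have htop' : IntermediateField.adjoin M {ξ 0} = ⊤ := by
    apply IntermediateField.restrictScalars_injective κ
    rw [IntermediateField.adjoin_adjoin_left, IntermediateField.restrictScalars_top, ← htop]
    congr 1
    ext y
    simp only [Set.mem_union, Set.mem_range, Set.mem_singleton_iff, x]
    constructor
    · rintro (⟨i, hi⟩ | h)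
      · exact ⟨i.succ, hi⟩
      · exact ⟨0, h.symm⟩
    · rintro ⟨i, hi⟩
      revert hi
      refine Fin.cases ?_ (fun j => ?_) i
      · intro h
        exact Or.inr h.symm
      · intro h
        exact Or.inl ⟨j, h⟩
  refine ⟨?_, fun hs => ?_⟩
  · have h1 := IntermediateField.adjoin.finiteDimensional hint
    rw [htop'] at h1
    exact Module.Finite.equiv (IntermediateField.topEquiv (F := M) (E := E)).toLinearEquiv
  · have hsep : (Q.map φ).Separable := by
      let Fr := FractionRing (MvPolynomial (Fin c) κ)
      have h1 : Irreducible (Q.map (algebraMap (MvPolynomial (Fin c) κ) Fr)) :=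
        (Polynomial.Monic.irreducible_iff_irreducible_map_fraction_map hm).1 ((irr_fse P).2 hP)
      have h2 : (Q.map (algebraMap (MvPolynomial (Fin c) κ) Fr)).Separable := by
        rw [Polynomial.separable_iff_derivative_ne_zero h1, Polynomial.derivative_map]
        intro h
        exact der_ne hs ((Polynomial.map_eq_zero_iff (IsFractionRing.injective _ Fr)).1 h)
      have h3 := h2.map (f := IsFractionRing.lift (K := Fr) hinj)
      rw [Polynomial.map_map] at h3
      have h4 : (IsFractionRing.lift (K := Fr) hinj).comp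
          (algebraMap (MvPolynomial (Fin c) κ) Fr) = φ := by
        refine RingHom.ext fun a => ?_
        rw [RingHom.comp_apply, IsFractionRing.lift_algebraMap]
      rwa [h4] at h3
    have hsepx : IsSeparable M (ξ 0) := Polynomial.Separable.of_dvd hsep (minpoly.dvd M _ hroot)
    have h1 := (IntermediateField.isSeparable_adjoin_simple_iff_isSeparable M E).2 hsepx
    rw [htop'] at h1
    exact (IntermediateField.isSeparable_top M E).1 h1

end gen

theorem ex (κ : Type) [Field κ] (c : ℕ) (P : MvPolynomial (Fin c) κ) (hP : Irreducible P) :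
    ∃ (E : Type) (_ : Field E) (_ : Algebra κ E) (ξ : Fin c → E), GenN P ξ := by
  have hpr : Prime P := UniqueFactorizationMonoid.irreducible_iff_prime.1 hP
  have : (Ideal.span {P}).IsPrime := (Ideal.span_singleton_prime hpr.ne_zero).2 hpr
  let A := MvPolynomial (Fin c) κ ⧸ Ideal.span {P}
  let E := FractionRing A
  let ξ : Fin c → E := fun i => algebraMap A E (Ideal.Quotient.mk _ (X i))
  have hev : ∀ B : MvPolynomial (Fin c) κ, aeval ξ B = algebraMap A E (Ideal.Quotient.mk _ B) := by
    intro B
    induction B using MvPolynomial.induction_on with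
    | C a =>
      rw [aeval_C]
      rfl
    | add p q hp hq => rw [map_add, hp, hq, map_add, map_add]
    | mul_X p i hp => rw [map_mul, hp, aeval_X, map_mul, map_mul]
  refine ⟨E, inferInstance, inferInstance, ξ, ⟨fun B => ?_, ?_⟩⟩
  · rw [hev, ← map_zero (algebraMap A E), (IsFractionRing.injective A E).eq_iff,
      Ideal.Quotient.eq_zero_iff_mem, Ideal.mem_span_singleton]
  · rw [eq_top_iff]
    intro e _
    have hm : ∀ B : MvPolynomial (Fin c) κ, algebraMap A E (Ideal.Quotient.mk _ B) ∈
        IntermediateField.adjoin κ (Set.range ξ) := by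
      intro B
      rw [← hev]
      have h1 : aeval ξ B ∈ Algebra.adjoin κ (Set.range ξ) := by
        rw [Algebra.adjoin_range_eq_range_aeval]
        exact ⟨B, rfl⟩
      exact IntermediateField.algebra_adjoin_le_adjoin κ _ h1
    obtain ⟨a, b, -, rfl⟩ := IsFractionRing.div_surjective (A := A) e
    obtain ⟨a, rfl⟩ := Ideal.Quotient.mk_surjective a
    obtain ⟨b, rfl⟩ := Ideal.Quotient.mk_surjective b
    exact div_mem (hm a) (hm b)

end FunM

theorem tFun : StmtFun := by
  refine ⟨fun κ _ c P hP => FunM.ex κ c P hP, fun κ E _ _ _ c P ξ hP hm hg => ?_⟩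
  have h := FunM.main hP hm hg.ker hg.top
  exact ⟨FunM.algInd hP hm hg.ker, h.1, h.2⟩

end Pool.Agent.Lib.MP_16285c_agX
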