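import Pool.Agent.Lib.MP_16285c_agX.Hrn.Spec

/-!
# MP_16285c_ag, ZDX, section A: the norm modulo a monic polynomial (N2)
-/

set_option autoImplicit false

namespace Pool.Agent.Lib.MP_16285c_agX

open MvPolynomial

namespace NmM

/-- The matrix of the multiplication by `a` modulo `p`, with `e` rows and columns. -/
noncomputable def Mg {S : Type} [CommRing S] (e : ℕ) (p a : Polynomial S) : Matrix (Fin e) (Fin e) S :=
  Matrix.of fun i j => ((Polynomial.X ^ (i : ℕ) * a) %ₘ p).coeff (j : ℕ)

theorem nm_eq {R : Type} [CommRing R] {c : ℕ} (P A : MvPolynomial (Fin (c + 1)) R) :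
    nm P A = (Mg (dz P) (finSuccEquiv R c P) (finSuccEquiv R c A)).det := rfl

theorem fin_rename {R : Type} [CommRing R] {c : ℕ} (Q : MvPolynomial (Fin c) R) :
    finSuccEquiv R c (rename Fin.succ Q) = Polynomial.C Q := by
  induction Q using MvPolynomial.induction_on with
  | C a => simp [finSuccEquiv_apply]
  | add p q hp hq => rw [map_add, map_add, hp, hq, map_add]
  | mul_X p i hp => rw [map_mul, map_mul, hp, rename_X, finSuccEquiv_X_succ, map_mul]

theorem fin_map {R S : Type} [CommRing R] [CommRing S] (φ : R →+* S) {c : ℕ}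
    (A : MvPolynomial (Fin (c + 1)) R) :
    finSuccEquiv S c (map φ A) = (finSuccEquiv R c A).map (map φ) := by
  induction A using MvPolynomial.induction_on with
  | C a => simp [finSuccEquiv_apply]
  | add p q hp hq => rw [map_add, map_add, map_add, hp, hq, Polynomial.map_add]
  | mul_X p i hp =>
    rw [map_mul, map_mul, map_mul, hp, Polynomial.map_mul, map_X]
    congr 1
    refine Fin.cases ?_ (fun j => ?_) i
    · rw [finSuccEquiv_X_zero, finSuccEquiv_X_zero, Polynomial.map_X]
    · rw [finSuccEquiv_X_succ, finSuccEquiv_X_succ, Polynomial.map_C, map_X]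

theorem row {S : Type} [CommRing S] (p a : Polynomial S) (hp : p.Monic) (h1 : p ≠ 1)
    (i : Fin p.natDegree) :
    (Polynomial.X ^ (i : ℕ) * a) %ₘ p =
      ∑ j : Fin p.natDegree, Polynomial.C (Mg p.natDegree p a i j) * Polynomial.X ^ (j : ℕ) := by
  have h := Polynomial.natDegree_modByMonic_lt (Polynomial.X ^ (i : ℕ) * a) hp h1
  have h2 := Polynomial.as_sum_range_C_mul_X_pow' _ h
  rw [h2, Finset.sum_range]
  rfl

/-- part (1) -/
theorem mem_span {S : Type} [CommRing S] (p a : Polynomial S) (hp : p.Monic) :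
    Polynomial.C (Mg p.natDegree p a).det ∈ Ideal.span {p, a} := by
  by_cases h1 : p = 1
  · refine Ideal.mem_span_pair.2 ⟨Polynomial.C (Mg p.natDegree p a).det, 0, ?_⟩
    conv_lhs => rw [show (Polynomial.C (Mg p.natDegree p a).det) * p =
      (Polynomial.C (Mg p.natDegree p a).det) * 1 from congrArg _ h1]
    ring
  · have he : 0 < p.natDegree := by
      rcases Nat.eq_zero_or_pos p.natDegree with h | h
      · exact absurd (Polynomial.eq_one_of_monic_natDegree_zero hp h) h1
      · exact h
    set M := Mg p.natDegree p a with hM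
    have key : Polynomial.C M.det =
        ∑ i : Fin p.natDegree, Polynomial.C (M.adjugate ⟨0, he⟩ i) *
          ((Polynomial.X ^ (i : ℕ) * a) %ₘ p) := by
      have e1 : ∀ i : Fin p.natDegree, Polynomial.C (M.adjugate ⟨0, he⟩ i) *
          ((Polynomial.X ^ (i : ℕ) * a) %ₘ p) = ∑ j : Fin p.natDegree,
          Polynomial.C (M.adjugate ⟨0, he⟩ i * M i j) * Polynomial.X ^ (j : ℕ) := by
        intro i
        rw [row p a hp h1 i, Finset.mul_sum, ← hM]
        refine Finset.sum_congr rfl fun j _ => ?_
        rw [Polynomial.C_mul, mul_assoc]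
      rw [Finset.sum_congr rfl fun i _ => e1 i, Finset.sum_comm]
      have e2 : ∀ j : Fin p.natDegree, ∑ i : Fin p.natDegree,
          Polynomial.C (M.adjugate ⟨0, he⟩ i * M i j) * Polynomial.X ^ (j : ℕ) =
          if (⟨0, he⟩ : Fin p.natDegree) = j then Polynomial.C M.det else 0 := by
        intro j
        rw [← Finset.sum_mul, ← map_sum]
        have e3 : ∑ i : Fin p.natDegree, M.adjugate ⟨0, he⟩ i * M i j =
            (M.adjugate * M) ⟨0, he⟩ j := by
          rw [Matrix.mul_apply]
        rw [e3, Matrix.adjugate_mul, Matrix.smul_apply, Matrix.one_apply]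
        by_cases h : (⟨0, he⟩ : Fin p.natDegree) = j
        · rw [if_pos h, if_pos h, ← h, smul_eq_mul, mul_one]
          simp
        · rw [if_neg h, if_neg h, smul_zero, map_zero, zero_mul]
      rw [Finset.sum_congr rfl fun j _ => e2 j]
      simp
    rw [key]
    refine Ideal.sum_mem _ fun i _ => Ideal.mul_mem_left _ _ ?_
    rw [Polynomial.modByMonic_eq_sub_mul_div]
    refine Ideal.sub_mem _ ?_ ?_
    · exact Ideal.mul_mem_left _ _ (Ideal.subset_span (by simp))
    · exact Ideal.mul_mem_right _ _ (Ideal.subset_span (by simp))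

/-- part (2) -/
theorem det_ne {S : Type} [CommRing S] [IsDomain S] (p a : Polynomial S) (hp : p.Monic)
    (hpr : Prime p) (ha : ¬ p ∣ a) : (Mg p.natDegree p a).det ≠ 0 := by
  intro h0
  have h1 : p ≠ 1 := fun h => hpr.not_isUnit (h ▸ isUnit_one)
  obtain ⟨v, hv0, hv⟩ := Matrix.exists_vecMul_eq_zero_iff.2 h0
  set V : Polynomial S := ∑ i : Fin p.natDegree, Polynomial.C (v i) * Polynomial.X ^ (i : ℕ) with hV
  have hcoef : ∀ j : Fin p.natDegree, V.coeff (j : ℕ) = v j := by
    intro j
    rw [hV, Polynomial.finsetSum_coeff]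
    rw [Finset.sum_eq_single j]
    · rw [Polynomial.coeff_C_mul_X_pow, if_pos rfl]
    · intro i _ hij
      rw [Polynomial.coeff_C_mul_X_pow, if_neg]
      intro h
      exact hij (Fin.ext h.symm)
    · intro h
      exact absurd (Finset.mem_univ j) h
  have hV0 : V ≠ 0 := by
    intro h
    apply hv0
    funext j
    rw [← hcoef j, h, Polynomial.coeff_zero, Pi.zero_apply]
  have hVd : V.degree < p.degree := by
    rw [Polynomial.degree_eq_natDegree hp.ne_zero, hV]
    refine lt_of_le_of_lt (Polynomial.degree_sum_le _ _) ?_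
    rw [Finset.sup_lt_iff (WithBot.bot_lt_coe _)]
    intro i _
    refine lt_of_le_of_lt (Polynomial.degree_C_mul_X_pow_le _ _) ?_
    exact_mod_cast i.2
  have hmod : (V * a) %ₘ p = 0 := by
    have e1 : (V * a) %ₘ p = ∑ i : Fin p.natDegree, v i •
        ((Polynomial.X ^ (i : ℕ) * a) %ₘ p) := by
      have e2 : V * a = ∑ i : Fin p.natDegree, v i • (Polynomial.X ^ (i : ℕ) * a) := by
        rw [hV, Finset.sum_mul]
        refine Finset.sum_congr rfl fun i _ => ?_
        rw [Polynomial.smul_eq_C_mul, mul_assoc]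
      have e3 := congrArg (Polynomial.modByMonicHom p) e2
      rw [map_sum] at e3
      simp only [map_smul] at e3
      exact e3
    have e4 : ∀ i : Fin p.natDegree, v i • ((Polynomial.X ^ (i : ℕ) * a) %ₘ p) =
        ∑ j : Fin p.natDegree, Polynomial.C (v i * Mg p.natDegree p a i j) *
          Polynomial.X ^ (j : ℕ) := by
      intro i
      rw [row p a hp h1 i, Finset.smul_sum]
      refine Finset.sum_congr rfl fun j _ => ?_
      rw [Polynomial.smul_eq_C_mul, Polynomial.C_mul, mul_assoc]
    rw [e1, Finset.sum_congr rfl fun i _ => e4 i, Finset.sum_comm]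
    refine Finset.sum_eq_zero fun j _ => ?_
    rw [← Finset.sum_mul, ← map_sum]
    have e5 := congrFun hv j
    rw [Matrix.vecMul, dotProduct] at e5
    rw [e5, Pi.zero_apply, map_zero, zero_mul]
  have hdvd : p ∣ V * a := (Polynomial.modByMonic_eq_zero_iff_dvd hp).1 hmod
  rcases hpr.dvd_or_dvd hdvd with h | h
  · exact (Polynomial.Monic.not_dvd_of_degree_lt hp hV0 hVd) h
  · exact ha h

/-- part (3) -/
theorem map_det {S T : Type} [CommRing S] [CommRing T] (ψ : S →+* T) (e : ℕ) (p a : Polynomial S)
    (hp : p.Monic) : ψ (Mg e p a).det = (Mg e (p.map ψ) (a.map ψ)).det := by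
  rw [RingHom.map_det]
  congr 1
  ext i j
  rw [RingHom.mapMatrix_apply, Matrix.map_apply]
  unfold Mg
  rw [Matrix.of_apply, Matrix.of_apply, ← Polynomial.coeff_map, Polynomial.map_modByMonic _ hp,
    Polynomial.map_mul, Polynomial.map_pow, Polynomial.map_X]

/-- weight at most `D` -/
def Wg {R : Type} [CommRing R] {c : ℕ} (m D : ℕ) (U : Polynomial (MvPolynomial (Fin c) R)) : Prop :=
  ∀ j, U.coeff j ≠ 0 → (U.coeff j).totalDegree + (m + 1) * j ≤ D

theorem Wg.sub {R : Type} [CommRing R] {c : ℕ} {m D : ℕ} {U V : Polynomial (MvPolynomial (Fin c) R)}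
    (hU : Wg m D U) (hV : Wg m D V) : Wg m D (U - V) := by
  intro j hj
  rw [Polynomial.coeff_sub] at hj ⊢
  by_cases h1 : U.coeff j = 0
  · rw [h1, zero_sub] at hj ⊢
    rw [totalDegree_neg]
    exact hV j (fun h => hj (by rw [h, neg_zero]))
  · by_cases h2 : V.coeff j = 0
    · rw [h2, sub_zero]
      exact hU j h1
    · have a1 := hU j h1
      have a2 := hV j h2
      have a3 := totalDegree_sub (U.coeff j) (V.coeff j)
      have a4 := max_le (a := (U.coeff j).totalDegree) (b := (V.coeff j).totalDegree)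
        (c := D - (m + 1) * j) (by omega) (by omega)
      omega

theorem Wg.mulCX {R : Type} [CommRing R] {c : ℕ} {m D r : ℕ} {U : Polynomial (MvPolynomial (Fin c) R)}
    (hU : Wg m D U) (u : MvPolynomial (Fin c) R) :
    Wg m (D + u.totalDegree + (m + 1) * r) (U * (Polynomial.C u * Polynomial.X ^ r)) := by
  intro j hj
  rw [← mul_assoc, Polynomial.coeff_mul_X_pow'] at hj ⊢
  by_cases h : r ≤ j
  · rw [if_pos h, Polynomial.coeff_mul_C] at hj ⊢
    have h1 : U.coeff (j - r) ≠ 0 := fun h1 => hj (by rw [h1, zero_mul])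
    have a1 := hU _ h1
    have a2 := totalDegree_mul (U.coeff (j - r)) u
    obtain ⟨t, rfl⟩ := Nat.exists_eq_add_of_le h
    rw [Nat.add_sub_cancel_left] at a1 a2 ⊢
    rw [mul_add]
    omega
  · rw [if_neg h] at hj
    exact absurd rfl hj

theorem Wg.mod {R : Type} [CommRing R] {c : ℕ} {m D : ℕ} {p : Polynomial (MvPolynomial (Fin c) R)}
    (hp : p.Monic) (hW : Wg m ((m + 1) * p.natDegree) p) :
    ∀ (n : ℕ) (U : Polynomial (MvPolynomial (Fin c) R)), U.natDegree ≤ n → Wg m D U →
      Wg m D (U %ₘ p) := by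
  intro n
  induction n using Nat.strong_induction_on with
  | _ n ih =>
    intro U hUn hU
    by_cases h0 : U = 0
    · rw [h0, Polynomial.zero_modByMonic]
      intro j hj
      exact absurd (Polynomial.coeff_zero j) hj
    · by_cases h1 : p.degree ≤ U.degree
      · have hnd : p.natDegree ≤ U.natDegree := Polynomial.natDegree_le_natDegree h1
        set V := U - p * (Polynomial.C U.leadingCoeff *
          Polynomial.X ^ (U.natDegree - p.natDegree)) with hV
        have h2 : V.degree < U.degree := Polynomial.div_wf_lemma ⟨h1, h0⟩ hp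
        have h3 : V %ₘ p = U %ₘ p := by
          rw [hV, Polynomial.sub_modByMonic, Polynomial.self_mul_modByMonic hp, sub_zero]
        have h4 : Wg m D V := by
          refine hU.sub ?_
          have h5 := hW.mulCX (r := U.natDegree - p.natDegree) U.leadingCoeff
          have h6 := hU U.natDegree (by
            rw [Polynomial.coeff_natDegree]
            exact fun h => h0 (Polynomial.leadingCoeff_eq_zero.1 h))
          rw [Polynomial.coeff_natDegree] at h6
          intro j hj
          refine (h5 j hj).trans (le_trans (le_of_eq ?_) h6)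
          obtain ⟨t, ht⟩ := Nat.exists_eq_add_of_le hnd
          rw [ht, Nat.add_sub_cancel_left, mul_add]
          ring
        rw [← h3]
        by_cases h7 : V = 0
        · rw [h7, Polynomial.zero_modByMonic]
          intro j hj
          exact absurd (Polynomial.coeff_zero j) hj
        · have h8 := Polynomial.natDegree_lt_natDegree h7 h2
          exact ih V.natDegree (lt_of_lt_of_le h8 hUn) V le_rfl h4
      · have h2 : U %ₘ p = U := by
          rcases subsingleton_or_nontrivial (MvPolynomial (Fin c) R) with hs | hn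
          · exact Subsingleton.elim _ _
          · exact (Polynomial.modByMonic_eq_self_iff hp).2 (not_le.1 h1)
        rw [h2]
        exact hU

/-- degrees of a determinant -/
theorem det_le {R : Type} [CommRing R] {c N d : ℕ}
    (M : Matrix (Fin N) (Fin N) (MvPolynomial (Fin c) R))
    (h : ∀ i j, (M i j).totalDegree ≤ d) : M.det.totalDegree ≤ N * d := by
  rw [Matrix.det_apply]
  refine totalDegree_finsetSum_le fun σ _ => ?_
  have h1 : ∀ (u : ℤˣ) (p : MvPolynomial (Fin c) R), (u • p).totalDegree = p.totalDegree := by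
    intro u p
    rcases Int.units_eq_one_or u with rfl | rfl
    · rw [one_smul]
    · rw [Units.neg_smul, one_smul, totalDegree_neg]
  rw [h1]
  refine (totalDegree_finsetProd _ _).trans ?_
  refine (Finset.sum_le_card_nsmul _ _ d fun i _ => h _ _).trans ?_
  rw [Finset.card_univ, Fintype.card_fin, smul_eq_mul]

/-- part (4) -/
theorem deg_le {R : Type} [CommRing R] {c : ℕ} (P A : MvPolynomial (Fin (c + 1)) R) (hP : Mon P) :
    (nm P A).totalDegree ≤ dz P * ((P.totalDegree + 1) * (A.totalDegree + dz P)) := by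
  rw [nm_eq]
  refine det_le _ fun i j => ?_
  set m := P.totalDegree with hm
  set p := finSuccEquiv R c P with hp
  set a := finSuccEquiv R c A with ha
  have hpm : p.Monic := hP
  have hW : Wg m ((m + 1) * p.natDegree) p := by
    intro k hk
    have hk2 : k ≤ p.natDegree := Polynomial.le_natDegree_of_ne_zero hk
    rcases Nat.lt_or_ge k p.natDegree with h | h
    · have h1 := totalDegree_coeff_finSuccEquiv_add_le P k hk
      rw [← hp, ← hm] at h1
      have h2 : (m + 1) * (k + 1) ≤ (m + 1) * p.natDegree := Nat.mul_le_mul_left _ h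
      rw [mul_add, mul_one] at h2
      omega
    · have h1 : k = p.natDegree := le_antisymm hk2 h
      rw [h1, hpm.coeff_natDegree]
      simp
  have hWa : Wg m ((m + 1) * A.totalDegree) a := by
    intro k hk
    have h1 := totalDegree_coeff_finSuccEquiv_add_le A k hk
    rw [← ha] at h1
    have h2 : (m + 1) * ((a.coeff k).totalDegree + k) ≤ (m + 1) * A.totalDegree :=
      Nat.mul_le_mul_left _ h1
    rw [mul_add] at h2
    have h3 : (a.coeff k).totalDegree ≤ (m + 1) * (a.coeff k).totalDegree :=
      Nat.le_mul_of_pos_left _ (by omega)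
    omega
  have hWx : Wg m ((m + 1) * A.totalDegree + (m + 1) * (i : ℕ)) (Polynomial.X ^ (i : ℕ) * a) := by
    have h1 := hWa.mulCX (r := (i : ℕ)) (1 : MvPolynomial (Fin c) R)
    rw [map_one, one_mul, mul_comm a, totalDegree_one, add_zero] at h1
    exact h1
  have hfin := Wg.mod hpm hW _ _ le_rfl hWx
  unfold Mg
  rw [Matrix.of_apply]
  by_cases h0 : ((Polynomial.X ^ (i : ℕ) * a) %ₘ p).coeff (j : ℕ) = 0
  · rw [h0, totalDegree_zero]
    exact Nat.zero_le _
  · have h1 := hfin _ h0
    have h2 : (m + 1) * (i : ℕ) ≤ (m + 1) * dz P := Nat.mul_le_mul_left _ i.2.le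
    rw [mul_add]
    omega

end NmM

/-- **N2**, the norm. -/
theorem tNm : StmtNm := by
  refine ⟨?_, ?_, ?_, ?_⟩
  · intro R _ c P A hP
    have h := NmM.mem_span (finSuccEquiv R c P) (finSuccEquiv R c A) hP
    obtain ⟨u, v, huv⟩ := Ideal.mem_span_pair.1 h
    rw [Ideal.mem_span_pair]
    refine ⟨(finSuccEquiv R c).symm u, (finSuccEquiv R c).symm v, ?_⟩
    apply (finSuccEquiv R c).injective
    rw [NmM.fin_rename, map_add, map_mul, map_mul, AlgEquiv.apply_symm_apply,
      AlgEquiv.apply_symm_apply, huv]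
    rfl
  · intro R _ _ c P A hP hpr hA
    refine NmM.det_ne (finSuccEquiv R c P) (finSuccEquiv R c A) hP ?_ ?_
    · exact (MulEquiv.prime_iff (finSuccEquiv R c)).2 hpr
    · exact fun h => hA ((map_dvd_iff (finSuccEquiv R c)).1 h)
  · intro R S _ _ _ φ c P A hP
    have hd : dz (map φ P) = dz P := by
      unfold dz
      rw [NmM.fin_map]
      exact Polynomial.Monic.natDegree_map hP _
    rw [NmM.nm_eq, NmM.nm_eq, hd, NmM.fin_map, NmM.fin_map]
    exact NmM.map_det (map φ) (dz P) _ _ hP
  · intro R _ _ c P A hP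
    exact NmM.deg_le P A hP

end Pool.Agent.Lib.MP_16285c_agX
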