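import Pool.Agent.Lib.MP_16285c_agX.Hrn.SpecC
import Pool.Agent.Lib.MP_16285c_agS.Bez.BertA

/-!
# Algebraic elements of `K(T)` over `k(T)`, `k` algebraically closed in the big field
-/

set_option autoImplicit false

namespace Pool.Agent.Lib.MP_16285c_agX

open scoped IntermediateField
open Pool.Agent.Lib.MP_16285c_agS.Bez

open Polynomial in
theorem tBrtA : StmtBrtA := by
  classical
  intro κ E _ _ _ _ K T hclo hT α hα halg
  have hinj : Function.Injective (aeval T : K[X] →ₐ[K] E) := transcendental_iff_injective.mp hT
  -- `α` is a quotient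
  obtain ⟨a, b, hab⟩ : ∃ a b : K[X], α = aeval T a / aeval T b := by
    rw [← IntermediateField.mem_adjoin_simple_iff K α]
    have h1 : IntermediateField.adjoin κ ((K : Set E) ∪ {T}) ≤
        (IntermediateField.adjoin K {T}).restrictScalars κ := by
      rw [IntermediateField.adjoin_le_iff]
      rintro x (hx | hx)
      · exact (IntermediateField.adjoin K {T}).algebraMap_mem ⟨x, hx⟩
      · exact IntermediateField.subset_adjoin K {T} hx
    exact h1 hα
  by_cases hb : b = 0
  · rw [hab, hb, map_zero, div_zero]
    exact zero_mem _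
  have hbT : aeval T b ≠ 0 := fun h => hb (hinj (h.trans (map_zero _).symm))
  have haT : aeval T a = α * aeval T b := by
    rw [hab, div_mul_cancel₀ _ hbT]
  obtain ⟨P, hP, hP0⟩ := BertAM.exists_rel T α halg
  -- the relation in `K[X]`
  have hrel : ∑ i ∈ Finset.range (P.natDegree + 1),
      ((P.coeff i).map (algebraMap κ K)) * a ^ i * b ^ (P.natDegree - i) = 0 := by
    apply hinj
    rw [map_zero, map_sum]
    have h1 : ∀ i ∈ Finset.range (P.natDegree + 1),
        aeval T ((P.coeff i).map (algebraMap κ K) * a ^ i * b ^ (P.natDegree - i)) =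
        (aeval T b) ^ P.natDegree * (aeval T (P.coeff i) * α ^ i) := by
      intro i hi
      have hi' : i ≤ P.natDegree := Nat.lt_succ_iff.mp (Finset.mem_range.mp hi)
      rw [map_mul, map_mul, map_pow, map_pow, haT, aeval_map_algebraMap, mul_pow]
      conv_rhs => rw [← Nat.sub_add_cancel hi', pow_add]
      ring
    rw [Finset.sum_congr rfl h1, ← Finset.mul_sum]
    have h2 : ∑ i ∈ Finset.range (P.natDegree + 1), aeval T (P.coeff i) * α ^ i = 0 := by
      rw [eval_map, eval₂_eq_sum_range] at hP0
      exact hP0
    rw [h2, mul_zero]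
  -- the values are in `κ`
  have hval : ∀ s : κ, b.eval (algebraMap κ K s) ≠ 0 → P.leadingCoeff.eval s ≠ 0 →
      ∃ c : κ, algebraMap κ K c = a.eval (algebraMap κ K s) / b.eval (algebraMap κ K s) := by
    intro s hs hs'
    suffices hsuff : IsAlgebraic κ
        (a.eval (algebraMap κ K s) / b.eval (algebraMap κ K s)) by
      obtain ⟨c, hc⟩ := hclo _ (hsuff.algebraMap (A := E))
      exact ⟨c, (algebraMap K E).injective hc⟩
    refine ⟨P.map (evalRingHom s), ?_, ?_⟩
    · intro h
      apply hs'
      have h1 := congrArg (fun p => coeff p P.natDegree) h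
      simp only [coeff_map, coeff_zero] at h1
      exact h1
    · have h1 := congrArg (eval (algebraMap κ K s)) hrel
      rw [eval_finsetSum, eval_zero] at h1
      have h2 : ∑ i ∈ Finset.range (P.natDegree + 1), eval (algebraMap κ K s)
          ((P.coeff i).map (algebraMap κ K) * a ^ i * b ^ (P.natDegree - i)) =
          (b.eval (algebraMap κ K s)) ^ P.natDegree *
          ∑ i ∈ Finset.range (P.natDegree + 1), algebraMap κ K ((P.coeff i).eval s) *
            (a.eval (algebraMap κ K s) / b.eval (algebraMap κ K s)) ^ i := by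
        rw [Finset.mul_sum]
        refine Finset.sum_congr rfl fun i hi => ?_
        have hi' : i ≤ P.natDegree := Nat.lt_succ_iff.mp (Finset.mem_range.mp hi)
        rw [eval_mul, eval_mul, eval_pow, eval_pow, eval_map, eval₂_at_apply, div_pow]
        have h3 : (b.eval (algebraMap κ K s)) ^ P.natDegree =
            (b.eval (algebraMap κ K s)) ^ (P.natDegree - i) * (b.eval (algebraMap κ K s)) ^ i := by
          rw [← pow_add, Nat.sub_add_cancel hi']
        rw [h3]
        have h4 : (b.eval (algebraMap κ K s)) ^ i ≠ 0 := pow_ne_zero _ hs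
        field_simp
      rw [h2] at h1
      have h5 := (mul_eq_zero.mp h1).resolve_left (pow_ne_zero _ hs)
      rw [aeval_def, eval₂_map, eval₂_eq_sum_range]
      exact h5
  -- the functional
  obtain ⟨l, hl⟩ := Module.Projective.exists_dual_ne_zero κ
    (x := b.leadingCoeff) (leadingCoeff_ne_zero.mpr hb)
  let N := max a.natDegree b.natDegree
  have hB : BertAM.lf l N b ≠ 0 :=
    BertAM.lf_ne l N b b.natDegree (le_max_right _ _) hl
  have hinf : Set.Infinite {s : κ | b.eval (algebraMap κ K s) ≠ 0 ∧ P.leadingCoeff.eval s ≠ 0} := by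
    have : Infinite κ := inferInstance
    have f1 : {s : κ | b.eval (algebraMap κ K s) = 0}.Finite := by
      refine ((b.roots.toFinset.finite_toSet).preimage
        (f := algebraMap κ K) (algebraMap κ K).injective.injOn).subset ?_
      intro s hs
      rw [Set.mem_preimage, Finset.mem_coe, Multiset.mem_toFinset, mem_roots hb]
      exact hs
    have f2 : {s : κ | P.leadingCoeff.eval s = 0}.Finite := by
      refine (P.leadingCoeff.roots.toFinset.finite_toSet).subset ?_
      intro s hs
      rw [Finset.mem_coe, Multiset.mem_toFinset, mem_roots (leadingCoeff_ne_zero.mpr hP)]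
      exact hs
    refine (f1.union f2).infinite_compl.mono ?_
    intro s hs
    exact ⟨fun h => hs (Or.inl h), fun h => hs (Or.inr h)⟩
  have hAB : (BertAM.lf l N a).map (algebraMap κ K) * b = a * (BertAM.lf l N b).map (algebraMap κ K) := by
    apply eq_of_infinite_eval_eq
    refine (hinf.image (algebraMap κ K).injective.injOn).mono ?_
    rintro _ ⟨s, ⟨hs, hs'⟩, rfl⟩
    obtain ⟨c, hc⟩ := hval s hs hs'
    have hav : a.eval (algebraMap κ K s) = algebraMap κ K c * b.eval (algebraMap κ K s) := by
      rw [hc, div_mul_cancel₀ _ hs]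
    change eval (algebraMap κ K s) _ = eval (algebraMap κ K s) _
    rw [eval_mul, eval_mul, eval_map, eval_map, eval₂_at_apply, eval₂_at_apply,
      BertAM.lf_eval l N a (le_max_left _ _), BertAM.lf_eval l N b (le_max_right _ _), hav]
    have h6 : l (algebraMap κ K c * b.eval (algebraMap κ K s)) =
        c * l (b.eval (algebraMap κ K s)) := by
      rw [← Algebra.smul_def, map_smul, smul_eq_mul]
    rw [h6, map_mul]
    ring
  -- conclusion
  have hfin := congrArg (aeval T) hAB
  rw [map_mul, map_mul, aeval_map_algebraMap, aeval_map_algebraMap, haT] at hfin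
  have hBT : aeval T (BertAM.lf l N b) ≠ 0 := by
    intro h
    have h1 : aeval T ((BertAM.lf l N b).map (algebraMap κ K)) = 0 := by
      rw [aeval_map_algebraMap]
      exact h
    have h2 := hinj (h1.trans (map_zero _).symm)
    exact hB ((Polynomial.map_eq_zero _).mp h2)
  rw [IntermediateField.mem_adjoin_simple_iff]
  refine ⟨BertAM.lf l N a, BertAM.lf l N b, ?_⟩
  rw [eq_div_iff hBT]
  apply mul_right_cancel₀ hbT
  rw [hfin]
  ring

end Pool.Agent.Lib.MP_16285c_agX
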