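import Pool.Agent.Lib.MP_16285c_agX.Hrn.SpecC
import Pool.Agent.Lib.MP_16285c_agS.Bez.Bert0
import Mathlib.RingTheory.AlgebraicIndependent.AlgebraicClosure
import Mathlib.RingTheory.AlgebraicIndependent.Transcendental

/-!
# Bertini, one linear form
-/

set_option autoImplicit false

namespace Pool.Agent.Lib.MP_16285c_agX

open scoped IntermediateField

namespace BrtBM

open Pool.Agent.Lib.MP_16285c_agS.Bez.Bert0M (l K mem_K l_mem trans)

/-- The base field is algebraically closed in a purely transcendental extension. -/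
theorem acl {F E : Type} [Field F] [Field E] [Algebra F E] {m : ℕ} (v : Fin m → E)
    (hv : AlgebraicIndependent F v) {α : E} (h1 : α ∈ IntermediateField.adjoin F (Set.range v))
    (h2 : IsAlgebraic F α) : ∃ c : F, algebraMap F E c = α := by
  obtain ⟨r, s, rfl⟩ := (IntermediateField.mem_adjoin_range_iff F v α).1 h1
  let φ : FractionRing (MvPolynomial (Fin m) F) →ₐ[F] E :=
    IsFractionRing.liftAlgHom (g := MvPolynomial.aeval v) hv
  have hφ : ∀ p : MvPolynomial (Fin m) F,
      φ (algebraMap (MvPolynomial (Fin m) F) _ p) = MvPolynomial.aeval v p := fun p =>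
    IsFractionRing.lift_algebraMap (g := (MvPolynomial.aeval v : MvPolynomial (Fin m) F →ₐ[F] E).toRingHom) hv p
  have hφi : Function.Injective φ := φ.toRingHom.injective
  set β : FractionRing (MvPolynomial (Fin m) F) :=
    algebraMap (MvPolynomial (Fin m) F) _ r / algebraMap (MvPolynomial (Fin m) F) _ s with hβ
  have hβφ : φ β = MvPolynomial.aeval v r / MvPolynomial.aeval v s := by
    rw [hβ, map_div₀, hφ, hφ]
  rw [← hβφ] at h2
  have h3 : IsAlgebraic F β := (isAlgebraic_algHom_iff φ hφi).1 h2
  have h4 : IsIntegral F β := h3.isIntegral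
  have h5 : IsIntegral (MvPolynomial (Fin m) F) β := h4.tower_top
  obtain ⟨p, hp⟩ := IsIntegrallyClosed.isIntegral_iff.1 h5
  have h6 : IsIntegral F p := by
    have h7 : IsIntegral F (IsScalarTower.toAlgHom F (MvPolynomial (Fin m) F)
      (FractionRing (MvPolynomial (Fin m) F)) p) := by
      change IsIntegral F (algebraMap (MvPolynomial (Fin m) F)
        (FractionRing (MvPolynomial (Fin m) F)) p)
      rw [hp]
      exact h4
    exact (isIntegral_algHom_iff _ (IsFractionRing.injective (MvPolynomial (Fin m) F)
      (FractionRing (MvPolynomial (Fin m) F)))).1 h7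
  have h8 : ∃ c : F, p = MvPolynomial.C c := by
    by_cases h0 : p = 0
    · exact ⟨0, by rw [h0, MvPolynomial.C_0]⟩
    · obtain ⟨c, _, hc⟩ := MvPolynomial.isUnit_iff_eq_C_of_isReduced.1 (h6.isUnit h0)
      exact ⟨c, hc⟩
  obtain ⟨c, rfl⟩ := h8
  refine ⟨c, ?_⟩
  rw [← hβφ, ← hp, hφ, MvPolynomial.aeval_C]

section

variable {k E : Type} [Field k] [Field E] [Algebra k E] {m : ℕ} (u : Fin (m + 2) → E)

/-- The first two elements. -/
def x2 : Fin 2 → E := ![u 0, u 1]

/-- The other elements. -/
def vv : Fin m → E := fun i => u i.succ.succ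

theorem x2_indep (hu : AlgebraicIndependent k u) : AlgebraicIndependent k (x2 u) := by
  have h1 : x2 u = u ∘ ![0, 1] := by
    funext i
    fin_cases i <;> simp [x2]
  rw [h1]
  refine hu.comp _ ?_
  intro i j hij
  fin_cases i <;> fin_cases j <;> simp_all

/-- The other elements are algebraically independent over the first two. -/
theorem vv_indep (hu : AlgebraicIndependent k u) :
    AlgebraicIndependent (Algebra.adjoin k ({u 0, u 1} : Set E)) (vv u) := by
  have h1 : Disjoint ({0, 1} : Set (Fin (m + 2))) (Set.range fun i : Fin m => i.succ.succ) := by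
    rw [Set.disjoint_left]
    rintro i hi ⟨j, hj⟩
    simp only at hj
    subst hj
    simp only [Set.mem_insert_iff, Set.mem_singleton_iff] at hi
    rcases hi with hi | hi
    · exact Fin.succ_ne_zero _ hi
    · have := congrArg Fin.val hi
      simp at this
  have h2 := hu.adjoin_of_disjoint h1
  have hs : (u '' ({0, 1} : Set (Fin (m + 2)))) = {u 0, u 1} := by
    rw [Set.image_pair]
  rw [hs] at h2
  exact h2.comp (fun i : Fin m => ⟨i.succ.succ, i, rfl⟩) (by
    intro i j hij
    have := congrArg Subtype.val hij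
    simpa using this)

/-- The field of the elements algebraic over one form, and the other form. -/
noncomputable def FF (t t' : k) : IntermediateField k E :=
  IntermediateField.adjoin k ((K (x2 u) t : Set E) ∪ {l (x2 u) t'})

theorem l_alg (t : k) :
    l (x2 u) t ∈ IntermediateField.adjoin k ({u 0, u 1} : Set E) := by
  have h0 : u 0 ∈ IntermediateField.adjoin k ({u 0, u 1} : Set E) :=
    IntermediateField.subset_adjoin k _ (Or.inl rfl)
  have h1 : u 1 ∈ IntermediateField.adjoin k ({u 0, u 1} : Set E) :=
    IntermediateField.subset_adjoin k _ (Or.inr rfl)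
  change u 0 + algebraMap k E t * u 1 ∈ _
  exact add_mem h0 (mul_mem (IntermediateField.algebraMap_mem _ _) h1)

theorem FF_alg (t t' : k) {y : E} (hy : y ∈ FF u t t') :
    IsAlgebraic (Algebra.adjoin k ({u 0, u 1} : Set E)) y := by
  rw [← IntermediateField.isAlgebraic_adjoin_iff]
  set B := IntermediateField.adjoin k ({u 0, u 1} : Set E) with hB
  have h1 : FF u t t' ≤ (algebraicClosure B E).restrictScalars k := by
    rw [FF, IntermediateField.adjoin_le_iff]
    rintro z (hz | hz)
    · have h2 : IsAlgebraic k⟮l (x2 u) t⟯ z := (mem_K (x2 u)).1 hz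
      have h3 : k⟮l (x2 u) t⟯ ≤ B := by
        rw [IntermediateField.adjoin_simple_le_iff]
        exact l_alg u t
      change z ∈ algebraicClosure B E
      rw [mem_algebraicClosure_iff]
      let _ : Algebra k⟮l (x2 u) t⟯ B := (IntermediateField.inclusion h3).toRingHom.toAlgebra
      have : IsScalarTower k⟮l (x2 u) t⟯ B E := IsScalarTower.of_algebraMap_eq fun _ => rfl
      exact h2.tower_top B
    · rw [Set.mem_singleton_iff] at hz
      subst hz
      change _ ∈ algebraicClosure B E
      rw [mem_algebraicClosure_iff]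
      exact isAlgebraic_algebraMap (⟨l (x2 u) t', l_alg u t'⟩ : B)
  have h2 := h1 hy
  change y ∈ algebraicClosure B E at h2
  rwa [mem_algebraicClosure_iff] at h2

/-- The field generated by the algebraic elements. -/
noncomputable def LL (t : k) :
    IntermediateField (IntermediateField.adjoin k (Set.range u)) E :=
  IntermediateField.adjoin (IntermediateField.adjoin k (Set.range u)) (K (x2 u) t : Set E)

theorem FF_mem {t t' : k} (h : t ≠ t') : u 0 ∈ FF u t t' ∧ u 1 ∈ FF u t t' := by
  have hd : t' - t ≠ 0 := sub_ne_zero.2 (Ne.symm h)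
  have h1 : l (x2 u) t ∈ FF u t t' :=
    IntermediateField.subset_adjoin k _ (Or.inl (l_mem (x2 u) t))
  have h2 : l (x2 u) t' ∈ FF u t t' := IntermediateField.subset_adjoin k _ (Or.inr rfl)
  have hl : ∀ s : k, l (x2 u) s = u 0 + algebraMap k E s * u 1 := fun s => rfl
  have hx1 : u 1 ∈ FF u t t' := by
    have h3 : u 1 = algebraMap k E (t' - t)⁻¹ * (l (x2 u) t' - l (x2 u) t) := by
      have h4 : algebraMap k E (t' - t)⁻¹ * (algebraMap k E t' - algebraMap k E t) = 1 := by
        rw [← map_sub, ← map_mul, inv_mul_cancel₀ hd, map_one]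
      rw [hl, hl]
      linear_combination (-u 1) * h4
    rw [h3]
    exact mul_mem (IntermediateField.algebraMap_mem _ _) (sub_mem h2 h1)
  refine ⟨?_, hx1⟩
  have h3 : u 0 = l (x2 u) t - algebraMap k E t * u 1 := by
    rw [hl]
    ring
  rw [h3]
  exact sub_mem h1 (mul_mem (IntermediateField.algebraMap_mem _ _) hx1)

theorem LL_sub {t t' : k} (h : t ≠ t') {α : E} (hα : α ∈ LL u t) :
    α ∈ IntermediateField.adjoin (FF u t t') (Set.range (vv u)) := by
  set N := (IntermediateField.adjoin (FF u t t') (Set.range (vv u))).restrictScalars k with hN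
  have hF : ∀ y ∈ FF u t t', y ∈ N := fun y hy =>
    (IntermediateField.adjoin (FF u t t') (Set.range (vv u))).algebraMap_mem ⟨y, hy⟩
  have hK : ∀ y ∈ K (x2 u) t, y ∈ N := fun y hy =>
    hF y (IntermediateField.subset_adjoin k _ (Or.inl hy))
  have hv : ∀ i : Fin m, u i.succ.succ ∈ N := fun i =>
    IntermediateField.subset_adjoin (FF u t t') _ ⟨i, rfl⟩
  have hM : IntermediateField.adjoin k (Set.range u) ≤ N := by
    rw [IntermediateField.adjoin_le_iff]
    rintro _ ⟨i, rfl⟩
    refine Fin.cases (hF _ (FF_mem u h).1) (fun j => ?_) i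
    refine Fin.cases ?_ (fun j' => ?_) j
    · exact hF _ (FF_mem u h).2
    · exact hv j'
  have hL : LL u t ≤ IntermediateField.extendScalars hM := by
    rw [LL, IntermediateField.adjoin_le_iff]
    intro y hy
    exact hK y hy
  exact hL hα

end

end BrtBM

open BrtBM in
open Pool.Agent.Lib.MP_16285c_agS.Bez.Bert0M (l K mem_K l_mem trans) in
theorem tBrtB : StmtBrtA → StmtBrtB := by
  intro hA k E _ _ _ _ m u hu hcl hfin hsep
  set M := IntermediateField.adjoin k (Set.range u) with hM
  have hF : Finite (IntermediateField M E) := by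
    rw [← Field.exists_primitive_element_iff_finite_intermediateField]
    exact ⟨inferInstance, Field.exists_primitive_element M E⟩
  refine Set.Finite.of_finite_image (f := fun t : k => (LL u t : IntermediateField M E))
    (Set.toFinite _) ?_
  intro t _ t' ht' hL
  by_contra hne
  apply ht'
  intro α hα
  have hα' : IsAlgebraic k⟮l (x2 u) t'⟯ α := hα
  have h1 : α ∈ K (x2 u) t' := (mem_K (x2 u)).2 hα'
  have h2 : α ∈ LL u t' := IntermediateField.subset_adjoin _ _ h1
  have h3 : α ∈ LL u t := by
    have hL' : LL u t = LL u t' := hL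
    rw [hL']
    exact h2
  have h4 := LL_sub u hne h3
  -- the other elements are algebraically independent over `FF`
  have h5 : Algebra.adjoin k ({u 0, u 1} : Set E) ≤ (FF u t t').toSubalgebra := by
    rw [Algebra.adjoin_le_iff]
    rintro z (hz | hz)
    · rw [hz]
      exact (FF_mem u hne).1
    · rw [Set.mem_singleton_iff] at hz
      rw [hz]
      exact (FF_mem u hne).2
  have h6 : AlgebraicIndependent (FF u t t') (vv u) := by
    let _ : Algebra (Algebra.adjoin k ({u 0, u 1} : Set E)) (FF u t t') :=
      (Subalgebra.inclusion h5).toRingHom.toAlgebra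
    have : IsScalarTower (Algebra.adjoin k ({u 0, u 1} : Set E)) (FF u t t') E :=
      IsScalarTower.of_algebraMap_eq fun _ => rfl
    have : Algebra.IsAlgebraic (Algebra.adjoin k ({u 0, u 1} : Set E)) (FF u t t') := by
      refine ⟨fun y => ?_⟩
      have := FF_alg u t t' y.2
      exact (isAlgebraic_algHom_iff (IsScalarTower.toAlgHom _ (FF u t t') E)
        Subtype.val_injective).1 this
    exact (vv_indep u hu).extendScalars (FF u t t')
  have h7 : IsAlgebraic (FF u t t') α := by
    have h9 : k⟮l (x2 u) t'⟯ ≤ FF u t t' := by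
      rw [IntermediateField.adjoin_simple_le_iff]
      exact IntermediateField.subset_adjoin k _ (Or.inr rfl)
    let _ : Algebra k⟮l (x2 u) t'⟯ (FF u t t') :=
      (IntermediateField.inclusion h9).toRingHom.toAlgebra
    have : IsScalarTower k⟮l (x2 u) t'⟯ (FF u t t') E := IsScalarTower.of_algebraMap_eq fun _ => rfl
    exact hα'.tower_top (FF u t t')
  obtain ⟨c, hc⟩ := acl (vv u) h6 h4 h7
  have h8 : α ∈ FF u t t' := by
    rw [← hc]
    exact c.2
  exact hA k E (K (x2 u) t) (l (x2 u) t') hcl (trans (x2 u) (x2_indep u hu) hne) α h8 hα'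

end Pool.Agent.Lib.MP_16285c_agX
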