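import Pool.Agent.Lib.MP_16285c_agX.Hrn.SpecC

/-!
# Bertini (C3): the induction
-/

set_option autoImplicit false

namespace Pool.Agent.Lib.MP_16285c_agX

open MP7Z MvPolynomial
open scoped IntermediateField

namespace BrtNM

/-- The block matrix `1 ⊕ A`. -/
def bl {κ : Type} [Field κ] {m : ℕ} (A : Matrix (Fin m) (Fin m) κ) :
    Matrix (Fin (m + 1)) (Fin (m + 1)) κ :=
  Matrix.of (Fin.cons (α := fun _ => Fin (m + 1) → κ) (Fin.cons (α := fun _ => κ) 1 0)
    (fun i => Fin.cons (α := fun _ => κ) 0 (A i)))

theorem bl_zz {κ : Type} [Field κ] {m : ℕ} (A : Matrix (Fin m) (Fin m) κ) : bl A 0 0 = 1 := rfl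

theorem bl_zs {κ : Type} [Field κ] {m : ℕ} (A : Matrix (Fin m) (Fin m) κ) (j : Fin m) :
    bl A 0 j.succ = 0 := rfl

theorem bl_sz {κ : Type} [Field κ] {m : ℕ} (A : Matrix (Fin m) (Fin m) κ) (i : Fin m) :
    bl A i.succ 0 = 0 := rfl

theorem bl_ss {κ : Type} [Field κ] {m : ℕ} (A : Matrix (Fin m) (Fin m) κ) (i j : Fin m) :
    bl A i.succ j.succ = A i j := rfl

theorem bl_mul {κ : Type} [Field κ] {m : ℕ} (A B : Matrix (Fin m) (Fin m) κ) :
    bl A * bl B = bl (A * B) := by
  ext i j
  rw [Matrix.mul_apply, Fin.sum_univ_succ]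
  refine Fin.cases ?_ (fun i => ?_) i
  · refine Fin.cases ?_ (fun j => ?_) j
    · simp only [bl_zz, bl_zs, bl_sz, zero_mul, Finset.sum_const_zero, mul_one, add_zero]
    · simp only [bl_zz, bl_zs, zero_mul, Finset.sum_const_zero, mul_zero, add_zero]
  · refine Fin.cases ?_ (fun j => ?_) j
    · simp only [bl_zz, bl_sz, zero_mul, mul_zero, Finset.sum_const_zero, add_zero]
    · simp only [bl_sz, bl_zs, bl_ss, zero_mul, zero_add, Matrix.mul_apply]

theorem bl_one {κ : Type} [Field κ] {m : ℕ} : bl (1 : Matrix (Fin m) (Fin m) κ) = 1 := by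
  ext i j
  refine Fin.cases ?_ (fun i => ?_) i
  · refine Fin.cases ?_ (fun j => ?_) j
    · rw [bl_zz, Matrix.one_apply_eq]
    · rw [bl_zs, Matrix.one_apply_ne (Fin.succ_ne_zero j).symm]
  · refine Fin.cases ?_ (fun j => ?_) j
    · rw [bl_sz, Matrix.one_apply_ne (Fin.succ_ne_zero i)]
    · rw [bl_ss]
      by_cases h : i = j
      · rw [h, Matrix.one_apply_eq, Matrix.one_apply_eq]
      · rw [Matrix.one_apply_ne h, Matrix.one_apply_ne (fun h' => h (Fin.succ_injective _ h'))]

theorem lin_mul {κ E : Type} [Field κ] [Field E] [Algebra κ E] {c : ℕ}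
    (A B : Matrix (Fin c) (Fin c) κ) (u : Fin c → E) : lin (A * B) u = lin A (lin B u) := by
  funext i
  unfold lin
  simp only [Matrix.mul_apply, map_sum, map_mul, Finset.sum_mul, Finset.mul_sum]
  rw [Finset.sum_comm]
  exact Finset.sum_congr rfl fun l _ => Finset.sum_congr rfl fun j _ => by ring

theorem lin_bl_z {κ E : Type} [Field κ] [Field E] [Algebra κ E] {m : ℕ}
    (A : Matrix (Fin m) (Fin m) κ) (w : Fin (m + 1) → E) : lin (bl A) w 0 = w 0 := by
  unfold lin
  rw [Fin.sum_univ_succ, bl_zz]
  simp only [bl_zs, map_zero, zero_mul, Finset.sum_const_zero, add_zero, map_one, one_mul]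

theorem lin_bl_s {κ E : Type} [Field κ] [Field E] [Algebra κ E] {m : ℕ}
    (A : Matrix (Fin m) (Fin m) κ) (w : Fin (m + 1) → E) (i : Fin m) :
    lin (bl A) w i.succ = lin A (fun j => w j.succ) i := by
  unfold lin
  rw [Fin.sum_univ_succ, bl_sz]
  simp only [bl_ss, map_zero, zero_mul, zero_add]

theorem lin_tr_z {κ E : Type} [Field κ] [Field E] [Algebra κ E] {m : ℕ} (t : κ)
    (u : Fin (m + 2) → E) :
    lin (Matrix.transvection (0 : Fin (m + 2)) 1 t) u 0 = u 0 + algebraMap κ E t * u 1 := by
  unfold lin Matrix.transvection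
  simp only [Matrix.add_apply, map_add, add_mul, Finset.sum_add_distrib]
  congr 1
  · rw [Finset.sum_eq_single 0]
    · rw [Matrix.one_apply_eq, map_one, one_mul]
    · intro b _ hb
      rw [Matrix.one_apply_ne hb.symm, map_zero, zero_mul]
    · intro h
      exact absurd (Finset.mem_univ _) h
  · rw [Finset.sum_eq_single 1]
    · rw [Matrix.single_apply_same]
    · intro b _ hb
      rw [Matrix.single_apply_of_ne]
      · rw [map_zero, zero_mul]
      · exact fun h => hb h.2.symm
    · intro h
      exact absurd (Finset.mem_univ _) h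

theorem lin_tr_s {κ E : Type} [Field κ] [Field E] [Algebra κ E] {m : ℕ} (t : κ)
    (u : Fin (m + 2) → E) (i : Fin (m + 1)) :
    lin (Matrix.transvection (0 : Fin (m + 2)) 1 t) u i.succ = u i.succ := by
  unfold lin Matrix.transvection
  simp only [Matrix.add_apply, map_add, add_mul, Finset.sum_add_distrib]
  rw [Finset.sum_eq_single i.succ]
  · rw [Matrix.one_apply_eq, map_one, one_mul]
    refine add_eq_left.2 (Finset.sum_eq_zero fun b _ => ?_)
    rw [Matrix.single_apply_of_ne]
    · rw [map_zero, zero_mul]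
    · exact fun h => (Fin.succ_ne_zero i) h.1.symm
  · intro b _ hb
    rw [Matrix.one_apply_ne hb.symm, map_zero, zero_mul]
  · intro h
    exact absurd (Finset.mem_univ _) h

/-- Independence over the field of one linear form. -/
theorem ai {k E : Type} [Field k] [Field E] [Algebra k E] {m : ℕ} (u : Fin (m + 2) → E)
    (hu : AlgebraicIndependent k u) (t : k) (v : E) (hv : v = u 0 + algebraMap k E t * u 1) :
    AlgebraicIndependent k⟮v⟯ (fun j : Fin (m + 1) => u j.succ) := by
  have h1 : AlgebraicIndependent k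
      (Sum.elim (fun j : Fin (m + 1) => u j.succ) (fun _ : Fin 1 => v)) := by
    let P : Fin (m + 1) ⊕ Fin 1 → MvPolynomial (Fin (m + 2)) k :=
      Sum.elim (fun j => X j.succ) (fun _ => X 0 + C t * X 1)
    let Q : Fin (m + 2) → MvPolynomial (Fin (m + 1) ⊕ Fin 1) k :=
      Fin.cons (α := fun _ => MvPolynomial (Fin (m + 1) ⊕ Fin 1) k)
        (X (Sum.inr 0) - C t * X (Sum.inl 0)) (fun j => X (Sum.inl j))
    have hQP : (aeval Q).comp (aeval P) = AlgHom.id k (MvPolynomial (Fin (m + 1) ⊕ Fin 1) k) := by
      apply MvPolynomial.algHom_ext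
      rintro (j | j)
      · rw [AlgHom.comp_apply, aeval_X]
        show aeval Q (X j.succ) = _
        rw [aeval_X]
        rfl
      · rw [AlgHom.comp_apply, aeval_X]
        show aeval Q (X 0 + C t * X 1) = _
        rw [map_add, map_mul, aeval_X, aeval_X, aeval_C]
        have e1 : Q 0 = X (Sum.inr 0) - C t * X (Sum.inl 0) := rfl
        have e2 : Q 1 = X (Sum.inl 0) := rfl
        have e3 : j = 0 := Subsingleton.elim _ _
        rw [e1, e2, e3, MvPolynomial.algebraMap_eq, AlgHom.id_apply]
        ring
    have hPi : Function.Injective (aeval (R := k) P) := by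
      intro a b hab
      have h2 := congrArg (aeval (R := k) Q) hab
      have h3 : ∀ a, aeval (R := k) Q (aeval (R := k) P a) = a := fun a => DFunLike.congr_fun hQP a
      rwa [h3, h3] at h2
    have he : aeval (Sum.elim (fun j : Fin (m + 1) => u j.succ) (fun _ : Fin 1 => v)) =
        (aeval u).comp (aeval P) := by
      apply MvPolynomial.algHom_ext
      rintro (j | j)
      · rw [AlgHom.comp_apply, aeval_X, aeval_X]
        show u j.succ = aeval u (X j.succ)
        rw [aeval_X]
      · rw [AlgHom.comp_apply, aeval_X, aeval_X]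
        show v = aeval u (X 0 + C t * X 1)
        rw [map_add, map_mul, aeval_X, aeval_X, aeval_C, hv]
    show Function.Injective (aeval _)
    rw [he]
    exact Function.Injective.comp (g := aeval (R := k) u) hu hPi
  have h2 := (AlgebraicIndependent.sumElim_iff.1 h1).2
  have h3 : Set.range (fun _ : Fin 1 => v) = {v} := Set.range_const
  rw [h3] at h2
  exact IntermediateField.algebraicIndependent_adjoin_iff.2 h2

theorem main (hB : StmtBrtB) (κ : Type) [Field κ] [Infinite κ] : ∀ (m : ℕ) (k E : Type) [Field k]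
    [Algebra κ k] [Field E] [Algebra k E] [Algebra κ E] [IsScalarTower κ k E] (u : Fin (m + 1) → E),
    AlgebraicIndependent k u →
    (∀ α : E, IsAlgebraic k α → ∃ c : k, algebraMap k E c = α) →
    Module.Finite (IntermediateField.adjoin k (Set.range u)) E →
    Algebra.IsSeparable (IntermediateField.adjoin k (Set.range u)) E →
    ∃ C D : Matrix (Fin (m + 1)) (Fin (m + 1)) κ, C * D = 1 ∧ D * C = 1 ∧
      ∀ α : E, IsAlgebraic (IntermediateField.adjoin k (Set.range fun i : Fin m => lin C u i.castSucc)) α →
        α ∈ IntermediateField.adjoin k (Set.range fun i : Fin m => lin C u i.castSucc) := by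
  intro m
  induction m with
  | zero =>
    intro k E _ _ _ _ _ _ u _ hk _ _
    refine ⟨1, 1, one_mul 1, one_mul 1, fun α hα => ?_⟩
    rw [Set.range_eq_empty, IntermediateField.adjoin_empty] at hα ⊢
    obtain ⟨c, hc⟩ := hk α (IsAlgebraic.restrictScalars k hα)
    exact IntermediateField.mem_bot.2 ⟨c, hc⟩
  | succ m ih =>
    intro k E _ _ _ _ _ _ u hu hk hfin hsep
    have hinf : Infinite k := Infinite.of_injective (algebraMap κ k) (algebraMap κ k).injective
    have hbad := hB k E m u hu hk hfin hsep
    obtain ⟨t, ht⟩ : ∃ t : κ, ∀ α : E,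
        IsAlgebraic k⟮u 0 + algebraMap k E (algebraMap κ k t) * u 1⟯ α →
        α ∈ k⟮u 0 + algebraMap k E (algebraMap κ k t) * u 1⟯ := by
      by_contra h
      have h' := not_exists.1 h
      refine Set.infinite_range_of_injective (algebraMap κ k).injective (hbad.subset ?_)
      rintro _ ⟨t, rfl⟩
      exact h' t
    obtain ⟨v, hv⟩ : ∃ v, v = u 0 + algebraMap k E (algebraMap κ k t) * u 1 := ⟨_, rfl⟩
    rw [← hv] at ht
    have hai := ai u hu (algebraMap κ k t) v hv
    have e : (IntermediateField.adjoin k⟮v⟯ (Set.range fun j : Fin (m + 1) => u j.succ)).restrictScalars k =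
        IntermediateField.adjoin k (Set.range u) := by
      rw [IntermediateField.adjoin_adjoin_left]
      apply le_antisymm
      · rw [IntermediateField.adjoin_le_iff]
        rintro x (hx | ⟨j, rfl⟩)
        · rw [Set.mem_singleton_iff.1 hx, hv]
          exact add_mem (IntermediateField.subset_adjoin _ _ ⟨0, rfl⟩)
            (mul_mem (IntermediateField.algebraMap_mem _ _) (IntermediateField.subset_adjoin _ _ ⟨1, rfl⟩))
        · exact IntermediateField.subset_adjoin _ _ ⟨j.succ, rfl⟩
      · rw [IntermediateField.adjoin_le_iff]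
        rintro x ⟨i, rfl⟩
        have hs : ∀ j : Fin (m + 1), u j.succ ∈ IntermediateField.adjoin k
            ({v} ∪ Set.range fun j : Fin (m + 1) => u j.succ) := fun j =>
          IntermediateField.subset_adjoin _ _ (Or.inr ⟨j, rfl⟩)
        refine Fin.cases ?_ (fun i => hs i) i
        have h0 : u 0 = v - algebraMap k E (algebraMap κ k t) * u 1 := by
          rw [hv]
          ring
        show u 0 ∈ _
        rw [h0]
        exact sub_mem (IntermediateField.subset_adjoin _ _ (Or.inl rfl))
          (mul_mem (IntermediateField.algebraMap_mem _ _) (hs 0))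
    have hfin' : Module.Finite (IntermediateField.adjoin k⟮v⟯
        (Set.range fun j : Fin (m + 1) => u j.succ)) E := by
      rw [← e] at hfin
      exact hfin
    have hsep' : Algebra.IsSeparable (IntermediateField.adjoin k⟮v⟯
        (Set.range fun j : Fin (m + 1) => u j.succ)) E := by
      rw [← e] at hsep
      exact hsep
    have hst : IsScalarTower κ k⟮v⟯ E := IsScalarTower.of_algebraMap_eq fun x => rfl
    obtain ⟨C', D', h1, h2, h3⟩ := ih k⟮v⟯ E (fun j : Fin (m + 1) => u j.succ) hai
      (fun α hα => ⟨⟨α, ht α hα⟩, rfl⟩) hfin' hsep'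
    have hne : (0 : Fin (m + 2)) ≠ 1 := (Fin.succ_ne_zero (0 : Fin (m + 1))).symm
    refine ⟨bl C' * Matrix.transvection 0 1 t, Matrix.transvection 0 1 (-t) * bl D', ?_, ?_, ?_⟩
    · rw [Matrix.mul_assoc, ← Matrix.mul_assoc (Matrix.transvection 0 1 t),
        Matrix.transvection_mul_transvection_same (h := hne), add_neg_cancel, Matrix.transvection_zero, Matrix.one_mul,
        bl_mul, h1, bl_one]
    · rw [Matrix.mul_assoc, ← Matrix.mul_assoc (bl D'), bl_mul, h2, bl_one, Matrix.one_mul,
        Matrix.transvection_mul_transvection_same (h := hne), neg_add_cancel, Matrix.transvection_zero]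
    · have hr : (Set.range fun i : Fin (m + 1) =>
          lin (bl C' * Matrix.transvection 0 1 t) u i.castSucc) =
          {v} ∪ Set.range fun i : Fin m => lin C' (fun j : Fin (m + 1) => u j.succ) i.castSucc := by
        have ez : lin (bl C' * Matrix.transvection 0 1 t) u 0 = v := by
          rw [lin_mul, lin_bl_z, lin_tr_z, hv, ← IsScalarTower.algebraMap_apply]
        have es : ∀ i : Fin (m + 1), lin (bl C' * Matrix.transvection 0 1 t) u i.succ =
            lin C' (fun j : Fin (m + 1) => u j.succ) i := by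
          intro i
          rw [lin_mul, lin_bl_s]
          congr 1
          funext j
          exact lin_tr_s t u j
        ext x
        constructor
        · rintro ⟨i, rfl⟩
          refine Fin.cases ?_ (fun i => ?_) i
          · exact Or.inl ez
          · exact Or.inr ⟨i, (es i.castSucc).symm⟩
        · rintro (hx | ⟨i, rfl⟩)
          · exact ⟨0, by rw [Set.mem_singleton_iff.1 hx]; exact ez⟩
          · exact ⟨i.succ, es i.castSucc⟩
      rw [hr, ← IntermediateField.adjoin_adjoin_left]
      exact h3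

end BrtNM

open BrtNM

theorem tBrtN : StmtBrtB → StmtBrtN := by
  intro hB κ E _ _ _ _ N u hu hfin hsep
  have : Infinite κ := IsAlgClosed.instInfinite
  refine main hB κ N κ E u hu (fun α hα => ?_) hfin hsep
  exact minpoly.mem_range_of_degree_eq_one κ α
    (IsAlgClosed.degree_eq_one_of_irreducible κ (minpoly.irreducible hα.isIntegral))

end Pool.Agent.Lib.MP_16285c_agX
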