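import Pool.Agent.Lib.MP_16285c_agX.Hrn.SpecC

/-!
# The cone over a hypersurface

`tCone : StmtCone` (statement (C11) of `Hrn/SpecC.lean`): the homogenisation of an irreducible polynomial with a generic point is irreducible
and has the cone over the generic point as a generic point.
-/

set_option autoImplicit false

namespace Pool.Agent.Lib.MP_16285c_agX

open MP7Z MvPolynomial
open scoped IntermediateField
open Pool.Agent.Lib.MP_16285c_ag (RM FrobPt)
open Pool.Agent.ZDO (Jc hz dd nn cn)

namespace ConeM

/-- The point `(T, T x)` of the cone. -/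
def cp {K : Type} [Mul K] {c : ℕ} (T : K) (x : Fin c → K) : Fin (c + 1) → K :=
  Fin.cons (α := fun _ => K) T fun i => T * x i

/-- Evaluation of the homogenisation at a point of the cone. -/
theorem aeval_hz {κ K : Type} [Field κ] [CommRing K] [Algebra κ K] {c : ℕ} (T : K) (x : Fin c → K)
    (e : ℕ) (A : MvPolynomial (Fin c) κ) (hA : A.totalDegree ≤ e) :
    aeval (cp T x) (hz e A) = T ^ e * aeval x A := by
  rw [hz, map_sum]
  conv_rhs => rw [aeval_def, eval₂_eq', Finset.mul_sum]
  refine Finset.sum_congr rfl fun m hm => ?_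
  have h1 : m.degree ≤ e := by
    rw [Finsupp.degree_apply]
    exact (le_totalDegree hm).trans hA
  rw [map_mul, aeval_C, Pool.Agent.ZDO.hmon, map_mul, map_pow, aeval_X, map_prod]
  have h2 : ∏ i, aeval (cp T x) (X (Fin.succ i) ^ m i : MvPolynomial (Fin (c + 1)) κ) =
      T ^ m.degree * ∏ i, x i ^ m i := by
    rw [Finsupp.degree_eq_sum, ← Finset.prod_pow_eq_pow_sum, ← Finset.prod_mul_distrib]
    refine Finset.prod_congr rfl fun i _ => ?_
    rw [map_pow, aeval_X, ← mul_pow]
    rfl
  rw [h2]
  have h3 : T ^ e = T ^ (e - m.degree) * T ^ m.degree := by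
    rw [← pow_add]
    congr 1
    omega
  rw [h3]
  have h4 : cp T x 0 = T := rfl
  rw [h4]
  ring

/-- Dehomogenisation. -/
noncomputable def dh {κ : Type} [Field κ] {c : ℕ} (A : MvPolynomial (Fin (c + 1)) κ) :
    MvPolynomial (Fin c) κ := aeval (cp (1 : MvPolynomial (Fin c) κ) X) A

/-- A homogeneous polynomial at a point of the cone. -/
theorem aeval_homog {κ K : Type} [Field κ] [CommRing K] [Algebra κ K] {c : ℕ} (T : K) (x : Fin c → K)
    (j : ℕ) (A : MvPolynomial (Fin (c + 1)) κ) (hA : A.IsHomogeneous j) :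
    aeval (cp T x) A = T ^ j * aeval x (dh A) := by
  have h0 : aeval x (dh A) = aeval (cp (1 : K) x) A := by
    have h := congrArg (fun φ : MvPolynomial (Fin (c + 1)) κ →ₐ[κ] K => φ A)
      (MvPolynomial.comp_aeval (cp (1 : MvPolynomial (Fin c) κ) X) (aeval (R := κ) x))
    have h' : (fun i => (aeval (R := κ) x) (cp (1 : MvPolynomial (Fin c) κ) X i)) = cp (1 : K) x := by
      funext i
      refine Fin.cases ?_ (fun i => ?_) i
      · exact map_one _
      · change (aeval (R := κ) x) (1 * X i) = 1 * x i
        rw [one_mul, one_mul, aeval_X]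
    rw [h'] at h
    exact h
  rw [h0, aeval_def, aeval_def, eval₂_eq', eval₂_eq', Finset.mul_sum]
  refine Finset.sum_congr rfl fun m hm => ?_
  have h1 : m.degree = j := by
    have h := hA (mem_support_iff.1 hm)
    rw [← h, Finsupp.degree_eq_weight_one, Pi.one_def]
  have h2 : ∏ i, cp T x i ^ m i = T ^ j * ∏ i, cp (1 : K) x i ^ m i := by
    rw [← h1, Finsupp.degree_eq_sum, ← Finset.prod_pow_eq_pow_sum, ← Finset.prod_mul_distrib]
    refine Finset.prod_congr rfl fun i _ => ?_
    rw [← mul_pow]
    congr 1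
    refine Fin.cases ?_ (fun i => ?_) i
    · exact (mul_one T).symm
    · change T * x i = T * (1 * x i)
      rw [one_mul]
  rw [h2]
  ring

/-- The total degree of the dehomogenisation. -/
theorem dh_deg {κ : Type} [Field κ] {c : ℕ} (j : ℕ) (A : MvPolynomial (Fin (c + 1)) κ)
    (hA : A.IsHomogeneous j) : (dh A).totalDegree ≤ j := by
  rw [dh, aeval_def, eval₂_eq']
  refine totalDegree_finsetSum_le fun m hm => ?_
  have h1 : m.degree = j := by
    have h := hA (mem_support_iff.1 hm)
    rw [← h, Finsupp.degree_eq_weight_one, Pi.one_def]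
  refine (totalDegree_mul _ _).trans ?_
  rw [algebraMap_eq, totalDegree_C, zero_add]
  refine (totalDegree_finsetProd _ _).trans ?_
  rw [← h1, Finsupp.degree_eq_sum]
  refine Finset.sum_le_sum fun i _ => ?_
  refine (totalDegree_pow _ _).trans ?_
  have h2 : (cp (1 : MvPolynomial (Fin c) κ) X i).totalDegree ≤ 1 := by
    refine Fin.cases ?_ (fun i => ?_) i
    · change (1 : MvPolynomial (Fin c) κ).totalDegree ≤ 1
      rw [totalDegree_one]
      exact Nat.zero_le 1
    · change (1 * X i : MvPolynomial (Fin c) κ).totalDegree ≤ 1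
      rw [one_mul, totalDegree_X]
  calc m i * _ ≤ m i * 1 := Nat.mul_le_mul le_rfl h2
    _ = m i := mul_one _

/-- The generic point of the affine space as a point of a cone. -/
theorem exists_gen (κ : Type) [Field κ] (c : ℕ) : ∃ (K : Type) (_ : Field K) (_ : Algebra κ K)
    (T : K) (x : Fin c → K), Function.Injective (aeval (R := κ) (cp T x)) := by
  let R := MvPolynomial (Fin (c + 1)) κ
  let K := FractionRing R
  have hT : algebraMap R K (X 0) ≠ 0 := by
    intro h
    exact X_ne_zero (R := κ) (0 : Fin (c + 1)) ((IsFractionRing.injective R K) (h.trans (map_zero _).symm))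
  refine ⟨K, inferInstance, inferInstance, algebraMap R K (X 0),
    fun i => algebraMap R K (X i.succ) / algebraMap R K (X 0), ?_⟩
  have h1 : cp (algebraMap R K (X 0)) (fun i : Fin c => algebraMap R K (X i.succ) / algebraMap R K (X 0)) =
      fun i => algebraMap R K (X i) := by
    funext i
    refine Fin.cases ?_ (fun i => ?_) i
    · rfl
    · change algebraMap R K (X 0) * (algebraMap R K (X i.succ) / algebraMap R K (X 0)) = _
      rw [mul_div_cancel₀ _ hT]
  rw [h1]
  have h2 : ∀ A : R, aeval (R := κ) (fun i => algebraMap R K (X i)) A = algebraMap R K A := by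
    intro A
    have h := MvPolynomial.aeval_algebraMap_apply (A := R) K (X : Fin (c + 1) → R) A
    rw [aeval_X_left_apply] at h
    exact h
  intro A B hAB
  rw [h2, h2] at hAB
  exact IsFractionRing.injective R K hAB

/-- Homogenisation of products. -/
theorem hz_mul {κ : Type} [Field κ] {c : ℕ} (d e : ℕ) (P B : MvPolynomial (Fin c) κ)
    (hP : P.totalDegree ≤ d) (hB : B.totalDegree ≤ e) : hz (d + e) (P * B) = hz d P * hz e B := by
  obtain ⟨K, _, _, T, x, hinj⟩ := exists_gen κ c
  refine hinj ?_
  rw [map_mul, aeval_hz T x _ _ ((totalDegree_mul _ _).trans (Nat.add_le_add hP hB)),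
    aeval_hz T x _ _ hP, aeval_hz T x _ _ hB, map_mul, pow_add]
  ring

/-- Homogenisation of the dehomogenisation. -/
theorem hz_dh {κ : Type} [Field κ] {c : ℕ} (j : ℕ) (A : MvPolynomial (Fin (c + 1)) κ)
    (hA : A.IsHomogeneous j) : hz j (dh A) = A := by
  obtain ⟨K, _, _, T, x, hinj⟩ := exists_gen κ c
  refine hinj ?_
  rw [aeval_hz T x _ _ (dh_deg j A hA), aeval_homog T x j A hA]

/-- Divisibility of homogeneous polynomials. -/
theorem hz_dvd {κ : Type} [Field κ] {c : ℕ} (j : ℕ) (P : MvPolynomial (Fin c) κ)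
    (A : MvPolynomial (Fin (c + 1)) κ) (hA : A.IsHomogeneous j) (h : P ∣ dh A) :
    hz P.totalDegree P ∣ A := by
  obtain ⟨B, hB⟩ := h
  by_cases h0 : dh A = 0
  · have h1 := hz_dh j A hA
    rw [h0] at h1
    have h2 : hz j (0 : MvPolynomial (Fin c) κ) = 0 := by
      rw [hz, support_zero, Finset.sum_empty]
    rw [← h1, h2]
    exact dvd_zero _
  · have hP0 : P ≠ 0 := fun h => h0 (by rw [hB, h, zero_mul])
    have hB0 : B ≠ 0 := fun h => h0 (by rw [hB, h, mul_zero])
    have h1 : P.totalDegree + B.totalDegree ≤ j := by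
      rw [← totalDegree_mul_of_isDomain hP0 hB0, ← hB]
      exact dh_deg j A hA
    refine ⟨hz (j - P.totalDegree) B, ?_⟩
    rw [← hz_mul _ _ _ _ le_rfl (by omega), ← hB]
    have h2 : P.totalDegree + (j - P.totalDegree) = j := by omega
    rw [h2, hz_dh j A hA]

/-- The homogenisation is not zero. -/
theorem hz_ne_zero {κ : Type} [Field κ] {c : ℕ} (P : MvPolynomial (Fin c) κ) (hP : P ≠ 0) :
    hz P.totalDegree P ≠ 0 := by
  intro h
  have h1 := aeval_hz (1 : MvPolynomial (Fin c) κ) X P.totalDegree P le_rfl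
  rw [h, map_zero, one_pow, one_mul, aeval_X_left_apply] at h1
  exact hP h1.symm

/-- The kernel at the generic point of the cone. -/
theorem ker {κ E E' : Type} [Field κ] [Field E] [Algebra κ E] [Field E'] [Algebra κ E'] [Algebra E E']
    [IsScalarTower κ E E'] {c : ℕ} (P : MvPolynomial (Fin c) κ) (ξ : Fin c → E) (T : E')
    (hker : ∀ A, aeval ξ A = 0 ↔ P ∣ A) (hT : Transcendental E T) (A : MvPolynomial (Fin (c + 1)) κ) :
    aeval (cp T fun i => algebraMap E E' (ξ i)) A = 0 ↔ hz P.totalDegree P ∣ A := by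
  have hval : ∀ B : MvPolynomial (Fin c) κ, aeval (fun i => algebraMap E E' (ξ i)) B =
      algebraMap E E' (aeval ξ B) := fun B => MvPolynomial.aeval_algebraMap_apply E' ξ B
  constructor
  · intro h
    have h1 : aeval (cp T fun i => algebraMap E E' (ξ i)) A =
        ∑ j ∈ Finset.range (A.totalDegree + 1),
          T ^ j * algebraMap E E' (aeval ξ (dh (homogeneousComponent j A))) := by
      conv_lhs => rw [← sum_homogeneousComponent A]
      rw [map_sum]
      refine Finset.sum_congr rfl fun j _ => ?_
      rw [aeval_homog T _ j _ (homogeneousComponent_isHomogeneous j A), hval]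
    have h2 : Polynomial.aeval T (∑ j ∈ Finset.range (A.totalDegree + 1),
        Polynomial.monomial j (aeval ξ (dh (homogeneousComponent j A)))) = 0 := by
      rw [map_sum, ← h, h1]
      refine Finset.sum_congr rfl fun j _ => ?_
      rw [Polynomial.aeval_monomial, mul_comm]
    have h3 : (∑ j ∈ Finset.range (A.totalDegree + 1),
        Polynomial.monomial j (aeval ξ (dh (homogeneousComponent j A)))) = 0 := by
      by_contra h4
      exact hT ⟨_, h4, h2⟩
    rw [← sum_homogeneousComponent A]
    refine Finset.dvd_sum fun j hj => ?_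
    refine hz_dvd j P _ (homogeneousComponent_isHomogeneous j A) ((hker _).1 ?_)
    have h4 := congrArg (fun q : Polynomial E => q.coeff j) h3
    rw [Polynomial.coeff_zero, Polynomial.finsetSum_coeff, Finset.sum_eq_single j] at h4
    · rwa [Polynomial.coeff_monomial, if_pos rfl] at h4
    · intro i _ hij
      rw [Polynomial.coeff_monomial, if_neg hij]
    · intro hj'
      exact absurd hj hj'
  · rintro ⟨B, rfl⟩
    rw [map_mul, aeval_hz T _ _ _ le_rfl, hval, (hker P).2 dvd_rfl, map_zero, mul_zero, zero_mul]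

end ConeM

open ConeM in
theorem tCone : StmtCone := by
  intro κ E E' _ _ _ _ _ _ _ c P ξ T hP hξ hT htop
  have hker := ker (E' := E') P ξ T hξ.ker hT
  have hnu : ¬ IsUnit (hz P.totalDegree P) := by
    intro hu
    have h := (hker 1).2 hu.dvd
    rw [map_one] at h
    exact one_ne_zero h
  have hprime : Prime (hz P.totalDegree P) := by
    refine ⟨hz_ne_zero P hP.ne_zero, hnu, fun A B hAB => ?_⟩
    have h := (hker (A * B)).2 hAB
    rw [map_mul] at h
    rcases mul_eq_zero.1 h with h | h
    · exact Or.inl ((hker A).1 h)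
    · exact Or.inr ((hker B).1 h)
  refine ⟨hprime.irreducible, hker, ?_⟩
  have hT0 : T ≠ 0 := by
    rintro rfl
    exact hT isAlgebraic_zero
  set F := IntermediateField.adjoin κ
    (Set.range (Fin.cons (α := fun _ => E') T fun i => T * algebraMap E E' (ξ i))) with hF
  have hTF : T ∈ F := IntermediateField.subset_adjoin _ _ ⟨0, rfl⟩
  have hxF : ∀ i, algebraMap E E' (ξ i) ∈ F := by
    intro i
    have h1 : T * algebraMap E E' (ξ i) ∈ F := IntermediateField.subset_adjoin _ _ ⟨i.succ, rfl⟩
    have h2 := F.mul_mem (F.inv_mem hTF) h1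
    rwa [inv_mul_cancel_left₀ hT0] at h2
  have hEF : ∀ a : E, algebraMap E E' a ∈ F := by
    intro a
    have h1 : (⊤ : IntermediateField κ E) ≤ F.comap (IsScalarTower.toAlgHom κ E E') := by
      rw [← hξ.top, IntermediateField.adjoin_le_iff]
      rintro _ ⟨i, rfl⟩
      exact hxF i
    exact h1 (IntermediateField.mem_top (x := a))
  have h2 : (⊤ : IntermediateField E E') ≤ F.toSubfield.toIntermediateField hEF := by
    rw [← htop, IntermediateField.adjoin_le_iff]
    rintro _ rfl
    exact hTF
  rw [eq_top_iff]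
  intro a _
  exact h2 (IntermediateField.mem_top (x := a))

end Pool.Agent.Lib.MP_16285c_agX
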