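import Pool.Agent.Lib.MP_16285c_agX.Hrn.SpecC
import Pool.Agent.ZDO.Cone

/-!
# The cone over a dominant rational self-map of a hypersurface

Proof of `StmtConeF` (C12) from `StmtCone` (C11).
-/

set_option autoImplicit false

namespace Pool.Agent.Lib.MP_16285c_agX

open MP7Z MvPolynomial
open scoped IntermediateField
open Pool.Agent.Lib.MP_16285c_ag (RM FrobPt)
open Pool.Agent.ZDO (Jc hz dd nn cn)

namespace ConeFM

/-- The generic point of an irreducible hypersurface exists. -/
theorem exists_gen (κ : Type) [Field κ] (c : ℕ) (P : MvPolynomial (Fin c) κ) (hP : Irreducible P) :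
    ∃ (E : Type) (_ : Field E) (_ : Algebra κ E) (ξ : Fin c → E), GenN P ξ := by
  have hprime : (Ideal.span {P}).IsPrime := (Ideal.span_singleton_prime hP.ne_zero).2 hP.prime
  let Q : Type := MvPolynomial (Fin c) κ ⧸ Ideal.span {P}
  have : IsDomain Q := Ideal.Quotient.isDomain _
  let E : Type := FractionRing Q
  let ξ : Fin c → E := fun i => algebraMap Q E (Ideal.Quotient.mk _ (X i))
  have hev : ∀ A : MvPolynomial (Fin c) κ, aeval ξ A = algebraMap Q E (Ideal.Quotient.mk _ A) := by
    intro A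
    have h1 : (aeval ξ : MvPolynomial (Fin c) κ →ₐ[κ] E) =
        (Algebra.ofId Q E |>.restrictScalars κ).comp (Ideal.Quotient.mkₐ κ (Ideal.span {P})) := by
      refine MvPolynomial.algHom_ext fun i => ?_
      rw [aeval_X]
      rfl
    rw [h1]
    rfl
  refine ⟨E, inferInstance, inferInstance, ξ, ?_, ?_⟩
  · intro A
    rw [hev]
    rw [map_eq_zero_iff _ (IsFractionRing.injective Q E), Ideal.Quotient.eq_zero_iff_mem,
      Ideal.mem_span_singleton]
  · rw [eq_top_iff]
    intro z _
    have hmem : ∀ q : Q, algebraMap Q E q ∈ IntermediateField.adjoin κ (Set.range ξ) := by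
      intro q
      obtain ⟨A, rfl⟩ := Ideal.Quotient.mk_surjective q
      rw [← hev]
      refine IntermediateField.algebra_adjoin_le_adjoin κ _ ?_
      rw [← MvPolynomial.aeval_range]
      exact ⟨A, rfl⟩
    obtain ⟨x, y, -, rfl⟩ := IsFractionRing.div_surjective (A := Q) z
    exact div_mem (hmem x) (hmem y)

/-- `hz_eval` for `aeval`. -/
theorem hz_aeval {κ L : Type} [Field κ] [Field L] [Algebra κ L] {c : ℕ} (e : ℕ)
    (G : MvPolynomial (Fin c) κ) (hG : G.totalDegree ≤ e) (T : L) (η : Fin c → L) (hT : T ≠ 0) :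
    aeval (Fin.cons (α := fun _ => L) T fun i => T * η i) (hz e G) = T ^ e * aeval η G := by
  rw [aeval_def, ← eval_map, Pool.Agent.ZDO.hz_map, Pool.Agent.ZDO.hz_eval e _
    ((Pool.Agent.ZDO.totalDegree_map_le _ _).trans hG) _ (by rw [Fin.cons_zero]; exact hT),
    Fin.cons_zero, aeval_def, ← eval_map]
  have h1 : (fun i : Fin c => (Fin.cons (α := fun _ => L) T fun i => T * η i : Fin (c + 1) → L) i.succ / T) = η := by
    funext i
    rw [Fin.cons_succ, mul_div_cancel_left₀ _ hT]
  rw [h1]

/-- The universal expansion of `A (T, T x)` in powers of `T`. -/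
noncomputable def unv {κ : Type} [Field κ] {c : ℕ} (A : MvPolynomial (Fin (c + 1)) κ) :
    Polynomial (MvPolynomial (Fin c) κ) :=
  eval₂ (Polynomial.C.comp MvPolynomial.C)
    (Fin.cons (α := fun _ => Polynomial (MvPolynomial (Fin c) κ)) Polynomial.X
      fun i => Polynomial.X * Polynomial.C (X i)) A

theorem unv_aeval {κ E E' : Type} [Field κ] [Field E] [Algebra κ E] [Field E'] [Algebra κ E']
    [Algebra E E'] [IsScalarTower κ E E'] {c : ℕ} (U : E') (η : Fin c → E)
    (A : MvPolynomial (Fin (c + 1)) κ) :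
    aeval (Fin.cons (α := fun _ => E') U fun i => U * algebraMap E E' (η i)) A =
      Polynomial.aeval U ((unv A).map (aeval η : MvPolynomial (Fin c) κ →ₐ[κ] E).toRingHom) := by
  have h1 : ((aeval (Fin.cons (α := fun _ => E') U fun i => U * algebraMap E E' (η i)) :
      MvPolynomial (Fin (c + 1)) κ →ₐ[κ] E') : MvPolynomial (Fin (c + 1)) κ →+* E') =
      ((Polynomial.aeval (R := E) U : Polynomial E →ₐ[E] E') : Polynomial E →+* E').comp
        ((Polynomial.mapRingHom (aeval η : MvPolynomial (Fin c) κ →ₐ[κ] E).toRingHom).comp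
          (eval₂Hom (Polynomial.C.comp MvPolynomial.C)
            (Fin.cons (α := fun _ => Polynomial (MvPolynomial (Fin c) κ)) Polynomial.X
              fun i => Polynomial.X * Polynomial.C (X i)))) := by
    refine MvPolynomial.ringHom_ext (fun r => ?_) fun i => ?_
    · simp only [RingHom.coe_comp, RingHom.coe_coe, Function.comp_apply, coe_eval₂Hom, eval₂_C,
        Polynomial.coe_mapRingHom, Polynomial.map_C, Polynomial.aeval_C, algHom_C,
        AlgHom.toRingHom_eq_coe]
      exact IsScalarTower.algebraMap_apply κ E E' r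
    · refine Fin.cases ?_ (fun i => ?_) i
      · simp only [RingHom.coe_comp, RingHom.coe_coe, Function.comp_apply, coe_eval₂Hom, eval₂_X,
          Polynomial.coe_mapRingHom, Polynomial.map_X, Polynomial.aeval_X, aeval_X, Fin.cons_zero]
      · simp only [RingHom.coe_comp, RingHom.coe_coe, Function.comp_apply, coe_eval₂Hom, eval₂_X,
          Polynomial.coe_mapRingHom, Polynomial.map_X, Polynomial.aeval_X, aeval_X, Fin.cons_succ,
          Polynomial.map_mul, Polynomial.map_C, map_mul, Polynomial.aeval_C,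
          AlgHom.toRingHom_eq_coe]
  exact DFunLike.congr_fun h1 A

/-- The values vanish iff all coefficients of the expansion vanish. -/
theorem unv_zero {κ E E' : Type} [Field κ] [Field E] [Algebra κ E] [Field E'] [Algebra κ E']
    [Algebra E E'] [IsScalarTower κ E E'] {c : ℕ} (U : E') (hU : Transcendental E U) (η : Fin c → E)
    (A : MvPolynomial (Fin (c + 1)) κ) :
    aeval (Fin.cons (α := fun _ => E') U fun i => U * algebraMap E E' (η i)) A = 0 ↔
      ∀ j : ℕ, aeval η ((unv A).coeff j) = 0 := by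
  rw [unv_aeval]
  have h1 : Polynomial.aeval U ((unv A).map (aeval η : MvPolynomial (Fin c) κ →ₐ[κ] E).toRingHom) = 0 ↔
      (unv A).map (aeval η : MvPolynomial (Fin c) κ →ₐ[κ] E).toRingHom = 0 := by
    constructor
    · intro h
      exact (transcendental_iff.1 hU) _ h
    · intro h
      rw [h, map_zero]
  rw [h1, Polynomial.ext_iff]
  refine forall_congr' fun j => ?_
  rw [Polynomial.coeff_map, Polynomial.coeff_zero]
  rfl

end ConeFM

open ConeFM in
theorem tConeF : StmtCone → StmtConeF := by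
  intro hCone κ _ c e P f hP hden hK hD he h0 h1
  obtain ⟨E, _, _, ξ, hξ⟩ := exists_gen κ c P hP
  have hT : Transcendental E (RatFunc.X : RatFunc E) := RatFunc.transcendental_X
  obtain ⟨hirr, hgen⟩ := hCone κ E (RatFunc E) c P ξ RatFunc.X hP hξ hT RatFunc.adjoin_X
  have hT0 : (RatFunc.X : RatFunc E) ≠ 0 := fun h => hT (by rw [h]; exact isAlgebraic_zero)
  have hinj : Function.Injective (algebraMap E (RatFunc E)) := (algebraMap E (RatFunc E)).injective
  have hdeni : ∀ i, aeval ξ (f.den i) ≠ 0 := fun i h => hden i ((hξ.ker _).1 h)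
  have hdd : aeval ξ (dd f) ≠ 0 := by
    rw [dd, map_prod]
    exact Finset.prod_ne_zero_iff.2 fun i _ => hdeni i
  have hnn : ∀ i, aeval ξ (nn f i) = aeval ξ (dd f) * fvn f ξ i := by
    intro i
    rw [Pool.Agent.ZDO.dd_eq f i, nn, map_mul, map_mul, fvn]
    field_simp [hdeni i]
  have halg : ∀ (η : Fin c → E) (A : MvPolynomial (Fin c) κ),
      aeval (fun i => algebraMap E (RatFunc E) (η i)) A = algebraMap E (RatFunc E) (aeval η A) := by
    intro η A
    exact MvPolynomial.aeval_algebraMap_apply (RatFunc E) η A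
  have hhz : ∀ (m : ℕ) (G : MvPolynomial (Fin c) κ), G.totalDegree ≤ m → ∀ (V : RatFunc E), V ≠ 0 →
      ∀ η : Fin c → E, aeval (Fin.cons (α := fun _ => RatFunc E) V fun i => V * algebraMap E (RatFunc E) (η i)) (hz m G) =
        V ^ m * algebraMap E (RatFunc E) (aeval η G) := by
    intro m G hG V hV η
    rw [hz_aeval m G hG V (fun i => algebraMap E (RatFunc E) (η i)) hV, halg]
  -- the element `U`
  obtain ⟨U, hUdef⟩ : ∃ U : RatFunc E, U = RatFunc.X ^ e * algebraMap E (RatFunc E) (aeval ξ (dd f)) := ⟨_, rfl⟩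
  have hdd' : algebraMap E (RatFunc E) (aeval ξ (dd f)) ≠ 0 := fun h => hdd (hinj (h.trans (map_zero _).symm))
  have hU : Transcendental E U := by
    intro hUa
    have h2 : IsAlgebraic E ((RatFunc.X : RatFunc E) ^ e) := by
      have h3 : (RatFunc.X : RatFunc E) ^ e = U * algebraMap E (RatFunc E) (aeval ξ (dd f))⁻¹ := by
        rw [hUdef, map_inv₀, mul_assoc, mul_inv_cancel₀ hdd', mul_one]
      rw [h3]
      exact hUa.mul (isAlgebraic_algebraMap _)
    exact (hT.pow (by omega)) h2
  have hU0 : U ≠ 0 := fun h => hU (by rw [h]; exact isAlgebraic_zero)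
  -- the point `y`
  have hy : (fun i => aeval (Fin.cons (α := fun _ => RatFunc E) (RatFunc.X : RatFunc E)
      fun i => RatFunc.X * algebraMap E (RatFunc E) (ξ i)) (cn e f i)) =
      (Fin.cons (α := fun _ => RatFunc E) U fun i => U * algebraMap E (RatFunc E) (fvn f ξ i)) := by
    funext i
    refine Fin.cases ?_ (fun i => ?_) i
    · rw [cn, Fin.cons_zero, Fin.cons_zero, hhz e _ h0 _ hT0, hUdef]
    · rw [cn, Fin.cons_succ, Fin.cons_succ, hhz e _ (h1 i) _ hT0, hUdef, hnn, map_mul, mul_assoc]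
  have hbind : ∀ A : MvPolynomial (Fin (c + 1)) κ,
      aeval (Fin.cons (α := fun _ => RatFunc E) (RatFunc.X : RatFunc E)
        fun i => RatFunc.X * algebraMap E (RatFunc E) (ξ i)) (bind₁ (cn e f) A) =
      aeval (Fin.cons (α := fun _ => RatFunc E) U fun i => U * algebraMap E (RatFunc E) (fvn f ξ i)) A := by
    intro A
    rw [aeval_bind₁, hy]
  have hfP : aeval (fvn f ξ) P = 0 := hK E ξ ((hξ.ker P).2 dvd_rfl) hdeni
  refine ⟨hirr, ?_, ?_, ?_⟩
  · rw [← hgen.ker, hbind, hhz _ P le_rfl U hU0, hfP, map_zero, mul_zero]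
  · intro A hA
    rw [← hgen.ker, hbind, unv_zero U hU] at hA
    rw [← hgen.ker, unv_zero _ hT]
    intro j
    rw [hξ.ker]
    exact hD E ξ hξ _ (hA j)
  · intro B hB hdvd
    rw [← hgen.ker, map_mul, aeval_X, Fin.cons_zero, hhz _ B le_rfl _ hT0] at hdvd
    have hB0 : algebraMap E (RatFunc E) (aeval ξ B) ≠ 0 := fun h =>
      hB ((hξ.ker B).1 (hinj (h.trans (map_zero _).symm)))
    exact mul_ne_zero hT0 (mul_ne_zero (pow_ne_zero _ hT0) hB0) hdvd

end Pool.Agent.Lib.MP_16285c_agX
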