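import Pool.Agent.Lib.MP_16285c_agX.Hrn.SpecC

/-!
# Good coordinates for the last `n + 1` variables (`StmtCoo`)
-/

set_option autoImplicit false

namespace Pool.Agent.Lib.MP_16285c_agX

open MP7Z MvPolynomial
open scoped IntermediateField
open Pool.Agent.Lib.MP_16285c_ag (RM FrobPt)
open Pool.Agent.ZDO (Jc hz dd nn cn)

namespace CooM

/-- The block matrix `1 ⊕ A`. -/
def blk {κ : Type} [Field κ] {c : ℕ} (A : Matrix (Fin c) (Fin c) κ) : Matrix (Fin (c + 1)) (Fin (c + 1)) κ :=
  fun i j => Fin.cases (Fin.cases 1 (fun _ => 0) j) (fun i' => Fin.cases 0 (fun j' => A i' j') j) i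

variable {κ : Type} [Field κ]

theorem blk_zz {c : ℕ} (A : Matrix (Fin c) (Fin c) κ) : blk A 0 0 = 1 := rfl
theorem blk_zs {c : ℕ} (A : Matrix (Fin c) (Fin c) κ) (j : Fin c) : blk A 0 j.succ = 0 := rfl
theorem blk_sz {c : ℕ} (A : Matrix (Fin c) (Fin c) κ) (i : Fin c) : blk A i.succ 0 = 0 := rfl
theorem blk_ss {c : ℕ} (A : Matrix (Fin c) (Fin c) κ) (i j : Fin c) : blk A i.succ j.succ = A i j := rfl

theorem blk_mul {c : ℕ} (A B : Matrix (Fin c) (Fin c) κ) (h : A * B = 1) : blk A * blk B = 1 := by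
  ext i j
  rw [Matrix.mul_apply, Fin.sum_univ_succ]
  refine Fin.cases ?_ (fun i' => ?_) i
  · refine Fin.cases ?_ (fun j' => ?_) j
    · simp [blk_zz, blk_zs, blk_sz]
    · simp [blk_zz, blk_zs, blk_ss, (Fin.succ_ne_zero j').symm]
  · refine Fin.cases ?_ (fun j' => ?_) j
    · simp [blk_zz, blk_ss, blk_sz]
    · have h1 : (A * B) i' j' = (1 : Matrix (Fin c) (Fin c) κ) i' j' := by rw [h]
      rw [Matrix.mul_apply] at h1
      simp only [blk_sz, blk_zs, blk_ss, mul_zero, zero_add]
      rw [h1, Matrix.one_apply, Matrix.one_apply]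
      simp [Fin.succ_inj]

theorem lch_X {c : ℕ} (D : Matrix (Fin c) (Fin c) κ) (i : Fin c) : lch D (X i) = ∑ j, C (D i j) * X j := by
  simp [lch]

theorem lch_X0 {c : ℕ} (D : Matrix (Fin c) (Fin c) κ) : lch (blk D) (X 0) = X 0 := by
  rw [lch_X, Fin.sum_univ_succ]
  simp [blk_zz, blk_zs]

theorem lch_Xs {c : ℕ} (D : Matrix (Fin c) (Fin c) κ) (i : Fin c) :
    lch (blk D) (X i.succ) = ∑ j : Fin c, C (D i j) * X j.succ := by
  rw [lch_X, Fin.sum_univ_succ]
  simp [blk_sz, blk_ss]

theorem fin_lch {c : ℕ} (D : Matrix (Fin c) (Fin c) κ) (A : MvPolynomial (Fin (c + 1)) κ) :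
    finSuccEquiv κ c (lch (blk D) A) = (finSuccEquiv κ c A).map (lch D : MvPolynomial (Fin c) κ →+* MvPolynomial (Fin c) κ) := by
  have h : (finSuccEquiv κ c).toAlgHom.comp (lch (blk D)) =
      (Polynomial.mapAlgHom (lch D)).comp (finSuccEquiv κ c).toAlgHom := by
    refine MvPolynomial.algHom_ext fun i => ?_
    refine Fin.cases ?_ (fun i' => ?_) i
    · simp [lch_X0, finSuccEquiv_X_zero]
    · change finSuccEquiv κ c (lch (blk D) (X i'.succ)) = Polynomial.map (lch D : MvPolynomial (Fin c) κ →+* MvPolynomial (Fin c) κ)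
        (finSuccEquiv κ c (X i'.succ))
      rw [lch_Xs, finSuccEquiv_X_succ, Polynomial.map_C, map_sum]
      have h1 : (lch D : MvPolynomial (Fin c) κ →+* MvPolynomial (Fin c) κ) (X i') = ∑ j, C (D i' j) * X j := lch_X D i'
      rw [h1, map_sum]
      refine Finset.sum_congr rfl fun j _ => ?_
      rw [map_mul, finSuccEquiv_X_succ, map_mul, ← algebraMap_eq, AlgEquiv.commutes]
      rfl
  have h2 := DFunLike.congr_fun h A
  simpa using h2

theorem pd_lch {c : ℕ} (D : Matrix (Fin c) (Fin c) κ) (A : MvPolynomial (Fin (c + 1)) κ) :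
    pderiv 0 (lch (blk D) A) = lch (blk D) (pderiv 0 A) := by
  induction A using MvPolynomial.induction_on with
  | C a => simp [lch]
  | add p q hp hq => simp only [map_add, hp, hq]
  | mul_X p i hp =>
    have hX : pderiv 0 (lch (blk D) (X i)) = lch (blk D) (pderiv 0 (X i)) := by
      refine Fin.cases ?_ (fun i' => ?_) i
      · simp [lch_X0]
      · rw [lch_Xs, pderiv_X_of_ne (Fin.succ_ne_zero i'), map_sum, map_zero]
        refine Finset.sum_eq_zero fun j _ => ?_
        rw [Derivation.leibniz, pderiv_X_of_ne (Fin.succ_ne_zero j), pderiv_C]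
        simp
    rw [map_mul, Derivation.leibniz, hp, hX, Derivation.leibniz, map_add, smul_eq_mul, smul_eq_mul, smul_eq_mul, smul_eq_mul,
      map_mul, map_mul]

theorem aeval_lin {E : Type} [Field E] [Algebra κ E] {c : ℕ} (M : Matrix (Fin c) (Fin c) κ) (v : Fin c → E)
    (A : MvPolynomial (Fin c) κ) : aeval (fun i => lin M v i) A = aeval v (lch M A) := by
  have h : aeval (fun i => lin M v i) = (aeval v).comp (lch M) := by
    refine MvPolynomial.algHom_ext fun i => ?_
    rw [AlgHom.comp_apply, lch_X, aeval_X, map_sum]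
    simp [lin]
  rw [h]; rfl

theorem ai_lin (hL : StmtLch) {E : Type} [Field E] [Algebra κ E] {c : ℕ} (M D : Matrix (Fin c) (Fin c) κ) (h1 : M * D = 1)
    (h2 : D * M = 1) (v : Fin c → E) (hv : AlgebraicIndependent κ v) : AlgebraicIndependent κ (fun i => lin M v i) := by
  rw [algebraicIndependent_iff] at hv ⊢
  intro p hp
  rw [aeval_lin] at hp
  have h3 := hv _ hp
  have h4 := ((hL κ c M D h1 h2).1 p).2
  rw [h3, map_zero] at h4
  exact h4.symm

theorem lin_blk_s {E : Type} [Field E] [Algebra κ E] {c : ℕ} (M : Matrix (Fin c) (Fin c) κ) (v : Fin (c + 1) → E) (i : Fin c) :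
    lin (blk M) v i.succ = lin M (fun j => v j.succ) i := by
  unfold lin
  rw [Fin.sum_univ_succ]
  simp [blk_sz, blk_ss]

end CooM

open CooM in
theorem tCoo : StmtFun → StmtBrtN → StmtLast → StmtFibN → StmtLch → StmtCoo := by
  intro hFun hBrt hLast hFib hL κ _ _ n P f hirr hmon hsep hPf hinj
  obtain ⟨E, _, _, ξ, hξ⟩ := hFun.1 κ (n + 2) P hirr
  obtain ⟨hu, hfin, hsE⟩ := hFun.2 κ E (n + 1) P ξ hirr hmon hξ
  have hsE' := hsE hsep
  obtain ⟨C₁, D₁, hCD, hDC, hcl⟩ := hBrt κ E n (fun i : Fin (n + 1) => ξ i.succ) hu hfin hsE'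
  -- the values of `f`
  have hy : ∀ A : MvPolynomial (Fin (n + 2)) κ, aeval (fun j => aeval ξ (f j)) A = 0 ↔ P ∣ A := by
    intro A
    rw [← aeval_bind₁, hξ.ker]
    constructor
    · exact hinj A
    · rintro ⟨B, rfl⟩
      rw [map_mul]
      exact Dvd.dvd.mul_right hPf _
  have hys : AlgebraicIndependent κ (fun j : Fin (n + 1) => aeval ξ (f j.succ)) := by
    rw [algebraicIndependent_iff]
    intro p hp
    have h1 : aeval (fun j => aeval ξ (f j)) (rename Fin.succ p) = 0 := by
      rw [aeval_rename]; exact hp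
    rw [hy, ← hξ.ker, aeval_rename] at h1
    exact (algebraicIndependent_iff.1 hu) p h1
  have hw : AlgebraicIndependent κ (fun i : Fin n => lin C₁ (fun j : Fin (n + 1) => aeval ξ (f j.succ)) i.castSucc) :=
    (ai_lin hL C₁ D₁ hCD hDC _ hys).comp _ (Fin.castSucc_injective n)
  haveI := hfin
  obtain ⟨C', D', hCD', hDC', hrow, hai⟩ := hLast κ E n (fun i : Fin (n + 1) => ξ i.succ) _ hu inferInstance hw C₁ D₁ hCD hDC
  have hMD := blk_mul C' D' hCD'
  have hDM := blk_mul D' C' hDC'
  obtain ⟨L1, L2, L3, -, -⟩ := hL κ (n + 2) (blk C') (blk D') hMD hDM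
  have hgen := L2 E P ξ hξ
  have hirr' : Irreducible (lch (blk D') P) := by
    let e : MvPolynomial (Fin (n + 2)) κ ≃ₐ[κ] MvPolynomial (Fin (n + 2)) κ :=
      AlgEquiv.ofAlgHom (lch (blk D')) (lch (blk C'))
        (AlgHom.ext fun A => (L1 A).2) (AlgHom.ext fun A => (L1 A).1)
    have h1 : Irreducible (e P) := (MulEquiv.irreducible_iff e).2 hirr
    exact h1
  have hmon' : Mon (lch (blk D') P) := by
    unfold Mon
    rw [fin_lch]
    exact hmon.map _
  have hsep' : ¬ lch (blk D') P ∣ pderiv 0 (lch (blk D') P) := by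
    rw [pd_lch]
    intro hd
    apply hsep
    have h1 := map_dvd (lch (blk C')) hd
    rwa [(L1 _).1, (L1 _).1] at h1
  have hrow' : ∀ (v : Fin (n + 1) → E) (i : Fin n), lin C' v i.castSucc = lin C₁ v i.castSucc := by
    intro v i
    unfold lin
    rw [hrow i]
  have hmid : (fun i : Fin n => lin (blk C') ξ (mid i)) = fun i : Fin n => lin C₁ (fun j : Fin (n + 1) => ξ j.succ) i.castSucc := by
    funext i
    unfold mid
    rw [lin_blk_s, hrow']
  have hcl' : ∀ α : E, IsAlgebraic (IntermediateField.adjoin κ (Set.range fun i : Fin n => lin (blk C') ξ (mid i))) α →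
      α ∈ IntermediateField.adjoin κ (Set.range fun i : Fin n => lin (blk C') ξ (mid i)) := by
    rw [hmid]
    exact hcl
  obtain ⟨h, h0, hh⟩ := hFib κ E n (lch (blk D') P) (lin (blk C') ξ) hirr' hmon' hsep' hgen hcl'
  refine ⟨blk C', blk D', h, hMD, hDM, hmon', hsep', h0, hh, ?_⟩
  intro A hA
  rw [← hgen.ker, ← bind₁, aeval_bind₁] at hA
  have hev : ∀ B : MvPolynomial (Fin (n + 2)) κ, aeval (lin (blk C') ξ) (lch (blk D') B) = aeval ξ B := by
    intro B
    have h1 := aeval_lin (blk C') ξ (lch (blk D') B)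
    rw [(L1 B).1] at h1
    exact h1
  have hfam : (fun i => aeval (lin (blk C') ξ) (mix (lfm (blk C') (blk D') f) i)) =
      Fin.snoc (α := fun _ => E) (fun i : Fin n => lin C₁ (fun j : Fin (n + 1) => aeval ξ (f j.succ)) i.castSucc)
        (lin C' (fun i : Fin (n + 1) => ξ i.succ) (Fin.last n)) := by
    funext i
    refine Fin.lastCases ?_ (fun i' => ?_) i
    · unfold mix
      rw [Fin.snoc_last, Fin.snoc_last, aeval_X]
      exact lin_blk_s C' ξ (Fin.last n)
    · unfold mix
      rw [Fin.snoc_castSucc, Fin.snoc_castSucc]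
      rw [← hrow', ← lin_blk_s C' (fun j => aeval ξ (f j))]
      have h1 : ∀ j : Fin (n + 2), aeval (lin (blk C') ξ) (C (blk C' (mid i') j) * lch (blk D') (f j)) =
          algebraMap κ E (blk C' (mid i') j) * aeval ξ (f j) := by
        intro j
        rw [map_mul, hev, aeval_C]
      have h2 : aeval (lin (blk C') ξ) (lfm (blk C') (blk D') f (mid i')) =
          ∑ j, aeval (lin (blk C') ξ) (C (blk C' (mid i') j) * lch (blk D') (f j)) := by
        unfold lfm
        exact map_sum _ _ _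
      rw [h2]
      exact Finset.sum_congr rfl fun j _ => h1 j
  rw [hfam] at hA
  exact (algebraicIndependent_iff.1 hai) A hA

end Pool.Agent.Lib.MP_16285c_agX
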