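import Pool.Agent.Lib.MP_16285c_agX.Hrn.SpecC

/-! # The Jacobian criterion for dominance -/

set_option autoImplicit false

namespace Pool.Agent.Lib.MP_16285c_agX

open MP7Z MvPolynomial
open scoped IntermediateField
open Pool.Agent.Lib.MP_16285c_ag (RM FrobPt)
open Pool.Agent.ZDO (Jc Wd hz dd nn cn)

namespace DomJM

/-- The chain rule. -/
theorem der_aeval {κ F E σ : Type} [Fintype σ] [Field κ] [Field F] [Field E] [Algebra κ E] [Algebra F E]
    (D : Derivation F E E) (hK : ∀ c : κ, D (algebraMap κ E c) = 0) (ξ : σ → E)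
    (A : MvPolynomial σ κ) : D (aeval ξ A) = ∑ j, aeval ξ (pderiv j A) * D (ξ j) := by
  classical
  induction A using MvPolynomial.induction_on with
  | C a =>
    rw [aeval_C, hK]
    simp
  | add p q hp hq =>
    rw [map_add, map_add, hp, hq, ← Finset.sum_add_distrib]
    refine Finset.sum_congr rfl fun j _ => ?_
    rw [map_add, map_add, add_mul]
  | mul_X p i hp =>
    rw [map_mul, aeval_X, Derivation.leibniz, hp]
    have h1 : ∀ j, aeval ξ (pderiv j (p * X i)) * D (ξ j) =
        ξ i * (aeval ξ (pderiv j p) * D (ξ j)) + (if j = i then aeval ξ p * D (ξ i) else 0) := by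
      intro j
      rw [Derivation.leibniz, pderiv_X, smul_eq_mul, smul_eq_mul, map_add, map_mul, map_mul, aeval_X]
      by_cases hji : j = i
      · subst hji
        rw [if_pos rfl, Pi.single_eq_same, map_one]
        ring
      · rw [if_neg hji, Pi.single_eq_of_ne (Ne.symm hji), map_zero]
        ring
    simp_rw [h1, Finset.sum_add_distrib]
    rw [Finset.sum_ite_eq' Finset.univ i, if_pos (Finset.mem_univ i), ← Finset.mul_sum, smul_eq_mul, smul_eq_mul]
    ring

/-- A derivation which vanishes on generators of the field is zero. -/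
theorem der_zero {κ F E σ : Type} [Field κ] [Field F] [Field E] [Algebra κ E] [Algebra F E]
    (D : Derivation F E E) (hK : ∀ c : κ, D (algebraMap κ E c) = 0) (ξ : σ → E)
    (htop : IntermediateField.adjoin κ (Set.range ξ) = ⊤) (h : ∀ j, D (ξ j) = 0) (x : E) : D x = 0 := by
  have hx : x ∈ IntermediateField.adjoin κ (Set.range ξ) := by
    rw [htop]
    trivial
  induction hx using IntermediateField.adjoin_induction with
  | mem x hx =>
    obtain ⟨j, rfl⟩ := hx
    exact h j
  | algebraMap c => exact hK c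
  | add x y _ _ hx hy => rw [map_add, hx, hy, add_zero]
  | inv x _ hx => rw [Derivation.leibniz_inv, hx, smul_zero]
  | mul x y _ _ hx hy => rw [Derivation.leibniz, hx, hy, smul_zero, smul_zero, add_zero]

/-- If `E` is not separable over `F` there is a nonzero derivation. -/
theorem exists_der (F E : Type) [Field F] [Field E] [Algebra F E] [Algebra.EssFiniteType F E]
    (h : ¬ Algebra.IsSeparable F E) : ∃ (D : Derivation F E E) (x : E), D x ≠ 0 := by
  have h1 : ¬ Algebra.FormallyUnramified F E := fun h2 =>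
    h ((Algebra.FormallyUnramified.iff_isSeparable F E).mp h2)
  have h2 : ∃ x : E, KaehlerDifferential.D F E x ≠ 0 := by
    by_contra hc
    push Not at hc
    apply h1
    rw [Algebra.formallyUnramified_iff]
    have h3 : (⊤ : Submodule E (Ω[E⁄F])) = ⊥ := by
      rw [← KaehlerDifferential.span_range_derivation, Submodule.span_eq_bot]
      rintro _ ⟨x, rfl⟩
      exact hc x
    exact (Submodule.subsingleton_iff E).mp (subsingleton_of_bot_eq_top h3.symm)
  obtain ⟨x, hx⟩ := h2
  obtain ⟨φ, hφ⟩ := Module.Projective.exists_dual_ne_zero E hx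
  exact ⟨φ.compDer (KaehlerDifferential.D F E), x, hφ⟩

/-- If `E` is algebraic over `κ(y 1, …, y m)` and has a transcendence basis with `m` elements, the `y i` are algebraically
independent. -/
theorem indep_of_alg {κ E : Type} [Field κ] [Field E] [Algebra κ E] {m : ℕ} (u y : Fin m → E)
    (hu : IsTranscendenceBasis κ u) (h : Algebra.IsAlgebraic (Algebra.adjoin κ (Set.range y)) E) :
    AlgebraicIndependent κ y := by
  classical
  obtain ⟨t, ht, hb⟩ := exists_isTranscendenceBasis_subset (R := κ) (A := E) (Set.range y)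
  have hc : Cardinal.mk t = Cardinal.mk (Fin m) := hb.cardinalMk_eq hu
  have hfin : (Set.range y).Finite := Set.finite_range y
  have hle : (Set.range y).ncard ≤ m := by
    have h1 := Set.ncard_image_le (s := (Set.univ : Set (Fin m))) (f := y) (Set.finite_univ)
    rw [Set.image_univ, Set.ncard_univ] at h1
    simpa using h1
  have htc : t.ncard = m := by
    rw [← Nat.card_coe_set_eq, Nat.card, hc]
    simp
  have heq : t = Set.range y := Set.eq_of_subset_of_ncard_le ht (by rw [htc]; exact hle) hfin
  have hinj : Function.Injective y := by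
    have h1 : (Finset.univ.image y).card = (Finset.univ : Finset (Fin m)).card := by
      rw [← Set.ncard_coe_finset, Finset.coe_image, Finset.coe_univ, Set.image_univ, ← heq, htc]
      simp
    have h2 := Finset.card_image_iff.mp h1
    intro a b hab
    exact h2 (by simp) (by simp) hab
  have h3 : AlgebraicIndependent κ ((↑) : Set.range y → E) := by
    rw [← heq]
    exact hb.1
  exact AlgebraicIndependent.of_subtype_range hinj h3

/-- `y 0` is algebraic over `κ(y 1, …)`. -/
theorem alg_zero {κ E : Type} [Field κ] [Field E] [Algebra κ E] {m : ℕ} (P : MvPolynomial (Fin (m + 1)) κ)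
    (hP : Mon P) (y : Fin (m + 1) → E) (h : aeval y P = 0) :
    IsIntegral (Algebra.adjoin κ (Set.range fun i : Fin m => y i.succ)) (y 0) := by
  let A := Algebra.adjoin κ (Set.range fun i : Fin m => y i.succ)
  let φ : MvPolynomial (Fin m) κ →ₐ[κ] A := aeval fun i => ⟨y i.succ, Algebra.subset_adjoin ⟨i, rfl⟩⟩
  refine ⟨(finSuccEquiv κ m P).map (φ : MvPolynomial (Fin m) κ →+* A), Polynomial.Monic.map _ hP, ?_⟩
  have key : ∀ B : MvPolynomial (Fin (m + 1)) κ,
      Polynomial.eval₂ (algebraMap A E) (y 0) ((finSuccEquiv κ m B).map (φ : MvPolynomial (Fin m) κ →+* A)) = aeval y B := by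
    intro B
    rw [Polynomial.eval₂_map]
    induction B using MvPolynomial.induction_on with
    | C a =>
      rw [finSuccEquiv_apply, eval₂Hom_C]
      simp
    | add p q hp hq => rw [map_add, Polynomial.eval₂_add, hp, hq, map_add]
    | mul_X p i hp =>
      rw [map_mul, Polynomial.eval₂_mul, hp, map_mul, aeval_X]
      congr 1
      refine Fin.cases ?_ (fun j => ?_) i
      · rw [finSuccEquiv_X_zero, Polynomial.eval₂_X]
      · rw [finSuccEquiv_X_succ, Polynomial.eval₂_C]
        simp [φ]
  rw [key, h]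

/-- `E` is essentially of finite type over the intermediate fields. -/
theorem ess_ft {κ E : Type} [Field κ] [Field E] [Algebra κ E] {c : ℕ} (ξ : Fin c → E)
    (h : IntermediateField.adjoin κ (Set.range ξ) = ⊤) (F : IntermediateField κ E) : Algebra.EssFiniteType F E := by
  have h1 : Algebra.EssFiniteType κ E := by
    rw [← IntermediateField.fg_top_iff, ← h]
    exact IntermediateField.fg_adjoin_of_finite (Set.finite_range ξ)
  exact Algebra.EssFiniteType.of_comp κ F E

open scoped IntermediateField.algebraAdjoinAdjoin in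
/-- If `E` is algebraic over `κ(y)` and `y 0` is algebraic over `κ(y 1, …)`, then `E` is. -/
theorem alg_of {κ E : Type} [Field κ] [Field E] [Algebra κ E] {m : ℕ} (y : Fin (m + 1) → E)
    (h0 : IsIntegral (Algebra.adjoin κ (Set.range fun i : Fin m => y i.succ)) (y 0))
    (h : Algebra.IsAlgebraic (IntermediateField.adjoin κ (Set.range y)) E) :
    Algebra.IsAlgebraic (Algebra.adjoin κ (Set.range fun i : Fin m => y i.succ)) E := by
  let L := IntermediateField.adjoin κ (Set.range fun i : Fin m => y i.succ)
  have hL : ∀ x : E, IsAlgebraic (Algebra.adjoin κ (Set.range fun i : Fin m => y i.succ)) x ↔ IsAlgebraic L x :=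
    fun x => IsFractionRing.isAlgebraic_iff _ L E
  let M := algebraicClosure L E
  have hM : IntermediateField.adjoin κ (Set.range y) ≤ M.restrictScalars κ := by
    rw [IntermediateField.adjoin_le_iff]
    rintro _ ⟨i, rfl⟩
    refine Fin.cases ?_ (fun j => ?_) i
    · show y 0 ∈ M
      exact mem_algebraicClosure_iff.mpr ((hL _).mp h0.isAlgebraic)
    · show y j.succ ∈ M
      have h1 : y j.succ ∈ L := IntermediateField.subset_adjoin κ _ ⟨j, rfl⟩
      exact mem_algebraicClosure_iff.mpr (isAlgebraic_algebraMap (⟨y j.succ, h1⟩ : L))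
  refine ⟨fun x => (hL x).mpr ?_⟩
  have h1 : IsAlgebraic (M.restrictScalars κ) x :=
    IsAlgebraic.tower_top_of_subalgebra_le (A := (IntermediateField.adjoin κ (Set.range y)).toSubalgebra)
      (B := (M.restrictScalars κ).toSubalgebra) hM (h.isAlgebraic x)
  have h2 : IsAlgebraic M x := h1
  exact h2.restrictScalars L

open scoped IntermediateField.algebraAdjoinAdjoin in
/-- The transcendence basis. -/
theorem tr_basis {κ E : Type} [Field κ] [Field E] [Algebra κ E] {m : ℕ} (u : Fin m → E) (hu : AlgebraicIndependent κ u)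
    (h : Module.Finite (IntermediateField.adjoin κ (Set.range u)) E) : IsTranscendenceBasis κ u := by
  rw [hu.isTranscendenceBasis_iff_isAlgebraic]
  refine ⟨fun x => ?_⟩
  rw [IsFractionRing.isAlgebraic_iff _ (IntermediateField.adjoin κ (Set.range u)) E]
  exact Algebra.IsAlgebraic.isAlgebraic x

/-- The linear equations for the values of the derivation. -/
theorem der_eqs {κ F E : Type} [Field κ] [Field F] [Field E] [Algebra κ E] [Algebra F E] {c : ℕ}
    (D : Derivation F E E) (hK : ∀ a : κ, D (algebraMap κ E a) = 0) (ξ : Fin c → E) (f : RM κ c)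
    (hd : ∀ i, aeval ξ (f.den i) ≠ 0) (i : Fin c) (h : D (fvn f ξ i) = 0) :
    ∑ j, aeval ξ (Wd f i j) * D (ξ j) = 0 := by
  have h1 : fvn f ξ i * aeval ξ (f.den i) = aeval ξ (f.num i) := div_mul_cancel₀ _ (hd i)
  have h2 : D (aeval ξ (f.num i)) = fvn f ξ i * D (aeval ξ (f.den i)) := by
    rw [← h1, Derivation.leibniz, h, smul_zero, add_zero, smul_eq_mul]
  have h3 : ∀ j, aeval ξ (Wd f i j) * D (ξ j) = aeval ξ (f.den i) * (aeval ξ (pderiv j (f.num i)) * D (ξ j)) -
      aeval ξ (f.num i) * (aeval ξ (pderiv j (f.den i)) * D (ξ j)) := by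
    intro j
    rw [Wd, map_sub, map_mul, map_mul]
    ring
  simp_rw [h3]
  rw [Finset.sum_sub_distrib, ← Finset.mul_sum, ← Finset.mul_sum, ← der_aeval D hK ξ, ← der_aeval D hK ξ, h2, ← h1]
  ring

end DomJM

open DomJM

/-- (C14) The Jacobian criterion for dominance. -/
theorem tDomJ : StmtNm → StmtFun → StmtDomJ := by
  intro hNm hFun κ _ m P f hPi hPm hden hJ hK E _ _ ξ hξ A hA
  classical
  by_contra hPA
  have hdξ : ∀ i, aeval ξ (f.den i) ≠ 0 := fun i h => hden i ((hξ.ker _).mp h)
  have hPξ : aeval ξ P = 0 := (hξ.ker P).mpr dvd_rfl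
  have hyP : aeval (fvn f ξ) P = 0 := hK E ξ hPξ hdξ
  obtain ⟨hu, hfin, -⟩ := hFun.2 κ E m P ξ hPi hPm hξ
  have hR0 : nm P A ≠ 0 := hNm.2.1 κ m P A hPm hPi.prime hPA
  have hR : aeval (fun i : Fin m => fvn f ξ i.succ) (nm P A) = 0 := by
    obtain ⟨a, b, hab⟩ := Ideal.mem_span_pair.mp (hNm.1 κ m P A hPm)
    have h2 : aeval (fvn f ξ) (rename Fin.succ (nm P A)) = 0 := by
      rw [← hab, map_add, map_mul, map_mul, hyP, hA, mul_zero, mul_zero, add_zero]
    rw [aeval_rename] at h2
    exact h2
  have hns : ¬ Algebra.IsSeparable (IntermediateField.adjoin κ (Set.range (fvn f ξ))) E := by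
    intro hs
    have h1 : Algebra.IsAlgebraic (IntermediateField.adjoin κ (Set.range (fvn f ξ))) E := inferInstance
    have h2 := alg_of (fvn f ξ) (alg_zero P hPm (fvn f ξ) hyP) h1
    have h3 := indep_of_alg (fun i : Fin m => ξ i.succ) (fun i : Fin m => fvn f ξ i.succ) (tr_basis _ hu hfin) h2
    exact hR0 (h3.eq_zero_of_aeval_eq_zero _ hR)
  have hess := ess_ft ξ hξ.top (IntermediateField.adjoin κ (Set.range (fvn f ξ)))
  obtain ⟨D, x, hx⟩ := exists_der (IntermediateField.adjoin κ (Set.range (fvn f ξ))) E hns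
  have hDK : ∀ a : κ, D (algebraMap κ E a) = 0 := by
    intro a
    rw [IsScalarTower.algebraMap_apply κ (IntermediateField.adjoin κ (Set.range (fvn f ξ))) E a]
    exact D.map_algebraMap _
  have hDy : ∀ i, D (fvn f ξ i) = 0 := by
    intro i
    have h1 : fvn f ξ i ∈ IntermediateField.adjoin κ (Set.range (fvn f ξ)) :=
      IntermediateField.subset_adjoin κ _ ⟨i, rfl⟩
    exact D.map_algebraMap (⟨fvn f ξ i, h1⟩ : IntermediateField.adjoin κ (Set.range (fvn f ξ)))
  have hdet : (Matrix.of fun i l => aeval ξ (Wd f i l)).det ≠ 0 := by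
    have h1 : aeval ξ (Jc f) = (Matrix.of fun i l => aeval ξ (Wd f i l)).det := by
      rw [Jc, AlgHom.map_det]
      rfl
    rw [← h1]
    exact fun h => hJ ((hξ.ker _).mp h)
  have hz : (fun j => D (ξ j)) = 0 := by
    refine Matrix.eq_zero_of_mulVec_eq_zero hdet ?_
    funext i
    exact der_eqs D hDK ξ f hdξ i (hDy i)
  exact hx (der_zero D hDK ξ hξ.top (fun j => congrFun hz j) x)

end Pool.Agent.Lib.MP_16285c_agX
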