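import Pool.Agent.Lib.MP_16285c_agX.Hrn.SpecC
import Mathlib.Algebra.GCDMonoid.IntegrallyClosed
import Mathlib.RingTheory.Polynomial.UniqueFactorization

/-!
# Irreducibility of the fibres over the first coordinates

`StmtFibN` from `Bez.StmtGeo` (geometric irreducibility), `Bez.StmtBN1` (irreducibility in families) and `StmtFun` (the function field).
-/

set_option autoImplicit false

namespace Pool.Agent.Lib.MP_16285c_agX

open MvPolynomial
open scoped IntermediateField
open Pool.Agent.Lib.MP_16285c_agS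

namespace FibNM

section fse

variable {F : Type} [Field F] {r : ℕ}

private theorem fse_C (c : F) : finSuccEquiv F r (C c) = Polynomial.C (C c) := (finSuccEquiv F r).commutes c

private theorem fse_pderiv_X (i : Fin (r + 1)) :
    finSuccEquiv F r (pderiv 0 (X i)) = Polynomial.derivative (finSuccEquiv F r (X i)) := by
  refine Fin.cases ?_ (fun j => ?_) i
  · rw [pderiv_X_self, map_one, finSuccEquiv_X_zero, Polynomial.derivative_X]
  · rw [pderiv_X_of_ne (Fin.succ_ne_zero j), map_zero, finSuccEquiv_X_succ, Polynomial.derivative_C]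

private theorem fse_pderiv (G : MvPolynomial (Fin (r + 1)) F) :
    finSuccEquiv F r (pderiv 0 G) = Polynomial.derivative (finSuccEquiv F r G) := by
  induction G using MvPolynomial.induction_on with
  | C a => rw [pderiv_C, map_zero, fse_C, Polynomial.derivative_C]
  | add p q hp hq => simp only [map_add, hp, hq]
  | mul_X p i hp =>
    rw [Derivation.leibniz, smul_eq_mul, smul_eq_mul, map_add, map_mul, map_mul, hp, fse_pderiv_X, map_mul,
      Polynomial.derivative_mul]
    ring

/-- Two ring homomorphisms composed with `finSuccEquiv`. -/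
private theorem fse_map {T : Type} [CommRing T] (ψ : MvPolynomial (Fin r) F →+* T) (g : Fin (r + 1) → Polynomial T)
    (a : F →+* T) (hC : ∀ c, ψ (C c) = a c) (h0 : g 0 = Polynomial.X) (hs : ∀ i : Fin r, g i.succ = Polynomial.C (ψ (X i)))
    (P : MvPolynomial (Fin (r + 1)) F) :
    (finSuccEquiv F r P).map ψ = eval₂Hom (Polynomial.C.comp a) g P := by
  have h : (Polynomial.mapRingHom ψ).comp (finSuccEquiv F r).toRingEquiv.toRingHom = eval₂Hom (Polynomial.C.comp a) g := by
    refine MvPolynomial.ringHom_ext (fun c => ?_) (fun i => ?_)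
    · have h1 : (finSuccEquiv F r).toRingEquiv.toRingHom (C c) = Polynomial.C (C c) := fse_C c
      rw [RingHom.comp_apply, h1, eval₂Hom_C, Polynomial.coe_mapRingHom, Polynomial.map_C, hC, RingHom.comp_apply]
    · rw [RingHom.comp_apply, eval₂Hom_X']
      refine Fin.cases ?_ (fun j => ?_) i
      · have h1 : (finSuccEquiv F r).toRingEquiv.toRingHom (X 0) = Polynomial.X := finSuccEquiv_X_zero
        rw [h1, Polynomial.coe_mapRingHom, Polynomial.map_X, h0]
      · have h1 : (finSuccEquiv F r).toRingEquiv.toRingHom (X j.succ) = Polynomial.C (X j) := finSuccEquiv_X_succ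
        rw [h1, Polynomial.coe_mapRingHom, Polynomial.map_C, hs]
  exact congrArg (fun f : MvPolynomial (Fin (r + 1)) F →+* Polynomial T => f P) h

end fse

section one

variable {κ E : Type} [Field κ] [Field E] [Algebra κ E] {n : ℕ} (u : Fin (n + 1) → E)

/-- The field of the first `n` elements. -/
private abbrev kk : IntermediateField κ E := IntermediateField.adjoin κ (Set.range fun i : Fin n => u i.castSucc)

/-- The generators of `kk`. -/
private noncomputable def gg (i : Fin n) : kk (κ := κ) u :=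
  ⟨u i.castSucc, IntermediateField.subset_adjoin κ _ ⟨i, rfl⟩⟩

/-- The polynomials in `u` as polynomials in the last one. -/
private noncomputable def Th : MvPolynomial (Fin (n + 1)) κ →+* Polynomial (kk (κ := κ) u) :=
  eval₂Hom (Polynomial.C.comp (algebraMap κ (kk (κ := κ) u)))
    (Fin.snoc (α := fun _ => Polynomial (kk (κ := κ) u)) (fun i : Fin n => Polynomial.C (gg u i)) Polynomial.X)

private theorem th_aeval : ((Polynomial.aeval (u (Fin.last n)) : Polynomial (kk (κ := κ) u) →ₐ[kk (κ := κ) u] E).toRingHom).comp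
    (Th u) = (aeval u : MvPolynomial (Fin (n + 1)) κ →ₐ[κ] E).toRingHom := by
  refine MvPolynomial.ringHom_ext (fun c => ?_) (fun i => ?_)
  · simp only [RingHom.comp_apply, Th, eval₂Hom_C, AlgHom.toRingHom_eq_coe, RingHom.coe_coe, Polynomial.aeval_C,
      algHom_C]
    exact (IsScalarTower.algebraMap_apply κ (kk (κ := κ) u) E c).symm
  · simp only [RingHom.comp_apply, Th, eval₂Hom_X', AlgHom.toRingHom_eq_coe, RingHom.coe_coe, aeval_X]
    refine Fin.lastCases ?_ (fun j => ?_) i
    · rw [Fin.snoc_last, Polynomial.aeval_X]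
    · rw [Fin.snoc_castSucc, Polynomial.aeval_C]
      rfl

private theorem tr1 (hx : AlgebraicIndependent κ u) : Transcendental (kk (κ := κ) u) (u (Fin.last n)) := by
  rw [IntermediateField.transcendental_adjoin_iff]
  have h := hx.transcendental_adjoin (s := Set.range (Fin.castSucc : Fin n → Fin (n + 1))) (i := Fin.last n) (by
    rintro ⟨i, hi⟩
    exact (Fin.castSucc_lt_last i).ne hi)
  rw [← Set.range_comp] at h
  exact h

/-- `kk(u last)` consists of the quotients. -/
private theorem quot (α : E) (h : α ∈ (kk (κ := κ) u)⟮u (Fin.last n)⟯) :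
    ∃ r s : MvPolynomial (Fin (n + 1)) κ, α = aeval u r / aeval u s := by
  have h1 : α ∈ ((kk (κ := κ) u)⟮u (Fin.last n)⟯).restrictScalars κ := h
  rw [IntermediateField.adjoin_adjoin_left] at h1
  rw [← IntermediateField.mem_adjoin_range_iff]
  have h2 : (Set.range fun i : Fin n => u i.castSucc) ∪ {u (Fin.last n)} = Set.range u := by
    ext y
    simp only [Set.mem_union, Set.mem_singleton_iff, Set.mem_range]
    constructor
    · rintro (⟨i, hi⟩ | h)
      · exact ⟨_, hi⟩
      · exact ⟨_, h.symm⟩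
    · rintro ⟨i, hi⟩
      revert hi
      refine Fin.lastCases (fun hi => ?_) (fun j hi => ?_) i
      · exact Or.inr hi.symm
      · exact Or.inl ⟨j, hi⟩
  rw [← h2]
  exact h1

private theorem mem2 (p : MvPolynomial (Fin (n + 1)) κ) :
    (aeval u : MvPolynomial (Fin (n + 1)) κ →ₐ[κ] E).toRingHom p ∈ (kk (κ := κ) u)⟮u (Fin.last n)⟯ := by
  rw [← th_aeval]
  exact IntermediateField.algebra_adjoin_le_adjoin (kk (κ := κ) u) {u (Fin.last n)}
    (Polynomial.aeval_mem_adjoin_singleton (kk (κ := κ) u) (u (Fin.last n)))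

/-- The embedding of the polynomials. -/
private noncomputable def j2 : MvPolynomial (Fin (n + 1)) κ →+* (kk (κ := κ) u)⟮u (Fin.last n)⟯ :=
  ((aeval u : MvPolynomial (Fin (n + 1)) κ →ₐ[κ] E).toRingHom).codRestrict
    ((kk (κ := κ) u)⟮u (Fin.last n)⟯).toSubring (mem2 u)

private theorem j2_comp : (algebraMap (kk (κ := κ) u)⟮u (Fin.last n)⟯ E).comp (j2 u) =
    (aeval u : MvPolynomial (Fin (n + 1)) κ →ₐ[κ] E).toRingHom := by
  ext <;> rfl

private theorem j2_inj (hx : AlgebraicIndependent κ u) : Function.Injective (j2 (κ := κ) u) := by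
  have h : Function.Injective ((algebraMap (kk (κ := κ) u)⟮u (Fin.last n)⟯ E).comp (j2 (κ := κ) u)) := by
    rw [j2_comp]
    exact hx
  rw [RingHom.coe_comp] at h
  exact h.of_comp

private theorem j2_irr (hx : AlgebraicIndependent κ u) {P : Polynomial (MvPolynomial (Fin (n + 1)) κ)}
    (hP : P.Monic) (hirr : Irreducible P) : Irreducible (P.map (j2 u)) := by
  let _ : Algebra (MvPolynomial (Fin (n + 1)) κ) (kk (κ := κ) u)⟮u (Fin.last n)⟯ := (j2 u).toAlgebra
  have _ : FaithfulSMul (MvPolynomial (Fin (n + 1)) κ) (kk (κ := κ) u)⟮u (Fin.last n)⟯ :=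
    (faithfulSMul_iff_algebraMap_injective _ _).2 (j2_inj u hx)
  have _ : IsIntegrallyClosed (MvPolynomial (Fin (n + 1)) κ) := by
    let _ := UniqueFactorizationMonoid.toGCDMonoid (MvPolynomial (Fin (n + 1)) κ)
    infer_instance
  have _ : IsFractionRing (MvPolynomial (Fin (n + 1)) κ) (kk (κ := κ) u)⟮u (Fin.last n)⟯ := by
    refine IsFractionRing.of_field _ _ fun α => ?_
    obtain ⟨r, s, h⟩ := quot u α.1 α.2
    refine ⟨r, s, Subtype.ext ?_⟩
    rw [h]
    rfl
  exact (hP.irreducible_iff_irreducible_map_fraction_map (K := (kk (κ := κ) u)⟮u (Fin.last n)⟯)).1 hirr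

end one

end FibNM

open FibNM in
theorem tFibN : Bez.StmtGeo → Bez.StmtBN1 → StmtFun → StmtFibN := by
  intro hGeo hBN hFun κ E _ _ _ _ n P' ξ hPirr hPmon hPsep hgen halg
  set u : Fin (n + 1) → E := fun i => ξ i.succ with hu
  set P : Polynomial (MvPolynomial (Fin (n + 1)) κ) := finSuccEquiv κ (n + 1) P' with hPdef
  have hx : AlgebraicIndependent κ u := (hFun.2 κ E (n + 1) P' ξ hPirr hPmon hgen).1
  have hP : P.Monic := hPmon
  have hirr : Irreducible P := (MulEquiv.irreducible_iff (finSuccEquiv κ (n + 1))).2 hPirr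
  have hder : Polynomial.derivative P ≠ 0 := by
    intro h
    rw [hPdef, ← fse_pderiv] at h
    have h1 : pderiv 0 P' = 0 := (finSuccEquiv κ (n + 1)).injective (by rw [h, map_zero])
    exact hPsep (h1 ▸ dvd_zero P')
  have hroot : (P.map (aeval u : MvPolynomial (Fin (n + 1)) κ →ₐ[κ] E).toRingHom).eval (ξ 0) = 0 := by
    have h1 : aeval ξ P' = 0 := (hgen.ker P').2 dvd_rfl
    rw [← h1, Polynomial.eval_map]
    have h2 : (Polynomial.eval₂RingHom (aeval u : MvPolynomial (Fin (n + 1)) κ →ₐ[κ] E).toRingHom (ξ 0)).comp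
        (finSuccEquiv κ (n + 1)).toRingEquiv.toRingHom = (aeval ξ : MvPolynomial (Fin (n + 2)) κ →ₐ[κ] E).toRingHom := by
      refine MvPolynomial.ringHom_ext (fun c => ?_) (fun i => ?_)
      · have h3 : (finSuccEquiv κ (n + 1)).toRingEquiv.toRingHom (C c) = Polynomial.C (C c) :=
          (finSuccEquiv κ (n + 1)).commutes c
        rw [RingHom.comp_apply, h3]
        simp
      · rw [RingHom.comp_apply]
        refine Fin.cases ?_ (fun j => ?_) i
        · have h3 : (finSuccEquiv κ (n + 1)).toRingEquiv.toRingHom (X 0) = Polynomial.X := finSuccEquiv_X_zero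
          rw [h3]
          simp
        · have h3 : (finSuccEquiv κ (n + 1)).toRingEquiv.toRingHom (X j.succ) = Polynomial.C (X j) :=
            finSuccEquiv_X_succ
          rw [h3]
          simp [hu]
    exact congrArg (fun f : MvPolynomial (Fin (n + 2)) κ →+* E => f P') h2
  -- the minimal polynomial
  have hP2 : (P.map (j2 u)).Monic := hP.map _
  have hev : Polynomial.aeval (ξ 0) (P.map (j2 u)) = 0 := by
    rw [Polynomial.aeval_def, Polynomial.eval₂_map, ← Polynomial.eval_map, j2_comp]
    exact hroot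
  have hmin : P.map (j2 u) = minpoly (kk (κ := κ) u)⟮u (Fin.last n)⟯ (ξ 0) :=
    minpoly.eq_of_irreducible_of_monic (j2_irr u hx hP hirr) hev hP2
  have hPE : (P.map (j2 u)).map (algebraMap (kk (κ := κ) u)⟮u (Fin.last n)⟯ E) =
      P.map (aeval u : MvPolynomial (Fin (n + 1)) κ →ₐ[κ] E).toRingHom := by
    rw [Polynomial.map_map, j2_comp]
  have hsep : (P.map (aeval u : MvPolynomial (Fin (n + 1)) κ →ₐ[κ] E).toRingHom).Separable := by
    rw [← hPE]
    refine Polynomial.Separable.map ?_
    rw [Polynomial.separable_iff_derivative_ne_zero (j2_irr u hx hP hirr), Polynomial.derivative_map]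
    exact (Polynomial.map_ne_zero_iff (j2_inj u hx)).2 hder
  have hP1E : (P.map (Th u)).map
      (Polynomial.aeval (u (Fin.last n)) : Polynomial (kk (κ := κ) u) →ₐ[kk (κ := κ) u] E).toRingHom =
      P.map (aeval u : MvPolynomial (Fin (n + 1)) κ →ₐ[κ] E).toRingHom := by
    rw [Polynomial.map_map, th_aeval]
  obtain ⟨Ω, _, _, φ, hφ⟩ := hGeo (kk (κ := κ) u) E (u (Fin.last n)) (ξ 0) (tr1 u hx)
    (fun α hα => ⟨⟨α, halg α hα⟩, rfl⟩) (P.map (Th u)) (hP.map _) (by rw [hP1E]; exact hroot)
    (by rw [← hmin, hP.natDegree_map, hP.natDegree_map]) (by rw [hP1E]; exact hsep)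
  -- the family
  set ι : MvPolynomial (Fin n) κ →+* Ω :=
    φ.comp ((aeval (gg u) : MvPolynomial (Fin n) κ →ₐ[κ] kk (κ := κ) u).toRingHom) with hι
  have hιinj : Function.Injective ι := by
    refine φ.injective.comp ?_
    have h1 : AlgebraicIndependent κ (fun i : Fin n => u i.castSucc) := hx.comp _ (Fin.castSucc_injective n)
    have h2 : AlgebraicIndependent κ (gg (κ := κ) u) :=
      AlgebraicIndependent.of_comp (kk (κ := κ) u).val h1
    exact h2
  set Q : Polynomial (Polynomial (MvPolynomial (Fin n) κ)) := P.map (eval₂Hom (Polynomial.C.comp C)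
    (Fin.snoc (α := fun _ => Polynomial (MvPolynomial (Fin n) κ)) (fun i : Fin n => Polynomial.C (X i)) Polynomial.X)) with hQ
  have hPι : Q.map (Polynomial.mapRingHom ι) = (P.map (Th u)).map (Polynomial.mapRingHom φ) := by
    rw [hQ, Polynomial.map_map, Polynomial.map_map]
    congr 1
    refine MvPolynomial.ringHom_ext (fun c => ?_) (fun i => ?_)
    · simp [Th, hι]
    · simp only [RingHom.comp_apply, Th, eval₂Hom_X']
      refine Fin.lastCases ?_ (fun j => ?_) i
      · rw [Fin.snoc_last, Fin.snoc_last]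
        simp
      · rw [Fin.snoc_castSucc, Fin.snoc_castSucc]
        simp [hι]
  obtain ⟨g, hg, hF⟩ := hBN (MvPolynomial (Fin n) κ) Ω ι hιinj Q (hP.map _) (by rw [hPι]; exact hφ)
  refine ⟨g, hg, fun F _ _ y hy => ?_⟩
  have h := hF F ((aeval fun i : Fin n => y (mid i) : MvPolynomial (Fin n) κ →ₐ[κ] F).toRingHom) hy
  have hPF : Q.map (Polynomial.mapRingHom
      ((aeval fun i : Fin n => y (mid i) : MvPolynomial (Fin n) κ →ₐ[κ] F).toRingHom)) = spn y P' := by
    rw [hQ, Polynomial.map_map, hPdef, fse_map _ (fun j : Fin (n + 2) => if j = 0 then Polynomial.X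
      else if j = lst n then Polynomial.C Polynomial.X else Polynomial.C (Polynomial.C (y j)))
      (Polynomial.C.comp (algebraMap κ F))]
    · rfl
    · intro c
      simp
    · rfl
    · intro i
      rw [if_neg (Fin.succ_ne_zero i), RingHom.comp_apply, eval₂Hom_X']
      refine Fin.lastCases ?_ (fun j => ?_) i
      · rw [Fin.snoc_last, if_pos (by rfl)]
        simp
      · have hne : j.castSucc.succ ≠ lst n := fun hj => (Fin.castSucc_lt_last j).ne (Fin.succ_injective _ hj)
        rw [Fin.snoc_castSucc, if_neg hne]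
        simp [mid]
  rw [hPF] at h
  exact h

end Pool.Agent.Lib.MP_16285c_agX
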