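import Pool.Agent.Lib.MP_16285c_agX.Hrn.SpecC

/-!
# Frobenius points of dominant rational self-maps of hypersurfaces (C13)

`StmtHrun` from `StmtHP` and `StmtConeF`: the Frobenius points of the cone, outside of `X 0 = 0`, of the base locus and of the zero locus
of `B`, give Frobenius points of the rational self-map.
-/

set_option autoImplicit false

namespace Pool.Agent.Lib.MP_16285c_agX

open MvPolynomial
open Pool.Agent.Lib.MP_16285c_ag (RM FrobPt)
open Pool.Agent.ZDO (hz dd nn cn hz_eval frobPt_of_cone)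

theorem tHrun : StmtHP → StmtConeF → StmtHrun := by
  intro hHP hCone κ _ _ p _ _ hfin m P B f hP hden hK hD hB s₀ hs₀
  -- the degree of the cone
  obtain ⟨e, he, h0, h1⟩ : ∃ e : ℕ, 1 ≤ e ∧ (dd f).totalDegree ≤ e ∧
      ∀ i, (nn f i).totalDegree ≤ e := by
    refine ⟨1 + (dd f).totalDegree + ∑ i, (nn f i).totalDegree, by omega, by omega, fun i => ?_⟩
    have h : (nn f i).totalDegree ≤ ∑ j, (nn f j).totalDegree :=
      Finset.single_le_sum (f := fun j => (nn f j).totalDegree) (fun _ _ => Nat.zero_le _)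
        (Finset.mem_univ i)
    omega
  obtain ⟨hPi, hPf, hPinj, hPB⟩ := hCone κ (m + 1) e P f hP hden hK hD he h0 h1
  -- `B * dd f` is not divisible by `P`
  have hPp : Prime P := hP.prime
  have hdd : ¬ P ∣ dd f := by
    intro h
    obtain ⟨i, _, hi⟩ := (Prime.dvd_finsetProd_iff hPp _).1 h
    exact hden i hi
  have hB1 : ¬ P ∣ B * dd f := fun h => (hPp.dvd_or_dvd h).elim hB hdd
  -- a Frobenius point of the cone
  obtain ⟨s, hs, hs0, a, haP, haf, haB⟩ :=
    hHP κ p hfin m _ _ (cn e f) hPi hPf hPinj (hPB _ hB1) s₀ hs₀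
  rw [map_mul, eval_X] at haB
  have ha0 : a 0 ≠ 0 := left_ne_zero_of_mul haB
  have haB1 := right_ne_zero_of_mul haB
  rw [hz_eval _ _ le_rfl a ha0] at haB1 haP
  have hbB := right_ne_zero_of_mul haB1
  rw [map_mul] at hbB
  refine ⟨s, hs, hs0, fun i => a i.succ / a 0, ?_, ?_, left_ne_zero_of_mul hbB⟩
  · exact (mul_eq_zero.1 haP).resolve_left (pow_ne_zero _ ha0)
  · exact frobPt_of_cone e (p ^ s) f h0 h1 a ha0 haf (right_ne_zero_of_mul hbB)

end Pool.Agent.Lib.MP_16285c_agX
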