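import Pool.Agent.Lib.MP_16285c_agX.Hrn.SpecC

/-!
# (C4) The last linear form
-/

set_option autoImplicit false

namespace Pool.Agent.Lib.MP_16285c_agX

open MvPolynomial
open scoped IntermediateField

namespace LastM

variable {κ E : Type} [Field κ] [Field E] [Algebra κ E]

/-- If all forms are algebraic over a subalgebra, so are the elements. -/
theorem alg_of_lin {n : ℕ} (A : Subalgebra κ E) (u : Fin (n + 1) → E)
    (C D : Matrix (Fin (n + 1)) (Fin (n + 1)) κ) (h2 : D * C = 1)
    (h : ∀ i, IsAlgebraic A (lin C u i)) (j : Fin (n + 1)) : IsAlgebraic A (u j) := by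
  have e : u j = ∑ i, algebraMap κ E (D j i) * lin C u i := by
    have e1 : ∀ l, ∑ i, algebraMap κ E (D j i) * algebraMap κ E (C i l) =
        algebraMap κ E ((D * C) j l) := by
      intro l
      rw [Matrix.mul_apply, map_sum]
      exact Finset.sum_congr rfl fun i _ => (map_mul _ _ _).symm
    calc u j = ∑ l, algebraMap κ E ((D * C) j l) * u l := by
          rw [h2, Finset.sum_eq_single j]
          · simp
          · intro l _ hl
            rw [Matrix.one_apply_ne (Ne.symm hl)]; simp
          · intro hj; exact absurd (Finset.mem_univ j) hj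
      _ = ∑ l, (∑ i, algebraMap κ E (D j i) * algebraMap κ E (C i l)) * u l :=
          Finset.sum_congr rfl fun l _ => by rw [e1 l]
      _ = ∑ l, ∑ i, algebraMap κ E (D j i) * algebraMap κ E (C i l) * u l :=
          Finset.sum_congr rfl fun l _ => Finset.sum_mul _ _ _
      _ = ∑ i, ∑ l, algebraMap κ E (D j i) * algebraMap κ E (C i l) * u l := Finset.sum_comm
      _ = ∑ i, algebraMap κ E (D j i) * lin C u i :=
          Finset.sum_congr rfl fun i _ => by
            rw [lin, Finset.mul_sum]
            exact Finset.sum_congr rfl fun l _ => mul_assoc _ _ _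
  rw [e]
  refine Finset.sum_induction _ (fun x => IsAlgebraic A x) (fun _ _ ha hb => ha.add hb) isAlgebraic_zero
    fun i _ => ?_
  refine IsAlgebraic.mul ?_ (h i)
  exact isAlgebraic_algebraMap (R := A) (A := E) (algebraMap κ A (D j i))

/-- Not all of `n + 1` independent elements are algebraic over `n` elements. -/
theorem not_all {n : ℕ} (u : Fin (n + 1) → E) (w : Fin n → E) (hu : AlgebraicIndependent κ u)
    (hE : Algebra.IsAlgebraic (IntermediateField.adjoin κ (Set.range u)) E) :
    ¬ ∀ j, IsAlgebraic (Algebra.adjoin κ (Set.range w)) (u j) := by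
  intro h
  have hE' : Algebra.IsAlgebraic (Algebra.adjoin κ (Set.range u)) E :=
    IntermediateField.isAlgebraic_adjoin_iff_top.mp hE
  have hw : Algebra.IsAlgebraic (Algebra.adjoin κ (Set.range w)) E := by
    refine ⟨fun a => ?_⟩
    refine (hE'.isAlgebraic a).adjoin_of_forall_isAlgebraic ?_
    rintro x ⟨⟨j, rfl⟩, -⟩
    exact h j
  have h1 : Cardinal.mk (Fin (n + 1)) ≤ Algebra.trdeg κ E := hu.cardinalMk_le_trdeg
  have h2 : Algebra.trdeg κ E ≤ Cardinal.mk (Set.range w) :=
    Algebra.IsAlgebraic.trdeg_le_cardinalMk κ (Set.range w)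
  have h3 : Cardinal.mk (Set.range w) ≤ Cardinal.mk (Fin n) := Cardinal.mk_range_le
  have h4 := (h1.trans h2).trans h3
  rw [Cardinal.mk_fin, Cardinal.mk_fin, Nat.cast_le] at h4
  omega

/-- `snoc` of a transcendental element. -/
theorem snoc_indep {n : ℕ} (w : Fin n → E) (t : E) (hw : AlgebraicIndependent κ w)
    (ht : Transcendental (Algebra.adjoin κ (Set.range w)) t) :
    AlgebraicIndependent κ (Fin.snoc (α := fun _ => E) w t) := by
  have h := (hw.option_iff_transcendental t).mpr ht
  have h2 := h.comp _ (finSuccEquivLast (n := n)).injective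
  have e : (fun o : Option (Fin n) => o.elim t w) ∘ (finSuccEquivLast (n := n)) =
      Fin.snoc (α := fun _ => E) w t := by
    funext i
    refine Fin.lastCases ?_ (fun i => ?_) i
    · simp
    · simp
  rwa [e] at h2

/-- The transvection: row `last` replaced by row `last` plus row `i`. -/
theorem trans_inv {n : ℕ} (i : Fin n) :
    (1 + Matrix.single (Fin.last n) i.castSucc (1 : κ)) * (1 - Matrix.single (Fin.last n) i.castSucc (1 : κ)) = 1 ∧
    (1 - Matrix.single (Fin.last n) i.castSucc (1 : κ)) * (1 + Matrix.single (Fin.last n) i.castSucc (1 : κ)) = 1 := by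
  have h : Matrix.single (Fin.last n) i.castSucc (1 : κ) * Matrix.single (Fin.last n) i.castSucc (1 : κ) = 0 := by
    apply Matrix.single_mul_single_of_ne
    exact (Fin.castSucc_lt_last i).ne
  constructor
  · rw [add_mul, mul_sub, mul_sub, h]; simp
  · rw [sub_mul, mul_add, mul_add, h]; simp

end LastM

open LastM in
theorem tLast : StmtLast := by
  intro κ E _ _ _ n u w hu hE hw C D h1 h2
  by_cases hlast : Transcendental (Algebra.adjoin κ (Set.range w)) (lin C u (Fin.last n))
  · exact ⟨C, D, h1, h2, fun _ => rfl, snoc_indep w _ hw hlast⟩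
  · rw [Transcendental, not_not] at hlast
    have hex : ∃ i : Fin n, Transcendental (Algebra.adjoin κ (Set.range w))
        (lin C u (Fin.last n) + lin C u i.castSucc) := by
      by_contra hne
      refine not_all u w hu hE fun j => alg_of_lin _ u C D h2 (fun i => ?_) j
      refine Fin.lastCases hlast (fun i => ?_) i
      have h3 : IsAlgebraic (Algebra.adjoin κ (Set.range w)) (lin C u (Fin.last n) + lin C u i.castSucc) :=
        not_not.mp fun hh => hne ⟨i, hh⟩
      have h4 := h3.sub hlast
      rwa [add_sub_cancel_left] at h4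
    obtain ⟨i, hi⟩ := hex
    set T : Matrix (Fin (n + 1)) (Fin (n + 1)) κ := 1 + Matrix.single (Fin.last n) i.castSucc (1 : κ) with hT
    set T' : Matrix (Fin (n + 1)) (Fin (n + 1)) κ := 1 - Matrix.single (Fin.last n) i.castSucc (1 : κ) with hT'
    obtain ⟨hTT, hTT'⟩ := trans_inv (κ := κ) i
    have hrow : ∀ a b, (T * C) a b = C a b + if a = Fin.last n then C i.castSucc b else 0 := by
      intro a b
      rw [hT, add_mul, one_mul, Matrix.add_apply]
      congr 1
      split_ifs with ha
      · subst ha
        simp [Matrix.single_mul_apply_same]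
      · rw [Matrix.single_mul_apply_of_ne]
        exact ha
    refine ⟨T * C, D * T', ?_, ?_, ?_, ?_⟩
    · calc T * C * (D * T') = T * (C * D) * T' := by simp only [Matrix.mul_assoc]
        _ = 1 := by rw [h1, Matrix.mul_one]; exact hTT
    · calc D * T' * (T * C) = D * (T' * T) * C := by simp only [Matrix.mul_assoc]
        _ = 1 := by rw [hTT', Matrix.mul_one]; exact h2
    · intro l
      funext b
      rw [hrow, if_neg (Fin.castSucc_lt_last l).ne, add_zero]
    · refine snoc_indep w _ hw ?_
      have e : lin (T * C) u (Fin.last n) = lin C u (Fin.last n) + lin C u i.castSucc := by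
        simp only [lin]
        rw [← Finset.sum_add_distrib]
        refine Finset.sum_congr rfl fun j _ => ?_
        rw [hrow, if_pos rfl, map_add, add_mul]
      rw [e]
      exact hi

end Pool.Agent.Lib.MP_16285c_agX
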