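import Pool.Agent.Lib.MP_16285c_agX.Hrn.SpecC

/-!
# Linear changes of coordinates

`tLch : StmtLch` (statement (C7) of `Hrn/SpecC.lean`), `MP_16285c_ag`. `lch D` and `lch M` are inverse to each other if `M * D = 1 = D * M`;
generic points, polynomial self-maps, Frobenius points and total degrees are transported.
-/

set_option autoImplicit false

namespace Pool.Agent.Lib.MP_16285c_agX

open MP7Z MvPolynomial
open scoped IntermediateField
open Pool.Agent.Lib.MP_16285c_ag (RM FrobPt)
open Pool.Agent.ZDO (Jc hz dd nn cn)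

namespace LchM

variable {κ : Type} [Field κ] {c : ℕ}

theorem aeval_lch {E : Type} [CommRing E] [Algebra κ E] (D : Matrix (Fin c) (Fin c) κ) (η : Fin c → E)
    (A : MvPolynomial (Fin c) κ) :
    aeval η (lch D A) = aeval (fun i => ∑ j, algebraMap κ E (D i j) * η j) A := by
  have h : (aeval η).comp (lch D) =
      (aeval (fun i => ∑ j, algebraMap κ E (D i j) * η j) : MvPolynomial (Fin c) κ →ₐ[κ] E) := by
    apply MvPolynomial.algHom_ext
    intro i
    simp [lch]
  exact congrArg (fun g : MvPolynomial (Fin c) κ →ₐ[κ] E => g A) h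

/-- `D (M x) = x`. -/
theorem sum_sum {E : Type} [CommRing E] [Algebra κ E] {D M : Matrix (Fin c) (Fin c) κ} (h : D * M = 1)
    (x : Fin c → E) (i : Fin c) :
    ∑ j, algebraMap κ E (D i j) * ∑ l, algebraMap κ E (M j l) * x l = x i := by
  have h1 : ∀ l, ∑ j, D i j * M j l = (1 : Matrix (Fin c) (Fin c) κ) i l := fun l => by
    rw [← h, Matrix.mul_apply]
  calc ∑ j, algebraMap κ E (D i j) * ∑ l, algebraMap κ E (M j l) * x l
      = ∑ l, algebraMap κ E (∑ j, D i j * M j l) * x l := by
        simp only [Finset.mul_sum, map_sum, map_mul, Finset.sum_mul]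
        rw [Finset.sum_comm]
        simp only [mul_assoc]
    _ = x i := by
        simp only [h1, Matrix.one_apply]
        simp

theorem lch_eq (D : Matrix (Fin c) (Fin c) κ) (A : MvPolynomial (Fin c) κ) :
    lch D A = aeval (fun i => ∑ j, algebraMap κ (MvPolynomial (Fin c) κ) (D i j) * X j) A := rfl

theorem lch_lch {M D : Matrix (Fin c) (Fin c) κ} (h : D * M = 1) (A : MvPolynomial (Fin c) κ) :
    lch M (lch D A) = A := by
  rw [lch_eq M, aeval_lch D]
  have h1 : (fun i => ∑ j, algebraMap κ (MvPolynomial (Fin c) κ) (D i j) *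
      ∑ l, algebraMap κ (MvPolynomial (Fin c) κ) (M j l) * X l) = (X : Fin c → MvPolynomial (Fin c) κ) :=
    funext fun i => sum_sum h X i
  rw [h1, aeval_X_left_apply]

theorem lin_lin {E : Type} [Field E] [Algebra κ E] {D M : Matrix (Fin c) (Fin c) κ} (h : D * M = 1)
    (ξ : Fin c → E) : (fun i => ∑ j, algebraMap κ E (D i j) * lin M ξ j) = ξ :=
  funext fun i => sum_sum h ξ i

theorem lfm_sum {M D : Matrix (Fin c) (Fin c) κ} (h : D * M = 1) (f : Fin c → MvPolynomial (Fin c) κ) (i : Fin c) :
    ∑ j, algebraMap κ (MvPolynomial (Fin c) κ) (D i j) * lfm M D f j = lch D (f i) :=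
  sum_sum h (fun l => lch D (f l)) i

theorem totalDegree_lch_le (D : Matrix (Fin c) (Fin c) κ) (A : MvPolynomial (Fin c) κ) :
    (lch D A).totalDegree ≤ A.totalDegree := by
  classical
  have hF : ∀ i : Fin c, (∑ j, C (D i j) * (X j : MvPolynomial (Fin c) κ)).totalDegree ≤ 1 := by
    intro i
    refine totalDegree_finsetSum_le fun j _ => ?_
    refine (totalDegree_mul _ _).trans ?_
    rw [totalDegree_C, totalDegree_X, zero_add]
  have h0 : lch D A = bind₁ (fun i => ∑ j, C (D i j) * (X j : MvPolynomial (Fin c) κ)) A := rfl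
  rw [h0]
  conv_lhs => rw [A.as_sum]
  rw [map_sum]
  refine totalDegree_finsetSum_le fun m hm => ?_
  rw [bind₁_monomial]
  refine (totalDegree_mul _ _).trans ?_
  rw [totalDegree_C, zero_add]
  refine (totalDegree_finsetProd _ _).trans ?_
  calc ∑ i ∈ m.support, ((∑ j, C (D i j) * (X j : MvPolynomial (Fin c) κ)) ^ m i).totalDegree
      ≤ ∑ i ∈ m.support, m i * 1 := by
        refine Finset.sum_le_sum fun i _ => ?_
        exact (totalDegree_pow _ _).trans (Nat.mul_le_mul le_rfl (hF i))
    _ = ∑ i ∈ m.support, m i := by simp only [mul_one]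
    _ ≤ A.totalDegree := le_totalDegree hm

theorem gen {E : Type} [Field E] [Algebra κ E] {M D : Matrix (Fin c) (Fin c) κ} (h1 : M * D = 1) (h2 : D * M = 1)
    {P : MvPolynomial (Fin c) κ} {ξ : Fin c → E} (h : GenN P ξ) : GenN (lch D P) (lin M ξ) where
  ker := by
    intro A
    have e1 : aeval (lin M ξ) A = aeval ξ (lch M A) := by
      conv_lhs => rw [← lch_lch h1 A]
      rw [aeval_lch, lin_lin h2]
    rw [e1, h.ker]
    constructor
    · rintro ⟨B, hB⟩
      refine ⟨lch D B, ?_⟩
      rw [← map_mul, ← hB, lch_lch h1]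
    · rintro ⟨B, hB⟩
      refine ⟨lch M B, ?_⟩
      rw [hB, map_mul, lch_lch h2]
  top := by
    rw [eq_top_iff, ← h.top, IntermediateField.adjoin_le_iff]
    rintro x ⟨i, rfl⟩
    have e : ξ i = ∑ j, algebraMap κ E (D i j) * lin M ξ j := (sum_sum h2 ξ i).symm
    rw [e]
    refine sum_mem fun j _ => mul_mem ?_ ?_
    · exact IntermediateField.algebraMap_mem _ _
    · exact IntermediateField.subset_adjoin _ _ ⟨j, rfl⟩

end LchM

open LchM in
theorem tLch : StmtLch := by
  intro κ _ c M D h1 h2
  refine ⟨fun A => ⟨lch_lch h2 A, lch_lch h1 A⟩, ?_, ?_, ?_, ?_⟩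
  · intro E _ _ P ξ h
    exact gen h1 h2 h
  · intro f A
    change aeval (lfm M D f) (lch D A) = lch D (aeval f A)
    rw [aeval_lch]
    have e : (fun i => ∑ j, algebraMap κ (MvPolynomial (Fin c) κ) (D i j) * lfm M D f j) =
        fun i => lch D (f i) := funext fun i => lfm_sum h2 f i
    rw [e]
    have e2 : (aeval (fun i => lch D (f i)) : MvPolynomial (Fin c) κ →ₐ[κ] MvPolynomial (Fin c) κ) =
        (lch D).comp (aeval f) := by
      apply MvPolynomial.algHom_ext
      intro i
      simp
    exact congrArg (fun g : MvPolynomial (Fin c) κ →ₐ[κ] MvPolynomial (Fin c) κ => g A) e2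
  · intro p _ _ s P B f hD hb
    obtain ⟨b, hb1, hb2, hb3⟩ := hb
    have key : ∀ A : MvPolynomial (Fin c) κ, eval (fun i => ∑ j, D i j * b j) A = eval b (lch D A) := by
      intro A
      have := aeval_lch D b A
      rw [aeval_eq_eval, aeval_eq_eval] at this
      exact this.symm
    refine ⟨fun i => ∑ j, D i j * b j, ?_, ?_, ?_⟩
    · rw [key, hb1]
    · intro i
      rw [key, ← lfm_sum h2 f i, map_sum, sum_pow_char_pow]
      refine Finset.sum_congr rfl fun j _ => ?_
      rw [mul_pow, hD, hb2, map_mul]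
      change _ = eval b (C (D i j)) * _
      rw [eval_C]
    · rw [key]
      exact hb3
  · intro A
    refine le_antisymm (totalDegree_lch_le D A) ?_
    conv_lhs => rw [← lch_lch h2 A]
    exact totalDegree_lch_le M _

end Pool.Agent.Lib.MP_16285c_agX
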