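import Pool.Agent.Lib.MP_16285c_agX.Hrn.SpecC
import Pool.Agent.Lib.MP_16285c_agS.Hrx.Dom

/-!
# Noether normalisation with a separable variable (C8)
-/

set_option autoImplicit false

namespace Pool.Agent.Lib.MP_16285c_agX

open MP7Z MvPolynomial
open scoped IntermediateField
open Pool.Agent.Lib.MP_16285c_ag (RM FrobPt)
open Pool.Agent.ZDO (Jc hz dd nn cn)

namespace NoeM

variable {κ : Type} [Field κ] {c : ℕ}

theorem aeval_lch {E : Type} [CommRing E] [Algebra κ E] (D : Matrix (Fin c) (Fin c) κ) (η : Fin c → E)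
    (A : MvPolynomial (Fin c) κ) :
    aeval η (lch D A) = aeval (fun i => ∑ j, algebraMap κ E (D i j) * η j) A := by
  have h : (aeval η).comp (lch D) =
      (aeval (fun i => ∑ j, algebraMap κ E (D i j) * η j) : MvPolynomial (Fin c) κ →ₐ[κ] E) := by
    apply MvPolynomial.algHom_ext
    intro i
    simp [lch]
  exact congrArg (fun g : MvPolynomial (Fin c) κ →ₐ[κ] E => g A) h

/-- `D (M x) = x`. -/
theorem sum_sum {E : Type} [CommRing E] [Algebra κ E] {D M : Matrix (Fin c) (Fin c) κ} (h : D * M = 1)
    (x : Fin c → E) (i : Fin c) :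
    ∑ j, algebraMap κ E (D i j) * ∑ l, algebraMap κ E (M j l) * x l = x i := by
  have h1 : ∀ l, ∑ j, D i j * M j l = (1 : Matrix (Fin c) (Fin c) κ) i l := fun l => by
    rw [← h, Matrix.mul_apply]
  calc ∑ j, algebraMap κ E (D i j) * ∑ l, algebraMap κ E (M j l) * x l
      = ∑ l, algebraMap κ E (∑ j, D i j * M j l) * x l := by
        simp only [Finset.mul_sum, map_sum, map_mul, Finset.sum_mul]
        rw [Finset.sum_comm]
        simp only [mul_assoc]
    _ = x i := by
        simp only [h1, Matrix.one_apply]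
        simp

theorem lch_eq (D : Matrix (Fin c) (Fin c) κ) (A : MvPolynomial (Fin c) κ) :
    lch D A = aeval (fun i => ∑ j, algebraMap κ (MvPolynomial (Fin c) κ) (D i j) * X j) A := rfl

theorem lch_lch {M D : Matrix (Fin c) (Fin c) κ} (h : D * M = 1) (A : MvPolynomial (Fin c) κ) :
    lch M (lch D A) = A := by
  rw [lch_eq M, aeval_lch D]
  have h1 : (fun i => ∑ j, algebraMap κ (MvPolynomial (Fin c) κ) (D i j) *
      ∑ l, algebraMap κ (MvPolynomial (Fin c) κ) (M j l) * X l) = (X : Fin c → MvPolynomial (Fin c) κ) :=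
    funext fun i => sum_sum h X i
  rw [h1, aeval_X_left_apply]

theorem totalDegree_lch_le (D : Matrix (Fin c) (Fin c) κ) (A : MvPolynomial (Fin c) κ) :
    (lch D A).totalDegree ≤ A.totalDegree := by
  classical
  have hF : ∀ i : Fin c, (∑ j, C (D i j) * (X j : MvPolynomial (Fin c) κ)).totalDegree ≤ 1 := by
    intro i
    refine totalDegree_finsetSum_le fun j _ => ?_
    refine (totalDegree_mul _ _).trans ?_
    rw [totalDegree_C, totalDegree_X, zero_add]
  have h0 : lch D A = bind₁ (fun i => ∑ j, C (D i j) * (X j : MvPolynomial (Fin c) κ)) A := rfl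
  rw [h0]
  conv_lhs => rw [A.as_sum]
  rw [map_sum]
  refine totalDegree_finsetSum_le fun m hm => ?_
  rw [bind₁_monomial]
  refine (totalDegree_mul _ _).trans ?_
  rw [totalDegree_C, zero_add]
  refine (totalDegree_finsetProd _ _).trans ?_
  calc ∑ i ∈ m.support, ((∑ j, C (D i j) * (X j : MvPolynomial (Fin c) κ)) ^ m i).totalDegree
      ≤ ∑ i ∈ m.support, m i * 1 := by
        refine Finset.sum_le_sum fun i _ => ?_
        exact (totalDegree_pow _ _).trans (Nat.mul_le_mul le_rfl (hF i))
    _ = ∑ i ∈ m.support, m i := by simp only [mul_one]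
    _ ≤ A.totalDegree := le_totalDegree hm

/-- Some derivative is not zero. -/
theorem exists_pd [IsAlgClosed κ] (P : MvPolynomial (Fin c) κ) (hP : Irreducible P) :
    ∃ i, pderiv i P ≠ 0 := by
  have hpr : (Ideal.span {P}).IsPrime := (Ideal.span_singleton_prime hP.ne_zero).mpr hP.prime
  let Ξ : Fin c → FractionRing (MvPolynomial (Fin c) κ ⧸ Ideal.span {P}) :=
    fun i => algebraMap (MvPolynomial (Fin c) κ ⧸ Ideal.span {P})
      (FractionRing (MvPolynomial (Fin c) κ ⧸ Ideal.span {P}))
      (Ideal.Quotient.mk (Ideal.span {P}) (X i))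
  have hker : ∀ A : MvPolynomial (Fin c) κ, aeval Ξ A = 0 ↔ P ∣ A := by
    intro A
    have h1 : aeval Ξ A = algebraMap (MvPolynomial (Fin c) κ ⧸ Ideal.span {P})
        (FractionRing (MvPolynomial (Fin c) κ ⧸ Ideal.span {P}))
        (Ideal.Quotient.mk (Ideal.span {P}) A) := by
      induction A using MvPolynomial.induction_on with
      | C c =>
        rw [aeval_C]
        rfl
      | add p q hp hq => rw [map_add, hp, hq, map_add, map_add]
      | mul_X p i hp => rw [map_mul, hp, aeval_X, map_mul, map_mul]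
    rw [h1, map_eq_zero_iff _ (IsFractionRing.injective (MvPolynomial (Fin c) κ ⧸ Ideal.span {P})
        (FractionRing (MvPolynomial (Fin c) κ ⧸ Ideal.span {P}))), Ideal.Quotient.eq_zero_iff_mem,
        Ideal.mem_span_singleton]
  refine Pool.Agent.Lib.MP_16285c_agS.Hrx.DomM.exists_pd Ξ P hP.ne_zero ((hker P).2 dvd_rfl) ?_
  intro R' hR' h0
  obtain ⟨G, rfl⟩ := (hker R').1 h0
  rw [totalDegree_mul_of_isDomain hP.ne_zero (right_ne_zero_of_mul hR')]
  exact Nat.le_add_right _ _

theorem deg_ne (P : MvPolynomial (Fin c) κ) (hP : Irreducible P) : P.totalDegree ≠ 0 := by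
  intro h0
  rw [totalDegree_eq_zero_iff_eq_C] at h0
  by_cases hc : coeff 0 P = 0
  · rw [hc, C_0] at h0
    exact hP.ne_zero h0
  · apply hP.not_isUnit
    rw [h0]
    exact (IsUnit.mk0 _ hc).map C

/-- The chain rule. -/
theorem chain (D : Matrix (Fin c) (Fin c) κ) (j : Fin c) (A : MvPolynomial (Fin c) κ) :
    pderiv j (lch D A) = lch D (∑ i, C (D i j) * pderiv i A) := by
  classical
  have hX : ∀ i, pderiv j (lch D (X i)) = C (D i j) := by
    intro i
    have : lch D (X i) = ∑ l, C (D i l) * (X l : MvPolynomial (Fin c) κ) := by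
      unfold lch
      rw [aeval_X]
    rw [this, map_sum, Finset.sum_eq_single j]
    · rw [pderiv_C_mul, pderiv_X_self, mul_one]
    · intro l _ hl
      rw [pderiv_C_mul, pderiv_X_of_ne hl, mul_zero]
    · intro h
      exact absurd (Finset.mem_univ j) h
  induction A using MvPolynomial.induction_on with
  | C a =>
    have e : lch D (C a) = C a := by
      unfold lch
      rw [aeval_C]
      rfl
    rw [e, pderiv_C]
    simp
  | add p q hp hq =>
    rw [map_add, map_add, hp, hq, ← map_add, ← Finset.sum_add_distrib]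
    congr 1
    exact Finset.sum_congr rfl fun i _ => by rw [map_add, mul_add]
  | mul_X p i hp =>
    have e : ∑ l, C (D l j) * pderiv l (p * X i) =
        (∑ l, C (D l j) * pderiv l p) * X i + p * C (D i j) := by
      have : ∀ l, C (D l j) * pderiv l (p * X i) = C (D l j) * pderiv l p * X i +
          (if l = i then p * C (D l j) else 0) := by
        intro l
        rw [pderiv_mul]
        by_cases h : l = i
        · subst h
          rw [pderiv_X_self, if_pos rfl]
          ring
        · rw [pderiv_X_of_ne (Ne.symm h), if_neg h]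
          ring
      rw [Finset.sum_congr rfl fun l _ => this l, Finset.sum_add_distrib, ← Finset.sum_mul]
      congr 1
      simp
    rw [e, map_mul, pderiv_mul, hp, hX i, map_add, map_mul, map_mul]
    congr 2
    unfold lch
    rw [aeval_C]
    rfl

/-- A matrix with given first column. -/
theorem exists_mat (v : Fin (c + 1) → κ) (i₀ : Fin (c + 1)) (hv : v i₀ ≠ 0) :
    ∃ M D : Matrix (Fin (c + 1)) (Fin (c + 1)) κ, M * D = 1 ∧ D * M = 1 ∧ ∀ i, D i 0 = v i := by
  classical
  let σ : Equiv.Perm (Fin (c + 1)) := Equiv.swap 0 i₀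
  let B : Matrix (Fin (c + 1)) (Fin (c + 1)) κ := (1 : Matrix _ _ κ).updateCol 0 (fun i => v (σ i))
  have hB : B.det = v i₀ := by
    have h1 : B.det = Matrix.cramer (1 : Matrix (Fin (c + 1)) (Fin (c + 1)) κ) (fun i => v (σ i)) 0 := by
      rw [Matrix.cramer_apply]
    rw [h1, Matrix.cramer_one]
    simp [σ]
  let D : Matrix (Fin (c + 1)) (Fin (c + 1)) κ := B.submatrix σ id
  have hD : IsUnit D.det := by
    have h1 : D.det = (Equiv.Perm.sign σ : κ) * B.det := Matrix.det_permute σ B
    rw [h1, hB]
    refine IsUnit.mul ?_ (IsUnit.mk0 _ hv)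
    exact ((Equiv.Perm.sign σ).isUnit.map (Int.castRingHom κ))
  refine ⟨D⁻¹, D, Matrix.nonsing_inv_mul _ hD, Matrix.mul_nonsing_inv _ hD, ?_⟩
  intro i
  simp [D, B, σ]

/-- The leading coefficient. -/
theorem coeff_lch (D : Matrix (Fin (c + 1)) (Fin (c + 1)) κ) (P : MvPolynomial (Fin (c + 1)) κ) (d : ℕ) :
    constantCoeff ((finSuccEquiv κ c (lch D P)).coeff d) =
      eval (fun i => D i 0) (homogeneousComponent d P) := by
  classical
  have h1 : ∀ A : MvPolynomial (Fin (c + 1)) κ,
      (finSuccEquiv κ c A).map (constantCoeff : MvPolynomial (Fin c) κ →+* κ) =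
        aeval (Fin.cons (Polynomial.X : Polynomial κ) (fun _ => 0) : Fin (c + 1) → Polynomial κ) A := by
    intro A
    induction A using MvPolynomial.induction_on with
    | C a =>
      rw [aeval_C]
      simp [finSuccEquiv_apply]
    | add p q hp hq => rw [map_add, Polynomial.map_add, hp, hq, map_add]
    | mul_X p i hp =>
      rw [map_mul, Polynomial.map_mul, hp, map_mul, aeval_X]
      congr 1
      refine Fin.cases ?_ (fun j => ?_) i
      · simp [finSuccEquiv_X_zero]
      · simp [finSuccEquiv_X_succ]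
  have h2 : constantCoeff ((finSuccEquiv κ c (lch D P)).coeff d) =
      ((finSuccEquiv κ c (lch D P)).map (constantCoeff : MvPolynomial (Fin c) κ →+* κ)).coeff d := by
    rw [Polynomial.coeff_map]
  rw [h2, h1, aeval_lch]
  have h3 : (fun i : Fin (c + 1) => ∑ j, algebraMap κ (Polynomial κ) (D i j) *
      (Fin.cons (Polynomial.X : Polynomial κ) (fun _ => 0) : Fin (c + 1) → Polynomial κ) j) =
      fun i => Polynomial.C (D i 0) * Polynomial.X := by
    funext i
    rw [Fin.sum_univ_succ]
    simp
  rw [h3]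
  clear h1 h2 h3
  induction P using MvPolynomial.induction_on' with
  | monomial m a =>
    rw [aeval_monomial, homogeneousComponent_of_mem (n := m.degree) ((mem_homogeneousSubmodule _ _).2
      (isHomogeneous_monomial a rfl))]
    have h4 : (m.prod fun i k => (Polynomial.C (D i 0) * Polynomial.X : Polynomial κ) ^ k) =
        Polynomial.C (m.prod fun i k => D i 0 ^ k) * Polynomial.X ^ m.degree := by
      simp only [Finsupp.prod, mul_pow, Finset.prod_mul_distrib, map_prod, map_pow]
      congr 1
      rw [Finset.prod_pow_eq_pow_sum]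
      rfl
    rw [h4, Polynomial.algebraMap_eq, ← mul_assoc, ← map_mul, Polynomial.coeff_C_mul_X_pow]
    by_cases h : d = m.degree
    · rw [if_pos h, if_pos h, eval_monomial]
    · rw [if_neg h, if_neg h, map_zero]
  | add p q hp hq => rw [map_add, Polynomial.coeff_add, hp, hq, map_add, map_add]

end NoeM

open NoeM

theorem tNoe : StmtNoe := by
  classical
  intro κ _ _ c P hP
  obtain ⟨i₁, hi₁⟩ := exists_pd P hP
  obtain ⟨m, hm⟩ : ∃ m, coeff m (pderiv i₁ P) ≠ 0 := by
    by_contra h
    push Not at h
    exact hi₁ (MvPolynomial.ext _ _ fun m => by rw [h m, coeff_zero])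
  set d := P.totalDegree with hd
  let Q : MvPolynomial (Fin (c + 1)) κ := homogeneousComponent d P
  let L : MvPolynomial (Fin (c + 1)) κ := ∑ i, C (coeff m (pderiv i P)) * X i
  have hQ : Q ≠ 0 := by
    obtain ⟨μ, hμ, hμd⟩ := Finset.exists_mem_eq_sup P.support (support_nonempty.2 hP.ne_zero)
      (fun s => s.sum fun _ e => e)
    intro h
    have h1 : coeff μ Q = coeff μ P := by
      simp only [Q]
      rw [coeff_homogeneousComponent, if_pos]
      exact hμd.symm
    rw [h, coeff_zero] at h1
    exact (mem_support_iff.1 hμ) h1.symm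
  have hL : ∀ v : Fin (c + 1) → κ, eval v L = coeff m (∑ i, C (v i) * pderiv i P) := by
    intro v
    simp only [L, map_sum, map_mul, eval_C, eval_X, coeff_sum, coeff_C_mul]
    exact Finset.sum_congr rfl fun i _ => mul_comm _ _
  have hL0 : L ≠ 0 := by
    intro h
    have h1 := hL (Pi.single i₁ 1)
    rw [h, map_zero, Finset.sum_eq_single i₁] at h1
    · apply hm
      rw [h1]
      simp
    · intro b _ hb
      simp [hb]
    · intro h
      exact absurd (Finset.mem_univ _) h
  obtain ⟨v, hv⟩ : ∃ v : Fin (c + 1) → κ, eval v (Q * L) ≠ 0 := by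
    by_contra h
    push Not at h
    exact mul_ne_zero hQ hL0 (MvPolynomial.funext fun v => by rw [h v, map_zero])
  rw [map_mul] at hv
  have hv1 := left_ne_zero_of_mul hv
  have hv2 := right_ne_zero_of_mul hv
  obtain ⟨i₀, hi₀⟩ : ∃ i, v i ≠ 0 := by
    by_contra h
    push Not at h
    apply hv2
    simp [L, h]
  obtain ⟨M, D, hMD, hDM, hDv⟩ := exists_mat v i₀ hi₀
  have hDv' : (fun i => D i 0) = v := funext hDv
  refine ⟨M, D, (eval v Q)⁻¹, hMD, hDM, inv_ne_zero hv1, ?_, ?_⟩
  · unfold Mon
    have hle : (finSuccEquiv κ c (lch D P)).natDegree ≤ d := by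
      rw [natDegree_finSuccEquiv]
      exact (degreeOf_le_totalDegree _ _).trans (totalDegree_lch_le D P)
    have hc : (finSuccEquiv κ c (lch D P)).coeff d = C (eval v Q) := by
      have h1 := coeff_lch D P d
      rw [hDv'] at h1
      by_cases h0 : (finSuccEquiv κ c (lch D P)).coeff d = 0
      · rw [h0, map_zero] at h1
        exact absurd h1.symm hv1
      · have h2 := totalDegree_coeff_finSuccEquiv_add_le (lch D P) d h0
        have h3 := totalDegree_lch_le D P
        have h4 : ((finSuccEquiv κ c (lch D P)).coeff d).totalDegree = 0 := by omega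
        rw [totalDegree_eq_zero_iff_eq_C] at h4
        rw [h4, ← constantCoeff_eq, h1]
    have e : finSuccEquiv κ c (C (eval v Q)⁻¹ * lch D P) =
        Polynomial.C (C (eval v Q)⁻¹) * finSuccEquiv κ c (lch D P) := by
      rw [map_mul]
      congr 1
      simp [finSuccEquiv_apply]
    rw [e]
    refine Polynomial.monic_of_natDegree_le_of_coeff_eq_one d ?_ ?_
    · exact (Polynomial.natDegree_C_mul_le _ _).trans hle
    · rw [Polynomial.coeff_C_mul, hc, ← C_mul, inv_mul_cancel₀ hv1, C_1]
  · have hne : lch D P ≠ 0 := by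
      intro h
      apply hP.ne_zero
      rw [← lch_lch hDM P, h, map_zero]
    have hp0 : pderiv 0 (lch D P) ≠ 0 := by
      rw [chain]
      intro h
      have h1 : ∑ i, C (D i 0) * pderiv i P = 0 := by
        rw [← lch_lch hDM (∑ i, C (D i 0) * pderiv i P), h, map_zero]
      have h2 : ∑ i, C (D i 0) * pderiv i P = ∑ i, C (v i) * pderiv i P :=
        Finset.sum_congr rfl fun i _ => by rw [hDv]
      rw [h2] at h1
      apply hv2
      rw [hL, h1, coeff_zero]
    have hlt := Pool.Agent.Lib.MP_16285c_agS.Hrx.DomM.deg_pderiv (lch D P) 0 hp0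
    rintro ⟨G, hG⟩
    have hG0 : G ≠ 0 := by
      rintro rfl
      rw [mul_zero] at hG
      exact hp0 hG
    rw [hG, totalDegree_mul_of_isDomain hne hG0] at hlt
    omega

end Pool.Agent.Lib.MP_16285c_agX
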