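import Pool.Agent.Lib.MP_16285c_agX.Hrn.AllN
import Pool.Agent.Lib.MP_16285c_agX.Hrn.BrtA
import Pool.Agent.Lib.MP_16285c_agX.Hrn.BrtB
import Pool.Agent.Lib.MP_16285c_agX.Hrn.BrtN
import Pool.Agent.Lib.MP_16285c_agX.Hrn.Last
import Pool.Agent.Lib.MP_16285c_agX.Hrn.Fun
import Pool.Agent.Lib.MP_16285c_agX.Hrn.FibN
import Pool.Agent.Lib.MP_16285c_agX.Hrn.Lch
import Pool.Agent.Lib.MP_16285c_agX.Hrn.Noe
import Pool.Agent.Lib.MP_16285c_agX.Hrn.Coo
import Pool.Agent.Lib.MP_16285c_agX.Hrn.HP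
import Pool.Agent.Lib.MP_16285c_agX.Hrn.Cone
import Pool.Agent.Lib.MP_16285c_agX.Hrn.ConeF
import Pool.Agent.Lib.MP_16285c_agX.Hrn.Hrun
import Pool.Agent.Lib.MP_16285c_agX.Hrn.DomJ

/-!
# Frobenius points of dominant rational self-maps of hypersurfaces, without hypotheses

Section A of note 4936 on `MP_16285c_ag`.
-/

set_option autoImplicit false

namespace Pool.Agent.Lib.MP_16285c_agX

theorem aBrtN : StmtBrtN := tBrtN (tBrtB tBrtA)

theorem aFibN : StmtFibN :=
  tFibN Pool.Agent.Lib.MP_16285c_agS.Bez.tGeo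
    (Pool.Agent.Lib.MP_16285c_agS.Bez.tBN1 Pool.Agent.Lib.MP_16285c_agS.Bez.aBN) tFun

theorem aCoo : StmtCoo := tCoo tFun aBrtN tLast aFibN tLch

theorem aHP : StmtHP := tHP aHP0 tNoe aCoo tLch

theorem aConeF : StmtConeF := tConeF tCone

/-- Points with `a ^ q = f(a)` outside `B = 0` on every irreducible hypersurface over the algebraic closure of a finite field, for every dominant rational
self-map `f` of it. -/
theorem aHrun : StmtHrun := tHrun aHP aConeF

theorem aDomJ : StmtDomJ := tDomJ tNm tFun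

end Pool.Agent.Lib.MP_16285c_agX
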