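import Pool.Agent.Lib.MP_16285c_agX.Hrn.Spec

/-!
# (N6) The curve `x_i ^ q = f_i` by the chain of norms
-/

set_option autoImplicit false

namespace Pool.Agent.Lib.MP_16285c_agX

open MP7Z MvPolynomial
open scoped IntermediateField
open Pool.Agent.Lib.MP_16285c_ag (RM FrobPt)
open Pool.Agent.Lib.MP_16285c_agZ.Hru (Zn Pn Sit SDer SSepH SPrd SBd SLoc SPn SRes SFld)
open Pool.Agent.Lib.MP_16285c_agS.Hrx (pl zr Wt StmtPnMv StmtRoot StmtMin StmtDim)

namespace CrvM

theorem exists_field (κ : Type) [Field κ] : ∃ (K : Type) (_ : Field K) (_ : Algebra κ K) (x₂ : K),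
    IsAlgClosed K ∧ Transcendental κ x₂ ∧ ∀ z : K, ∃ p : Polynomial (Polynomial κ), p ≠ 0 ∧
      (p.map (Polynomial.aeval x₂ : Polynomial κ →ₐ[κ] K).toRingHom).eval z = 0 := by
  refine ⟨AlgebraicClosure (FractionRing (Polynomial κ)), inferInstance, inferInstance,
    algebraMap (Polynomial κ) _ Polynomial.X, inferInstance, ?_, ?_⟩
  · have h1 : Transcendental κ (Polynomial.X : Polynomial κ) := Polynomial.transcendental_X κ
    have hinj : Function.Injective (IsScalarTower.toAlgHom κ (Polynomial κ)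
        (AlgebraicClosure (FractionRing (Polynomial κ)))) := by
      have h2 : (algebraMap (Polynomial κ) (AlgebraicClosure (FractionRing (Polynomial κ)))) =
          (algebraMap (FractionRing (Polynomial κ)) (AlgebraicClosure (FractionRing (Polynomial κ)))).comp
            (algebraMap (Polynomial κ) (FractionRing (Polynomial κ))) :=
        IsScalarTower.algebraMap_eq _ _ _
      have h3 : Function.Injective
          (algebraMap (Polynomial κ) (AlgebraicClosure (FractionRing (Polynomial κ)))) := by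
        rw [h2]
        exact (algebraMap (FractionRing (Polynomial κ))
          (AlgebraicClosure (FractionRing (Polynomial κ)))).injective.comp
          (IsFractionRing.injective (Polynomial κ) (FractionRing (Polynomial κ)))
      exact h3
    exact fun h => h1 ((isAlgebraic_algHom_iff _ hinj).1 h)
  · intro z
    have h1 : IsAlgebraic (FractionRing (Polynomial κ)) z := Algebra.IsAlgebraic.isAlgebraic z
    have h2 : IsAlgebraic (Polynomial κ) z :=
      (IsFractionRing.isAlgebraic_iff (Polynomial κ) (FractionRing (Polynomial κ)) _).2 h1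
    obtain ⟨p, hp, hpz⟩ := h2
    refine ⟨p, hp, ?_⟩
    have h3 : (Polynomial.aeval (algebraMap (Polynomial κ)
        (AlgebraicClosure (FractionRing (Polynomial κ))) Polynomial.X) :
        Polynomial κ →ₐ[κ] _).toRingHom = algebraMap (Polynomial κ) _ := by
      refine Polynomial.ringHom_ext (fun a => ?_) ?_
      · simp only [AlgHom.toRingHom_eq_coe, RingHom.coe_coe, Polynomial.aeval_C]
        rw [IsScalarTower.algebraMap_apply κ (Polynomial κ)]
        rfl
      · simp
    rw [h3, Polynomial.eval_map]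
    exact hpz

theorem sub_field {κ K : Type} [Field κ] [Field K] [Algebra κ K] {m : ℕ} (l : Fin m) (x₂ : K) (hx : Transcendental κ x₂)
    (halg : ∀ z : K, ∃ p : Polynomial (Polynomial κ), p ≠ 0 ∧
      (p.map (Polynomial.aeval x₂ : Polynomial κ →ₐ[κ] K).toRingHom).eval z = 0)
    (ξ : Fin m → K) (h2 : ξ l = x₂) :
    ∃ (L : Type) (_ : Field L) (_ : Algebra κ L) (ξ' : Fin m → L) (ι : L →ₐ[κ] K),
      (∀ i, ι (ξ' i) = ξ i) ∧ IsCurveField κ L ∧
      IntermediateField.adjoin κ (Set.range ξ') = ⊤ ∧ Transcendental κ (ξ' l) := by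
  set F : IntermediateField κ K := IntermediateField.adjoin κ (Set.range ξ) with hF
  have hmem : ∀ i, ξ i ∈ F := fun i => IntermediateField.subset_adjoin κ _ ⟨i, rfl⟩
  set ξ' : Fin m → F := fun i => ⟨ξ i, hmem i⟩ with hξ'
  have hadj : IntermediateField.adjoin κ (Set.range ξ') = ⊤ := by
    apply IntermediateField.lift_injective F
    rw [IntermediateField.lift_adjoin, IntermediateField.lift_top, ← Set.range_comp]
    rfl
  have hι : Function.Injective F.val := F.val.injective
  have htr : Transcendental κ (ξ' l) := by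
    intro h
    apply hx
    have h3 := (isAlgebraic_algHom_iff F.val hι).2 h
    have h4 : F.val (ξ' l) = x₂ := h2
    rwa [h4] at h3
  refine ⟨F, inferInstance, inferInstance, ξ', F.val, fun i => rfl, ⟨ξ' l, htr, ?_⟩, hadj, htr⟩
  have hint : ∀ z : F, IsIntegral κ⟮ξ' l⟯ z := by
    intro z
    obtain ⟨p, hp, hpz⟩ := halg (z : K)
    refine IsAlgebraic.isIntegral ⟨p.map (Polynomial.aeval
      (IntermediateField.AdjoinSimple.gen κ (ξ' l)) : Polynomial κ →ₐ[κ] κ⟮ξ' l⟯).toRingHom, ?_, ?_⟩
    · have hinj : Function.Injective (Polynomial.aeval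
          (IntermediateField.AdjoinSimple.gen κ (ξ' l)) : Polynomial κ →ₐ[κ] κ⟮ξ' l⟯).toRingHom := by
        have h5 : Transcendental κ (IntermediateField.AdjoinSimple.gen κ (ξ' l)) := by
          intro h6
          apply htr
          have h7 := (isAlgebraic_algHom_iff κ⟮ξ' l⟯.val κ⟮ξ' l⟯.val.injective).2 h6
          exact h7
        exact transcendental_iff_injective.1 h5
      exact (Polynomial.map_ne_zero_iff hinj).2 hp
    · apply hι
      rw [map_zero, Polynomial.aeval_def, Polynomial.eval₂_map]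
      have h8 := Polynomial.hom_eval₂ p ((algebraMap κ⟮ξ' l⟯ F).comp (Polynomial.aeval
        (IntermediateField.AdjoinSimple.gen κ (ξ' l)) : Polynomial κ →ₐ[κ] κ⟮ξ' l⟯).toRingHom)
        F.val.toRingHom z
      have h9 : (F.val.toRingHom).comp ((algebraMap κ⟮ξ' l⟯ F).comp (Polynomial.aeval
        (IntermediateField.AdjoinSimple.gen κ (ξ' l)) : Polynomial κ →ₐ[κ] κ⟮ξ' l⟯).toRingHom) =
        (Polynomial.aeval x₂ : Polynomial κ →ₐ[κ] K).toRingHom := by
        refine Polynomial.ringHom_ext (fun a => ?_) ?_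
        · simp only [AlgHom.toRingHom_eq_coe, RingHom.coe_comp, RingHom.coe_coe,
            Function.comp_apply, Polynomial.aeval_C]
          rfl
        · simp only [AlgHom.toRingHom_eq_coe, RingHom.coe_comp, RingHom.coe_coe,
            Function.comp_apply, Polynomial.aeval_X]
          exact h2
      rw [h9] at h8
      rw [Polynomial.eval_map] at hpz
      exact h8.trans hpz
  have hfd : FiniteDimensional κ⟮ξ' l⟯ (IntermediateField.adjoin κ⟮ξ' l⟯ (Set.range ξ')) :=
    IntermediateField.finiteDimensional_adjoin fun z _ => hint z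
  have htop : IntermediateField.adjoin κ⟮ξ' l⟯ (Set.range ξ') = ⊤ := by
    rw [← IntermediateField.restrictScalars_eq_top_iff (K := κ), eq_top_iff, ← hadj]
    exact IntermediateField.adjoin_le_iff.2 (IntermediateField.subset_adjoin κ⟮ξ' l⟯ _)
  rw [htop] at hfd
  exact Module.Finite.equiv (IntermediateField.topEquiv (F := κ⟮ξ' l⟯) (E := F)).toLinearEquiv


/-! ### The splitting off of the last variable -/

theorem spl_C {κ : Type} [Field κ] (c : ℕ) (a : κ) :
    spl c (C a : MvPolynomial (Fin (c + 1)) κ) = C (Polynomial.C a) := by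
  rw [spl, aeval_C, MvPolynomial.algebraMap_apply]
  rfl

theorem spl_cast {κ : Type} [Field κ] (c : ℕ) (i : Fin c) :
    spl c (X i.castSucc : MvPolynomial (Fin (c + 1)) κ) = X i := by
  rw [spl, aeval_X, Fin.snoc_castSucc]

theorem spl_last {κ : Type} [Field κ] (c : ℕ) :
    spl c (X (Fin.last c) : MvPolynomial (Fin (c + 1)) κ) = C Polynomial.X := by
  rw [spl, aeval_X, Fin.snoc_last]

theorem hom_ext {κ R : Type} [Field κ] [CommRing R] {c : ℕ} (α β : MvPolynomial (Fin (c + 1)) κ →+* R)
    (h1 : ∀ a, α (C a) = β (C a)) (h2 : ∀ i : Fin c, α (X i.castSucc) = β (X i.castSucc))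
    (h3 : α (X (Fin.last c)) = β (X (Fin.last c))) : α = β := by
  apply MvPolynomial.ringHom_ext h1
  intro i
  exact Fin.lastCases h3 h2 i

/-- `spl` commutes with ring homomorphisms of the coefficients -/
theorem map_spl {κ : Type} [Field κ] (φ : κ →+* κ) (c : ℕ) (A : MvPolynomial (Fin (c + 1)) κ) :
    map (Polynomial.mapRingHom φ) (spl c A) = spl c (map φ A) := by
  have h : (map (Polynomial.mapRingHom φ)).comp (spl (κ := κ) c).toRingHom =
      (spl (κ := κ) c).toRingHom.comp (map φ) := by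
    apply hom_ext
    · intro a
      change map (Polynomial.mapRingHom φ) (spl c (C a)) = spl c (map φ (C a))
      rw [spl_C, map_C, map_C, spl_C, Polynomial.coe_mapRingHom, Polynomial.map_C]
    · intro i
      change map (Polynomial.mapRingHom φ) (spl c (X i.castSucc)) = spl c (map φ (X i.castSucc))
      rw [spl_cast, map_X, map_X, spl_cast]
    · change map (Polynomial.mapRingHom φ) (spl c (X (Fin.last c))) = spl c (map φ (X (Fin.last c)))
      rw [spl_last, map_X, spl_last, map_C, Polynomial.coe_mapRingHom, Polynomial.map_X]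
  exact DFunLike.congr_fun h A

/-- evaluation of `spl` -/
theorem eval_spl {κ K : Type} [Field κ] [Field K] [Algebra κ K] (ι : Polynomial κ →ₐ[κ] K) (c : ℕ)
    (x : Fin c → K) (A : MvPolynomial (Fin (c + 1)) κ) :
    eval x (map (ι : Polynomial κ →+* K) (spl c A)) =
      aeval (Fin.snoc (α := fun _ => K) x (ι Polynomial.X)) A := by
  have h : ((eval x).comp (map (ι : Polynomial κ →+* K))).comp (spl (κ := κ) c).toRingHom =
      (aeval (Fin.snoc (α := fun _ => K) x (ι Polynomial.X)) : MvPolynomial (Fin (c + 1)) κ →ₐ[κ] K).toRingHom := by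
    apply hom_ext
    · intro a
      change eval x (map (ι : Polynomial κ →+* K) (spl c (C a))) = aeval _ (C a)
      rw [spl_C, map_C, eval_C, aeval_C]
      have h1 := ι.commutes a
      rw [← h1]
      rfl
    · intro i
      change eval x (map (ι : Polynomial κ →+* K) (spl c (X i.castSucc))) = aeval _ (X i.castSucc)
      rw [spl_cast, map_X, eval_X, aeval_X, Fin.snoc_castSucc]
    · change eval x (map (ι : Polynomial κ →+* K) (spl c (X (Fin.last c)))) = aeval _ (X (Fin.last c))
      rw [spl_last, map_C, eval_C, aeval_X, Fin.snoc_last]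
      rfl
  exact DFunLike.congr_fun h A

/-- substitution of the `g_i` in `spl` -/
theorem aeval_spl {κ : Type} [Field κ] {n : ℕ} (f : Fin (n + 2) → MvPolynomial (Fin (n + 2)) κ)
    (A : MvPolynomial (Fin (n + 1)) κ) :
    eval₂ (C : Polynomial κ →+* MvPolynomial (Fin (n + 1)) (Polynomial κ))
      (fun i : Fin n => spl (n + 1) (f (mid i))) (spl n A) = spl (n + 1) (aeval (mix f) A) := by
  have h : (eval₂Hom (C : Polynomial κ →+* MvPolynomial (Fin (n + 1)) (Polynomial κ))
      (fun i : Fin n => spl (n + 1) (f (mid i)))).comp (spl (κ := κ) n).toRingHom =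
      (spl (κ := κ) (n + 1)).toRingHom.comp (aeval (mix f)).toRingHom := by
    apply hom_ext
    · intro a
      change eval₂ C _ (spl n (C a)) = spl (n + 1) (aeval (mix f) (C a))
      rw [spl_C, eval₂_C, aeval_C, MvPolynomial.algebraMap_eq, spl_C]
    · intro i
      change eval₂ C _ (spl n (X i.castSucc)) = spl (n + 1) (aeval (mix f) (X i.castSucc))
      rw [spl_cast, eval₂_X, aeval_X, mix, Fin.snoc_castSucc]
    · change eval₂ C _ (spl n (X (Fin.last n))) = spl (n + 1) (aeval (mix f) (X (Fin.last n)))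
      rw [spl_last, eval₂_C, aeval_X, mix, Fin.snoc_last, lst, spl_last]
  exact DFunLike.congr_fun h A

/-- the polynomials of the chain are not zero -/
theorem step_ne (h2 : StmtNm) (h3 : StmtSpl) {κ : Type} [Field κ] {n : ℕ} (q : ℕ) (hq : 0 < q)
    (P : MvPolynomial (Fin (n + 2)) κ) (f : Fin (n + 2) → MvPolynomial (Fin (n + 2)) κ)
    (hP : Prime P) (hPm : Mon P) (hmix : ∀ A : MvPolynomial (Fin (n + 1)) κ, P ∣ aeval (mix f) A → A = 0)
    (B : MvPolynomial (Fin n) (Polynomial κ)) (hB : B ≠ 0) :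
    nm (spl (n + 1) P) (eval₂ ((C : Polynomial κ →+* MvPolynomial (Fin (n + 1)) (Polynomial κ)).comp
      (Polynomial.expand κ q : Polynomial κ →+* Polynomial κ)) (fun i : Fin n => spl (n + 1) (f (mid i))) B) ≠ 0 := by
  refine h2.2.1 (Polynomial κ) n _ _ ((h3 κ n).2.2.1 P hPm).1 ((h3 κ (n + 1)).2.2.2.1 P hP) ?_
  intro hdvd
  obtain ⟨A, hA⟩ := (h3 κ n).1.2 (map (Polynomial.expand κ q : Polynomial κ →+* Polynomial κ) B)
  rw [← eval₂_map, ← hA, aeval_spl] at hdvd
  obtain ⟨V, hV⟩ := hdvd
  obtain ⟨W, rfl⟩ := (h3 κ (n + 1)).1.2 V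
  rw [← map_mul] at hV
  have h5 := hmix A ⟨W, (h3 κ (n + 1)).1.1 hV⟩
  rw [h5, map_zero] at hA
  apply hB
  have h6 : Function.Injective (Polynomial.expand κ q : Polynomial κ →+* Polynomial κ) :=
    Polynomial.expand_injective hq
  exact map_injective _ h6 (by rw [← hA, map_zero])

/-! ### Congruences modulo the ideal -/

theorem pow_cong {R : Type} [CommRing R] (J : Ideal R) {a b : R} (h : a - b ∈ J) (m : ℕ) :
    a ^ m - b ^ m ∈ J := by
  rw [← Ideal.Quotient.eq] at h ⊢
  rw [map_pow, map_pow, h]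

theorem chain_cong {R : Type} [CommRing R] (J : Ideal R) (q : ℕ) (r : ℕ → R)
    (h : ∀ j, ∃ U, r (j + 1) - U * r j ^ q ∈ J) (j : ℕ) : ∃ V, r j - V * r 0 ^ q ^ j ∈ J := by
  induction j with
  | zero => exact ⟨1, by simp⟩
  | succ j ih =>
    obtain ⟨V, hV⟩ := ih
    obtain ⟨U, hU⟩ := h j
    refine ⟨U * V ^ q, ?_⟩
    have h1 := pow_cong J hV q
    have h2 := J.add_mem hU (J.mul_mem_left U h1)
    have h3 : r (j + 1) - U * r j ^ q + U * (r j ^ q - (V * r 0 ^ q ^ j) ^ q) =
        r (j + 1) - U * V ^ q * r 0 ^ q ^ (j + 1) := by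
      rw [mul_pow, ← pow_mul, ← pow_succ]
      ring
    rwa [h3] at h2

theorem map_Jq {R S : Type} [CommRing R] [CommRing S] (φ : R →+* S) {c : ℕ} (q : ℕ)
    (P : MvPolynomial (Fin (c + 1)) R) (g : Fin c → MvPolynomial (Fin (c + 1)) R)
    {A : MvPolynomial (Fin (c + 1)) R} (hA : A ∈ Jq q P g) :
    map φ A ∈ Jq q (map φ P) (fun i => map φ (g i)) := by
  have h1 : map φ A ∈ (Jq q P g).map (map φ) := Ideal.mem_map_of_mem _ hA
  rw [Jq, Ideal.map_span] at h1
  refine Ideal.span_mono ?_ h1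
  rintro _ ⟨y, hy, rfl⟩
  rcases Set.mem_insert_iff.1 hy with rfl | ⟨i, rfl⟩
  · exact Set.mem_insert _ _
  · refine Set.mem_insert_of_mem _ ⟨i, ?_⟩
    rw [map_sub, map_pow, map_X]

theorem finSucc_map {R S : Type} [CommRing R] [CommRing S] (φ : R →+* S) {c : ℕ}
    (P : MvPolynomial (Fin (c + 1)) R) :
    finSuccEquiv S c (map φ P) = (finSuccEquiv R c P).map (map φ) := by
  have h : (finSuccEquiv S c).toRingEquiv.toRingHom.comp (map φ) =
      (Polynomial.mapRingHom (map φ)).comp (finSuccEquiv R c).toRingEquiv.toRingHom := by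
    apply MvPolynomial.ringHom_ext
    · intro a
      change finSuccEquiv S c (map φ (C a)) = (finSuccEquiv R c (C a)).map (map φ)
      rw [map_C, finSuccEquiv_apply, finSuccEquiv_apply]
      simp
    · intro i
      change finSuccEquiv S c (map φ (X i)) = (finSuccEquiv R c (X i)).map (map φ)
      rw [map_X]
      refine Fin.cases ?_ (fun j => ?_) i
      · rw [finSuccEquiv_X_zero, finSuccEquiv_X_zero, Polynomial.map_X]
      · rw [finSuccEquiv_X_succ, finSuccEquiv_X_succ, Polynomial.map_C, map_X]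
  exact DFunLike.congr_fun h P

theorem mon_map {R S : Type} [CommRing R] [CommRing S] [Nontrivial S] (φ : R →+* S) {c : ℕ}
    {P : MvPolynomial (Fin (c + 1)) R} (hP : Mon P) : Mon (map φ P) ∧ dz (map φ P) = dz P := by
  refine ⟨?_, ?_⟩
  · rw [Mon, finSucc_map]
    exact hP.map _
  · rw [dz, dz, finSucc_map]
    exact hP.natDegree_map _

theorem dz_pos {κ : Type} [Field κ] {c : ℕ} {P : MvPolynomial (Fin (c + 1)) κ} (hPi : Irreducible P)
    (hPm : Mon P) : 1 ≤ dz P := by
  by_contra h
  have h1 : dz P = 0 := by omega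
  have h2 : finSuccEquiv κ c P = 1 := hPm.natDegree_eq_zero.1 h1
  have h3 : P = 1 := (finSuccEquiv κ c).injective (by rw [h2, map_one])
  exact hPi.not_isUnit (h3 ▸ isUnit_one)

/-- a point with `b ≠ 0` on the curve `P = 0`, `x_i ^ q = g_i` -/
theorem exists_pt (h1 : StmtStd) {K : Type} [Field K] [IsAlgClosed K] {n q : ℕ}
    (P : MvPolynomial (Fin (n + 1)) K) (g : Fin n → MvPolynomial (Fin (n + 1)) K)
    (hP : Mon P) (hd : 1 ≤ dz P) (hq : 1 ≤ q) (hdq : dz P ≤ q)
    (hg : ∀ i, (P.totalDegree + 1) * (g i).totalDegree < q) (b : MvPolynomial (Fin (n + 1)) K)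
    (hb : b ^ q ^ (n + 1) ∉ Jq q P g) :
    ∃ x : Fin (n + 1) → K, eval x P = 0 ∧ (∀ i : Fin n, x i.succ ^ q = eval x (g i)) ∧ eval x b ≠ 0 := by
  by_contra hcon
  push Not at hcon
  obtain ⟨hfin, hrk, -⟩ := h1 K n q P g hP hd hq hg
  have h2 : b ∈ (Jq q P g).radical := by
    rw [← vanishingIdeal_zeroLocus_eq_radical (K := K)]
    rw [mem_vanishingIdeal_iff]
    intro a ha
    rw [mem_zeroLocus_iff] at ha
    have h0 : ∀ G : MvPolynomial (Fin (n + 1)) K, aeval a G = eval a G := fun G => by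
      rw [← coe_aeval_eq_eval]; rfl
    rw [h0]
    refine hcon a ?_ fun i => ?_
    · have h3 := ha P (Ideal.subset_span (Set.mem_insert _ _))
      rwa [h0] at h3
    · have h3 := ha (X i.succ ^ q - g i) (Ideal.subset_span (Set.mem_insert_of_mem _ ⟨i, rfl⟩))
      rw [map_sub, map_pow, aeval_X, sub_eq_zero, h0] at h3
      exact h3
  have h3 : IsNilpotent (Ideal.Quotient.mk (Jq q P g) b) := by
    obtain ⟨k, hk⟩ := h2
    exact ⟨k, by rw [← map_pow]; exact Ideal.Quotient.eq_zero_iff_mem.2 hk⟩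
  have h4 := Pool.Agent.ZDO.pow_eq_zero_of_finrank (κ := K) _ h3 (q ^ (n + 1)) (hrk.trans (by
    rw [pow_succ, mul_comm]
    exact Nat.mul_le_mul le_rfl hdq))
  rw [← map_pow] at h4
  exact hb (Ideal.Quotient.eq_zero_iff_mem.1 h4)

end CrvM

open CrvM in
/-- (N6) -/
theorem tCrv (h1 : StmtStd) (h2 : StmtNm) (h3 : StmtSpl) (h4 : StmtStep) : StmtCrv := by
  intro κ _ _ p _ _ n P f hPi hPm hmix B' hB'
  have hPp : Prime P := hPi.prime
  obtain ⟨K, iK, iA, x₂, hKa, hx₂, halg⟩ := exists_field κ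
  set ι : Polynomial κ →ₐ[κ] K := Polynomial.aeval x₂ with hι
  have hιi : Function.Injective (ι : Polynomial κ →+* K) := transcendental_iff_injective.1 hx₂
  set P₀ := spl (n + 1) P with hP₀
  set g : Fin n → MvPolynomial (Fin (n + 1)) (Polynomial κ) := fun i => spl (n + 1) (f (mid i)) with hg
  obtain ⟨hP₀m, hP₀d⟩ := (h3 κ n).2.2.1 P hPm
  have hP₀t : P₀.totalDegree ≤ P.totalDegree := (h3 κ (n + 1)).2.1 P
  obtain ⟨hPKm, hPKd⟩ := mon_map (ι : Polynomial κ →+* K) hP₀m
  set D : ℕ := ∑ i : Fin n, (f (mid i)).totalDegree with hD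
  have hgD : ∀ i, (g i).totalDegree ≤ D := fun i =>
    ((h3 κ (n + 1)).2.1 (f (mid i))).trans
      (Finset.single_le_sum (f := fun i : Fin n => (f (mid i)).totalDegree)
        (fun _ _ => Nat.zero_le _) (Finset.mem_univ i))
  set e : ℕ := dz P with he
  have he1 : 1 ≤ e := dz_pos hPi hPm
  let Ds : ℕ → ℕ := fun j => Nat.rec (motive := fun _ => ℕ) B'.totalDegree
    (fun _ d => e * ((P.totalDegree + 1) * (d * D + e))) j
  refine ⟨Ds (n + 1) + e + (P.totalDegree + 1) * D + 1, fun s hs hqs hfP hfB hff => ?_⟩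
  set q : ℕ := p ^ s with hq
  -- the chain
  let B : ℕ → MvPolynomial (Fin n) (Polynomial κ) := fun j =>
    Nat.rec (motive := fun _ => MvPolynomial (Fin n) (Polynomial κ)) (spl n B')
      (fun _ b => nm P₀ (eval₂ ((C : Polynomial κ →+* MvPolynomial (Fin (n + 1)) (Polynomial κ)).comp
        (Polynomial.expand κ q : Polynomial κ →+* Polynomial κ)) g b)) j
  have hB0 : B 0 = spl n B' := rfl
  have hBs : ∀ j, B (j + 1) = nm P₀ (eval₂ ((C : Polynomial κ →+*
      MvPolynomial (Fin (n + 1)) (Polynomial κ)).comp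
        (Polynomial.expand κ q : Polynomial κ →+* Polynomial κ)) g (B j)) := fun j => rfl
  have hDs : ∀ j, Ds (j + 1) = e * ((P.totalDegree + 1) * (Ds j * D + e)) := fun j => rfl
  have hfP₀ : map (Polynomial.mapRingHom (iterateFrobenius κ p s)) P₀ = P₀ := by
    rw [hP₀, map_spl]
    exact congrArg _ hfP
  have hfg : ∀ i, map (Polynomial.mapRingHom (iterateFrobenius κ p s)) (g i) = g i := by
    intro i
    change map (Polynomial.mapRingHom (iterateFrobenius κ p s)) (spl (n + 1) (f (mid i))) =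
      spl (n + 1) (f (mid i))
    rw [map_spl]
    exact congrArg _ (hff _)
  have hind : ∀ j, map (Polynomial.mapRingHom (iterateFrobenius κ p s)) (B j) = B j ∧
      (B j).totalDegree ≤ Ds j ∧ B j ≠ 0 := by
    intro j
    induction j with
    | zero =>
      refine ⟨?_, (h3 κ n).2.1 B', ?_⟩
      · rw [hB0, map_spl]
        exact congrArg _ hfB
      · rw [hB0]
        intro h
        exact hB' ((h3 κ n).1.1 (by rw [h, map_zero]))
    | succ j ih =>
      obtain ⟨hj1, hj2, hj3⟩ := ih
      obtain ⟨-, h5, h6⟩ := h4 κ p n s D P₀ g (B j) hP₀m hfP₀ hfg hj1 hgD _ rfl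
      refine ⟨h5, h6.trans ?_, ?_⟩
      · rw [hDs, hP₀d]
        refine Nat.mul_le_mul le_rfl (Nat.mul_le_mul (by omega) ?_)
        exact Nat.add_le_add_right (Nat.mul_le_mul hj2 le_rfl) _
      · rw [hBs]
        exact step_ne h2 h3 q (by omega) P f hPp hPm hmix (B j) hj3
  obtain ⟨V, hV⟩ := chain_cong (Jq q P₀ g) q (fun j => rename Fin.succ (B j)) (fun j =>
    (h4 κ p n s D P₀ g (B j) hP₀m hfP₀ hfg (hind j).1 hgD _ rfl).1) (n + 1)
  -- a point
  obtain ⟨x, hxP, hxg, hxB⟩ := exists_pt h1 (q := q) (map (ι : Polynomial κ →+* K) P₀)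
    (fun i => map (ι : Polynomial κ →+* K) (g i)) hPKm (by rw [hPKd, hP₀d]; exact he1) (by omega)
    (by rw [hPKd, hP₀d]; omega) (fun i => by
      have h5 := Pool.Agent.ZDO.totalDegree_map_le (ι : Polynomial κ →+* K) P₀
      have h6 := Pool.Agent.ZDO.totalDegree_map_le (ι : Polynomial κ →+* K) (g i)
      refine lt_of_le_of_lt (Nat.mul_le_mul (Nat.add_le_add_right (h5.trans hP₀t) 1)
        (h6.trans (hgD i))) ?_
      omega) (map (ι : Polynomial κ →+* K) (rename Fin.succ (B 0))) (by
      intro h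
      have h5 := map_Jq (ι : Polynomial κ →+* K) q P₀ g hV
      rw [map_sub, map_mul, map_pow] at h5
      have h6 := (Jq q (map (ι : Polynomial κ →+* K) P₀)
        (fun i => map (ι : Polynomial κ →+* K) (g i))).add_mem h5
          (Ideal.mul_mem_left _ (map (ι : Polynomial κ →+* K) V) h)
      rw [sub_add_cancel, map_rename] at h6
      have h7 := (h1 K n q (map (ι : Polynomial κ →+* K) P₀)
        (fun i => map (ι : Polynomial κ →+* K) (g i)) hPKm (by rw [hPKd, hP₀d]; exact he1)
        (by omega) (fun i => by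
          have h5 := Pool.Agent.ZDO.totalDegree_map_le (ι : Polynomial κ →+* K) P₀
          have h6 := Pool.Agent.ZDO.totalDegree_map_le (ι : Polynomial κ →+* K) (g i)
          refine lt_of_le_of_lt (Nat.mul_le_mul (Nat.add_le_add_right (h5.trans hP₀t) 1)
            (h6.trans (hgD i))) ?_
          omega)).2.2 _ (by
            have h8 := Pool.Agent.ZDO.totalDegree_map_le (ι : Polynomial κ →+* K) (B (n + 1))
            have h9 := (hind (n + 1)).2.1
            omega) h6
      exact (hind (n + 1)).2.2 (map_injective _ hιi (by rw [h7, map_zero])))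
  -- the field
  obtain ⟨L, iL, iκL, ξ, ιL, hξ, hLc, hLtop, hLtr⟩ := sub_field (lst n) x₂ hx₂ halg
    (Fin.snoc (α := fun _ => K) x (ι Polynomial.X)) (by
      rw [lst, Fin.snoc_last, hι, Polynomial.aeval_X])
  have hιA : ∀ A : MvPolynomial (Fin (n + 2)) κ, ιL (aeval ξ A) =
      eval x (map (ι : Polynomial κ →+* K) (spl (n + 1) A)) := by
    intro A
    rw [comp_aeval_apply, eval_spl]
    have h8 : (fun i => ιL (ξ i)) = Fin.snoc (α := fun _ => K) x (ι Polynomial.X) := funext hξ
    rw [h8]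
  have hιLi : Function.Injective ιL := ιL.toRingHom.injective
  refine ⟨L, iL, iκL, ξ, hLc, hLtop, ⟨hLtr, ?_, ?_⟩, ?_⟩
  · apply hιLi
    rw [map_zero, hιA]
    exact hxP
  · intro i
    apply hιLi
    rw [map_pow, hξ, hιA]
    have h8 : Fin.snoc (α := fun _ => K) x (ι Polynomial.X) (mid i) = x i.succ := by
      have h9 : mid i = i.succ.castSucc := rfl
      rw [h9, Fin.snoc_castSucc]
    rw [h8]
    exact hxg i
  · intro h
    apply hxB
    rw [hB0, (h3 κ n).2.2.2.2, ← hιA, aeval_rename]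
    have h8 : (ξ ∘ Fin.succ : Fin (n + 1) → L) = fun i => ξ (Fin.succ i) := rfl
    rw [h8, h, map_zero]

end Pool.Agent.Lib.MP_16285c_agX
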