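import Pool.Agent.Lib.MP_16285c_agX.Hrn.Spec

/-!
# `g = ξ_(n+1) ^ q - f_(n+1)(ξ)` is not zero and `Pn (ξ_(n+1)) ≥ 1` (N9)

A transcendental element has a pole (`MP7Z.exists_const_of_nonneg`), so the number of poles is at least
one, and at such a place the order of `g` is negative.
-/

set_option autoImplicit false

namespace Pool.Agent.Lib.MP_16285c_agX

open MP7Z MvPolynomial
open scoped IntermediateField
open Pool.Agent.Lib.MP_16285c_ag (RM FrobPt)
open Pool.Agent.Lib.MP_16285c_agZ.Hru (Zn Pn Sit SDer SSepH SPrd SBd SLoc SPn SRes SFld)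
open Pool.Agent.Lib.MP_16285c_agS.Hrx (pl zr Wt StmtPnMv StmtRoot StmtMin StmtDim)

namespace G0M

section

variable {k E : Type} [Field k] [Field E] [Algebra k E]

private theorem oz_zero (v : Place k E) : v.oz (0 : E) = 0 := by
  unfold Place.oz
  simp

variable [IsAlgClosed k] [IsCurveField k E]

private theorem supp_oz (h : E) : {v : Place k E | v.oz h ≠ 0}.Finite := by
  rcases eq_or_ne h 0 with rfl | h0
  · have : {v : Place k E | v.oz (0 : E) ≠ 0} = ∅ := by
      ext v
      simp [oz_zero]
    rw [this]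
    exact Set.finite_empty
  · refine (finite_ord_ne h0).subset ?_
    intro v hv h1
    apply hv
    have h3 := v.ord_eq h0
    rw [h1] at h3
    exact (WithTop.coe_inj.1 h3.symm)

/-- A transcendental element has a pole. -/
theorem exists_pole {y : E} (hy : Transcendental k y) : ∃ v : Place k E, 0 < pl v y := by
  by_contra hcon
  push Not at hcon
  have hy0 : y ≠ 0 := by
    rintro rfl
    exact hy isAlgebraic_zero
  have h1 : ∀ v : Place k E, 0 ≤ v.ord y := by
    intro v
    have h2 := hcon v
    unfold pl at h2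
    have h3 : -(v.oz y) ≤ 0 := (le_max_left _ _).trans h2
    have h4 : 0 ≤ v.oz y := by linarith
    rw [v.ord_eq hy0]
    exact_mod_cast h4
  obtain ⟨c, hc⟩ := exists_const_of_nonneg h1
  exact hy (hc ▸ isAlgebraic_algebraMap c)

/-- One pole gives `Pn ≥ 1`. -/
theorem one_le_Pn {y : E} (v : Place k E) (hv : 0 < pl v y) : 1 ≤ Pn k y := by
  have hfin : (Function.support fun w : Place k E => max (-(w.oz y)) 0).Finite := by
    refine (supp_oz y).subset ?_
    intro w hw h0
    rw [Function.mem_support] at hw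
    apply hw
    rw [h0]
    simp
  have h1 : pl v y ≤ Pn k y := by
    unfold pl Pn
    exact single_le_finsum v hfin (fun w => le_max_right _ _)
  have h2 : 1 ≤ pl v y := hv
  exact h2.trans h1

end

end G0M

open G0M in
/-- (N9) -/
theorem tG0 : StmtHt → StmtSit → SDer → SPrd → StmtG0 := by
  intro hHt _ _ _ κ _ _ n P f hmon hdz
  obtain ⟨C, q₀, hH⟩ := hHt κ n P f hmon hdz
  refine ⟨q₀, ?_⟩
  intro L _ _ _ ξ q hCv hq hq1
  obtain ⟨v, hv⟩ := exists_pole hCv.tr
  refine ⟨?_, one_le_Pn v hv⟩
  intro h0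
  have h1 := (hH L ξ q hCv hq v).2.2.2.2 hv
  rw [h0, oz_zero] at h1
  have h2 : (1 : ℤ) ≤ q := by exact_mod_cast hq1
  nlinarith

end Pool.Agent.Lib.MP_16285c_agX
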