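import Pool.Agent.Lib.MP_16285c_agX.Hrn.Spec

/-!
# Poles at a place (N8)
-/

set_option autoImplicit false

namespace Pool.Agent.Lib.MP_16285c_agX

open MP7Z MvPolynomial
open scoped IntermediateField
open Pool.Agent.Lib.MP_16285c_agS.Hrx (pl zr Wt StmtPnMv StmtRoot StmtMin StmtDim)

namespace HtM

section place

variable {k E : Type} [Field k] [Field E] [Algebra k E]

private theorem oz_zero (v : Place k E) : v.oz (0 : E) = 0 := by
  unfold Place.oz
  simp

variable [IsAlgClosed k]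

private theorem coe_oz_le (v : Place k E) (g : E) : ((v.oz g : ℤ) : WithTop ℤ) ≤ v.ord g := by
  rcases eq_or_ne g 0 with rfl | hg
  · simp
  · rw [v.ord_eq hg]

omit [IsAlgClosed k] in
private theorem pl_nonneg (v : Place k E) (g : E) : 0 ≤ pl v g := le_max_right _ _

omit [IsAlgClosed k] in
private theorem neg_pl_le (v : Place k E) (g : E) : -(pl v g) ≤ v.oz g := by
  have h : -(v.oz g) ≤ pl v g := le_max_left _ _
  omega

private theorem neg_pl_le_ord (v : Place k E) (g : E) : ((-(pl v g) : ℤ) : WithTop ℤ) ≤ v.ord g :=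
  (WithTop.coe_le_coe.2 (neg_pl_le v g)).trans (coe_oz_le v g)

/-- Lower bound for the order of a power. -/
private theorem ord_pow_ge (v : Place k E) (g : E) (j : ℕ) :
    ((-((j : ℤ) * pl v g) : ℤ) : WithTop ℤ) ≤ v.ord (g ^ j) := by
  induction j with
  | zero => simp
  | succ j ih =>
    rw [pow_succ, AddValuation.map_mul]
    have h1 : ((-(((j + 1 : ℕ) : ℤ) * pl v g) : ℤ) : WithTop ℤ) =
        ((-((j : ℤ) * pl v g) : ℤ) : WithTop ℤ) + ((-(pl v g) : ℤ) : WithTop ℤ) := by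
      rw [← WithTop.coe_add]
      congr 1
      push_cast
      ring
    rw [h1]
    exact add_le_add ih (neg_pl_le_ord v g)

/-- The pole of a root of a monic polynomial. -/
private theorem root_pole (v : Place k E) (n : ℕ) (c : ℕ → E) (y : E) (M : ℤ) (hM : 0 ≤ M)
    (hc : ∀ j, pl v (c j) ≤ M) (hy : y ^ n = -∑ j ∈ Finset.range n, c j * y ^ j) : pl v y ≤ M := by
  by_contra hcon
  push Not at hcon
  set a := pl v y with ha
  have ha0 : 0 < a := by omega
  have hoz : v.oz y = -a := by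
    have h1 : a = max (-(v.oz y)) 0 := ha
    omega
  have hy0 : y ≠ 0 := by
    rintro rfl
    rw [oz_zero] at hoz
    omega
  have h1 : v.ord (y ^ n) = (((n : ℤ) * (-a) : ℤ) : WithTop ℤ) := by
    rw [v.ord_eq_pord (pow_ne_zero n hy0), v.pord_pow hy0]
    have : v.pord y = -a := hoz
    rw [this]
  have h2 : ((-(M + ((n : ℤ) - 1) * a) : ℤ) : WithTop ℤ) ≤ v.ord (y ^ n) := by
    rw [hy, AddValuation.map_neg]
    apply AddValuation.map_le_sum
    intro j hj
    have hj' : (j : ℤ) ≤ (n : ℤ) - 1 := by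
      have := Finset.mem_range.1 hj
      omega
    rw [AddValuation.map_mul]
    have h3 : ((-(M + ((n : ℤ) - 1) * a) : ℤ) : WithTop ℤ) ≤
        ((-(pl v (c j)) : ℤ) : WithTop ℤ) + ((-((j : ℤ) * a) : ℤ) : WithTop ℤ) := by
      rw [← WithTop.coe_add]
      apply WithTop.coe_le_coe.2
      have h4 := hc j
      nlinarith
    exact h3.trans (add_le_add (neg_pl_le_ord v (c j)) (ord_pow_ge v y j))
  rw [h1] at h2
  have h3 := WithTop.coe_le_coe.1 h2
  nlinarith

/-- The pole of a power. -/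
private theorem mul_pl_le (v : Place k E) (y : E) (q : ℕ) : (q : ℤ) * pl v y ≤ pl v (y ^ q) := by
  rcases eq_or_ne y 0 with rfl | hy0
  · have h1 : pl v (0 : E) = 0 := by
      unfold pl
      rw [oz_zero]
      simp
    rw [h1, mul_zero]
    exact pl_nonneg v _
  · have h1 : v.oz (y ^ q) = (q : ℤ) * v.oz y := v.pord_pow hy0 q
    have h2 : (q : ℤ) * pl v y = max (-(v.oz (y ^ q))) 0 := by
      unfold pl
      rw [h1, mul_max_of_nonneg _ _ (Int.natCast_nonneg q), mul_zero, mul_neg]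
    rw [h2]
    rfl

/-- The order of a difference at a pole. -/
private theorem oz_sub (v : Place k E) (y w : E) (q : ℕ) (hy : 0 < pl v y) (hw : pl v w < (q : ℤ) * pl v y) :
    v.oz (y ^ q - w) = -((q : ℤ) * pl v y) := by
  have hoz : v.oz y = -(pl v y) := by
    have h1 : pl v y = max (-(v.oz y)) 0 := rfl
    omega
  have hy0 : y ≠ 0 := by
    rintro rfl
    rw [oz_zero] at hoz
    omega
  have h1 : v.ord (y ^ q) = ((-((q : ℤ) * pl v y) : ℤ) : WithTop ℤ) := by
    rw [v.ord_eq_pord (pow_ne_zero q hy0), v.pord_pow hy0]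
    have : v.pord y = -(pl v y) := hoz
    rw [this, mul_neg]
  have h2 : v.ord (y ^ q) < v.ord w := by
    rw [h1]
    refine lt_of_lt_of_le (WithTop.coe_lt_coe.2 ?_) (neg_pl_le_ord v w)
    omega
  have h3 : v.ord (y ^ q - w) = ((-((q : ℤ) * pl v y) : ℤ) : WithTop ℤ) := by
    rw [AddValuation.map_sub_eq_of_lt_left v.ord h2, h1]
  have h4 : y ^ q - w ≠ 0 := by
    intro h0
    rw [h0, AddValuation.map_zero] at h3
    exact WithTop.top_ne_coe h3
  have h5 := v.ord_eq h4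
  rw [h3] at h5
  exact (WithTop.coe_inj.1 h5).symm

end place

/-- The value of a polynomial in terms of its coefficients with respect to the first variable. -/
private theorem aeval_eq {κ L : Type} [Field κ] [Field L] [Algebra κ L] {c : ℕ} (P : MvPolynomial (Fin (c + 1)) κ)
    (ξ : Fin (c + 1) → L) :
    aeval ξ P = ∑ j ∈ Finset.range ((finSuccEquiv κ c P).natDegree + 1),
      aeval (fun i : Fin c => ξ i.succ) ((finSuccEquiv κ c P).coeff j) * ξ 0 ^ j := by
  have h1 : aeval ξ P = Polynomial.eval₂ (aeval (fun i : Fin c => ξ i.succ) : MvPolynomial (Fin c) κ →ₐ[κ] L).toRingHom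
      (ξ 0) (finSuccEquiv κ c P) := by
    have h2 : (aeval ξ : MvPolynomial (Fin (c + 1)) κ →ₐ[κ] L).toRingHom =
        (Polynomial.eval₂RingHom (aeval (fun i : Fin c => ξ i.succ) : MvPolynomial (Fin c) κ →ₐ[κ] L).toRingHom
          (ξ 0)).comp (finSuccEquiv κ c).toRingEquiv.toRingHom := by
      apply MvPolynomial.ringHom_ext
      · intro r
        simp [finSuccEquiv_apply]
      · intro i
        refine Fin.cases ?_ (fun i => ?_) i
        · simp [finSuccEquiv_X_zero]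
        · simp [finSuccEquiv_X_succ]
    exact RingHom.congr_fun h2 P
  rw [h1, Polynomial.eval₂_eq_sum_range]
  rfl

/-- The pole of `ξ 0`. -/
private theorem pole_zero (hPn : StmtPnMv) {κ L : Type} [Field κ] [IsAlgClosed κ] [Field L] [Algebra κ L]
    [IsCurveField κ L] {c : ℕ} (P : MvPolynomial (Fin (c + 1)) κ) (hmon : Mon P) (ξ : Fin (c + 1) → L)
    (hP : aeval ξ P = 0) (v : Place κ L) :
    pl v (ξ 0) ≤ P.totalDegree * ∑ i : Fin c, pl v (ξ i.succ) := by
  set F := finSuccEquiv κ c P with hF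
  set t : Fin c → L := fun i => ξ i.succ with ht
  have hS : 0 ≤ ∑ i : Fin c, pl v (ξ i.succ) := Finset.sum_nonneg fun i _ => pl_nonneg v _
  refine root_pole v F.natDegree (fun j => aeval t (F.coeff j)) (ξ 0) _
    (mul_nonneg (Int.natCast_nonneg _) hS) ?_ ?_
  · intro j
    have h1 := (hPn κ L c t (F.coeff j)).1 v
    refine h1.trans (mul_le_mul_of_nonneg_right ?_ hS)
    rcases eq_or_ne (F.coeff j) 0 with h0 | h0
    · rw [h0, totalDegree_zero]
      exact_mod_cast Nat.zero_le _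
    · have h2 : (F.coeff j).totalDegree + j ≤ P.totalDegree := totalDegree_coeff_finSuccEquiv_add_le P j h0
      have h3 : (F.coeff j).totalDegree ≤ P.totalDegree := by omega
      exact_mod_cast h3
  · have h1 := aeval_eq P ξ
    rw [hP, Finset.sum_range_succ] at h1
    have h2 : F.coeff F.natDegree = 1 := hmon
    rw [← hF, h2, map_one, one_mul] at h1
    exact eq_neg_of_add_eq_zero_right h1.symm

/-- The inequality between the two sums. -/
private theorem sig_le (n C₁ q σ ℓ : ℤ) (hn : 0 ≤ n) (hC : 0 ≤ C₁) (hℓ : 0 ≤ ℓ)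
    (hq : 2 * (n + 1) * C₁ + 1 ≤ q) (h : q * σ ≤ n * C₁ * (σ + ℓ)) : σ ≤ ℓ := by
  by_contra hcon
  push Not at hcon
  have hσ : 0 < σ := lt_of_le_of_lt hℓ hcon
  have h1 : (2 * (n + 1) * C₁ + 1) * σ ≤ q * σ := mul_le_mul_of_nonneg_right hq hσ.le
  have h2 : n * C₁ * (σ + ℓ) ≤ n * C₁ * (2 * σ) :=
    mul_le_mul_of_nonneg_left (by linarith) (mul_nonneg hn hC)
  have h3 : 0 ≤ C₁ * σ := mul_nonneg hC hσ.le
  nlinarith

end HtM

open HtM

theorem tHt : StmtPnMv → StmtHt := by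
  intro hPn κ _ _ n P f hmon _
  set m : ℕ := P.totalDegree with hm
  set C₁ : ℕ := (1 + m) * ∑ j, (f j).totalDegree with hC₁
  refine ⟨2 * C₁, 2 * (n + 1) * C₁ + 1, ?_⟩
  intro L _ _ _ ξ q hC hq v
  set μ : ℤ := ∑ i : Fin (n + 1), pl v (ξ i.succ) with hμ
  set ℓ : ℤ := pl v (ξ (lst n)) with hℓ
  set σ : ℤ := ∑ i : Fin n, pl v (ξ (mid i)) with hσ
  have hℓ0 : 0 ≤ ℓ := pl_nonneg v _
  have hσ0 : 0 ≤ σ := Finset.sum_nonneg fun i _ => pl_nonneg v _
  have hμe : μ = σ + ℓ := by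
    rw [hμ, Fin.sum_univ_castSucc]
    rfl
  have hμ0 : 0 ≤ μ := by omega
  have hm0 : (0 : ℤ) ≤ m := Int.natCast_nonneg _
  have hC0 : (0 : ℤ) ≤ C₁ := Int.natCast_nonneg _
  have hn0 : (0 : ℤ) ≤ n := Int.natCast_nonneg _
  have h0 : pl v (ξ 0) ≤ (m : ℤ) * μ := pole_zero hPn P hmon ξ hC.hP v
  have hA : ∀ A : MvPolynomial (Fin (n + 2)) κ, pl v (aeval ξ A) ≤ A.totalDegree * ((1 + m) * μ) := by
    intro A
    refine ((hPn κ L (n + 2) ξ A).1 v).trans (mul_le_mul_of_nonneg_left ?_ (Int.natCast_nonneg _))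
    rw [Fin.sum_univ_succ, ← hμ]
    linarith
  have hf : ∀ j, pl v (aeval ξ (f j)) ≤ C₁ * μ := by
    intro j
    refine (hA (f j)).trans ?_
    have h1 : (f j).totalDegree ≤ ∑ j, (f j).totalDegree :=
      Finset.single_le_sum (f := fun j => (f j).totalDegree) (fun _ _ => Nat.zero_le _) (Finset.mem_univ j)
    have h2 : (((f j).totalDegree : ℕ) : ℤ) ≤ ((∑ j, (f j).totalDegree : ℕ) : ℤ) := by exact_mod_cast h1
    have h3 : (0 : ℤ) ≤ (1 + m) * μ := mul_nonneg (by linarith) hμ0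
    calc (((f j).totalDegree : ℕ) : ℤ) * ((1 + m) * μ) ≤ ((∑ j, (f j).totalDegree : ℕ) : ℤ) * ((1 + m) * μ) :=
          mul_le_mul_of_nonneg_right h2 h3
      _ = C₁ * μ := by
          rw [hC₁]
          push_cast
          ring
  have hmid : ∀ i : Fin n, (q : ℤ) * pl v (ξ (mid i)) ≤ C₁ * μ := by
    intro i
    refine (mul_pl_le v (ξ (mid i)) q).trans ?_
    rw [hC.hf i]
    exact hf _
  have hqσ : (q : ℤ) * σ ≤ n * C₁ * (σ + ℓ) := by
    rw [← hμe, hσ, Finset.mul_sum]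
    calc ∑ i : Fin n, (q : ℤ) * pl v (ξ (mid i)) ≤ ∑ _i : Fin n, (C₁ : ℤ) * μ :=
          Finset.sum_le_sum fun i _ => hmid i
      _ = n * C₁ * μ := by
          rw [Finset.sum_const, Finset.card_univ, Fintype.card_fin, nsmul_eq_mul]
          ring
  have hqC : (2 * ((n : ℤ) + 1) * C₁ + 1) ≤ q := by exact_mod_cast hq
  have hσℓ : σ ≤ ℓ := sig_le n C₁ q σ ℓ hn0 hC0 hℓ0 hqC hqσ
  have hμ2 : μ ≤ 2 * ℓ := by omega
  have hCμ : (C₁ : ℤ) * μ ≤ 2 * C₁ * ℓ := by
    have := mul_le_mul_of_nonneg_left hμ2 hC0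
    linarith
  refine ⟨h0, hσℓ, ?_, ?_, ?_⟩
  · intro i
    refine (hmid i).trans ?_
    push_cast
    exact hCμ
  · intro A
    refine (hA A).trans ?_
    have h1 : (1 + (m : ℤ)) * μ ≤ (1 + m) * (2 * ℓ) := mul_le_mul_of_nonneg_left hμ2 (by linarith)
    have h2 := mul_le_mul_of_nonneg_left h1 (Int.natCast_nonneg A.totalDegree)
    refine h2.trans (le_of_eq ?_)
    ring
  · intro hpos
    refine oz_sub v _ _ q hpos (lt_of_le_of_lt ((hf _).trans hCμ) ?_)
    have h1 : (2 * (C₁ : ℤ) + 1) * ℓ ≤ q * ℓ := by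
      refine mul_le_mul_of_nonneg_right (le_trans ?_ hqC) hℓ0
      have : 0 ≤ (n : ℤ) * C₁ := mul_nonneg hn0 hC0
      nlinarith
    have h2 : 0 < ℓ := hpos
    linarith

end Pool.Agent.Lib.MP_16285c_agX
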