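import Pool.Agent.Lib.MP_16285c_agX.Hrn.Spec
import Pool.Agent.ZDO.Hru

/-!
# Nilpotency (`StmtNilp`)

As `frob_points` in `Pool/Agent/ZDO/Hru.lean`, for the hypersurface `P = 0`.
-/

set_option autoImplicit false

namespace Pool.Agent.Lib.MP_16285c_agX

open MvPolynomial

namespace NilpM

variable {κ : Type} [Field κ] {c : ℕ}

theorem le_Jf (q : ℕ) (P : MvPolynomial (Fin (c + 1)) κ)
    (f : Fin (c + 1) → MvPolynomial (Fin (c + 1)) κ) : Jq q P (fun i => f i.succ) ≤ Jf q P f := by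
  unfold Jq Jf
  refine Ideal.span_mono (Set.insert_subset_insert ?_)
  rintro _ ⟨i, rfl⟩
  exact ⟨i.succ, rfl⟩

theorem fin_Jf (q N : ℕ) (P : MvPolynomial (Fin (c + 1)) κ)
    (f : Fin (c + 1) → MvPolynomial (Fin (c + 1)) κ)
    (h1 : Module.Finite κ (MvPolynomial (Fin (c + 1)) κ ⧸ Jq q P fun i => f i.succ))
    (h2 : Module.finrank κ (MvPolynomial (Fin (c + 1)) κ ⧸ Jq q P fun i => f i.succ) ≤ N) :
    Module.Finite κ (MvPolynomial (Fin (c + 1)) κ ⧸ Jf q P f) ∧
      Module.finrank κ (MvPolynomial (Fin (c + 1)) κ ⧸ Jf q P f) ≤ N := by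
  have hs : Function.Surjective
      (Ideal.Quotient.factorₐ κ (le_Jf q P f)).toLinearMap := by
    intro x
    obtain ⟨y, rfl⟩ := Ideal.Quotient.mk_surjective x
    exact ⟨Ideal.Quotient.mk _ y, rfl⟩
  exact ⟨Module.Finite.of_surjective _ hs, (LinearMap.finrank_le_finrank_of_surjective hs).trans h2⟩

theorem frob (p : ℕ) [Fact p.Prime] [CharP κ p] (s : ℕ) (P : MvPolynomial (Fin (c + 1)) κ)
    (f : Fin (c + 1) → MvPolynomial (Fin (c + 1)) κ) (G : MvPolynomial (Fin (c + 1)) κ)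
    (hG : Fx p s G) :
    Ideal.Quotient.mk (Jf (p ^ s) P f) G ^ p ^ s =
      Ideal.Quotient.mk (Jf (p ^ s) P f) (bind₁ f G) := by
  have h5 : G ^ p ^ s = bind₁ (fun i => X i ^ p ^ s) G := by
    have h6 := map_iterateFrobenius_expand p G s
    rw [map_expand, hG] at h6
    rw [← h6, expand]
  rw [← map_pow, h5]
  have h6 : (Ideal.Quotient.mkₐ κ (Jf (p ^ s) P f)).comp (bind₁ fun i => X i ^ p ^ s) =
      (Ideal.Quotient.mkₐ κ (Jf (p ^ s) P f)).comp (bind₁ f) := by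
    ext i
    rw [AlgHom.comp_apply, AlgHom.comp_apply, bind₁_X_right, bind₁_X_right]
    rw [Ideal.Quotient.mkₐ_eq_mk, Ideal.Quotient.eq]
    exact Ideal.subset_span (Set.mem_insert_of_mem _ (Set.mem_range_self i))
  exact DFunLike.congr_fun h6 G

end NilpM

open NilpM in
/-- (N3) Nilpotency. -/
theorem tNilp : StmtStd → StmtNilp := by
  intro hStd κ _ _ p _ _ c s P B f hM hd1 hdq hdeg hB hf hcon
  have hq1 : 1 ≤ p ^ s := hd1.trans hdq
  obtain ⟨hfin, hrk, -⟩ := hStd κ c (p ^ s) P (fun i => f i.succ) hM hd1 hq1 (fun i => hdeg i.succ)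
  have hN : Module.finrank κ
      (MvPolynomial (Fin (c + 1)) κ ⧸ Jq (p ^ s) P fun i => f i.succ) ≤ (p ^ s) ^ (c + 1) := by
    refine hrk.trans ?_
    rw [pow_succ', mul_comm (p ^ s)]
    calc dz P * (p ^ s) ^ c ≤ p ^ s * (p ^ s) ^ c := Nat.mul_le_mul_right _ hdq
      _ = (p ^ s) ^ c * p ^ s := mul_comm _ _
  obtain ⟨hfin', hrk'⟩ := fin_Jf (p ^ s) ((p ^ s) ^ (c + 1)) P f hfin hN
  have h1 : B ∈ (Jf (p ^ s) P f).radical := by
    rw [← vanishingIdeal_zeroLocus_eq_radical (K := κ)]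
    rw [mem_vanishingIdeal_iff]
    intro a ha
    rw [mem_zeroLocus_iff] at ha
    have h0 : ∀ G : MvPolynomial (Fin (c + 1)) κ, aeval a G = eval a G := fun G => by
      rw [← coe_aeval_eq_eval]; rfl
    rw [h0]
    refine hcon a ?_ fun i => ?_
    · have h2 := ha P (Ideal.subset_span (Set.mem_insert _ _))
      rw [h0] at h2
      exact h2
    · have h2 := ha (X i ^ p ^ s - f i)
        (Ideal.subset_span (Set.mem_insert_of_mem _ (Set.mem_range_self i)))
      rw [map_sub, map_pow, aeval_X, sub_eq_zero, h0] at h2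
      exact h2
  have h2 : IsNilpotent (Ideal.Quotient.mk (Jf (p ^ s) P f) B) := by
    obtain ⟨k, hk⟩ := h1
    exact ⟨k, by rw [← map_pow]; exact Ideal.Quotient.eq_zero_iff_mem.2 hk⟩
  have h3 := Pool.Agent.ZDO.pow_eq_zero_of_finrank (κ := κ) _ h2 _ hrk'
  have h5 : ∀ j, Fx p s ((bind₁ f)^[j] B) ∧
      Ideal.Quotient.mk (Jf (p ^ s) P f) B ^ (p ^ s) ^ j =
        Ideal.Quotient.mk (Jf (p ^ s) P f) ((bind₁ f)^[j] B) := by
    intro j
    induction j with
    | zero => exact ⟨hB, by rw [pow_zero, pow_one, Function.iterate_zero_apply]⟩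
    | succ j ih =>
      rw [Function.iterate_succ_apply']
      refine ⟨?_, ?_⟩
      · have h7 := ih.1
        unfold Fx at h7 ⊢
        rw [map_bind₁, h7]
        congr 2
        funext i
        exact hf i
      · rw [pow_succ, pow_mul, ih.2, frob p s P f _ ih.1]
  rw [← Ideal.Quotient.eq_zero_iff_mem, ← (h5 (c + 1)).2]
  exact h3

end Pool.Agent.Lib.MP_16285c_agX
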