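import Pool.Agent.Lib.MP_16285c_agX.Hrn.Spec
import Pool.Agent.Lib.MP_16285c_agS.Hrx.Nrm

/-!
# Hrn/NrmN: the value of the universal function has many poles, any number of variables
-/

set_option autoImplicit false

namespace Pool.Agent.Lib.MP_16285c_agX

open MP7Z MvPolynomial
open scoped IntermediateField
open Pool.Agent.Lib.MP_16285c_ag (RM FrobPt)
open Pool.Agent.Lib.MP_16285c_agZ.Hru (Zn Pn Sit SDer SSepH SPrd SBd SLoc SPn SRes SFld)
open Pool.Agent.Lib.MP_16285c_agS.Hrx (pl zr Wt StmtPnMv StmtRoot StmtMin StmtDim)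
open Pool.Agent.Lib.MP_16285c_agS.Hrx.NrmM (MM MM_map det_zero det_ne Pn_nonneg)

namespace NrmNM

theorem spn_eq {κ R : Type} [Field κ] [CommRing R] [Algebra κ R] {n : ℕ} (y : Fin (n + 2) → R)
    (P : MvPolynomial (Fin (n + 2)) κ) : spn y P = (finSuccEquiv κ (n + 1) P).map
      ((MvPolynomial.aeval (fun j : Fin (n + 1) => if j.succ = lst n then Polynomial.X
        else Polynomial.C (y j.succ)) :
        MvPolynomial (Fin (n + 1)) κ →ₐ[κ] Polynomial R) : MvPolynomial (Fin (n + 1)) κ →+* Polynomial R) := by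
  have h : (MvPolynomial.aeval (fun j : Fin (n + 2) => if j = 0 then Polynomial.X
      else if j = lst n then Polynomial.C Polynomial.X else Polynomial.C (Polynomial.C (y j))) :
      MvPolynomial (Fin (n + 2)) κ →ₐ[κ] Polynomial (Polynomial R)) =
      (Polynomial.mapAlgHom (MvPolynomial.aeval (fun j : Fin (n + 1) => if j.succ = lst n then Polynomial.X
        else Polynomial.C (y j.succ)) :
        MvPolynomial (Fin (n + 1)) κ →ₐ[κ] Polynomial R)).comp
        ((finSuccEquiv κ (n + 1) : MvPolynomial (Fin (n + 2)) κ →ₐ[κ]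
          Polynomial (MvPolynomial (Fin (n + 1)) κ))) := by
    refine MvPolynomial.algHom_ext fun i => ?_
    rw [aeval_X]
    refine Fin.cases ?_ (fun j => ?_) i
    · change _ = Polynomial.map _ (finSuccEquiv κ (n + 1) (X 0))
      rw [finSuccEquiv_X_zero, Polynomial.map_X, if_pos rfl]
    · change _ = Polynomial.map _ (finSuccEquiv κ (n + 1) (X j.succ))
      rw [finSuccEquiv_X_succ, Polynomial.map_C, AlgHom.toRingHom_eq_coe, RingHom.coe_coe, aeval_X,
        if_neg (Fin.succ_ne_zero j)]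
      by_cases hj : j.succ = lst n
      · rw [if_pos hj, if_pos hj]
      · rw [if_neg hj, if_neg hj]
  exact DFunLike.congr_fun h P

theorem spn_monic {κ R : Type} [Field κ] [CommRing R] [Algebra κ R] {n : ℕ} (y : Fin (n + 2) → R)
    {P : MvPolynomial (Fin (n + 2)) κ} (hP : Mon P) : (spn y P).Monic := by
  rw [spn_eq]
  exact Polynomial.Monic.map _ hP

theorem spn_deg {κ R : Type} [Field κ] [CommRing R] [Nontrivial R] [Algebra κ R] {n : ℕ} (y : Fin (n + 2) → R)
    {P : MvPolynomial (Fin (n + 2)) κ} (hP : Mon P) : (spn y P).natDegree = dz P := by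
  rw [spn_eq]
  exact Polynomial.Monic.natDegree_map hP _

theorem spn_map {κ R R' : Type} [Field κ] [CommRing R] [Algebra κ R] [CommRing R'] [Algebra κ R']
    (θ : R →ₐ[κ] R') {n : ℕ} (y : Fin (n + 2) → R) (P : MvPolynomial (Fin (n + 2)) κ) :
    (spn y P).map (Polynomial.mapRingHom (θ : R →+* R')) = spn (fun i => θ (y i)) P := by
  have h : (Polynomial.mapAlgHom (Polynomial.mapAlgHom θ)).comp
      (MvPolynomial.aeval (fun j : Fin (n + 2) => if j = 0 then Polynomial.X
      else if j = lst n then Polynomial.C Polynomial.X else Polynomial.C (Polynomial.C (y j))) :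
      MvPolynomial (Fin (n + 2)) κ →ₐ[κ] Polynomial (Polynomial R)) =
      (MvPolynomial.aeval (fun j : Fin (n + 2) => if j = 0 then Polynomial.X
      else if j = lst n then Polynomial.C Polynomial.X else Polynomial.C (Polynomial.C (θ (y j)))) :
      MvPolynomial (Fin (n + 2)) κ →ₐ[κ] Polynomial (Polynomial R')) := by
    refine MvPolynomial.algHom_ext fun i => ?_
    rw [AlgHom.comp_apply, aeval_X, aeval_X]
    split_ifs
    · simp
    · simp
    · simp
  exact DFunLike.congr_fun h P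

/-- variables -/
abbrev Io (r N e : ℕ) : Type := (Fin r ⊕ Unit) ⊕ (Fin (N + 1) × Fin e)

/-- the general `A` -/
noncomputable def At (κ : Type) [Field κ] (r N e : ℕ) :
    Polynomial (Polynomial (MvPolynomial (Io r N e) κ)) :=
  ∑ j : Fin e, Polynomial.C (∑ i : Fin (N + 1), Polynomial.C (X (Sum.inr (i, j))) *
    Polynomial.X ^ (i : ℕ)) * Polynomial.X ^ (j : ℕ)

/-- the general `B` -/
noncomputable def Bt (κ : Type) [Field κ] (n N e : ℕ) :
    Polynomial (Polynomial (MvPolynomial (Io (n + 2) N e) κ)) :=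
  At κ (n + 2) N e - Polynomial.C (Polynomial.C (X (Sum.inl (Sum.inr ()))) *
    (Polynomial.X - Polynomial.C (X (Sum.inl (Sum.inl (lst n))))) ^ N)

/-- the general determinant -/
noncomputable def ps {κ : Type} [Field κ] {n : ℕ} (P : MvPolynomial (Fin (n + 2)) κ) (N : ℕ) :
    Polynomial (MvPolynomial (Io (n + 2) N (dz P)) κ) :=
  (MM (dz P) (spn (fun i => X (Sum.inl (Sum.inl i))) P) (Bt κ n N (dz P))).det

/-- values of the variables -/
noncomputable def tv {L : Type} [Field L] {r : ℕ} (N e : ℕ) (y : Fin r → L) (u : L)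
    (A : Polynomial (Polynomial L)) : Io r N e → L :=
  Sum.elim (Sum.elim y (fun _ => u)) fun q => (A.coeff q.2).coeff q.1

theorem At_map {κ L : Type} [Field κ] [Field L] [Algebra κ L] {r : ℕ} (N e m : ℕ) (y : Fin r → L) (u : L)
    (A : Polynomial (Polynomial L)) (hW : Wt m N A) (hd : A.natDegree < e) :
    (At κ r N e).map (Polynomial.mapRingHom ((MvPolynomial.aeval (tv N e y u A) :
      MvPolynomial (Io r N e) κ →ₐ[κ] L) : MvPolynomial (Io r N e) κ →+* L)) = A := by
  unfold At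
  rw [Polynomial.map_sum]
  have h1 : ∀ j : Fin e, (Polynomial.C (∑ i : Fin (N + 1), Polynomial.C
      (X (Sum.inr (i, j)) : MvPolynomial (Io r N e) κ) * Polynomial.X ^ (i : ℕ)) *
        Polynomial.X ^ (j : ℕ)).map (Polynomial.mapRingHom
        ((MvPolynomial.aeval (tv N e y u A) :
      MvPolynomial (Io r N e) κ →ₐ[κ] L) : MvPolynomial (Io r N e) κ →+* L)) =
      Polynomial.C (A.coeff j) * Polynomial.X ^ (j : ℕ) := by
    intro j
    rw [Polynomial.map_mul, Polynomial.map_pow, Polynomial.map_X, Polynomial.map_C]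
    congr 2
    rw [Polynomial.coe_mapRingHom, Polynomial.map_sum]
    have h2 : (A.coeff j).natDegree < N + 1 := by
      by_contra h
      have h3 : (A.coeff j).coeff (A.coeff j).natDegree ≠ 0 := by
        intro h4
        have h5 := Polynomial.leadingCoeff_eq_zero.1 h4
        rw [h5, Polynomial.natDegree_zero] at h
        omega
      have := hW _ _ h3
      omega
    conv_rhs => rw [Polynomial.as_sum_range' _ _ h2, Finset.sum_range]
    refine Finset.sum_congr rfl fun i _ => ?_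
    rw [Polynomial.map_mul, Polynomial.map_pow, Polynomial.map_X, Polynomial.map_C,
      ← Polynomial.C_mul_X_pow_eq_monomial]
    congr 2
    rw [RingHom.coe_coe, aeval_X]
    rfl
  rw [Finset.sum_congr rfl fun j _ => h1 j]
  conv_rhs => rw [Polynomial.as_sum_range' _ _ hd, Finset.sum_range]
  refine Finset.sum_congr rfl fun i _ => ?_
  rw [Polynomial.C_mul_X_pow_eq_monomial]

end NrmNM

open NrmNM in
theorem tNrmN : StmtRoot → StmtPnMv → SPn → StmtNrmN := by
  intro hRoot hPn _ κ _ _ n P hirr hmon N C₀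
  refine ⟨2 * (∑ i ∈ Finset.range ((ps P N).natDegree + 1), ((ps P N).coeff i).totalDegree) *
    (1 + (N + 1) * dz P * C₀), ?_⟩
  intro L _ _ _ x δ hS y u x₁ z₁ A hQirr hCf hW hAd hA hP0 hA0
  have he1 : 1 ≤ dz P := by omega
  obtain ⟨θ, hθ⟩ : ∃ θ : MvPolynomial (Io (n + 2) N (dz P)) κ →ₐ[κ] L,
      θ = MvPolynomial.aeval (tv N (dz P) y u A) := ⟨_, rfl⟩
  have hQm : (spn y P).Monic := spn_monic y hmon
  have hQd : (spn y P).natDegree = dz P := spn_deg y hmon
  obtain ⟨B, hB⟩ : ∃ B : Polynomial (Polynomial L), B = A - Polynomial.C (Polynomial.C u *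
    (Polynomial.X - Polynomial.C (y (lst n))) ^ N) := ⟨_, rfl⟩
  have hBmap : (Bt κ n N (dz P)).map (Polynomial.mapRingHom
      (θ : MvPolynomial (Io (n + 2) N (dz P)) κ →+* L)) = B := by
    unfold Bt
    rw [Polynomial.map_sub, hθ, At_map N (dz P) _ y u A hW hAd, hB, Polynomial.map_C]
    congr 2
    simp [tv]
  have hps : (ps P N).map (θ : MvPolynomial (Io (n + 2) N (dz P)) κ →+* L) =
      (MM (dz P) (spn y P) B).det := by
    have h1 := RingHom.map_det (Polynomial.mapRingHom (θ : MvPolynomial (Io (n + 2) N (dz P)) κ →+* L))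
      (MM (dz P) (spn (fun i => X (Sum.inl (Sum.inl i))) P) (Bt κ n N (dz P)))
    rw [MM_map _ _ (spn_monic _ hmon), hBmap, spn_map] at h1
    have h2 : (fun i : Fin (n + 2) => θ (X (Sum.inl (Sum.inl i)))) = y := by
      funext i
      rw [hθ, aeval_X]
      rfl
    rw [h2] at h1
    exact h1
  have hBne : B ≠ 0 := by
    intro h
    rw [hB] at h
    exact hA u (sub_eq_zero.1 h)
  have hBd : B.natDegree < dz P := by
    rw [hB]
    refine lt_of_le_of_lt (Polynomial.natDegree_sub_le _ _) (max_lt hAd ?_)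
    rw [Polynomial.natDegree_C]
    omega
  have hB0 : (B.map (Polynomial.evalRingHom x₁)).eval z₁ = 0 := by
    rw [hB, Polynomial.map_sub, Polynomial.eval_sub, hA0, Polynomial.map_C, Polynomial.eval_C]
    simp
  have hψ0 : (ps P N).map (θ : MvPolynomial (Io (n + 2) N (dz P)) κ →+* L) ≠ 0 := by
    rw [hps]
    exact det_ne hQm hQd he1 hQirr hBne hBd
  have hψy : ((ps P N).map (θ : MvPolynomial (Io (n + 2) N (dz P)) κ →+* L)).eval x₁ = 0 := by
    rw [hps]
    exact det_zero hQm hQd he1 x₁ z₁ hP0 hB0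
  have h1 := hRoot κ L x δ hS _ x₁ hψ0 hψy
  obtain ⟨Hy, hHy⟩ : ∃ Hy : ℤ, Hy = ∑ i, Pn κ (y i) := ⟨_, rfl⟩
  obtain ⟨Hh, hHh⟩ : ∃ Hh : ℤ, Hh = Hy + Pn κ u := ⟨_, rfl⟩
  have n1 : 0 ≤ Hy := by
    rw [hHy]
    exact Finset.sum_nonneg fun i _ => Pn_nonneg _
  have n4 := Pn_nonneg (k := κ) u
  have hcoef : ∀ i j : ℕ, Pn κ ((A.coeff j).coeff i) ≤ (C₀ : ℤ) * Hh := by
    intro i j
    obtain ⟨a, ha, hav⟩ := hCf i j
    rw [hav]
    have h2 := (hPn κ L (n + 2) y a).2
    rw [← hHy] at h2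
    refine h2.trans ?_
    have h3 : (a.totalDegree : ℤ) ≤ C₀ := by exact_mod_cast ha
    rw [hHh]
    have h4 : (0 : ℤ) ≤ (a.totalDegree : ℤ) := Int.natCast_nonneg _
    nlinarith [mul_nonneg (sub_nonneg.2 h3) n1, mul_nonneg (h4.trans h3) n4]
  have hsum : ∑ k : Io (n + 2) N (dz P), Pn κ (tv N (dz P) y u A k) ≤
      (1 + (N + 1) * dz P * C₀ : ℤ) * Hh := by
    rw [Fintype.sum_sum_type]
    have e1 : ∑ k : Fin (n + 2) ⊕ Unit, Pn κ (tv N (dz P) y u A (Sum.inl k)) = Hh := by
      rw [Fintype.sum_sum_type, hHh, hHy]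
      congr 1
      rw [Fintype.sum_unique]
      rfl
    have e2 : ∑ q : Fin (N + 1) × Fin (dz P), Pn κ (tv N (dz P) y u A (Sum.inr q)) ≤
        ∑ q : Fin (N + 1) × Fin (dz P), (C₀ : ℤ) * Hh :=
      Finset.sum_le_sum fun q _ => hcoef q.1 q.2
    rw [Finset.sum_const, Finset.card_univ, Fintype.card_prod, Fintype.card_fin, Fintype.card_fin,
      nsmul_eq_mul] at e2
    rw [e1]
    push_cast at e2 ⊢
    linarith
  have hθc : ∀ s : MvPolynomial (Io (n + 2) N (dz P)) κ, Pn κ (θ s) ≤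
      (s.totalDegree : ℤ) * ((1 + (N + 1) * dz P * C₀ : ℤ) * Hh) := by
    intro s
    let eq := Fintype.equivFin (Io (n + 2) N (dz P))
    have h2 := (hPn κ L _ (fun i => tv N (dz P) y u A (eq.symm i)) (rename eq s)).2
    rw [aeval_rename] at h2
    have h3 : ((fun i => tv N (dz P) y u A (eq.symm i)) ∘ eq) = tv N (dz P) y u A := by
      funext k
      simp
    rw [h3, ← hθ] at h2
    have h4 : ∑ i, Pn κ (tv N (dz P) y u A (eq.symm i)) =
        ∑ k, Pn κ (tv N (dz P) y u A k) :=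
      Equiv.sum_comp eq.symm fun k => Pn κ (tv N (dz P) y u A k)
    rw [h4] at h2
    refine h2.trans ?_
    have h5 : ((rename eq s).totalDegree : ℤ) ≤ s.totalDegree := by
      exact_mod_cast totalDegree_rename_le _ _
    have h6 : (0 : ℤ) ≤ ∑ k, Pn κ (tv N (dz P) y u A k) :=
      Finset.sum_nonneg fun k _ => Pn_nonneg _
    exact mul_le_mul h5 hsum h6 (Int.natCast_nonneg _)
  refine h1.trans ?_
  rw [← hHy, ← hHh]
  have hle : ∑ i ∈ Finset.range (((ps P N).map
      (θ : MvPolynomial (Io (n + 2) N (dz P)) κ →+* L)).natDegree + 1),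
      Pn κ (((ps P N).map (θ : MvPolynomial (Io (n + 2) N (dz P)) κ →+* L)).coeff i) ≤
      ∑ i ∈ Finset.range ((ps P N).natDegree + 1),
        (((ps P N).coeff i).totalDegree : ℤ) * ((1 + (N + 1) * dz P * C₀ : ℤ) * Hh) := by
    refine (Finset.sum_le_sum_of_subset_of_nonneg (Finset.range_mono ?_)
      fun i _ _ => Pn_nonneg _).trans (Finset.sum_le_sum fun i _ => ?_)
    · exact Nat.succ_le_succ Polynomial.natDegree_map_le
    · rw [Polynomial.coeff_map]
      exact hθc _
  rw [← Finset.sum_mul] at hle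
  push_cast
  nlinarith [hle]

end Pool.Agent.Lib.MP_16285c_agX
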