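import Pool.Agent.Lib.MP_16285c_agX.Hrn.Spec

/-!
# The poles of the universal function, place by place (N12)
-/

set_option autoImplicit false
set_option linter.unusedSectionVars false

namespace Pool.Agent.Lib.MP_16285c_agX

open MP7Z MvPolynomial
open scoped IntermediateField
open Pool.Agent.Lib.MP_16285c_ag (RM FrobPt)
open Pool.Agent.Lib.MP_16285c_agZ.Hru (Zn Pn Sit SDer SSepH SPrd SBd SLoc SPn SRes SFld)
open Pool.Agent.Lib.MP_16285c_agS.Hrx (pl zr Wt StmtPnMv StmtRoot StmtMin StmtDim)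

namespace PtNM

section

variable {k E : Type} [Field k] [IsAlgClosed k] [Field E] [Algebra k E]

theorem oz_zero (v : Place k E) : v.oz (0 : E) = 0 := by
  unfold Place.oz
  simp

theorem coe_oz_le (v : Place k E) (g : E) : ((v.oz g : ℤ) : WithTop ℤ) ≤ v.ord g := by
  rcases eq_or_ne g 0 with rfl | hg
  · simp
  · rw [v.ord_eq hg]

theorem pl_nonneg (v : Place k E) (g : E) : 0 ≤ pl v g := le_max_right _ _

theorem zr_nonneg (v : Place k E) (g : E) : 0 ≤ zr v g := le_max_right _ _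

theorem pl_zero (v : Place k E) : pl v (0 : E) = 0 := by
  unfold pl
  rw [oz_zero]
  simp

theorem neg_pl_le (v : Place k E) (g : E) : ((-(pl v g) : ℤ) : WithTop ℤ) ≤ v.ord g := by
  refine le_trans (WithTop.coe_le_coe.2 ?_) (coe_oz_le v g)
  unfold pl
  omega

theorem pl_le_of (v : Place k E) {g : E} {N : ℤ} (hN : 0 ≤ N)
    (h : ((-N : ℤ) : WithTop ℤ) ≤ v.ord g) : pl v g ≤ N := by
  rcases eq_or_ne g 0 with rfl | hg
  · rw [pl_zero]; exact hN
  · rw [v.ord_eq hg] at h
    have h' := WithTop.coe_le_coe.1 h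
    unfold pl
    omega

theorem oz_pow (v : Place k E) (g : E) (n : ℕ) (hg : g ≠ 0) : v.oz (g ^ n) = n * v.oz g :=
  v.pord_pow hg n

theorem pl_pow (v : Place k E) (g : E) (n : ℕ) (hn : 1 ≤ n) : pl v (g ^ n) = n * pl v g := by
  rcases eq_or_ne g 0 with rfl | hg
  · rw [zero_pow (by omega), pl_zero, mul_zero]
  · unfold pl
    rw [oz_pow v g n hg, mul_max_of_nonneg _ _ (Int.natCast_nonneg n), mul_zero, mul_neg]

/-- Lower bound for the order of a power. -/
theorem ord_pow_ge (v : Place k E) (g : E) (n : ℕ) :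
    ((-(n * pl v g) : ℤ) : WithTop ℤ) ≤ v.ord (g ^ n) := by
  rcases Nat.eq_zero_or_pos n with rfl | hn
  · simp
  · rw [← pl_pow v g n hn]
    exact neg_pl_le v _

/-- Lower bound for the order of the value of a polynomial in two variables. -/
theorem ord_eval_ge (v : Place k E) (A : Polynomial (Polynomial E)) (y z : E) (N : ℤ)
    (h : ∀ i j : ℕ, (A.coeff j).coeff i ≠ 0 →
      pl v ((A.coeff j).coeff i) + i * pl v y + j * pl v z ≤ N) :
    ((-N : ℤ) : WithTop ℤ) ≤ v.ord ((A.map (Polynomial.evalRingHom y)).eval z) := by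
  have hmul : ∀ a b c : E, ∀ i j : ℕ, ((-(pl v a + i * pl v b + j * pl v c) : ℤ) : WithTop ℤ) ≤
      v.ord (a * b ^ i * c ^ j) := by
    intro a b c i j
    rw [AddValuation.map_mul, AddValuation.map_mul]
    have e : ((-(pl v a + i * pl v b + j * pl v c) : ℤ) : WithTop ℤ) =
        ((-(pl v a) : ℤ) : WithTop ℤ) + ((-(i * pl v b) : ℤ) : WithTop ℤ) +
          ((-(j * pl v c) : ℤ) : WithTop ℤ) := by
      rw [← WithTop.coe_add, ← WithTop.coe_add]
      congr 1
      ring
    rw [e]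
    exact add_le_add (add_le_add (neg_pl_le v a) (ord_pow_ge v b i)) (ord_pow_ge v c j)
  rw [Polynomial.eval_map, Polynomial.eval₂_eq_sum_range]
  apply AddValuation.map_le_sum
  intro j _
  rw [Polynomial.coe_evalRingHom, Polynomial.eval_eq_sum_range, Finset.sum_mul]
  apply AddValuation.map_le_sum
  intro i _
  by_cases h0 : (A.coeff j).coeff i = 0
  · rw [h0]
    simp
  · refine le_trans (WithTop.coe_le_coe.2 ?_) (hmul ((A.coeff j).coeff i) y z i j)
    have := h i j h0
    omega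

/-- Evaluation at `X = y`, `Z = z`. -/
noncomputable def Ph (y z : E) : Polynomial (Polynomial E) →+* E :=
  (Polynomial.evalRingHom z).comp (Polynomial.mapRingHom (Polynomial.evalRingHom y))

theorem Ph_apply (y z : E) (A : Polynomial (Polynomial E)) :
    Ph y z A = (A.map (Polynomial.evalRingHom y)).eval z := rfl

theorem Ph_spn {n : ℕ} (y : Fin (n + 2) → E) (x z : E) (P : MvPolynomial (Fin (n + 2)) k) :
    Ph x z (spn y P) = aeval (fun j : Fin (n + 2) => if j = 0 then z else if j = lst n then x else y j) P := by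
  unfold spn
  rw [MvPolynomial.map_aeval, MvPolynomial.aeval_def]
  have e1 : (Ph x z).comp (algebraMap k (Polynomial (Polynomial E))) = algebraMap k E := by
    ext c
    rw [RingHom.comp_apply, Ph_apply, Polynomial.algebraMap_apply, Polynomial.algebraMap_apply]
    simp
  rw [e1]
  change eval₂ _ _ P = _
  congr 1
  funext i
  by_cases h0 : i = 0
  · simp [h0, Ph_apply]
  · by_cases h1 : i = lst n
    · simp only [h1, if_true]
      have : lst n ≠ 0 := by rw [← h1]; exact h0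
      simp [this, Ph_apply]
    · simp [h0, h1, Ph_apply]

/-- The indices. -/
theorem idx {n : ℕ} (j : Fin (n + 2)) : j = 0 ∨ j = lst n ∨ ∃ i : Fin n, j = mid i := by
  refine Fin.cases (Or.inl rfl) (fun j => ?_) j
  refine Fin.lastCases (Or.inr (Or.inl rfl)) (fun i => Or.inr (Or.inr ⟨i, rfl⟩)) j

theorem zr_bound (v : Place k E) (u h γ : E) (N : ℕ) (hh : h ≠ 0) (hγ : γ ≠ 0)
    (h1 : v.ord h ≤ v.ord γ) (h2 : 0 ≤ v.ord (u * h ^ N)) : pl v u ≤ N * zr v γ := by
  have hz := zr_nonneg v γ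
  rcases eq_or_ne u 0 with rfl | hu
  · rw [pl_zero]
    positivity
  · rw [v.ord_eq hh, v.ord_eq hγ] at h1
    have h3 := WithTop.coe_le_coe.1 h1
    have h4 : u * h ^ N ≠ 0 := mul_ne_zero hu (pow_ne_zero _ hh)
    rw [v.ord_eq h4] at h2
    have h5 : 0 ≤ v.oz (u * h ^ N) := by exact_mod_cast h2
    have h6 : v.oz (u * h ^ N) = v.oz u + v.oz (h ^ N) := v.pord_mul hu (pow_ne_zero _ hh)
    rw [h6, oz_pow v h N hh] at h5
    have h7 : v.oz γ ≤ zr v γ := le_max_left _ _
    have h8 : (N : ℤ) * v.oz h ≤ N * zr v γ :=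
      mul_le_mul_of_nonneg_left (by omega) (Int.natCast_nonneg _)
    have h9 : 0 ≤ (N : ℤ) * zr v γ := by positivity
    unfold pl
    omega

theorem ideal_bound {n : ℕ} (v : Place k E) (P : MvPolynomial (Fin (n + 2)) k)
    (f : Fin (n + 2) → MvPolynomial (Fin (n + 2)) k) (ξ : Fin (n + 2) → E) (q : ℕ) (m : WithTop ℤ)
    (hP : aeval ξ P = 0) (hall : ∀ B : MvPolynomial (Fin (n + 2)) k, 0 ≤ v.ord (aeval ξ B))
    (hf : ∀ i, m ≤ v.ord (ξ i ^ q - aeval ξ (f i)))
    (G : MvPolynomial (Fin (n + 2)) k) (hG : G ∈ Jf q P f) : m ≤ v.ord (aeval ξ G) := by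
  unfold Jf at hG
  refine Submodule.span_induction (p := fun x _ => m ≤ v.ord (aeval ξ x)) ?_ ?_ ?_ ?_ hG
  · intro x hx
    rcases Set.mem_insert_iff.1 hx with rfl | ⟨i, rfl⟩
    · rw [hP, AddValuation.map_zero]
      exact le_top
    · simp only [map_sub, map_pow, aeval_X]
      exact hf i
  · rw [map_zero, AddValuation.map_zero]
    exact le_top
  · intro x y _ _ hx hy
    rw [map_add]
    exact le_trans (le_min hx hy) (v.ord.map_add _ _)
  · intro a x _ hx
    rw [smul_eq_mul, map_mul, AddValuation.map_mul]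
    calc m = 0 + m := (zero_add m).symm
      _ ≤ _ := add_le_add (hall a) hx

end

end PtNM

open PtNM

theorem tPtN : StmtPnMv → StmtPtN := by
  intro hPn κ L _ _ _ _ _ n P G f ξ q N C₀ A A' H hCv hq hF hG hG0 hg0 hWt hCf hCf' hEq v hz0 hmid hpos
  set y : Fin (n + 2) → L := fun i => aeval ξ (f i) with hy
  have hy0 : aeval ξ (f 0) = y 0 := rfl
  have hyl : aeval ξ (f (lst n)) = y (lst n) := rfl
  rw [hyl] at hg0 hpos ⊢
  rw [hy0, hyl] at hEq
  set g : L := ξ (lst n) ^ q - y (lst n) with hg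
  set g' : L := ξ 0 ^ q - y 0 with hg'
  have hfun : (fun j : Fin (n + 2) => if j = 0 then ξ 0 ^ q else if j = lst n then ξ (lst n) ^ q else y j) =
      fun i => ξ i ^ q := by
    funext j
    rcases idx j with rfl | rfl | ⟨i, rfl⟩
    · simp
    · by_cases h : lst n = 0
      · simp [h]
      · simp [h]
    · have h1 : mid i ≠ 0 := Fin.succ_ne_zero _
      have h2 : mid i ≠ lst n := by
        intro h
        have := congrArg Fin.val h
        simp [mid, lst] at this
        have := i.isLt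
        omega
      simp only [h1, h2, if_false]
      exact (hCv.hf i).symm
  -- the identity
  have key : Ph (ξ (lst n) ^ q) (ξ 0 ^ q) A * g' ^ N = Ph (ξ (lst n) ^ q) (ξ 0 ^ q) A' * g ^ N := by
    have h1 := congrArg (Ph (ξ (lst n) ^ q) (ξ 0 ^ q)) hEq
    rw [map_sub, map_mul, map_mul, map_mul, map_pow, map_sub, Ph_spn, hfun, hF, zero_mul,
      sub_eq_zero] at h1
    have e3 : Ph (ξ (lst n) ^ q) (ξ 0 ^ q) Polynomial.X = ξ 0 ^ q := by simp [Ph_apply]
    have e4 : Ph (ξ (lst n) ^ q) (ξ 0 ^ q) (Polynomial.C (Polynomial.C (y 0))) = y 0 := by simp [Ph_apply]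
    have e5 : Ph (ξ (lst n) ^ q) (ξ 0 ^ q) (Polynomial.C ((Polynomial.X - Polynomial.C (y (lst n))) ^ N)) =
        g ^ N := by simp [Ph_apply, hg]
    rw [e3, e4, e5] at h1
    exact h1
  rw [← Ph_apply]
  set Sp : ℤ := ∑ i, pl v (y i) with hS
  change pl v (Ph (ξ (lst n) ^ q) (ξ 0 ^ q) A / g ^ N) ≤ (C₀ + N) * Sp + N * zr v (aeval ξ G)
  have pn : ∀ x : L, 0 ≤ pl v x := fun x => pl_nonneg v x
  have hS0 : 0 ≤ Sp := Finset.sum_nonneg fun i _ => pn _
  -- coefficients
  have hcoef : ∀ A₁ : Polynomial (Polynomial L), Cfn (κ := κ) C₀ y A₁ → ∀ i j : ℕ,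
      pl v ((A₁.coeff j).coeff i) ≤ C₀ * Sp := by
    intro A₁ hA₁ i j
    obtain ⟨a, ha, hae⟩ := hA₁ i j
    rw [hae]
    refine ((hPn κ L (n + 2) y a).1 v).trans ?_
    exact mul_le_mul_of_nonneg_right (by exact_mod_cast ha) hS0
  have m0 : (0 : ℤ) ≤ P.totalDegree := Int.natCast_nonneg _
  have n0 : (0 : ℤ) ≤ N := Int.natCast_nonneg _
  have C00 : (0 : ℤ) ≤ C₀ := Int.natCast_nonneg _
  have q0 : (1 : ℤ) ≤ q := by exact_mod_cast hq
  have hzG := zr_nonneg v (aeval ξ G)
  have hRHS : 0 ≤ (C₀ + N) * Sp + N * zr v (aeval ξ G) := by positivity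
  have hsum : ∑ i : Fin (n + 1), pl v (ξ i.succ) = ∑ i : Fin n, pl v (ξ (mid i)) + pl v (ξ (lst n)) := by
    rw [Fin.sum_univ_castSucc]
    rfl
  have hm0 : ∀ i : Fin n, 0 ≤ pl v (ξ (mid i)) := fun i => pn _
  have hms0 : 0 ≤ ∑ i : Fin n, pl v (ξ (mid i)) := Finset.sum_nonneg fun i _ => hm0 i
  rcases (pn (ξ (lst n))).eq_or_lt with hz | hlam
  · -- finite place
    have a2 : pl v (ξ (lst n)) = 0 := hz.symm
    rw [a2] at hmid
    have a1 : ∑ i : Fin n, pl v (ξ (mid i)) = 0 := le_antisymm hmid hms0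
    have a1' : ∀ i : Fin n, pl v (ξ (mid i)) = 0 := fun i =>
      (Finset.sum_eq_zero_iff_of_nonneg fun i _ => hm0 i).1 a1 i (Finset.mem_univ i)
    have a0 : pl v (ξ 0) = 0 := by
      rw [hsum, a1, a2, add_zero, mul_zero] at hz0
      exact le_antisymm hz0 (pn _)
    have aall : ∀ i, pl v (ξ i) = 0 := by
      intro i
      rcases idx i with rfl | rfl | ⟨j, rfl⟩
      · exact a0
      · exact a2
      · exact a1' j
    have a5 : ∀ B : MvPolynomial (Fin (n + 2)) κ, pl v (aeval ξ B) = 0 := by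
      intro B
      have h1 := (hPn κ L (n + 2) ξ B).1 v
      rw [Finset.sum_eq_zero (fun i _ => aall i), mul_zero] at h1
      exact le_antisymm h1 (pn _)
    have a6 : ∀ B : MvPolynomial (Fin (n + 2)) κ, 0 ≤ v.ord (aeval ξ B) := by
      intro B
      have := neg_pl_le v (aeval ξ B)
      rw [a5] at this
      simpa using this
    have hSz : Sp = 0 := Finset.sum_eq_zero fun i _ => a5 (f i)
    have a10 : ∀ A₁ : Polynomial (Polynomial L), Cfn (κ := κ) C₀ y A₁ →
        0 ≤ v.ord (Ph (ξ (lst n) ^ q) (ξ 0 ^ q) A₁) := by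
      intro A₁ hA₁
      have h1 := ord_eval_ge v A₁ (ξ (lst n) ^ q) (ξ 0 ^ q) 0 (by
        intro i j _
        have h2 := hcoef A₁ hA₁ i j
        rw [hSz, mul_zero] at h2
        rw [pl_pow v _ _ hq, pl_pow v _ _ hq, a2, a0]
        simp only [mul_zero, add_zero]
        exact h2)
      simpa [Ph_apply] using h1
    have hmin : min (v.ord g) (v.ord g') ≤ v.ord (aeval ξ G) := by
      refine ideal_bound v P f ξ q _ hCv.hP a6 ?_ G hG
      intro i
      rcases idx i with rfl | rfl | ⟨j, rfl⟩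
      · exact min_le_right _ _
      · exact min_le_left _ _
      · rw [hCv.hf j, sub_self, AddValuation.map_zero]
        exact le_top
    have hgoal : pl v (Ph (ξ (lst n) ^ q) (ξ 0 ^ q) A / g ^ N) ≤ N * zr v (aeval ξ G) := by
      rcases le_or_gt (v.ord g) (v.ord g') with hle | hlt
      · rw [min_eq_left hle] at hmin
        refine zr_bound v _ g _ N hg0 hG0 hmin ?_
        rw [div_mul_cancel₀ _ (pow_ne_zero _ hg0)]
        exact a10 A hCf
      · rw [min_eq_right hlt.le] at hmin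
        have hg'0 : g' ≠ 0 := by
          intro h
          rw [h, AddValuation.map_zero] at hlt
          exact not_top_lt hlt
        refine zr_bound v _ g' _ N hg'0 hG0 hmin ?_
        have e1 : Ph (ξ (lst n) ^ q) (ξ 0 ^ q) A / g ^ N * g' ^ N = Ph (ξ (lst n) ^ q) (ξ 0 ^ q) A' := by
          rw [div_mul_eq_mul_div, key, mul_div_assoc, div_self (pow_ne_zero _ hg0), mul_one]
        rw [e1]
        exact a10 A' hCf'
    rw [hSz, mul_zero, zero_add]
    exact hgoal
  · -- infinite place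
    have hgz := hpos hlam
    rcases eq_or_ne (Ph (ξ (lst n) ^ q) (ξ 0 ^ q) A) 0 with hA0 | hA0
    · rw [hA0, zero_div, pl_zero]
      exact hRHS
    set lam : ℤ := pl v (ξ (lst n)) with hlamdef
    set sg : ℤ := ∑ i : Fin n, pl v (ξ (mid i)) with hsg
    have hqs : (q : ℤ) * sg ≤ Sp := by
      rw [hsg, Finset.mul_sum]
      have e : ∀ i : Fin n, (q : ℤ) * pl v (ξ (mid i)) = pl v (y (mid i)) := by
        intro i
        rw [← pl_pow v _ _ hq, hCv.hf i]
      rw [Finset.sum_congr rfl fun i _ => e i, hS, Fin.sum_univ_succ, Fin.sum_univ_castSucc]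
      have h1 := pn (y 0)
      have h2 := pn (y (Fin.last n).succ)
      have e2 : ∑ i : Fin n, pl v (y (mid i)) = ∑ i : Fin n, pl v (y i.castSucc.succ) := rfl
      rw [e2]
      omega
    have b1 : ((-(C₀ * Sp + N * (q * lam) + N * Sp) : ℤ) : WithTop ℤ) ≤
        v.ord (Ph (ξ (lst n) ^ q) (ξ 0 ^ q) A) := by
      refine ord_eval_ge v A (ξ (lst n) ^ q) (ξ 0 ^ q) _ ?_
      intro i j hij
      have h1 := hcoef A hCf i j
      have h2 := hWt i j hij
      have h3 : (i : ℤ) + P.totalDegree * j ≤ N := by exact_mod_cast h2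
      rw [pl_pow v _ _ hq, pl_pow v _ _ hq, ← hlamdef]
      rw [hsum] at hz0
      have i0 : (0 : ℤ) ≤ i := Int.natCast_nonneg _
      have j0 : (0 : ℤ) ≤ j := Int.natCast_nonneg _
      have mj0 : (0 : ℤ) ≤ P.totalDegree * j := mul_nonneg m0 j0
      have hql : 0 ≤ (q : ℤ) * lam := mul_nonneg (by omega) hlam.le
      have h5 : (j : ℤ) * (q * pl v (ξ 0)) ≤ j * (q * (P.totalDegree * (sg + lam))) :=
        mul_le_mul_of_nonneg_left (mul_le_mul_of_nonneg_left hz0 (by omega)) j0
      have h6 : (j : ℤ) * (q * (P.totalDegree * (sg + lam))) =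
          (P.totalDegree * j) * (q * sg) + (P.totalDegree * j) * (q * lam) := by ring
      have h7 : ((P.totalDegree : ℤ) * j) * (q * sg) ≤ (P.totalDegree * j) * Sp :=
        mul_le_mul_of_nonneg_left hqs mj0
      have h8 : ((P.totalDegree : ℤ) * j) * Sp ≤ N * Sp :=
        mul_le_mul_of_nonneg_right (by omega) hS0
      have h9 : ((i : ℤ) + P.totalDegree * j) * (q * lam) ≤ N * (q * lam) :=
        mul_le_mul_of_nonneg_right h3 hql
      have h10 : ((i : ℤ) + P.totalDegree * j) * (q * lam) =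
          i * (q * lam) + (P.totalDegree * j) * (q * lam) := by ring
      omega
    rw [v.ord_eq hA0] at b1
    have b2 := WithTop.coe_le_coe.1 b1
    have b3 : v.oz (Ph (ξ (lst n) ^ q) (ξ 0 ^ q) A / g ^ N) =
        v.oz (Ph (ξ (lst n) ^ q) (ξ 0 ^ q) A) - N * v.oz g := by
      have := v.pord_div hA0 (pow_ne_zero N hg0)
      rw [v.pord_pow hg0 N] at this
      exact this
    have b4 : (N : ℤ) * v.oz g = -(N * (q * lam)) := by rw [hgz]; ring
    have b5 : ((C₀ : ℤ) + N) * Sp = C₀ * Sp + N * Sp := by ring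
    have b6 : 0 ≤ (N : ℤ) * zr v (aeval ξ G) := by positivity
    refine max_le ?_ hRHS
    rw [b3, b4, b5]
    omega

end Pool.Agent.Lib.MP_16285c_agX
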