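import Pool.Agent.Lib.MP_16285c_agX.Hrn.Spec
import Pool.Agent.Lib.MP_7f581e_Z.Crv.Places

/-!
# A separating element of the function field of a curve
-/

set_option autoImplicit false

namespace Pool.Agent.Lib.MP_16285c_agX

open MP7Z MvPolynomial
open scoped IntermediateField
open Pool.Agent.Lib.MP_16285c_ag (RM FrobPt)
open Pool.Agent.Lib.MP_16285c_agZ.Hru (Zn Pn Sit SDer SSepH SPrd SBd SLoc SPn SRes SFld)
open Pool.Agent.Lib.MP_16285c_agS.Hrx (pl zr Wt StmtPnMv StmtRoot StmtMin StmtDim)

namespace SitM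

/-- the transcendence degree of the function field of a curve is one -/
theorem mk_eq_trdeg (κ L : Type) [Field κ] [IsAlgClosed κ] [Field L] [Algebra κ L]
    [IsCurveField κ L] : Cardinal.mk Unit = Algebra.trdeg κ L := by
  obtain ⟨s, hs, hfin⟩ := IsCurveField.exists_gen (𝕜 := κ) (E := L)
  have hi : AlgebraicIndependent κ (fun _ : Unit => s) := by
    rw [algebraicIndependent_unique_type_iff]; exact hs
  have hb : IsTranscendenceBasis κ (fun _ : Unit => s) := by
    rw [hi.isTranscendenceBasis_iff_isAlgebraic]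
    have := Algebra.IsAlgebraic.of_finite (IntermediateField.adjoin κ {s}) L
    rw [IntermediateField.isAlgebraic_adjoin_iff_top] at this
    have hr : Set.range (fun _ : Unit => s) = {s} := Set.range_const
    rw [hr]
    exact this
  exact hb.cardinalMk_eq_trdeg

end SitM

theorem tSit : StmtSit := by
  intro hSD κ L _ _ _ _ _
  have hE : Algebra.EssFiniteType κ L := places_essFiniteType κ L
  obtain ⟨s, hs, hsep⟩ :=
    exists_isTranscendenceBasis_and_isSeparable_of_perfectField (k := κ) (K := L)
  have h1 : Cardinal.mk s = Algebra.trdeg κ L := hs.cardinalMk_eq_trdeg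
  rw [← SitM.mk_eq_trdeg κ L, Cardinal.mk_coe_finset, Cardinal.mk_unit] at h1
  have h2 : s.card = 1 := by exact_mod_cast h1
  obtain ⟨x, rfl⟩ := Finset.card_eq_one.mp h2
  have htr : Transcendental κ x := by
    have h3 := hs.1.transcendental ⟨x, Finset.mem_singleton_self x⟩
    exact h3
  have hsep' : Algebra.IsSeparable κ⟮x⟯ L := by
    rw [Finset.coe_singleton] at hsep
    exact hsep
  obtain ⟨δ, hδ⟩ := hSD.2 κ L x htr hsep'
  exact ⟨x, δ, ⟨htr, hsep', hδ⟩⟩

end Pool.Agent.Lib.MP_16285c_agX
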