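import Pool.Agent.Lib.MP_16285c_agX.Hrn.Spec

/-!
# MP_16285c_ag, ZDX, section A: splitting off the last variable (helper55)
-/

set_option autoImplicit false

namespace Pool.Agent.Lib.MP_16285c_agX

open MP7Z MvPolynomial
open scoped IntermediateField
open Pool.Agent.Lib.MP_16285c_ag (RM FrobPt)
open Pool.Agent.Lib.MP_16285c_agZ.Hru (Zn Pn Sit SDer SSepH SPrd SBd SLoc SPn SRes SFld)
open Pool.Agent.Lib.MP_16285c_agS.Hrx (pl zr Wt StmtPnMv StmtRoot StmtMin StmtDim)

namespace SplM

variable {κ : Type} [Field κ]

theorem spl_C (c : ℕ) (a : κ) : spl c (C a : MvPolynomial (Fin (c + 1)) κ) = C (Polynomial.C a) :=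
  (spl (κ := κ) c).commutes a

theorem spl_last (c : ℕ) : spl c (X (Fin.last c) : MvPolynomial (Fin (c + 1)) κ) = C Polynomial.X := by
  rw [spl, aeval_X, Fin.snoc_last]

theorem spl_castSucc (c : ℕ) (i : Fin c) :
    spl c (X i.castSucc : MvPolynomial (Fin (c + 1)) κ) = X i := by
  rw [spl, aeval_X, Fin.snoc_castSucc]

/-- The inverse. -/
noncomputable def inv (c : ℕ) : MvPolynomial (Fin c) (Polynomial κ) →+* MvPolynomial (Fin (c + 1)) κ :=
  eval₂Hom (Polynomial.aeval (X (Fin.last c)) : Polynomial κ →ₐ[κ] MvPolynomial (Fin (c + 1)) κ).toRingHom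
    fun i => X i.castSucc

theorem inv_spl (c : ℕ) (A : MvPolynomial (Fin (c + 1)) κ) : inv c (spl c A) = A := by
  have h : (inv c).comp (spl (κ := κ) c).toRingHom = RingHom.id _ := by
    refine MvPolynomial.ringHom_ext (fun a => ?_) fun i => ?_
    · show inv c (spl c (C a)) = C a
      rw [spl_C, inv, coe_eval₂Hom, eval₂_C]
      show Polynomial.aeval (X (Fin.last c)) (Polynomial.C a) = C a
      rw [Polynomial.aeval_C]
      rfl
    · show inv c (spl c (X i)) = X i
      induction i using Fin.lastCases with
      | last =>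
        rw [spl_last, inv, coe_eval₂Hom, eval₂_C]
        show Polynomial.aeval (X (Fin.last c)) Polynomial.X = _
        rw [Polynomial.aeval_X]
      | cast i => rw [spl_castSucc, inv, coe_eval₂Hom, eval₂_X]
  exact RingHom.congr_fun h A

theorem spl_inv (c : ℕ) (B : MvPolynomial (Fin c) (Polynomial κ)) : spl c (inv c B) = B := by
  have h : (spl (κ := κ) c).toRingHom.comp (inv c) = RingHom.id _ := by
    refine MvPolynomial.ringHom_ext (fun a => ?_) fun i => ?_
    · show spl c (inv c (C a)) = C a
      rw [inv, coe_eval₂Hom, eval₂_C]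
      show spl c (Polynomial.aeval (X (Fin.last c)) a) = C a
      rw [← Polynomial.aeval_algHom_apply, spl_last]
      have h2 : (Polynomial.aeval (C Polynomial.X : MvPolynomial (Fin c) (Polynomial κ)) :
          Polynomial κ →ₐ[κ] MvPolynomial (Fin c) (Polynomial κ)).toRingHom = C := by
        refine Polynomial.ringHom_ext (fun b => ?_) ?_
        · show Polynomial.aeval (C Polynomial.X : MvPolynomial (Fin c) (Polynomial κ))
            (Polynomial.C b) = C (Polynomial.C b)
          rw [Polynomial.aeval_C]
          rfl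
        · show Polynomial.aeval (C Polynomial.X : MvPolynomial (Fin c) (Polynomial κ))
            Polynomial.X = C Polynomial.X
          rw [Polynomial.aeval_X]
      exact RingHom.congr_fun h2 a
    · show spl c (inv c (X i)) = X i
      rw [inv, coe_eval₂Hom, eval₂_X, spl_castSucc]
  exact RingHom.congr_fun h B

theorem bij (c : ℕ) : Function.Bijective (spl (κ := κ) c) :=
  Function.bijective_iff_has_inverse.2 ⟨inv c, inv_spl c, spl_inv c⟩

theorem td (c : ℕ) (A : MvPolynomial (Fin (c + 1)) κ) : (spl c A).totalDegree ≤ A.totalDegree := by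
  conv_lhs => rw [A.as_sum, map_sum]
  refine totalDegree_finsetSum_le fun μ hμ => ?_
  refine le_trans ?_ (le_totalDegree hμ)
  rw [spl, aeval_monomial]
  refine (totalDegree_mul _ _).trans ?_
  have h1 : (algebraMap κ (MvPolynomial (Fin c) (Polynomial κ)) (coeff μ A)).totalDegree = 0 :=
    totalDegree_C (Polynomial.C (coeff μ A))
  rw [h1, zero_add, Finsupp.prod, Finsupp.sum]
  refine (totalDegree_finset_prod _ _).trans (Finset.sum_le_sum fun i _ => ?_)
  refine (totalDegree_pow _ _).trans ?_
  have h2 : (Fin.snoc (α := fun _ => MvPolynomial (Fin c) (Polynomial κ)) (fun i : Fin c => X i)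
      (C Polynomial.X) i).totalDegree ≤ 1 := by
    induction i using Fin.lastCases with
    | last =>
      rw [Fin.snoc_last, totalDegree_C]
      exact Nat.zero_le _
    | cast i =>
      rw [Fin.snoc_castSucc]
      exact (totalDegree_X i).le
  calc μ i * _ ≤ μ i * 1 := Nat.mul_le_mul_left _ h2
    _ = μ i := mul_one _

theorem fse (c : ℕ) (P : MvPolynomial (Fin (c + 2)) κ) :
    finSuccEquiv (Polynomial κ) c (spl (c + 1) P) =
      (finSuccEquiv κ (c + 1) P).map (spl (κ := κ) c).toRingHom := by
  have h : ((finSuccEquiv (Polynomial κ) c : MvPolynomial (Fin (c + 1)) (Polynomial κ) →+*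
      Polynomial (MvPolynomial (Fin c) (Polynomial κ))).comp (spl (κ := κ) (c + 1)).toRingHom) =
      (Polynomial.mapRingHom (spl (κ := κ) c).toRingHom).comp
        (finSuccEquiv κ (c + 1) : MvPolynomial (Fin (c + 2)) κ →+*
          Polynomial (MvPolynomial (Fin (c + 1)) κ)) := by
    refine MvPolynomial.ringHom_ext (fun a => ?_) fun i => ?_
    · show finSuccEquiv (Polynomial κ) c (spl (c + 1) (C a)) =
        Polynomial.map (spl (κ := κ) c).toRingHom (finSuccEquiv κ (c + 1) (C a))
      rw [spl_C, finSuccEquiv_apply, finSuccEquiv_apply]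
      simp only [coe_eval₂Hom, eval₂_C, RingHom.comp_apply, Polynomial.map_C]
      congr 1
      exact (spl_C c a).symm
    · show finSuccEquiv (Polynomial κ) c (spl (c + 1) (X i)) =
        Polynomial.map (spl (κ := κ) c).toRingHom (finSuccEquiv κ (c + 1) (X i))
      induction i using Fin.cases with
      | zero =>
        have e : (0 : Fin (c + 2)) = Fin.castSucc 0 := rfl
        rw [finSuccEquiv_X_zero, Polynomial.map_X, e, spl_castSucc, finSuccEquiv_X_zero]
      | succ j =>
        rw [finSuccEquiv_X_succ, Polynomial.map_C]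
        induction j using Fin.lastCases with
        | last =>
          rw [Fin.succ_last, spl_last]
          show _ = Polynomial.C (spl c (X (Fin.last c)))
          rw [spl_last, finSuccEquiv_apply]
          simp only [coe_eval₂Hom, eval₂_C, RingHom.comp_apply]
        | cast k =>
          rw [Fin.succ_castSucc, spl_castSucc, finSuccEquiv_X_succ]
          show _ = Polynomial.C (spl c (X k.castSucc))
          rw [spl_castSucc]
  exact RingHom.congr_fun h P

theorem ren (c : ℕ) (A : MvPolynomial (Fin (c + 1)) κ) :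
    rename Fin.succ (spl c A) = spl (c + 1) (rename Fin.succ A) := by
  have h : ((rename Fin.succ : MvPolynomial (Fin c) (Polynomial κ) →ₐ[Polynomial κ]
      MvPolynomial (Fin (c + 1)) (Polynomial κ)).toRingHom.comp (spl (κ := κ) c).toRingHom) =
      (spl (κ := κ) (c + 1)).toRingHom.comp (rename Fin.succ : MvPolynomial (Fin (c + 1)) κ →ₐ[κ]
        MvPolynomial (Fin (c + 2)) κ).toRingHom := by
    refine MvPolynomial.ringHom_ext (fun a => ?_) fun i => ?_
    · show rename Fin.succ (spl c (C a)) = spl (c + 1) (rename Fin.succ (C a))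
      rw [spl_C, rename_C, rename_C, spl_C]
    · show rename Fin.succ (spl c (X i)) = spl (c + 1) (rename Fin.succ (X i))
      rw [rename_X]
      induction i using Fin.lastCases with
      | last => rw [spl_last, rename_C, Fin.succ_last, spl_last]
      | cast k => rw [spl_castSucc, rename_X, Fin.succ_castSucc, spl_castSucc]
  exact RingHom.congr_fun h A

end SplM

open SplM in
/-- (N4) The last variable. -/
theorem tSpl : StmtSpl := by
  intro κ _ c
  refine ⟨bij c, td c, fun P hP => ?_, fun P hP => ?_, ren c⟩
  · refine ⟨?_, ?_⟩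
    · unfold Mon
      rw [fse]
      exact Polynomial.Monic.map _ hP
    · unfold dz
      rw [fse]
      exact Polynomial.Monic.natDegree_map hP _
  · exact (MulEquiv.prime_iff (MulEquiv.ofBijective (spl (κ := κ) c) (bij c))).2 hP

end Pool.Agent.Lib.MP_16285c_agX
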