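import Pool.Agent.Lib.MP_16285c_agX.Hrn.Spec

/-!
# (N1) Standard monomials with weights

Copy of `Pool/Agent/ZDO/Std.lean` for relations `r i` with the leading term `X i ^ d i` with respect to a
weight.
-/

set_option autoImplicit false

namespace Pool.Agent.Lib.MP_16285c_agX

open MvPolynomial

namespace StdM

section Gen

variable {F : Type} [Field F] {N : ℕ} (ω : Fin N → ℕ)

/-- The weight of an exponent. -/
def wt (m : Fin N →₀ ℕ) : ℕ := ∑ i, ω i * m i

theorem wt_add (m k : Fin N →₀ ℕ) : wt ω (m + k) = wt ω m + wt ω k := by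
  simp only [wt, Finsupp.add_apply, mul_add, Finset.sum_add_distrib]

theorem wt_single (i : Fin N) (a : ℕ) : wt ω (Finsupp.single i a) = ω i * a := by
  classical
  simp only [wt, Finsupp.single_apply, mul_ite, mul_zero]
  rw [Finset.sum_ite_eq]
  rw [if_pos (Finset.mem_univ i)]

/-- All monomials of `H` have weight smaller than `D`. -/
def Lt (D : ℕ) (H : MvPolynomial (Fin N) F) : Prop := ∀ m : Fin N →₀ ℕ, D ≤ wt ω m → coeff m H = 0

variable {ω}

theorem Lt.zero (D : ℕ) : Lt ω D (0 : MvPolynomial (Fin N) F) := fun m _ => coeff_zero m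

theorem Lt.add {D : ℕ} {G H : MvPolynomial (Fin N) F} (hG : Lt ω D G) (hH : Lt ω D H) :
    Lt ω D (G + H) := by
  intro m hm
  rw [coeff_add, hG m hm, hH m hm, add_zero]

theorem Lt.neg {D : ℕ} {G : MvPolynomial (Fin N) F} (hG : Lt ω D G) : Lt ω D (-G) := by
  intro m hm
  rw [coeff_neg, hG m hm, neg_zero]

theorem Lt.mono {D E : ℕ} {G : MvPolynomial (Fin N) F} (hG : Lt ω D G) (h : D ≤ E) : Lt ω E G :=
  fun m hm => hG m (h.trans hm)

theorem Lt.mul {D E : ℕ} {G H : MvPolynomial (Fin N) F} (hG : Lt ω (D + 1) G) (hH : Lt ω E H) :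
    Lt ω (D + E) (G * H) := by
  classical
  intro m hm
  rw [coeff_mul]
  refine Finset.sum_eq_zero fun x hx => ?_
  rw [Finset.HasAntidiagonal.mem_antidiagonal] at hx
  by_cases h : D + 1 ≤ wt ω x.1
  · rw [hG _ h, zero_mul]
  · rw [hH x.2, mul_zero]
    have : wt ω m = wt ω x.1 + wt ω x.2 := by rw [← hx, wt_add]
    omega

theorem exists_lt (ω : Fin N → ℕ) (H : MvPolynomial (Fin N) F) : ∃ D, Lt ω D H := by
  classical
  refine ⟨H.support.sup (wt ω) + 1, ?_⟩
  intro m hm
  by_contra h
  have h1 : wt ω m ≤ H.support.sup (wt ω) := Finset.le_sup (mem_support_iff.2 h)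
  omega

variable (ω) in
/-- `G` has the leading term `X ^ m` in the weight: the other monomials have smaller weight. -/
def Top (m : Fin N →₀ ℕ) (G : MvPolynomial (Fin N) F) : Prop := Lt ω (wt ω m) (G - monomial m 1)

theorem Top.lt {m : Fin N →₀ ℕ} {G : MvPolynomial (Fin N) F} (h : Top ω m G) :
    Lt ω (wt ω m + 1) G := by
  classical
  intro k hk
  have h1 := h k (by omega)
  rw [coeff_sub, coeff_monomial, if_neg, sub_zero] at h1
  · exact h1
  · rintro rfl
    omega

theorem Top.monomial (m : Fin N →₀ ℕ) : Top ω m (MvPolynomial.monomial m (1 : F)) := by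
  rw [Top, sub_self]
  exact Lt.zero _

theorem Top.mul {m k : Fin N →₀ ℕ} {G H : MvPolynomial (Fin N) F} (hG : Top ω m G)
    (hH : Top ω k H) : Top ω (m + k) (G * H) := by
  have h1 : MvPolynomial.monomial (m + k) (1 : F) =
      MvPolynomial.monomial m 1 * MvPolynomial.monomial k 1 := by
    rw [monomial_mul, one_mul]
  have h2 : G * H - MvPolynomial.monomial (m + k) (1 : F) =
      G * (H - MvPolynomial.monomial k 1) +
        MvPolynomial.monomial k 1 * (G - MvPolynomial.monomial m 1) := by
    rw [h1]; ring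
  rw [Top, h2, wt_add]
  refine Lt.add (hG.lt.mul hH) ?_
  rw [add_comm (wt ω m)]
  exact (Top.monomial k).lt.mul hG

theorem Top.pow {m : Fin N →₀ ℕ} {G : MvPolynomial (Fin N) F} (hG : Top ω m G) (a : ℕ) :
    Top ω (a • m) (G ^ a) := by
  induction a with
  | zero =>
    rw [zero_smul, pow_zero]
    exact Top.monomial 0
  | succ a ih =>
    rw [succ_nsmul, pow_succ]
    exact ih.mul hG

theorem Top.prod {ι : Type*} (s : Finset ι) (m : ι → Fin N →₀ ℕ) (G : ι → MvPolynomial (Fin N) F)
    (h : ∀ i ∈ s, Top ω (m i) (G i)) : Top ω (∑ i ∈ s, m i) (∏ i ∈ s, G i) := by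
  classical
  induction s using Finset.induction_on with
  | empty =>
    rw [Finset.sum_empty, Finset.prod_empty]
    exact Top.monomial 0
  | insert a s ha ih =>
    rw [Finset.sum_insert ha, Finset.prod_insert ha]
    exact (h a (Finset.mem_insert_self _ _)).mul
      (ih fun i hi => h i (Finset.mem_insert_of_mem hi))

/-- The basis. -/
noncomputable def gg (d : Fin N → ℕ) (r : Fin N → MvPolynomial (Fin N) F) (m : Fin N →₀ ℕ) :
    MvPolynomial (Fin N) F :=
  ∏ i, r i ^ (m i / d i) * X i ^ (m i % d i)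

theorem top_gg {d : Fin N → ℕ} {r : Fin N → MvPolynomial (Fin N) F}
    (hr : ∀ i, Top ω (Finsupp.single i (d i)) (r i)) (m : Fin N →₀ ℕ) : Top ω m (gg d r m) := by
  have h2 : ∀ i, Top ω (Finsupp.single i (m i))
      (r i ^ (m i / d i) * X i ^ (m i % d i) : MvPolynomial (Fin N) F) := by
    intro i
    have h3 : Finsupp.single i (m i) =
        (m i / d i) • Finsupp.single i (d i) + (m i % d i) • Finsupp.single i 1 := by
      rw [Finsupp.smul_single, Finsupp.smul_single, ← Finsupp.single_add, smul_eq_mul,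
        smul_eq_mul, mul_one, Nat.div_add_mod']
    rw [h3]
    exact ((hr i).pow _).mul ((Top.monomial (Finsupp.single i 1)).pow _)
  have h3 := Top.prod Finset.univ (fun i => Finsupp.single i (m i)) _ fun i _ => h2 i
  rw [Finsupp.univ_sum_single] at h3
  exact h3

/-- The linear map `X ^ m ↦ g m`. -/
noncomputable def Ph (d : Fin N → ℕ) (r : Fin N → MvPolynomial (Fin N) F) :
    MvPolynomial (Fin N) F →ₗ[F] MvPolynomial (Fin N) F :=
  (basisMonomials (Fin N) F).constr F (gg d r)

theorem ph_monomial (d : Fin N → ℕ) (r : Fin N → MvPolynomial (Fin N) F) (m : Fin N →₀ ℕ) (c : F) :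
    Ph d r (monomial m c) = c • gg d r m := by
  have h1 : (monomial m c : MvPolynomial (Fin N) F) = c • basisMonomials (Fin N) F m := by
    rw [coe_basisMonomials, smul_monomial, smul_eq_mul, mul_one]
  rw [h1, map_smul, Ph, Module.Basis.constr_basis]

theorem ph_inj {d : Fin N → ℕ} {r : Fin N → MvPolynomial (Fin N) F}
    (hr : ∀ i, Top ω (Finsupp.single i (d i)) (r i)) : Function.Injective (Ph d r) := by
  classical
  rw [injective_iff_map_eq_zero]
  intro H hH
  by_contra h0
  obtain ⟨m₀, hm₀, hmax⟩ := Finset.exists_max_image H.support (fun m => wt ω m)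
    (support_nonempty.2 h0)
  have h1 : Ph d r H = ∑ m ∈ H.support, coeff m H • gg d r m := by
    conv_lhs => rw [H.as_sum]
    rw [map_sum]
    exact Finset.sum_congr rfl fun m _ => ph_monomial d r m _
  have h2 := congrArg (coeff m₀) h1
  rw [hH, coeff_zero, coeff_sum, Finset.sum_eq_single m₀] at h2
  · have h3 := top_gg hr m₀ m₀ le_rfl
    rw [coeff_sub, coeff_monomial, if_pos rfl, sub_eq_zero] at h3
    rw [coeff_smul, h3, smul_eq_mul, mul_one] at h2
    exact mem_support_iff.1 hm₀ h2.symm
  · intro m hm hne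
    have h3 := top_gg hr m m₀ (hmax m hm)
    rw [coeff_sub, coeff_monomial, if_neg hne, sub_zero] at h3
    rw [coeff_smul, h3, smul_zero]
  · intro h
    exact absurd hm₀ h

theorem ph_surj_aux {d : Fin N → ℕ} {r : Fin N → MvPolynomial (Fin N) F}
    (hr : ∀ i, Top ω (Finsupp.single i (d i)) (r i)) :
    ∀ D : ℕ, ∀ H : MvPolynomial (Fin N) F, Lt ω D H → ∃ G, Ph d r G = H := by
  intro D
  induction D with
  | zero =>
    intro H hH
    refine ⟨0, ?_⟩
    rw [map_zero]
    ext m
    rw [coeff_zero, hH m (Nat.zero_le _)]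
  | succ D ih =>
    intro H hH
    have h1 : ∀ m ∈ H.support, ∃ G, Ph d r G = monomial m (coeff m H) := by
      intro m hm
      have hmD : wt ω m ≤ D := by
        by_contra h
        exact mem_support_iff.1 hm (hH m (by omega))
      obtain ⟨G, hG⟩ := ih _ ((top_gg hr m).mono hmD)
      refine ⟨coeff m H • (monomial m 1 - G), ?_⟩
      rw [map_smul, map_sub, hG, ph_monomial, one_smul, sub_sub_cancel, smul_monomial, smul_eq_mul,
        mul_one]
    choose! G hG using h1
    refine ⟨∑ m ∈ H.support, G m, ?_⟩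
    rw [map_sum, Finset.sum_congr rfl hG]
    exact (H.as_sum).symm

theorem ph_surj {d : Fin N → ℕ} {r : Fin N → MvPolynomial (Fin N) F}
    (hr : ∀ i, Top ω (Finsupp.single i (d i)) (r i)) : Function.Surjective (Ph d r) := by
  intro H
  obtain ⟨D, hD⟩ := exists_lt ω H
  exact ph_surj_aux hr D H hD

theorem gg_add {d : Fin N → ℕ} (hd : ∀ i, 0 < d i) (r : Fin N → MvPolynomial (Fin N) F)
    (m : Fin N →₀ ℕ) (i : Fin N) : gg d r (m + Finsupp.single i (d i)) = r i * gg d r m := by
  classical
  rw [gg, gg, ← Finset.mul_prod_erase Finset.univ _ (Finset.mem_univ i),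
    ← Finset.mul_prod_erase Finset.univ (fun j => r j ^ (m j / d j) * X j ^ (m j % d j))
      (Finset.mem_univ i)]
  have h1 : (m + Finsupp.single i (d i)) i = m i + d i := by
    rw [Finsupp.add_apply, Finsupp.single_eq_same]
  rw [h1, Nat.add_div_right _ (hd i), Nat.add_mod_right, pow_succ]
  have h2 : ∏ j ∈ Finset.univ.erase i, (r j ^ ((m + Finsupp.single i (d i)) j / d j) *
        X j ^ ((m + Finsupp.single i (d i)) j % d j)) =
      ∏ j ∈ Finset.univ.erase i, (r j ^ (m j / d j) * X j ^ (m j % d j)) := by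
    refine Finset.prod_congr rfl fun j hj => ?_
    have : (m + Finsupp.single i (d i)) j = m j := by
      rw [Finsupp.add_apply, Finsupp.single_eq_of_ne (Finset.ne_of_mem_erase hj), add_zero]
    rw [this]
  rw [h2]
  ring

theorem ph_mul {d : Fin N → ℕ} (hd : ∀ i, 0 < d i) (r : Fin N → MvPolynomial (Fin N) F)
    (H : MvPolynomial (Fin N) F) (i : Fin N) : Ph d r (X i ^ d i * H) = r i * Ph d r H := by
  induction H using MvPolynomial.induction_on' with
  | monomial m c =>
    have h1 : (X i ^ d i * monomial m c : MvPolynomial (Fin N) F) =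
        monomial (m + Finsupp.single i (d i)) c := by
      rw [X_pow_eq_monomial, monomial_mul, one_mul, add_comm]
    rw [h1, ph_monomial, ph_monomial, gg_add hd, mul_smul_comm]
  | add p s hp hs => rw [mul_add, map_add, map_add, hp, hs, mul_add]

theorem gg_small {d : Fin N → ℕ} (r : Fin N → MvPolynomial (Fin N) F) (m : Fin N →₀ ℕ)
    (hm : ∀ i, m i < d i) : gg d r m = monomial m 1 := by
  rw [gg]
  have h1 : ∀ i, (r i ^ (m i / d i) * X i ^ (m i % d i) : MvPolynomial (Fin N) F) =
      X i ^ (m i) := by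
    intro i
    rw [Nat.div_eq_of_lt (hm i), pow_zero, one_mul, Nat.mod_eq_of_lt (hm i)]
  rw [Finset.prod_congr rfl fun i _ => h1 i, monomial_eq, C_1, one_mul,
    Finsupp.prod_fintype _ _ fun i => pow_zero _]

theorem gg_big {d : Fin N → ℕ} (r : Fin N → MvPolynomial (Fin N) F) (m : Fin N →₀ ℕ) (i : Fin N)
    (hd : 0 < d i) (hm : d i ≤ m i) : gg d r m ∈ Ideal.span (Set.range r) := by
  classical
  rw [gg, ← Finset.mul_prod_erase Finset.univ _ (Finset.mem_univ i)]
  refine Ideal.mul_mem_right _ _ (Ideal.mul_mem_right _ _ ?_)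
  have h1 : 0 < m i / d i := Nat.div_pos hm hd
  exact Ideal.pow_mem_of_mem _ (Ideal.subset_span (Set.mem_range_self i)) _ h1

/-- The ideal contains no nonzero polynomial with small monomials only. -/
theorem small_eq_zero {d : Fin N → ℕ} {r : Fin N → MvPolynomial (Fin N) F}
    (hr : ∀ i, Top ω (Finsupp.single i (d i)) (r i)) (hd : ∀ i, 0 < d i)
    (H : MvPolynomial (Fin N) F) (hdeg : ∀ m ∈ H.support, ∀ i, m i < d i)
    (hI : H ∈ Ideal.span (Set.range r)) : H = 0 := by
  classical
  have h1 : Ph d r H = H := by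
    conv_lhs => rw [H.as_sum]
    conv_rhs => rw [H.as_sum]
    rw [map_sum]
    refine Finset.sum_congr rfl fun m hm => ?_
    rw [ph_monomial, gg_small r m (hdeg m hm), smul_monomial, smul_eq_mul, mul_one]
  rw [Ideal.mem_span_range_iff_exists_fun] at hI
  obtain ⟨c, hc⟩ := hI
  choose w hw using fun i => ph_surj hr (c i)
  have h2 : Ph d r (∑ i, X i ^ d i * w i) = H := by
    rw [map_sum, ← hc]
    refine Finset.sum_congr rfl fun i _ => ?_
    rw [ph_mul hd, hw, mul_comm]
  have h3 : H = ∑ i, X i ^ d i * w i := ph_inj hr (h1.trans h2.symm)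
  ext m
  rw [coeff_zero]
  by_contra h4
  have h5 := hdeg m (mem_support_iff.2 h4)
  apply h4
  rw [h3, coeff_sum]
  refine Finset.sum_eq_zero fun i _ => ?_
  rw [X_pow_eq_monomial, coeff_monomial_mul', if_neg]
  rw [Finsupp.single_le_iff]
  exact not_le.2 (h5 i)

/-- The quotient is spanned by the standard monomials. -/
theorem span_std {d : Fin N → ℕ} {r : Fin N → MvPolynomial (Fin N) F}
    (hr : ∀ i, Top ω (Finsupp.single i (d i)) (r i)) (hd : ∀ i, 0 < d i) :
    Submodule.span F (Set.range fun e : ((i : Fin N) → Fin (d i)) =>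
      Ideal.Quotient.mk (Ideal.span (Set.range r)) (∏ i, X i ^ (e i : ℕ))) = ⊤ := by
  classical
  rw [eq_top_iff]
  rintro x -
  obtain ⟨G, rfl⟩ := Ideal.Quotient.mk_surjective x
  obtain ⟨H, rfl⟩ := ph_surj hr G
  have h1 : Ph d r H = ∑ m ∈ H.support, coeff m H • gg d r m := by
    conv_lhs => rw [H.as_sum]
    rw [map_sum]
    exact Finset.sum_congr rfl fun m _ => ph_monomial d r m _
  rw [h1, map_sum]
  refine Submodule.sum_mem _ fun m _ => ?_
  have h2 : Ideal.Quotient.mk (Ideal.span (Set.range r)) (coeff m H • gg d r m) =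
      coeff m H • Ideal.Quotient.mk (Ideal.span (Set.range r)) (gg d r m) := rfl
  rw [h2]
  refine Submodule.smul_mem _ _ ?_
  by_cases h3 : ∀ i, m i < d i
  · rw [gg_small r m h3]
    refine Submodule.subset_span ⟨fun i => ⟨m i, h3 i⟩, ?_⟩
    simp only
    rw [monomial_eq, C_1, one_mul, Finsupp.prod_fintype _ _ fun i => pow_zero _]
  · push Not at h3
    obtain ⟨i, hi⟩ := h3
    rw [Ideal.Quotient.eq_zero_iff_mem.2 (gg_big r m i (hd i) hi)]
    exact Submodule.zero_mem _

theorem finite_quot {d : Fin N → ℕ} {r : Fin N → MvPolynomial (Fin N) F}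
    (hr : ∀ i, Top ω (Finsupp.single i (d i)) (r i)) (hd : ∀ i, 0 < d i) :
    Module.Finite F (MvPolynomial (Fin N) F ⧸ Ideal.span (Set.range r)) :=
  ⟨⟨(Set.range fun e : ((i : Fin N) → Fin (d i)) =>
      Ideal.Quotient.mk (Ideal.span (Set.range r)) (∏ i, X i ^ (e i : ℕ))).toFinite.toFinset, by
    rw [Set.Finite.coe_toFinset]
    exact span_std hr hd⟩⟩

theorem finrank_quot {d : Fin N → ℕ} {r : Fin N → MvPolynomial (Fin N) F}
    (hr : ∀ i, Top ω (Finsupp.single i (d i)) (r i)) (hd : ∀ i, 0 < d i) :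
    Module.finrank F (MvPolynomial (Fin N) F ⧸ Ideal.span (Set.range r)) ≤ ∏ i, d i := by
  have h1 := finrank_range_le_card (R := F) (fun e : ((i : Fin N) → Fin (d i)) =>
      Ideal.Quotient.mk (Ideal.span (Set.range r)) (∏ i, X i ^ (e i : ℕ)))
  rw [Set.finrank, span_std hr hd, finrank_top, Fintype.card_pi] at h1
  simpa only [Fintype.card_fin] using h1

end Gen

section Jq

variable {F : Type} [Field F] {c : ℕ}

/-- The weights. -/
def om (c m : ℕ) : Fin (c + 1) → ℕ := Fin.cons (m + 1) fun _ => 1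

theorem wt_om_le (m : ℕ) (μ : Fin (c + 1) →₀ ℕ) : wt (om c m) μ ≤ (m + 1) * μ.degree := by
  rw [wt, Finsupp.degree_eq_sum, Finset.mul_sum]
  refine Finset.sum_le_sum fun i _ => Nat.mul_le_mul_right _ ?_
  refine Fin.cases ?_ (fun j => ?_) i
  · exact le_rfl
  · rw [om, Fin.cons_succ]
    omega

theorem wt_om (m : ℕ) (μ : Fin (c + 1) →₀ ℕ) :
    wt (om c m) μ + μ 0 = m * μ 0 + μ 0 + μ.degree := by
  rw [wt, Finsupp.degree_eq_sum, Fin.sum_univ_succ, Fin.sum_univ_succ]
  simp only [om, Fin.cons_zero, Fin.cons_succ, one_mul]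
  ring

theorem le_degree (μ : Fin (c + 1) →₀ ℕ) (i : Fin (c + 1)) : μ i ≤ μ.degree := by
  rw [Finsupp.degree_eq_sum]
  exact Finset.single_le_sum (f := fun j => μ j) (fun _ _ => Nat.zero_le _) (Finset.mem_univ i)

theorem top_P (P : MvPolynomial (Fin (c + 1)) F) (hP : Mon P) :
    Top (om c P.totalDegree) (Finsupp.single 0 (dz P)) P := by
  classical
  intro μ hμ
  rw [wt_single, om, Fin.cons_zero] at hμ
  by_contra hne
  rw [coeff_sub, coeff_monomial] at hne
  have hcc : coeff μ.tail (Polynomial.coeff (finSuccEquiv F c P) (μ 0)) = coeff μ P := by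
    rw [finSuccEquiv_coeff_coeff, Finsupp.cons_tail]
  rcases lt_trichotomy (μ 0) (dz P) with h | h | h
  · -- small exponent of `X 0`
    rw [if_neg, sub_zero] at hne
    · have h1 : μ.degree ≤ P.totalDegree := by
        by_contra h2
        apply hne
        apply coeff_eq_zero_of_totalDegree_lt
        rw [Finsupp.degree_apply] at h2
        omega
      have h2 := wt_om P.totalDegree μ
      have h3 : (P.totalDegree + 1) * (μ 0 + 1) ≤ (P.totalDegree + 1) * dz P :=
        Nat.mul_le_mul_left _ h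
      have h4 : (P.totalDegree + 1) * (μ 0 + 1) =
        P.totalDegree * μ 0 + μ 0 + P.totalDegree + 1 := by ring
      have h5 : (P.totalDegree + 1) * dz P ≤ wt (om c P.totalDegree) μ := hμ
      omega
    · rintro rfl
      rw [Finsupp.single_eq_same] at h
      omega
  · -- the leading coefficient
    have h1 : Polynomial.coeff (finSuccEquiv F c P) (μ 0) = 1 := by
      rw [h]
      exact hP
    rw [h1, coeff_one] at hcc
    apply hne
    rw [← hcc]
    by_cases h2 : μ.tail = 0
    · have h3 : Finsupp.single 0 (dz P) = μ := by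
        rw [← Finsupp.cons_tail μ, h2, h]
        ext i
        refine Fin.cases ?_ (fun j => ?_) i
        · rw [Finsupp.single_eq_same, Finsupp.cons_zero]
        · rw [Finsupp.cons_succ, Finsupp.single_eq_of_ne (Fin.succ_ne_zero j), Finsupp.zero_apply]
      rw [if_pos h2.symm, if_pos h3, sub_self]
    · have h3 : Finsupp.single 0 (dz P) ≠ μ := by
        rintro h4
        apply h2
        rw [← h4]
        ext j
        rw [Finsupp.tail_apply, Finsupp.single_eq_of_ne (Fin.succ_ne_zero j), Finsupp.zero_apply]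
      rw [if_neg (fun h4 => h2 h4.symm), if_neg h3, sub_self]
  · -- no larger exponent
    have h1 : Polynomial.coeff (finSuccEquiv F c P) (μ 0) = 0 :=
      Polynomial.coeff_eq_zero_of_natDegree_lt h
    rw [h1, coeff_zero] at hcc
    rw [← hcc, if_neg, sub_zero] at hne
    · exact hne rfl
    · rintro rfl
      rw [Finsupp.single_eq_same] at h
      omega

theorem top_g (m q : ℕ) (g : Fin c → MvPolynomial (Fin (c + 1)) F) (i : Fin c)
    (hg : (m + 1) * (g i).totalDegree < q) :
    Top (om c m) (Finsupp.single i.succ q) (X i.succ ^ q - g i) := by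
  rw [Top, X_pow_eq_monomial, sub_sub_cancel_left]
  refine Lt.neg ?_
  intro μ hμ
  rw [wt_single, om, Fin.cons_succ, one_mul] at hμ
  apply coeff_eq_zero_of_totalDegree_lt
  rw [← Finsupp.degree_apply]
  by_contra h
  have h1 := wt_om_le m μ
  have h2 : (m + 1) * μ.degree ≤ (m + 1) * (g i).totalDegree := Nat.mul_le_mul_left _ (by omega)
  have h3 : q ≤ wt (om c m) μ := hμ
  omega

/-- The exponents. -/
def dd (c e q : ℕ) : Fin (c + 1) → ℕ := Fin.cons e fun _ => q

/-- The relations. -/
noncomputable def rr (q : ℕ) (P : MvPolynomial (Fin (c + 1)) F)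
    (g : Fin c → MvPolynomial (Fin (c + 1)) F) : Fin (c + 1) → MvPolynomial (Fin (c + 1)) F :=
  Fin.cons P fun i => X i.succ ^ q - g i

theorem jq_eq (q : ℕ) (P : MvPolynomial (Fin (c + 1)) F)
    (g : Fin c → MvPolynomial (Fin (c + 1)) F) : Jq q P g = Ideal.span (Set.range (rr q P g)) := by
  rw [Jq, rr, Fin.range_cons]

end Jq

end StdM

open StdM in
/-- (N1) Standard monomials. -/
theorem tStd : StmtStd := by
  classical
  intro F _ c q P g hP he hq hg
  have hr : ∀ i, StdM.Top (om c P.totalDegree) (Finsupp.single i (dd c (dz P) q i))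
      (rr q P g i) := by
    intro i
    refine Fin.cases ?_ (fun j => ?_) i
    · exact top_P P hP
    · exact top_g P.totalDegree q g j (hg j)
  have hd : ∀ i, 0 < dd c (dz P) q i := by
    intro i
    refine Fin.cases ?_ (fun j => ?_) i
    · exact he
    · exact hq
  have hprod : ∏ i, dd c (dz P) q i = dz P * q ^ c := by
    rw [Fin.prod_univ_succ]
    simp only [dd, Fin.cons_zero, Fin.cons_succ, Finset.prod_const, Finset.card_univ,
      Fintype.card_fin]
  rw [jq_eq]
  refine ⟨finite_quot hr hd, (finrank_quot hr hd).trans_eq hprod, ?_⟩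
  intro H hH hI
  have h0 : rename Fin.succ H = (0 : MvPolynomial (Fin (c + 1)) F) := by
    refine small_eq_zero hr hd _ ?_ hI
    intro μ hμ i
    rw [support_rename_of_injective (Fin.succ_injective c), Finset.mem_image] at hμ
    obtain ⟨ν, hν, rfl⟩ := hμ
    refine Fin.cases ?_ (fun j => ?_) i
    · rw [Finsupp.mapDomain_of_notMem_range]
      · exact he
      · rintro ⟨j, hj⟩
        exact Fin.succ_ne_zero j hj
    · rw [Finsupp.mapDomain_apply (Fin.succ_injective c)]
      have h1 : ν j ≤ H.totalDegree := by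
        refine le_trans ?_ (le_totalDegree hν)
        by_cases h2 : j ∈ ν.support
        · exact Finset.single_le_sum (f := fun j => ν j) (fun _ _ => Nat.zero_le _) h2
        · rw [Finsupp.notMem_support_iff.1 h2]
          exact Nat.zero_le _
      exact lt_of_le_of_lt h1 hH
  exact rename_injective _ (Fin.succ_injective c) (by rw [h0, map_zero])

end Pool.Agent.Lib.MP_16285c_agX
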