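import Pool.Agent.Lib.MP_16285c_agX.Hrn.Spec

/-!
# One step of the chain of norms
-/

set_option autoImplicit false

namespace Pool.Agent.Lib.MP_16285c_agX

open MP7Z MvPolynomial
open scoped IntermediateField

namespace StepM

theorem pow_eq {κ : Type} [Field κ] (p : ℕ) [Fact p.Prime] [CharP κ p] (s : ℕ) (c : Polynomial κ) :
    c ^ p ^ s = Polynomial.expand κ (p ^ s) (Polynomial.map (iterateFrobenius κ p s) c) := by
  rw [← Polynomial.map_expand, Polynomial.map_iterateFrobenius_expand]

theorem pow_rename {κ : Type} [Field κ] (p : ℕ) [Fact p.Prime] [CharP κ p] (n s : ℕ)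
    (B : MvPolynomial (Fin n) (Polynomial κ))
    (hB : map (Polynomial.mapRingHom (iterateFrobenius κ p s)) B = B) :
    (rename Fin.succ B : MvPolynomial (Fin (n + 1)) (Polynomial κ)) ^ p ^ s =
      eval₂ ((C : Polynomial κ →+* MvPolynomial (Fin (n + 1)) (Polynomial κ)).comp
        (Polynomial.expand κ (p ^ s) : Polynomial κ →+* Polynomial κ))
        (fun i => X (Fin.succ i) ^ p ^ s) B := by
  have h2 : (iterateFrobenius (MvPolynomial (Fin (n + 1)) (Polynomial κ)) p s).comp
      ((rename (R := Polynomial κ) (Fin.succ : Fin n → Fin (n + 1)) :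
        MvPolynomial (Fin n) (Polynomial κ) →ₐ[Polynomial κ] MvPolynomial (Fin (n + 1)) (Polynomial κ)) :
        MvPolynomial (Fin n) (Polynomial κ) →+* MvPolynomial (Fin (n + 1)) (Polynomial κ)) =
      (eval₂Hom ((C : Polynomial κ →+* MvPolynomial (Fin (n + 1)) (Polynomial κ)).comp
        (Polynomial.expand κ (p ^ s) : Polynomial κ →+* Polynomial κ))
        (fun i : Fin n => (X (Fin.succ i) ^ p ^ s : MvPolynomial (Fin (n + 1)) (Polynomial κ)))).comp
        (map (Polynomial.mapRingHom (iterateFrobenius κ p s))) := by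
    refine MvPolynomial.ringHom_ext (fun c => ?_) fun i => ?_
    · rw [RingHom.comp_apply, RingHom.comp_apply, map_C, coe_eval₂Hom, eval₂_C, iterateFrobenius_def,
        RingHom.comp_apply]
      change (rename Fin.succ (C c)) ^ p ^ s = C (Polynomial.expand κ (p ^ s)
        (Polynomial.mapRingHom (iterateFrobenius κ p s) c))
      rw [rename_C, ← C_pow, pow_eq, Polynomial.coe_mapRingHom]
    · rw [RingHom.comp_apply, RingHom.comp_apply, map_X, coe_eval₂Hom, eval₂_X, iterateFrobenius_def]
      change (rename Fin.succ (X i)) ^ p ^ s = X (Fin.succ i) ^ p ^ s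
      rw [rename_X]
  have h3 := RingHom.congr_fun h2 B
  rw [RingHom.comp_apply, RingHom.comp_apply, hB, iterateFrobenius_def, coe_eval₂Hom] at h3
  exact h3

theorem sub_mem {R : Type} [CommRing R] (n q : ℕ) (P : MvPolynomial (Fin (n + 1)) R)
    (g : Fin n → MvPolynomial (Fin (n + 1)) R) (φ : R →+* MvPolynomial (Fin (n + 1)) R)
    (B : MvPolynomial (Fin n) R) :
    eval₂ φ g B - eval₂ φ (fun i => X (Fin.succ i) ^ q) B ∈ Jq q P g := by
  rw [← Ideal.Quotient.eq, eval₂_comp_left, eval₂_comp_left]
  have h : (Ideal.Quotient.mk (Jq q P g)) ∘ g =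
      (Ideal.Quotient.mk (Jq q P g)) ∘ fun i => X (Fin.succ i) ^ q := by
    funext i
    refine (Ideal.Quotient.eq.2 ?_).symm
    exact Ideal.subset_span (Set.mem_insert_of_mem _ ⟨i, rfl⟩)
  rw [h]

theorem deg_le {R T : Type} [CommRing R] [CommRing T] {σ τ : Type} (φ : R →+* T)
    (g : σ → MvPolynomial τ T) (D : ℕ) (hg : ∀ i, (g i).totalDegree ≤ D) (B : MvPolynomial σ R) :
    (eval₂ ((C : T →+* MvPolynomial τ T).comp φ) g B).totalDegree ≤ B.totalDegree * D := by
  rw [eval₂_eq]
  refine totalDegree_finsetSum_le fun m hm => ?_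
  refine (totalDegree_mul _ _).trans ?_
  rw [RingHom.comp_apply, totalDegree_C, zero_add]
  refine (totalDegree_finsetProd _ _).trans ?_
  calc ∑ i ∈ m.support, (g i ^ m i).totalDegree ≤ ∑ i ∈ m.support, m i * D := by
        refine Finset.sum_le_sum fun i _ => ?_
        exact (totalDegree_pow _ _).trans (Nat.mul_le_mul le_rfl (hg i))
    _ = (∑ i ∈ m.support, m i) * D := by rw [Finset.sum_mul]
    _ ≤ B.totalDegree * D := Nat.mul_le_mul (le_totalDegree hm) le_rfl

end StepM

theorem tStep (hNm : StmtNm) : StmtStep := by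
  intro κ _ p _ _ n s D P g B hM hP hg hB hD S hS
  refine ⟨?_, ?_, ?_⟩
  · obtain ⟨a, b, hab⟩ := Ideal.mem_span_pair.1 (hNm.1 (Polynomial κ) n P S hM)
    refine ⟨b, ?_⟩
    have h1 : S - (rename Fin.succ B) ^ p ^ s ∈ Jq (p ^ s) P g := by
      rw [StepM.pow_rename p n s B hB, hS]
      exact StepM.sub_mem n (p ^ s) P g _ B
    have h2 : P ∈ Jq (p ^ s) P g := Ideal.subset_span (Set.mem_insert _ _)
    have h3 : rename Fin.succ (nm P S) - b * (rename Fin.succ B) ^ p ^ s =
        a * P + b * (S - (rename Fin.succ B) ^ p ^ s) := by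
      rw [← hab]
      ring
    rw [h3]
    exact Ideal.add_mem _ (Ideal.mul_mem_left _ _ h2) (Ideal.mul_mem_left _ _ h1)
  · rw [hNm.2.2.1 (Polynomial κ) (Polynomial κ) _ n P S hM, hP]
    have h4 : map (Polynomial.mapRingHom (iterateFrobenius κ p s)) S = S := by
      have h5 : ((map (Polynomial.mapRingHom (iterateFrobenius κ p s)) :
          MvPolynomial (Fin (n + 1)) (Polynomial κ) →+* MvPolynomial (Fin (n + 1)) (Polynomial κ)).comp
          ((C : Polynomial κ →+* MvPolynomial (Fin (n + 1)) (Polynomial κ)).comp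
            (Polynomial.expand κ (p ^ s) : Polynomial κ →+* Polynomial κ))) =
          ((C : Polynomial κ →+* MvPolynomial (Fin (n + 1)) (Polynomial κ)).comp
            (Polynomial.expand κ (p ^ s) : Polynomial κ →+* Polynomial κ)).comp
            (Polynomial.mapRingHom (iterateFrobenius κ p s)) := by
        refine RingHom.ext fun c => ?_
        change map (Polynomial.mapRingHom (iterateFrobenius κ p s))
          (C (Polynomial.expand κ (p ^ s) c)) = C (Polynomial.expand κ (p ^ s)
            (Polynomial.mapRingHom (iterateFrobenius κ p s) c))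
        rw [map_C, Polynomial.coe_mapRingHom, Polynomial.map_expand]
      have h6 : (⇑(map (Polynomial.mapRingHom (iterateFrobenius κ p s)) :
          MvPolynomial (Fin (n + 1)) (Polynomial κ) →+*
            MvPolynomial (Fin (n + 1)) (Polynomial κ)) ∘ g) = g := funext hg
      have h7 : map (Polynomial.mapRingHom (iterateFrobenius κ p s)) S =
          eval₂ ((map (Polynomial.mapRingHom (iterateFrobenius κ p s)) :
            MvPolynomial (Fin (n + 1)) (Polynomial κ) →+*
              MvPolynomial (Fin (n + 1)) (Polynomial κ)).comp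
            ((C : Polynomial κ →+* MvPolynomial (Fin (n + 1)) (Polynomial κ)).comp
              (Polynomial.expand κ (p ^ s) : Polynomial κ →+* Polynomial κ)))
            (⇑(map (Polynomial.mapRingHom (iterateFrobenius κ p s)) :
              MvPolynomial (Fin (n + 1)) (Polynomial κ) →+*
                MvPolynomial (Fin (n + 1)) (Polynomial κ)) ∘ g) B := by
        rw [hS, eval₂_comp_left]
      rw [h7, h5, h6, ← eval₂_map, hB, hS]
    rw [h4]
  · refine (hNm.2.2.2 (Polynomial κ) n P S hM).trans ?_
    have h7 : S.totalDegree ≤ B.totalDegree * D := by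
      rw [hS]
      exact StepM.deg_le _ g D hD B
    gcongr

end Pool.Agent.Lib.MP_16285c_agX
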