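import Pool.Agent.Lib.MP_16285c_agX.Hrn.Spec
import Pool.Agent.Lib.MP_16285c_agS.Hrx.Univ

/-!
# The universal function with a pole only at a given point, all dimensions
-/

set_option autoImplicit false

namespace Pool.Agent.Lib.MP_16285c_agX

open MvPolynomial
open Pool.Agent.Lib.MP_16285c_agS.Hrx (Wt StmtMin StmtDim)

namespace UniNM

section part1

variable {κ R : Type} [Field κ] [CommRing R] [Algebra κ R] {n : ℕ}

theorem spn_C (y : Fin (n + 2) → R) (a : κ) :
    spn y (C a) = Polynomial.C (Polynomial.C (algebraMap κ R a)) := by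
  unfold spn
  rw [aeval_C]
  rfl

theorem spn_add (y : Fin (n + 2) → R) (p q : MvPolynomial (Fin (n + 2)) κ) :
    spn y (p + q) = spn y p + spn y q := by
  unfold spn
  exact map_add _ _ _

theorem spn_mul (y : Fin (n + 2) → R) (p q : MvPolynomial (Fin (n + 2)) κ) :
    spn y (p * q) = spn y p * spn y q := by
  unfold spn
  exact map_mul _ _ _

theorem spn_X (y : Fin (n + 2) → R) (j : Fin (n + 2)) :
    spn y (X j : MvPolynomial (Fin (n + 2)) κ) =
      if j = 0 then Polynomial.X else if j = lst n then Polynomial.C Polynomial.X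
        else Polynomial.C (Polynomial.C (y j)) := by
  unfold spn
  rw [aeval_X]

/-- the values of the variables other than the first one -/
noncomputable def vv (y : Fin (n + 2) → R) (i : Fin (n + 1)) : Polynomial R :=
  if i.succ = lst n then Polynomial.X else Polynomial.C (y i.succ)

theorem fse_C (c : κ) :
    finSuccEquiv κ (n + 1) (C c) = Polynomial.C (C c : MvPolynomial (Fin (n + 1)) κ) :=
  (finSuccEquiv κ (n + 1)).commutes c

theorem map_spn (y : Fin (n + 2) → R) (P : MvPolynomial (Fin (n + 2)) κ) :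
    (finSuccEquiv κ (n + 1) P).map
      (aeval (vv y) : MvPolynomial (Fin (n + 1)) κ →ₐ[κ] Polynomial R).toRingHom =
      spn y P := by
  induction P using MvPolynomial.induction_on with
  | C a =>
    rw [fse_C, Polynomial.map_C, spn_C]
    congr 1
    exact aeval_C _ _
  | add p q hp hq => rw [map_add, Polynomial.map_add, spn_add, hp, hq]
  | mul_X p i hp =>
    rw [map_mul, Polynomial.map_mul, spn_mul, hp]
    congr 1
    refine Fin.cases ?_ (fun j => ?_) i
    · refine (congrArg _ (finSuccEquiv_X_zero (R := κ) (n := n + 1))).trans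
        ((Polynomial.map_X _).trans ?_)
      rw [spn_X, if_pos rfl]
    · refine (congrArg _ (finSuccEquiv_X_succ (R := κ) (n := n + 1) (j := j))).trans ?_
      refine (Polynomial.map_C _).trans ?_
      rw [spn_X, if_neg (Fin.succ_ne_zero j)]
      have h1 : (aeval (vv y) : MvPolynomial (Fin (n + 1)) κ →ₐ[κ] Polynomial R).toRingHom (X j) =
          vv y j := aeval_X _ _
      rw [h1]
      unfold vv
      split_ifs <;> rfl

theorem spn_monic [Nontrivial R] (y : Fin (n + 2) → R) {P : MvPolynomial (Fin (n + 2)) κ}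
    (hm : Mon P) : (spn y P).Monic ∧ (spn y P).natDegree = dz P := by
  rw [← map_spn]
  exact ⟨Polynomial.Monic.map _ hm, Polynomial.Monic.natDegree_map hm _⟩

theorem spn_map {L : Type} [CommRing L] [Algebra κ L] (φ : R →ₐ[κ] L) (y : Fin (n + 2) → R)
    (P : MvPolynomial (Fin (n + 2)) κ) :
    (spn y P).map (Polynomial.mapRingHom (φ : R →+* L)) = spn (fun j => φ (y j)) P := by
  induction P using MvPolynomial.induction_on with
  | C a =>
    rw [spn_C, spn_C, Polynomial.map_C, Polynomial.coe_mapRingHom, Polynomial.map_C]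
    congr 2
    exact φ.commutes a
  | add p q hp hq => rw [spn_add, spn_add, Polynomial.map_add, hp, hq]
  | mul_X p i hp =>
    rw [spn_mul, spn_mul, Polynomial.map_mul, hp]
    congr 1
    rw [spn_X, spn_X]
    split_ifs
    · rw [Polynomial.map_X]
    · rw [Polynomial.map_C, Polynomial.coe_mapRingHom, Polynomial.map_X]
    · rw [Polynomial.map_C, Polynomial.coe_mapRingHom, Polynomial.map_C]
      rfl

theorem spn_eval (y : Fin (n + 2) → R) (P : MvPolynomial (Fin (n + 2)) κ) :
    ((spn y P).map (Polynomial.evalRingHom (y (lst n)))).eval (y 0) = aeval y P := by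
  induction P using MvPolynomial.induction_on with
  | C a => rw [spn_C, Polynomial.map_C, Polynomial.eval_C, Polynomial.coe_evalRingHom,
      Polynomial.eval_C, aeval_C]
  | add p q hp hq => rw [spn_add, Polynomial.map_add, Polynomial.eval_add, map_add, hp, hq]
  | mul_X p i hp =>
    rw [spn_mul, Polynomial.map_mul, Polynomial.eval_mul, map_mul, hp, aeval_X, spn_X]
    congr 1
    split_ifs with h1 h2
    · rw [Polynomial.map_X, Polynomial.eval_X, h1]
    · rw [Polynomial.map_C, Polynomial.eval_C, Polynomial.coe_evalRingHom, Polynomial.eval_X, h2]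
    · rw [Polynomial.map_C, Polynomial.eval_C, Polynomial.coe_evalRingHom, Polynomial.eval_C]

theorem spn_deriv (y : Fin (n + 2) → R) (P : MvPolynomial (Fin (n + 2)) κ) :
    Polynomial.derivative (spn y P) = spn y (pderiv 0 P) := by
  have hz : spn y (0 : MvPolynomial (Fin (n + 2)) κ) = 0 := by
    unfold spn
    exact map_zero _
  have h1 : spn y (1 : MvPolynomial (Fin (n + 2)) κ) = 1 := by
    unfold spn
    exact map_one _
  induction P using MvPolynomial.induction_on with
  | C a => rw [spn_C, Polynomial.derivative_C, pderiv_C, hz]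
  | add p q hp hq => rw [spn_add, Polynomial.derivative_add, map_add, spn_add, hp, hq]
  | mul_X p i hp =>
    have hX : Polynomial.derivative (spn y (X i : MvPolynomial (Fin (n + 2)) κ)) =
        spn y (pderiv 0 (X i : MvPolynomial (Fin (n + 2)) κ)) := by
      rw [spn_X]
      by_cases hi : i = 0
      · rw [if_pos hi, hi, pderiv_X_self, h1, Polynomial.derivative_X]
      · rw [if_neg hi, pderiv_X_of_ne (R := κ) hi, hz]
        split_ifs <;> exact Polynomial.derivative_C
    rw [spn_mul, Polynomial.derivative_mul, hp, hX, Derivation.leibniz, spn_add, smul_eq_mul,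
      smul_eq_mul, spn_mul, spn_mul]
    ring

end part1

/-! ### Weights -/

theorem deg_le {κ : Type} [Field κ] {c : ℕ} (P : MvPolynomial (Fin (c + 1)) κ) :
    dz P ≤ P.totalDegree := by
  unfold dz
  rw [natDegree_finSuccEquiv]
  exact degreeOf_le_totalDegree P 0

theorem deg_pos {κ : Type} [Field κ] {c : ℕ} {P : MvPolynomial (Fin (c + 1)) κ}
    (hP : Irreducible P) (hm : Mon P) : 1 ≤ dz P := by
  by_contra h
  have h0 : (finSuccEquiv κ c P).natDegree = 0 := by
    unfold dz at h
    omega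
  have h1 : finSuccEquiv κ c P = 1 := Polynomial.eq_one_of_monic_natDegree_zero hm h0
  have h2 : P = 1 := by
    rw [← map_one (finSuccEquiv κ c)] at h1
    exact (finSuccEquiv κ c).injective h1
  exact hP.not_isUnit (h2 ▸ isUnit_one)

theorem totalDegree_map {κ L σ : Type} [Field κ] [Field L] (f : κ →+* L) (p : MvPolynomial σ κ) :
    (map f p).totalDegree ≤ p.totalDegree := by
  unfold totalDegree
  exact Finset.sup_mono (support_map_subset f p)

theorem spn_wt {κ L : Type} [Field κ] [Field L] [Algebra κ L] {n : ℕ} (y : Fin (n + 2) → L)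
    {P : MvPolynomial (Fin (n + 2)) κ} (hm : Mon P) :
    Wt P.totalDegree (P.totalDegree * dz P) (spn y P) := by
  intro i j hij
  have hj0 : (spn y P).coeff j ≠ 0 := by
    intro h
    rw [h, Polynomial.coeff_zero] at hij
    exact hij rfl
  have hj : j ≤ dz P := by
    rw [← (spn_monic y hm).2]
    exact Polynomial.le_natDegree_of_ne_zero hj0
  have e1 : (spn y P).coeff j = aeval (vv y) ((finSuccEquiv κ (n + 1) P).coeff j) := by
    rw [← map_spn, Polynomial.coeff_map]
    rfl
  have hc0 : (finSuccEquiv κ (n + 1) P).coeff j ≠ 0 := by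
    intro h
    rw [e1, h, map_zero] at hj0
    exact hj0 rfl
  have h1 := totalDegree_coeff_finSuccEquiv_add_le P j hc0
  have h2 : i ≤ ((finSuccEquiv κ (n + 1) P).coeff j).totalDegree := by
    have h3 := aeval_natDegree_le (m := ((finSuccEquiv κ (n + 1) P).coeff j).totalDegree) (n := 1)
      (map (algebraMap κ L) ((finSuccEquiv κ (n + 1) P).coeff j)) (totalDegree_map _ _)
      (vv y : Fin (n + 1) → Polynomial L)
      (by
        intro l
        unfold vv
        split_ifs
        · simp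
        · simp)
    rw [aeval_map_algebraMap, ← e1, mul_one] at h3
    exact (Polynomial.le_natDegree_of_ne_zero hij).trans h3
  rcases Nat.lt_or_ge j (dz P) with hlt | hge
  · have h4 : P.totalDegree * (j + 1) ≤ P.totalDegree * dz P := Nat.mul_le_mul_left _ hlt
    rw [Nat.mul_add, Nat.mul_one] at h4
    omega
  · have hje : j = dz P := le_antisymm hj hge
    have h5 : (finSuccEquiv κ (n + 1) P).coeff j = 1 := by
      rw [hje]
      exact hm
    rw [h5, totalDegree_one] at h2
    rw [hje]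
    omega

/-- the solutions are combinations of solutions of bounded degree -/
theorem gen (hMin : StmtMin) {κ : Type} [Field κ] (r₀ b : ℕ)
    (B : Fin b → Polynomial (Polynomial (MvPolynomial (Fin r₀) κ)))
    (Q : Polynomial (Polynomial (MvPolynomial (Fin r₀) κ))) (hQ : Q.Monic) :
    ∃ C : ℕ, ∀ (L : Type) [Field L] [Algebra κ L] (x : Fin r₀ → L) (v : Fin b → L),
      Q.map (Polynomial.mapRingHom (aeval x : MvPolynomial (Fin r₀) κ →ₐ[κ] L).toRingHom) ∣
        ∑ u, Polynomial.C (Polynomial.C (v u)) *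
          (B u).map (Polynomial.mapRingHom (aeval x : MvPolynomial (Fin r₀) κ →ₐ[κ] L).toRingHom) →
      v ∈ Submodule.span L {w : Fin b → L |
        Q.map (Polynomial.mapRingHom (aeval x : MvPolynomial (Fin r₀) κ →ₐ[κ] L).toRingHom) ∣
        ∑ u, Polynomial.C (Polynomial.C (w u)) *
          (B u).map (Polynomial.mapRingHom (aeval x : MvPolynomial (Fin r₀) κ →ₐ[κ] L).toRingHom) ∧
        ∀ u, ∃ a : MvPolynomial (Fin r₀) κ, a.totalDegree ≤ C ∧ w u = aeval x a} := by
  classical
  obtain ⟨a, M, hM⟩ := Pool.Agent.Lib.MP_16285c_agS.Hrx.UnivM.ker b B Q hQ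
  set C : ℕ := ∑ r ∈ Finset.range (a + 1), ∑ I : Fin r → Fin a, ∑ J : Fin r → Fin b,
    (M.submatrix I J).det.totalDegree with hC
  have hle : ∀ (r : ℕ) (_ : r ≤ a) (I : Fin r → Fin a) (J : Fin r → Fin b),
      (M.submatrix I J).det.totalDegree ≤ C := by
    intro r hr I J
    rw [hC]
    calc (M.submatrix I J).det.totalDegree ≤ ∑ J : Fin r → Fin b, (M.submatrix I J).det.totalDegree :=
          Finset.single_le_sum (f := fun J : Fin r → Fin b => (M.submatrix I J).det.totalDegree)
            (fun _ _ => Nat.zero_le _) (Finset.mem_univ J)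
      _ ≤ ∑ I : Fin r → Fin a, ∑ J : Fin r → Fin b, (M.submatrix I J).det.totalDegree :=
          Finset.single_le_sum
            (f := fun I : Fin r → Fin a => ∑ J : Fin r → Fin b, (M.submatrix I J).det.totalDegree)
            (fun _ _ => Nat.zero_le _) (Finset.mem_univ I)
      _ ≤ _ :=
          Finset.single_le_sum
            (f := fun r => ∑ I : Fin r → Fin a, ∑ J : Fin r → Fin b, (M.submatrix I J).det.totalDegree)
            (fun _ _ => Nat.zero_le _) (Finset.mem_range.2 (Nat.lt_succ_of_le hr))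
  refine ⟨C, fun L _ _ x v hv => ?_⟩
  set φ : MvPolynomial (Fin r₀) κ →+* L := (aeval x : MvPolynomial (Fin r₀) κ →ₐ[κ] L).toRingHom with hφ
  have hdet : ∀ (r : ℕ) (I : Fin r → Fin a) (J : Fin r → Fin b),
      ((M.map φ).submatrix I J).det = aeval x (M.submatrix I J).det := by
    intro r I J
    exact (RingHom.map_det φ (M.submatrix I J)).symm
  refine Submodule.span_mono ?_ (hMin L a b (M.map φ) v ((hM L φ v).2 hv))
  rintro w ⟨hw1, hw2⟩
  refine ⟨(hM L φ w).1 hw1, fun u => ?_⟩
  rcases hw2 u with h | ⟨r, hr, I, J, h | h⟩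
  · exact ⟨0, by rw [totalDegree_zero]; exact Nat.zero_le _, by rw [h, map_zero]⟩
  · exact ⟨(M.submatrix I J).det, hle r hr I J, by rw [h, hdet]⟩
  · exact ⟨-(M.submatrix I J).det, by rw [totalDegree_neg]; exact hle r hr I J,
      by rw [h, hdet, map_neg]⟩

end UniNM

theorem tUniN : StmtMin → StmtDim → StmtUniN := by
  intro hMin hDim
  classical
  intro κ _ n P hP hm
  obtain ⟨m, hmd⟩ : ∃ m, m = P.totalDegree := ⟨_, rfl⟩
  obtain ⟨e, hed⟩ : ∃ e, e = dz P := ⟨_, rfl⟩
  have he1 : 1 ≤ e := hed ▸ UniNM.deg_pos hP hm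
  have hm1 : 1 ≤ m := by
    have h := UniNM.deg_le P
    omega
  obtain ⟨N, hn⟩ : ∃ N, N = m * e ^ 2 + 2 := ⟨_, rfl⟩
  set T₁ : Finset (ℕ × ℕ) :=
    ((Finset.range (N + 1)) ×ˢ (Finset.range e)).filter fun p => p.1 + m * p.2 ≤ N with hT₁
  set T₂ : Finset (ℕ × ℕ) := (Finset.range (m * N + 1)) ×ˢ (Finset.range e) with hT₂
  set ε : (T₁ ⊕ T₂) ≃ Fin (Fintype.card (T₁ ⊕ T₂)) := Fintype.equivFin (T₁ ⊕ T₂) with hε
  set Bu : (T₁ ⊕ T₂) → Polynomial (Polynomial (MvPolynomial (Fin (n + 2)) κ)) :=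
    Sum.elim
      (fun t => Polynomial.monomial t.1.2 (Polynomial.monomial t.1.1 1) *
        (Polynomial.X - Polynomial.C (Polynomial.C (X 0))) ^ N)
      (fun t => Polynomial.monomial t.1.2 (Polynomial.monomial t.1.1 1) *
        Polynomial.C ((Polynomial.X - Polynomial.C (X (lst n))) ^ N)) with hBu
  obtain ⟨C, hC⟩ := UniNM.gen hMin (n + 2) (Fintype.card (T₁ ⊕ T₂)) (fun k => Bu (ε.symm k))
    (spn (fun j => (X j : MvPolynomial (Fin (n + 2)) κ)) P) (UniNM.spn_monic _ hm).1
  refine ⟨N, C, by omega, fun L _ _ y hz hz' => ?_⟩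
  obtain ⟨x₀, hx₀⟩ : ∃ x₀, x₀ = y (lst n) := ⟨_, rfl⟩
  obtain ⟨z₀, hz₀⟩ : ∃ z₀, z₀ = y 0 := ⟨_, rfl⟩
  rw [← hx₀, ← hz₀]
  set φ : MvPolynomial (Fin (n + 2)) κ →ₐ[κ] L := aeval y with hφ
  have hQ : (spn (fun j => (X j : MvPolynomial (Fin (n + 2)) κ)) P).map (Polynomial.mapRingHom φ.toRingHom) =
      spn y P := by
    refine (UniNM.spn_map φ _ P).trans ?_
    congr 1
    funext j
    rw [hφ, aeval_X]
  have hφ1 : φ (X (lst n)) = x₀ := by
    rw [hφ, aeval_X, hx₀]
  have hφ2 : φ (X 0) = z₀ := by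
    rw [hφ, aeval_X, hz₀]
  have hsum : ∀ v : Fin (Fintype.card (T₁ ⊕ T₂)) → L,
      ∑ k, Polynomial.C (Polynomial.C (v k)) *
        (Bu (ε.symm k)).map (Polynomial.mapRingHom φ.toRingHom) =
      Pool.Agent.Lib.MP_16285c_agS.Hrx.UnivM.pol T₁ (fun t => v (ε (Sum.inl t))) *
        (Polynomial.X - Polynomial.C (Polynomial.C z₀)) ^ N +
      Pool.Agent.Lib.MP_16285c_agS.Hrx.UnivM.pol T₂ (fun t => v (ε (Sum.inr t))) *
        Polynomial.C ((Polynomial.X - Polynomial.C x₀) ^ N) := by
    intro v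
    have h1 : ∑ k, Polynomial.C (Polynomial.C (v k)) *
        (Bu (ε.symm k)).map (Polynomial.mapRingHom φ.toRingHom) =
        ∑ u : T₁ ⊕ T₂, Polynomial.C (Polynomial.C (v (ε u))) *
          (Bu u).map (Polynomial.mapRingHom φ.toRingHom) := by
      refine (Fintype.sum_equiv ε _ _ fun u => ?_).symm
      rw [Equiv.symm_apply_apply]
    rw [h1, Fintype.sum_sum_type]
    congr 1
    · unfold Pool.Agent.Lib.MP_16285c_agS.Hrx.UnivM.pol
      rw [Finset.sum_mul]
      refine Finset.sum_congr rfl fun t _ => ?_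
      rw [hBu, Sum.elim_inl, Polynomial.map_mul, Polynomial.map_pow, Polynomial.map_sub,
        Polynomial.map_X, Polynomial.map_C, Polynomial.map_monomial, Polynomial.coe_mapRingHom,
        Polynomial.map_C, Polynomial.map_monomial, ← mul_assoc, Polynomial.C_mul_monomial,
        Polynomial.C_mul_monomial, map_one, mul_one]
      congr 4
      exact congrArg _ hφ2
    · unfold Pool.Agent.Lib.MP_16285c_agS.Hrx.UnivM.pol
      rw [Finset.sum_mul]
      refine Finset.sum_congr rfl fun t _ => ?_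
      rw [hBu, Sum.elim_inr, Polynomial.map_mul, Polynomial.map_C,
        Polynomial.map_monomial, Polynomial.coe_mapRingHom, Polynomial.map_pow, Polynomial.map_sub,
        Polynomial.map_X, Polynomial.map_C, Polynomial.map_monomial, ← mul_assoc,
        Polynomial.C_mul_monomial, Polynomial.C_mul_monomial, map_one, mul_one]
      congr 4
      exact congrArg _ hφ1
  obtain ⟨hQm, hQd⟩ := UniNM.spn_monic y hm (R := L)
  have hwt : Wt m (m * e) (spn y P) := by
    rw [hmd, hed]
    exact UniNM.spn_wt y hm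
  obtain ⟨A, A', H, hA1, hA'1, hA2, hA'2, hH, hne⟩ := hDim L (spn y P) m e N x₀ z₀ hQm
    (hQd.trans hed.symm) he1 hm1 hwt hn (by rw [hx₀, hz₀]; exact (UniNM.spn_eval y P).trans hz) (by
      intro h2
      apply hz'
      rw [← UniNM.spn_eval y, ← UniNM.spn_deriv, ← Polynomial.derivative_map, ← hx₀, ← hz₀]
      exact h2)
  have hpA : Pool.Agent.Lib.MP_16285c_agS.Hrx.UnivM.pol T₁ (fun t => (A.coeff t.1.2).coeff t.1.1) = A := by
    refine Pool.Agent.Lib.MP_16285c_agS.Hrx.UnivM.pol_eq T₁ A fun i j hij => ?_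
    by_contra h
    have h1 := hA1 i j h
    apply hij
    have h2 : j < e := by
      refine lt_of_le_of_lt (Polynomial.le_natDegree_of_ne_zero (n := j) (p := A) ?_) hA2
      intro h3
      rw [h3, Polynomial.coeff_zero] at h
      exact h rfl
    rw [hT₁, Finset.mem_filter, Finset.mem_product, Finset.mem_range, Finset.mem_range]
    dsimp only
    exact ⟨⟨by omega, h2⟩, h1⟩
  have hpA' : Pool.Agent.Lib.MP_16285c_agS.Hrx.UnivM.pol T₂ (fun t => ((-A').coeff t.1.2).coeff t.1.1) = -A' := by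
    refine Pool.Agent.Lib.MP_16285c_agS.Hrx.UnivM.pol_eq T₂ (-A') fun i j hij => ?_
    by_contra h
    rw [Polynomial.coeff_neg, Polynomial.coeff_neg, neg_eq_zero] at h
    have h1 := hA'1 i j h
    apply hij
    have h2 : j < e := by
      refine lt_of_le_of_lt (Polynomial.le_natDegree_of_ne_zero (n := j) (p := A') ?_) hA'2
      intro h3
      rw [h3, Polynomial.coeff_zero] at h
      exact h rfl
    rw [hT₂, Finset.mem_product, Finset.mem_range, Finset.mem_range]
    dsimp only
    exact ⟨by omega, h2⟩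
  set v : Fin (Fintype.card (T₁ ⊕ T₂)) → L := fun k =>
    Sum.elim (fun t : T₁ => (A.coeff t.1.2).coeff t.1.1)
      (fun t : T₂ => ((-A').coeff t.1.2).coeff t.1.1) (ε.symm k) with hv
  have hv1 : Pool.Agent.Lib.MP_16285c_agS.Hrx.UnivM.pol T₁ (fun t => v (ε (Sum.inl t))) = A := by
    refine Eq.trans ?_ hpA
    congr 1
    funext t
    rw [hv]
    dsimp only
    rw [Equiv.symm_apply_apply, Sum.elim_inl]
  have hv2 : Pool.Agent.Lib.MP_16285c_agS.Hrx.UnivM.pol T₂ (fun t => v (ε (Sum.inr t))) = -A' := by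
    refine Eq.trans ?_ hpA'
    congr 1
    funext t
    rw [hv]
    dsimp only
    rw [Equiv.symm_apply_apply, Sum.elim_inr]
  have hdvd : (spn (fun j => (X j : MvPolynomial (Fin (n + 2)) κ)) P).map
      (Polynomial.mapRingHom φ.toRingHom) ∣ ∑ k, Polynomial.C (Polynomial.C (v k)) *
        (Bu (ε.symm k)).map (Polynomial.mapRingHom φ.toRingHom) := by
    rw [hQ, hsum v, hv1, hv2]
    refine Dvd.intro H (hH.symm.trans ?_)
    ring
  have hspan := hC L y v hdvd
  have hex : ∃ w : Fin (Fintype.card (T₁ ⊕ T₂)) → L,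
      ((spn (fun j => (X j : MvPolynomial (Fin (n + 2)) κ)) P).map (Polynomial.mapRingHom φ.toRingHom) ∣
        ∑ k, Polynomial.C (Polynomial.C (w k)) *
          (Bu (ε.symm k)).map (Polynomial.mapRingHom φ.toRingHom)) ∧
      (∀ u, ∃ a : MvPolynomial (Fin (n + 2)) κ, a.totalDegree ≤ C ∧ w u = aeval y a) ∧
      ∀ c : L, Pool.Agent.Lib.MP_16285c_agS.Hrx.UnivM.pol T₁ (fun t => w (ε (Sum.inl t))) ≠
        Polynomial.C (Polynomial.C c * (Polynomial.X - Polynomial.C x₀) ^ N) := by
    by_contra hcon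
    push Not at hcon
    let W : Submodule L (Fin (Fintype.card (T₁ ⊕ T₂)) → L) :=
      { carrier := {w | ∃ c : L, Pool.Agent.Lib.MP_16285c_agS.Hrx.UnivM.pol T₁ (fun t => w (ε (Sum.inl t))) =
          Polynomial.C (Polynomial.C c * (Polynomial.X - Polynomial.C x₀) ^ N)}
        add_mem' := by
          rintro a b ⟨c, hc⟩ ⟨d, hd⟩
          refine ⟨c + d, ?_⟩
          have h := Pool.Agent.Lib.MP_16285c_agS.Hrx.UnivM.pol_add T₁ (fun t => a (ε (Sum.inl t))) (fun t => b (ε (Sum.inl t)))
          rw [hc, hd] at h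
          refine h.trans ?_
          rw [← Polynomial.C_add, ← add_mul, ← Polynomial.C_add]
        zero_mem' := ⟨0, by
          rw [Polynomial.C_0, zero_mul, Polynomial.C_0]
          exact Pool.Agent.Lib.MP_16285c_agS.Hrx.UnivM.pol_zero T₁⟩
        smul_mem' := by
          rintro r a ⟨c, hc⟩
          refine ⟨r * c, ?_⟩
          have h := Pool.Agent.Lib.MP_16285c_agS.Hrx.UnivM.pol_smul T₁ r (fun t => a (ε (Sum.inl t)))
          rw [hc] at h
          refine h.trans ?_
          rw [← Polynomial.C_mul, ← mul_assoc, ← Polynomial.C_mul] }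
    have hle : Submodule.span L {w : Fin (Fintype.card (T₁ ⊕ T₂)) → L |
        (spn (fun j => (X j : MvPolynomial (Fin (n + 2)) κ)) P).map (Polynomial.mapRingHom φ.toRingHom) ∣
        ∑ k, Polynomial.C (Polynomial.C (w k)) *
          (Bu (ε.symm k)).map (Polynomial.mapRingHom φ.toRingHom) ∧
        ∀ u, ∃ a : MvPolynomial (Fin (n + 2)) κ, a.totalDegree ≤ C ∧ w u = aeval y a} ≤ W := by
      rw [Submodule.span_le]
      rintro w ⟨hw1, hw2⟩
      exact hcon w hw1 hw2
    obtain ⟨c, hc⟩ := hle hspan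
    rw [hv1] at hc
    exact hne c hc
  obtain ⟨w, hw1, hw2, hw3⟩ := hex
  rw [hQ, hsum w] at hw1
  obtain ⟨H', hH'⟩ := hw1
  have hmem : ∀ i j, (i, j) ∈ T₁ → j < e ∧ i + m * j ≤ N := by
    intro i j h
    rw [hT₁, Finset.mem_filter, Finset.mem_product, Finset.mem_range, Finset.mem_range] at h
    exact ⟨h.1.2, h.2⟩
  refine ⟨Pool.Agent.Lib.MP_16285c_agS.Hrx.UnivM.pol T₁ (fun t => w (ε (Sum.inl t))), -Pool.Agent.Lib.MP_16285c_agS.Hrx.UnivM.pol T₂ (fun t => w (ε (Sum.inr t))), H',
    ?_, ?_, ?_, ?_, ?_, hw3⟩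
  · intro i j hij
    rw [Pool.Agent.Lib.MP_16285c_agS.Hrx.UnivM.pol_coeff] at hij
    split_ifs at hij with h
    · rw [← hmd]
      exact (hmem i j h).2
    · exact absurd rfl hij
  · rw [← hed]
    by_contra hcon
    have h0 : Pool.Agent.Lib.MP_16285c_agS.Hrx.UnivM.pol T₁ (fun t => w (ε (Sum.inl t))) ≠ 0 := by
      intro h
      rw [h, Polynomial.natDegree_zero] at hcon
      omega
    have h1 : (Pool.Agent.Lib.MP_16285c_agS.Hrx.UnivM.pol T₁ (fun t => w (ε (Sum.inl t)))).coeff
        (Pool.Agent.Lib.MP_16285c_agS.Hrx.UnivM.pol T₁ (fun t => w (ε (Sum.inl t)))).natDegree ≠ 0 := by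
      rw [Polynomial.coeff_natDegree]
      exact Polynomial.leadingCoeff_ne_zero.2 h0
    apply h1
    ext i
    rw [Pool.Agent.Lib.MP_16285c_agS.Hrx.UnivM.pol_coeff, dif_neg, Polynomial.coeff_zero]
    intro h
    exact hcon (hmem _ _ h).1
  · intro i j
    rw [Pool.Agent.Lib.MP_16285c_agS.Hrx.UnivM.pol_coeff]
    split_ifs with h
    · exact hw2 _
    · exact ⟨0, by rw [totalDegree_zero]; exact Nat.zero_le _, by rw [map_zero]⟩
  · intro i j
    rw [Polynomial.coeff_neg, Polynomial.coeff_neg, Pool.Agent.Lib.MP_16285c_agS.Hrx.UnivM.pol_coeff]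
    split_ifs with h
    · obtain ⟨a, ha1, ha2⟩ := hw2 (ε (Sum.inr ⟨(i, j), h⟩))
      exact ⟨-a, by rw [totalDegree_neg]; exact ha1, by rw [ha2, map_neg]⟩
    · exact ⟨0, by rw [totalDegree_zero]; exact Nat.zero_le _, by rw [map_zero, neg_zero]⟩
  · rw [← hH']
    ring

end Pool.Agent.Lib.MP_16285c_agX
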