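import Pool.Agent.Lib.MP_16285c_agZ.Hru.Der
import Pool.Agent.Lib.MP_16285c_agZ.Hru.Prd
import Pool.Agent.Lib.MP_16285c_agZ.Hru.SepH
import Pool.Agent.Lib.MP_16285c_agZ.Hru.Pn
import Pool.Agent.Lib.MP_16285c_agS.Bez.All
import Pool.Agent.Lib.MP_16285c_agS.Hrx.Dim
import Pool.Agent.Lib.MP_16285c_agS.Hrx.Min
import Pool.Agent.Lib.MP_16285c_agS.Hrx.PnMv
import Pool.Agent.Lib.MP_16285c_agS.Hrx.Root
import Pool.Agent.Lib.MP_16285c_agX.Hrn.Std
import Pool.Agent.Lib.MP_16285c_agX.Hrn.Nm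
import Pool.Agent.Lib.MP_16285c_agX.Hrn.Nilp
import Pool.Agent.Lib.MP_16285c_agX.Hrn.Spl
import Pool.Agent.Lib.MP_16285c_agX.Hrn.Step
import Pool.Agent.Lib.MP_16285c_agX.Hrn.Crv
import Pool.Agent.Lib.MP_16285c_agX.Hrn.Sit
import Pool.Agent.Lib.MP_16285c_agX.Hrn.Ht
import Pool.Agent.Lib.MP_16285c_agX.Hrn.G0
import Pool.Agent.Lib.MP_16285c_agX.Hrn.UniN
import Pool.Agent.Lib.MP_16285c_agX.Hrn.NrmN
import Pool.Agent.Lib.MP_16285c_agX.Hrn.PtN
import Pool.Agent.Lib.MP_16285c_agX.Hrn.HP0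

/-!
# Frobenius points of dominant polynomial self-maps of hypersurfaces, good coordinates, without hypotheses

Section A of note 4936 on `MP_16285c_ag`, the statement `StmtHP0`.
-/

set_option autoImplicit false

namespace Pool.Agent.Lib.MP_16285c_agX

open Pool.Agent.Lib.MP_16285c_agZ.Hru (SDer SPrd SPn tDer tPrd tSepH tPn)
open Pool.Agent.Lib.MP_16285c_agS.Hrx (tPnMv tMin tDim tRoot)

theorem aPrd : SPrd := tPrd tSepH

theorem aStep : StmtStep := tStep tNm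

theorem aCrv : StmtCrv := tCrv tStd tNm tSpl aStep

theorem aHt : StmtHt := tHt tPnMv

theorem aG0 : StmtG0 := tG0 aHt tSit tDer aPrd

theorem aNilp : StmtNilp := tNilp tStd

theorem aUniN : StmtUniN := tUniN tMin tDim

theorem aNrmN : StmtNrmN := tNrmN (tRoot aPrd) tPnMv tPn

theorem aPtN : StmtPtN := tPtN tPnMv

/-- Points with `a ^ q = f(a)` on hypersurfaces in good coordinates. -/
theorem aHP0 : StmtHP0 := tHP0 aNilp tNm aCrv tSit tDer aHt aG0 aUniN aNrmN aPtN tPnMv aPrd tPn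

end Pool.Agent.Lib.MP_16285c_agX
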