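import Pool.Agent.Lib.MP_16285c_agX.Hrn.SpecC

/-!
# Frobenius points of polynomial self-maps of hypersurfaces (C10)
-/

set_option autoImplicit false

namespace Pool.Agent.Lib.MP_16285c_agX

open MP7Z MvPolynomial
open scoped IntermediateField
open Pool.Agent.Lib.MP_16285c_ag (RM FrobPt)
open Pool.Agent.ZDO (Jc hz dd nn cn)

namespace HPM

theorem pow_fix {κ : Type} [Field κ] {p : ℕ} {c : κ} {m : ℕ} (h : c ^ p ^ m = c) (j : ℕ) :
    c ^ p ^ (m * j) = c := by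
  induction j with
  | zero => simp
  | succ j ih => rw [Nat.mul_succ, pow_add, pow_mul, ih, h]

theorem fin_fix {κ : Type} [Field κ] {p : ℕ} (hfin : ∀ c : κ, ∃ m : ℕ, 1 ≤ m ∧ c ^ p ^ m = c)
    (T : Set κ) (hT : T.Finite) : ∃ r : ℕ, 1 ≤ r ∧ ∀ c ∈ T, ∀ j : ℕ, c ^ p ^ (r * j) = c := by
  induction T, hT using Set.Finite.induction_on with
  | empty => exact ⟨1, le_rfl, fun c hc => absurd hc (Set.notMem_empty c)⟩
  | insert _ _ ih =>
    rename_i a S _ _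
    obtain ⟨r, hr, h⟩ := ih
    obtain ⟨m, hm, hc⟩ := hfin a
    refine ⟨m * r, Nat.mul_pos hm hr, ?_⟩
    intro c hcS j
    rcases Set.mem_insert_iff.1 hcS with rfl | h'
    · rw [mul_assoc]; exact pow_fix hc _
    · rw [mul_comm m r, mul_assoc]; exact h c h' _

/-- The set of the coefficients. -/
def cf {κ σ : Type} [Field κ] (A : MvPolynomial σ κ) : Set κ := (fun m => A.coeff m) '' A.support

theorem cf_finite {κ σ : Type} [Field κ] (A : MvPolynomial σ κ) : (cf A).Finite :=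
  A.support.finite_toSet.image _

theorem fx_of {κ σ : Type} [Field κ] (p : ℕ) [Fact p.Prime] [CharP κ p] (s : ℕ)
    (A : MvPolynomial σ κ) (h : ∀ c ∈ cf A, c ^ p ^ s = c) : Fx p s A := by
  unfold Fx
  ext m
  rw [coeff_map, iterateFrobenius_def]
  by_cases hm : m ∈ A.support
  · exact h _ ⟨m, hm, rfl⟩
  · rw [notMem_support_iff.1 hm, zero_pow]
    exact pow_ne_zero _ (Fact.out : p.Prime).ne_zero

/-- The ring isomorphism of a linear change. -/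
noncomputable def lce {κ : Type} [Field κ] {c : ℕ} (M D : Matrix (Fin c) (Fin c) κ)
    (h : ∀ A : MvPolynomial (Fin c) κ, lch M (lch D A) = A ∧ lch D (lch M A) = A) :
    MvPolynomial (Fin c) κ ≃ₐ[κ] MvPolynomial (Fin c) κ :=
  AlgEquiv.ofAlgHom (lch D) (lch M) (AlgHom.ext fun A => (h A).2) (AlgHom.ext fun A => (h A).1)

theorem dvd_iff {κ : Type} [Field κ] {c : ℕ} {M D : Matrix (Fin c) (Fin c) κ}
    (h : ∀ A : MvPolynomial (Fin c) κ, lch M (lch D A) = A ∧ lch D (lch M A) = A)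
    (A B : MvPolynomial (Fin c) κ) : lch D A ∣ lch D B ↔ A ∣ B := by
  constructor
  · rintro ⟨Q, hQ⟩
    refine ⟨lch M Q, ?_⟩
    rw [← (h B).1, hQ, map_mul, (h A).1]
  · rintro ⟨Q, rfl⟩
    exact ⟨lch D Q, map_mul _ _ _⟩

theorem irr {κ : Type} [Field κ] {c : ℕ} {M D : Matrix (Fin c) (Fin c) κ}
    (h : ∀ A : MvPolynomial (Fin c) κ, lch M (lch D A) = A ∧ lch D (lch M A) = A)
    (A : MvPolynomial (Fin c) κ) (hA : Irreducible A) : Irreducible (lch D A) :=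
  (MulEquiv.irreducible_iff (lce M D h).toMulEquiv (x := A)).2 hA

/-- The data are preserved by a linear change. -/
theorem change {κ : Type} [Field κ] {c : ℕ} {M D : Matrix (Fin c) (Fin c) κ}
    (h : ∀ A : MvPolynomial (Fin c) κ, lch M (lch D A) = A ∧ lch D (lch M A) = A)
    (f : Fin c → MvPolynomial (Fin c) κ)
    (h3 : ∀ A : MvPolynomial (Fin c) κ, bind₁ (lfm M D f) (lch D A) = lch D (bind₁ f A))
    (P B : MvPolynomial (Fin c) κ) (hPf : P ∣ bind₁ f P) (hinj : ∀ A, P ∣ bind₁ f A → P ∣ A)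
    (hB : ¬ P ∣ B) :
    lch D P ∣ bind₁ (lfm M D f) (lch D P) ∧
      (∀ A, lch D P ∣ bind₁ (lfm M D f) A → lch D P ∣ A) ∧ ¬ lch D P ∣ lch D B := by
  refine ⟨?_, ?_, ?_⟩
  · rw [h3]; exact (dvd_iff h _ _).2 hPf
  · intro A hA
    rw [← (h A).2, h3, dvd_iff h] at hA
    rw [← (h A).2, dvd_iff h]
    exact hinj _ hA
  · rw [dvd_iff h]; exact hB

end HPM

open HPM in
theorem tHP : StmtHP0 → StmtNoe → StmtCoo → StmtLch → StmtHP := by
  intro hHP0 hNoe hCoo hLch κ _ _ p _ _ hfin n P B f hP hPf hinj hB s₀ hs₀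
  obtain ⟨M, D, b, hMD, hDM, hb, hMon, hsep⟩ := hNoe κ (n + 1) P hP
  obtain ⟨l1, -, l3, l4, -⟩ := hLch κ (n + 2) M D hMD hDM
  obtain ⟨c1, c2, c3⟩ := change l1 f (l3 f) P B hPf hinj hB
  have hI := irr l1 P hP
  have hass : Associated (C b * lch D P) (lch D P) := by
    have hu : IsUnit (C b : MvPolynomial (Fin (n + 2)) κ) := (IsUnit.mk0 b hb).map C
    obtain ⟨u, hu⟩ := hu
    rw [← hu, mul_comm]
    exact (associated_mul_unit_left (lch D P) (u : MvPolynomial (Fin (n + 2)) κ) u.isUnit)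
  have hI1 : Irreducible (C b * lch D P) := hass.symm.irreducible hI
  have hsep1 : ¬ (C b * lch D P) ∣ pderiv 0 (C b * lch D P) := by
    rw [pderiv_C_mul, hass.dvd_iff_dvd_left]
    intro hd
    refine hsep ?_
    have hu : IsUnit (C b : MvPolynomial (Fin (n + 2)) κ) := (IsUnit.mk0 b hb).map C
    exact (hu.dvd_mul_left).1 hd
  have d1 : (C b * lch D P) ∣ bind₁ (lfm M D f) (C b * lch D P) := by
    rw [hass.dvd_iff_dvd_left, map_mul]
    exact c1.mul_left _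
  have d2 : ∀ A, (C b * lch D P) ∣ bind₁ (lfm M D f) A → (C b * lch D P) ∣ A := by
    intro A hA
    rw [hass.dvd_iff_dvd_left] at hA ⊢
    exact c2 A hA
  have d3 : ¬ (C b * lch D P) ∣ lch D B := by
    rw [hass.dvd_iff_dvd_left]; exact c3
  obtain ⟨M', D', h, hMD', hDM', hMon', hsep', hh, hirr', hmix'⟩ :=
    hCoo κ n (C b * lch D P) (lfm M D f) hI1 hMon hsep1 d1 d2
  obtain ⟨l1', -, l3', l4', -⟩ := hLch κ (n + 2) M' D' hMD' hDM'
  obtain ⟨e1, e2, e3⟩ := change l1' (lfm M D f) (l3' (lfm M D f)) (C b * lch D P) (lch D B)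
    d1 d2 d3
  obtain ⟨q₀, hq₀⟩ := hHP0 κ p n (lch D' (C b * lch D P)) (lch D' (lch D B))
    (lfm M' D' (lfm M D f)) h (irr l1' _ hI1) hMon' hsep' e1 e2 e3 hh hirr' hmix'
  have hTfin : (cf (lch D' (C b * lch D P)) ∪ cf (lch D' (lch D B)) ∪ cf h ∪
      (⋃ i, cf (lfm M' D' (lfm M D f) i)) ∪ (Set.range fun ij : Fin (n + 2) × Fin (n + 2) =>
        D ij.1 ij.2) ∪ (Set.range fun ij : Fin (n + 2) × Fin (n + 2) => D' ij.1 ij.2)).Finite :=
    (((((cf_finite _).union (cf_finite _)).union (cf_finite _)).union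
      (Set.finite_iUnion fun i => cf_finite _)).union (Set.finite_range _)).union
      (Set.finite_range _)
  obtain ⟨r, hr, hrT⟩ := fin_fix hfin _ hTfin
  have hp2 : 2 ≤ p := (Fact.out : p.Prime).two_le
  have hs : 1 ≤ r * (s₀ * (q₀ + 1)) :=
    Nat.mul_pos hr (Nat.mul_pos hs₀ (Nat.succ_pos _))
  have hq : q₀ ≤ p ^ (r * (s₀ * (q₀ + 1))) := by
    have h1 : q₀ + 1 ≤ r * (s₀ * (q₀ + 1)) := by
      calc q₀ + 1 = 1 * (1 * (q₀ + 1)) := by ring
        _ ≤ r * (s₀ * (q₀ + 1)) := Nat.mul_le_mul hr (Nat.mul_le_mul hs₀ le_rfl)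
    have h2 : r * (s₀ * (q₀ + 1)) < p ^ (r * (s₀ * (q₀ + 1))) := Nat.lt_pow_self (by omega)
    omega
  obtain ⟨a, ha1, ha2, ha3⟩ := hq₀ (r * (s₀ * (q₀ + 1))) hs hq
    (fx_of p _ _ fun c hc => hrT c (Or.inl (Or.inl (Or.inl (Or.inl (Or.inl hc))))) _)
    (fx_of p _ _ fun c hc => hrT c (Or.inl (Or.inl (Or.inl (Or.inl (Or.inr hc))))) _)
    (fx_of p _ _ fun c hc => hrT c (Or.inl (Or.inl (Or.inl (Or.inr hc)))) _)
    (fun i => fx_of p _ _ fun c hc => hrT c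
      (Or.inl (Or.inl (Or.inr (Set.mem_iUnion.2 ⟨i, hc⟩)))) _)
  obtain ⟨a', ha1', ha2', ha3'⟩ := l4' p (r * (s₀ * (q₀ + 1))) (C b * lch D P) (lch D B)
    (lfm M D f) (fun i j => hrT _ (Or.inr ⟨(i, j), rfl⟩) _) ⟨a, ha1, ha2, ha3⟩
  have ha1'' : eval a' (lch D P) = 0 := by
    rw [map_mul, eval_C] at ha1'
    exact (mul_eq_zero.1 ha1').resolve_left hb
  obtain ⟨x, hx1, hx2, hx3⟩ := l4 p (r * (s₀ * (q₀ + 1))) P B f
    (fun i j => hrT _ (Or.inl (Or.inr ⟨(i, j), rfl⟩)) _) ⟨a', ha1'', ha2', ha3'⟩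
  exact ⟨r * (s₀ * (q₀ + 1)), hs, ⟨r * (q₀ + 1), by ring⟩, x, hx1, hx2, hx3⟩

end Pool.Agent.Lib.MP_16285c_agX
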