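import Pool.Agent.Lib.MP_16285c_agX.Hrn.Spec

/-!
# The counting argument (N13)
-/

set_option autoImplicit false

namespace Pool.Agent.Lib.MP_16285c_agX

open MP7Z MvPolynomial
open scoped IntermediateField
open Pool.Agent.Lib.MP_16285c_ag (RM FrobPt)
open Pool.Agent.Lib.MP_16285c_agZ.Hru (Zn Pn Sit SDer SSepH SPrd SBd SLoc SPn SRes SFld)
open Pool.Agent.Lib.MP_16285c_agS.Hrx (pl zr Wt StmtPnMv StmtRoot StmtMin StmtDim)

namespace HP0M

section

variable {k E : Type} [Field k] [Field E] [Algebra k E]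

private theorem oz_zero (v : Place k E) : v.oz (0 : E) = 0 := by
  unfold Place.oz
  simp

variable [IsAlgClosed k] [IsCurveField k E]

private theorem supp_oz (h : E) : {v : Place k E | v.oz h ≠ 0}.Finite := by
  rcases eq_or_ne h 0 with rfl | h0
  · have : {v : Place k E | v.oz (0 : E) ≠ 0} = ∅ := by
      ext v
      simp [oz_zero]
    rw [this]
    exact Set.finite_empty
  · refine (finite_ord_ne h0).subset ?_
    intro v hv h1
    apply hv
    have h3 := v.ord_eq h0
    rw [h1] at h3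
    exact (WithTop.coe_inj.1 h3.symm)

/-- All the numbers of zeros and poles of finitely many functions are sums over one finite set of places. -/
private theorem exists_fin (l : Finset E) : ∃ T : Finset (Place k E), ∀ h ∈ l,
    Pn k h = ∑ v ∈ T, pl v h ∧ Zn k h = ∑ v ∈ T, zr v h := by
  classical
  have hfin : (⋃ h ∈ l, {v : Place k E | v.oz h ≠ 0}).Finite :=
    l.finite_toSet.biUnion fun h _ => supp_oz h
  refine ⟨hfin.toFinset, fun h hh => ?_⟩
  have hsub : ∀ v : Place k E, v.oz h ≠ 0 → v ∈ (hfin.toFinset : Set (Place k E)) := by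
    intro v hv
    rw [Set.Finite.coe_toFinset]
    exact Set.mem_biUnion (Finset.mem_coe.2 hh) hv
  constructor
  · unfold Pn
    refine finsum_eq_sum_of_support_subset _ ?_
    intro v hv
    rw [Function.mem_support] at hv
    refine hsub v fun h0 => hv ?_
    rw [h0]
    simp
  · unfold Zn
    refine finsum_eq_sum_of_support_subset _ ?_
    intro v hv
    rw [Function.mem_support] at hv
    refine hsub v fun h0 => hv ?_
    rw [h0]
    simp

/-- A bound at all places gives a bound of the number of poles. -/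
private theorem pn_le (u w : E) (c : ℤ) (h : ∀ v : Place k E, pl v u ≤ c * pl v w) : Pn k u ≤ c * Pn k w := by
  classical
  obtain ⟨T, hT⟩ := exists_fin (k := k) ({u, w} : Finset E)
  rw [(hT u (by simp)).1, (hT w (by simp)).1, Finset.mul_sum]
  exact Finset.sum_le_sum fun v _ => h v

/-- The sum of the local bounds of the universal function. -/
private theorem pn_sum {ι : Type} [Fintype ι] (u w : E) (y : ι → E) (c d : ℤ)
    (h : ∀ v : Place k E, pl v u ≤ c * ∑ i, pl v (y i) + d * zr v w) :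
    Pn k u ≤ c * ∑ i, Pn k (y i) + d * Zn k w := by
  classical
  obtain ⟨T, hT⟩ := exists_fin (k := k) (insert u (insert w (Finset.univ.image y)))
  have hy : ∀ i, Pn k (y i) = ∑ v ∈ T, pl v (y i) := fun i =>
    (hT (y i) (Finset.mem_insert_of_mem (Finset.mem_insert_of_mem
      (Finset.mem_image_of_mem y (Finset.mem_univ i))))).1
  have hu : Pn k u = ∑ v ∈ T, pl v u := (hT u (Finset.mem_insert_self _ _)).1
  have hw : Zn k w = ∑ v ∈ T, zr v w := (hT w (Finset.mem_insert_of_mem (Finset.mem_insert_self _ _))).2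
  rw [hu, hw]
  simp only [hy]
  rw [Finset.sum_comm, Finset.mul_sum, Finset.mul_sum, ← Finset.sum_add_distrib]
  exact Finset.sum_le_sum fun v _ => h v

end

/-- The values at the point `ξ ^ q`. -/
private theorem aeval_pow {κ L σ : Type} [Field κ] [Field L] [Algebra κ L] (p : ℕ) [Fact p.Prime] [CharP κ p]
    (P : MvPolynomial σ κ) (ξ : σ → L) (s : ℕ) (hP : map (iterateFrobenius κ p s) P = P) :
    aeval (fun i => ξ i ^ p ^ s) P = (aeval ξ P) ^ p ^ s := by
  have h5 : P ^ p ^ s = bind₁ (fun i => X i ^ p ^ s) P := by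
    have h6 := map_iterateFrobenius_expand p P s
    rw [map_expand, hP] at h6
    rw [← h6, expand]
  rw [← map_pow, h5, aeval_bind₁]
  congr 2
  funext i
  rw [map_pow, aeval_X]

/-- Evaluation of the fibre. -/
private theorem spn_eval {κ F : Type} [Field κ] [Field F] [Algebra κ F] {n : ℕ} (y : Fin (n + 2) → F) (x₁ z₁ : F)
    (P : MvPolynomial (Fin (n + 2)) κ) :
    ((spn y P).map (Polynomial.evalRingHom x₁)).eval z₁ =
      aeval (fun j : Fin (n + 2) => if j = 0 then z₁ else if j = lst n then x₁ else y j) P := by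
  unfold spn
  induction P using MvPolynomial.induction_on with
  | C a => simp [Polynomial.algebraMap_apply]
  | add p q hp hq => rw [map_add, map_add, Polynomial.map_add, Polynomial.eval_add, hp, hq]
  | mul_X p i hp =>
    rw [map_mul, map_mul, Polynomial.map_mul, Polynomial.eval_mul, hp, aeval_X, aeval_X]
    congr 1
    split_ifs <;> simp

private theorem exists_mid {n : ℕ} (j : Fin (n + 2)) (h0 : j ≠ 0) (h1 : j ≠ lst n) : ∃ i : Fin n, j = mid i := by
  obtain ⟨l, rfl⟩ := Fin.exists_succ_eq.2 h0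
  have hl : l ≠ Fin.last n := by
    intro h
    apply h1
    rw [h]
    rfl
  obtain ⟨i, hi⟩ := Fin.exists_castSucc_eq.2 hl
  exact ⟨i, by rw [← hi]; rfl⟩

/-- The ideal of `P` and `A` contains the norm. -/
private theorem aeval_ne {κ L : Type} [Field κ] [Field L] [Algebra κ L] {c : ℕ} (P A : MvPolynomial (Fin (c + 1)) κ)
    (hmem : rename Fin.succ (nm P A) ∈ Ideal.span {P, A}) (ξ : Fin (c + 1) → L) (hP : aeval ξ P = 0)
    (hne : aeval (fun i => ξ (Fin.succ i)) (nm P A) ≠ 0) : aeval ξ A ≠ 0 := by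
  intro hA
  obtain ⟨a, b, hab⟩ := Ideal.mem_span_pair.1 hmem
  apply hne
  have h1 : aeval ξ (rename Fin.succ (nm P A)) = 0 := by
    rw [← hab, map_add, map_mul, map_mul, hP, hA, mul_zero, mul_zero, add_zero]
  rw [aeval_rename] at h1
  exact h1

private theorem fx_bind {κ : Type} [Field κ] (p : ℕ) [ExpChar κ p] (s : ℕ) {σ : Type} (f : σ → MvPolynomial σ κ)
    (hf : ∀ i, Fx p s (f i)) (A : MvPolynomial σ κ) (hA : Fx p s A) : Fx p s (bind₁ f A) := by
  unfold Fx at *
  rw [map_bind₁, hA]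
  congr 2
  funext i
  exact hf i

private theorem fx_iter {κ : Type} [Field κ] (p : ℕ) [ExpChar κ p] (s : ℕ) {σ : Type} (f : σ → MvPolynomial σ κ)
    (hf : ∀ i, Fx p s (f i)) (A : MvPolynomial σ κ) (hA : Fx p s A) (j : ℕ) : Fx p s ((bind₁ f)^[j] A) := by
  induction j with
  | zero => exact hA
  | succ j ih =>
    rw [Function.iterate_succ_apply']
    exact fx_bind p s f hf _ ih

private theorem one_le_dz {κ : Type} [Field κ] {c : ℕ} (P : MvPolynomial (Fin (c + 1)) κ) (hirr : Irreducible P)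
    (hmon : Mon P) : 1 ≤ dz P := by
  by_contra h
  have h0 : (finSuccEquiv κ c P).natDegree = 0 := by
    unfold dz at h
    omega
  have h1 : finSuccEquiv κ c P = 1 := (Polynomial.Monic.natDegree_eq_zero hmon).1 h0
  have h2 : P = 1 := by
    apply (finSuccEquiv κ c).injective
    rw [h1, map_one]
  exact hirr.not_isUnit (by rw [h2]; exact isUnit_one)

end HP0M

open HP0M in
/-- (N13) -/
theorem tHP0 : StmtNilp → StmtNm → StmtCrv → StmtSit → SDer → StmtHt → StmtG0 → StmtUniN → StmtNrmN → StmtPtN →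
    StmtPnMv → SPrd → SPn → StmtHP0 := by
  intro hNilp hNm hCrv hSit hDer hHt hG0 hUniN hNrmN hPtN _ hPrd hSPn κ _ _ p _ _ n P B f h hirr hmon hder hkeep hinj hB
    hh0 hh hmix
  obtain ⟨hNm1, hNm2, hNm3, -⟩ := hNm
  have hprime : Prime P := hirr.prime
  have hdz : 1 ≤ dz P := one_le_dz P hirr hmon
  -- the polynomials
  set G : MvPolynomial (Fin (n + 2)) κ := (bind₁ f)^[n + 2] B with hG
  set Q : MvPolynomial (Fin (n + 2)) κ := bind₁ f (pderiv 0 P) with hQ
  have hGn : ¬ P ∣ G := by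
    have key : ∀ j : ℕ, ¬ P ∣ (bind₁ f)^[j] B := by
      intro j
      induction j with
      | zero => exact hB
      | succ j ih =>
        rw [Function.iterate_succ_apply']
        exact fun hd => ih (hinj _ hd)
    exact key (n + 2)
  have hQn : ¬ P ∣ Q := fun hd => hder (hinj _ hd)
  set B' : MvPolynomial (Fin (n + 1)) κ := nm P G * nm P Q * rename Fin.castSucc h with hB'
  have hB'0 : B' ≠ 0 := by
    refine mul_ne_zero (mul_ne_zero (hNm2 κ (n + 1) P G hmon hprime hGn) (hNm2 κ (n + 1) P Q hmon hprime hQn)) ?_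
    intro h1
    apply hh0
    apply rename_injective Fin.castSucc (Fin.castSucc_injective n)
    rw [h1, map_zero]
  -- the constants
  obtain ⟨N, CU, -, hU⟩ := hUniN κ n P hirr hmon
  obtain ⟨CN, hN⟩ := hNrmN κ n P hirr hmon N CU
  obtain ⟨CH, qH, hH⟩ := hHt κ n P f hmon hdz
  obtain ⟨qG, hGz⟩ := hG0 κ n P f hmon hdz
  obtain ⟨qC, hC⟩ := hCrv κ p n P f hirr hmon hmix B' hB'0
  set C₂ : ℕ := ∑ i, (f i).totalDegree * (1 + P.totalDegree) * 2 with hC₂
  set C₃ : ℕ := (CU + N) * C₂ + N * (G.totalDegree * (1 + P.totalDegree) * 2) with hC₃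
  refine ⟨qH + qG + qC + dz P + (∑ i, (P.totalDegree + 1) * (f i).totalDegree) + CN * (C₂ + C₃) + 1, ?_⟩
  intro s hs hq hfP hfB hfh hff
  by_contra hcon
  push Not at hcon
  set q : ℕ := p ^ s with hqdef
  have hq1 : 1 ≤ q := by omega
  have hfi : ∀ i, (P.totalDegree + 1) * (f i).totalDegree < q := by
    intro i
    have h1 : (P.totalDegree + 1) * (f i).totalDegree ≤ ∑ i, (P.totalDegree + 1) * (f i).totalDegree :=
      Finset.single_le_sum (f := fun i => (P.totalDegree + 1) * (f i).totalDegree) (fun _ _ => Nat.zero_le _)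
        (Finset.mem_univ i)
    omega
  have hGmem : G ∈ Jf q P f := hNilp κ p (n + 1) s P B f hmon hdz (by omega) hfi hfB hff hcon
  -- fixed coefficients
  have hfG : Fx p s G := fx_iter p s f hff B hfB (n + 2)
  have hfd : Fx p s (pderiv 0 P) := by
    unfold Fx at *
    rw [← pderiv_map, hfP]
  have hfQ : Fx p s Q := fx_bind p s f hff _ hfd
  have hfB' : Fx p s B' := by
    unfold Fx at *
    rw [hB', map_mul, map_mul, hNm3 κ κ _ (n + 1) P G hmon, hNm3 κ κ _ (n + 1) P Q hmon, hfP, hfG, hfQ, map_rename, hfh]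
  obtain ⟨L, _, _, ξ, hcf, -, hCv, hξ⟩ := hC s hs (by omega) hfP hfB' hff
  -- non-vanishing
  rw [hB', map_mul, map_mul, aeval_rename] at hξ
  have hξ1 := left_ne_zero_of_mul (left_ne_zero_of_mul hξ)
  have hξ2 := right_ne_zero_of_mul (left_ne_zero_of_mul hξ)
  have hξ3 := right_ne_zero_of_mul hξ
  have hGξ : aeval ξ G ≠ 0 := aeval_ne P G (hNm1 κ (n + 1) P G hmon) ξ hCv.hP hξ1
  have hQξ : aeval ξ Q ≠ 0 := aeval_ne P Q (hNm1 κ (n + 1) P Q hmon) ξ hCv.hP hξ2
  set y : Fin (n + 2) → L := fun i => aeval ξ (f i) with hy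
  have hyA : ∀ A : MvPolynomial (Fin (n + 2)) κ, aeval y A = aeval ξ (bind₁ f A) := by
    intro A
    rw [aeval_bind₁]
  have hyP : aeval y P = 0 := by
    rw [hyA]
    obtain ⟨U, hU'⟩ := hkeep
    rw [hU', map_mul, hCv.hP, zero_mul]
  have hyd : aeval y (pderiv 0 P) ≠ 0 := by
    rw [hyA]
    exact hQξ
  have hym : ∀ i : Fin n, y (mid i) = ξ (mid i) ^ q := fun i => (hCv.hf i).symm
  have hyh : aeval (fun i : Fin n => y (mid i)) h ≠ 0 := by
    have h1 : (fun i : Fin n => y (mid i)) = fun i : Fin n => ξ (mid i) ^ p ^ s := by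
      funext i
      exact hym i
    rw [h1, aeval_pow p h (fun i : Fin n => ξ (mid i)) s hfh]
    exact pow_ne_zero _ hξ3
  have hirrS : Irreducible (spn y P) := hh L y hyh
  have hF : aeval (fun i => ξ i ^ q) P = 0 := by
    rw [hqdef, aeval_pow p P ξ s hfP, hCv.hP, zero_pow]
    exact (pow_pos (Fact.out : p.Prime).pos s).ne'
  obtain ⟨hg0, hH1⟩ := hGz L ξ q hCv (by omega) hq1
  obtain ⟨A, A', H, hWt, hdeg, hCf, hCf', hEq, hnc⟩ := hU L y hyP hyd
  obtain ⟨x, δ, hsit⟩ := hSit hDer κ L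
  obtain ⟨-, -, hpow, -, -, -, -⟩ := hSPn κ L
  have hZP := (hPrd κ L x δ hsit).1
  set g : L := ξ (lst n) ^ q - aeval ξ (f (lst n)) with hg
  set W : L := (A.map (Polynomial.evalRingHom (ξ (lst n) ^ q))).eval (ξ 0 ^ q) with hW
  have hHv := hH L ξ q hCv (by omega)
  have hlocal : ∀ v : Place κ L, pl v (W / g ^ N) ≤ (CU + N) * ∑ i, pl v (y i) + N * zr v (aeval ξ G) := by
    intro v
    obtain ⟨h1, h2, -, -, h5⟩ := hHv v
    exact hPtN κ L n P G f ξ q N CU A A' H hCv hq1 hF hGmem hGξ hg0 hWt hCf hCf' hEq v h1 h2 h5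
  have hsum : Pn κ (W / g ^ N) ≤ (CU + N) * ∑ i, Pn κ (y i) + N * Zn κ (aeval ξ G) :=
    pn_sum (W / g ^ N) (aeval ξ G) y _ _ hlocal
  set H₀ : ℤ := Pn κ (ξ (lst n)) with hH₀
  have hA : ∀ A : MvPolynomial (Fin (n + 2)) κ,
      Pn κ (aeval ξ A) ≤ ((A.totalDegree * (1 + P.totalDegree) * 2 : ℕ) : ℤ) * H₀ := by
    intro A
    refine pn_le _ _ _ fun v => ?_
    have h4 := (hHv v).2.2.2.1 A
    push_cast
    exact h4
  have hy2 : ∑ i, Pn κ (y i) ≤ (C₂ : ℤ) * H₀ := by
    rw [hC₂, Nat.cast_sum, Finset.sum_mul]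
    exact Finset.sum_le_sum fun i _ => hA (f i)
  have hu3 : Pn κ (W / g ^ N) ≤ (C₃ : ℤ) * H₀ := by
    refine hsum.trans ?_
    have e1 : ((CU : ℤ) + N) * ∑ i, Pn κ (y i) ≤ (CU + N) * (C₂ * H₀) :=
      mul_le_mul_of_nonneg_left hy2 (by positivity)
    have e2 : (N : ℤ) * Zn κ (aeval ξ G) ≤ N * (((G.totalDegree * (1 + P.totalDegree) * 2 : ℕ) : ℤ) * H₀) := by
      rw [hZP]
      exact mul_le_mul_of_nonneg_left (hA G) (by positivity)
    have e3 : (C₃ : ℤ) * H₀ = (CU + N) * (C₂ * H₀) +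
        N * (((G.totalDegree * (1 + P.totalDegree) * 2 : ℕ) : ℤ) * H₀) := by
      rw [hC₃]
      push_cast
      ring
    linarith only [e1, e2, e3]
  have hroot : ((spn y P).map (Polynomial.evalRingHom (ξ (lst n) ^ q))).eval (ξ 0 ^ q) = 0 := by
    rw [spn_eval, ← hF]
    congr 2
    funext j
    by_cases h0 : j = 0
    · rw [if_pos h0, h0]
    · rw [if_neg h0]
      by_cases h1 : j = lst n
      · rw [if_pos h1, h1]
      · rw [if_neg h1]
        obtain ⟨i, rfl⟩ := exists_mid j h0 h1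
        exact hym i
  have hfin := hN L x δ hsit y (W / g ^ N) (ξ (lst n) ^ q) (ξ 0 ^ q) A hirrS hCf hWt hdeg hnc hroot
    (by rw [div_mul_cancel₀ _ (pow_ne_zero N hg0)])
  rw [hpow] at hfin
  have h1 : (q : ℤ) * H₀ ≤ CN * (C₂ + C₃) * H₀ := by
    refine hfin.trans ?_
    have h2 : ∑ i, Pn κ (y i) + Pn κ (W / g ^ N) ≤ (C₂ + C₃) * H₀ := by
      rw [add_mul]
      exact add_le_add hy2 hu3
    refine (mul_le_mul_of_nonneg_left h2 (Int.natCast_nonneg _)).trans (le_of_eq (by ring))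
  have h2 : ((CN * (C₂ + C₃) + 1 : ℕ) : ℤ) ≤ q := by exact_mod_cast (by omega)
  push_cast at h2
  have h3 : ((CN : ℤ) * (C₂ + C₃) + 1) * H₀ ≤ q * H₀ := mul_le_mul_of_nonneg_right h2 (by omega)
  have h4 : ((CN : ℤ) * (C₂ + C₃) + 1) * H₀ = CN * (C₂ + C₃) * H₀ + H₀ := by ring
  linarith only [h1, h3, h4, hH1]

end Pool.Agent.Lib.MP_16285c_agX
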