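import Pool.Agent.Lib.MP_16285c_agS.Hrx.Spec
import Pool.Agent.ZDO.Cone

/-!
# Frobenius points of dominant polynomial self-maps of hypersurfaces in characteristic `p`: statements

Section A of note 4936 on `MP_16285c_ag`. `P : MvPolynomial (Fin (n + 2)) κ` is irreducible and monic in `z = X 0`, `X` is the hypersurface `P = 0` of dimension
`n + 1` with the coordinates `x_1 = X 1, …, x_(n+1) = X (n+1)`; `mid i = i + 1`, `i : Fin n`, are the indices of the first `n` of them and `lst n` is the last one. The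
self-map of `X` is given by polynomials `f : Fin (n + 2) → MvPolynomial (Fin (n + 2)) κ` with `P ∣ bind₁ f P`. `q = p ^ s`. Theorem (`StmtHP0`): in good coordinates
there are points `a` of `X` with `a i ^ q = f i (a)`, outside a given hypersurface, for all large `q`.

Every lemma is a `Prop` with its complete proof in the docstring; the files proving them are independent: file `Hrn/X.lean`, `theorem tX : StmtX` or
`theorem tX : StmtY → StmtX` (used statements are hypotheses), namespace `Pool.Agent.Lib.MP_16285c_agX`, auxiliary lemmas in the namespace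
`Pool.Agent.Lib.MP_16285c_agX.XM`. Landed files to copy from are named. Places and `Pn`, `Zn`, `pl`, `zr`: `Lib/MP_16285c_agZ/Hru/Spec.lean`, `Lib/MP_16285c_agS/Hrx/Spec.lean` (`StmtPnMv`, `StmtRoot`,
`StmtMin`, `StmtDim` of `Hrx/Spec.lean` and `SPrd`, `SPn`, `SDer` of `Hru/Spec.lean` are landed for all numbers of variables; import them).
-/

set_option autoImplicit false

namespace Pool.Agent.Lib.MP_16285c_agX

open MP7Z MvPolynomial
open scoped IntermediateField
open Pool.Agent.Lib.MP_16285c_ag (RM FrobPt)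
open Pool.Agent.Lib.MP_16285c_agZ.Hru (Zn Pn Sit SDer SSepH SPrd SBd SLoc SPn SRes SFld)
open Pool.Agent.Lib.MP_16285c_agS.Hrx (pl zr Wt StmtPnMv StmtRoot StmtMin StmtDim)

/-- Monic in `z = X 0`. -/
def Mon {R : Type} [CommRing R] {c : ℕ} (P : MvPolynomial (Fin (c + 1)) R) : Prop := (finSuccEquiv R c P).Monic

/-- The degree in `z = X 0`. -/
noncomputable def dz {R : Type} [CommRing R] {c : ℕ} (P : MvPolynomial (Fin (c + 1)) R) : ℕ := (finSuccEquiv R c P).natDegree

/-- The index of the `i`-th of the first `n` coordinates. -/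
def mid {n : ℕ} (i : Fin n) : Fin (n + 2) := i.castSucc.succ

/-- The last index. -/
def lst (n : ℕ) : Fin (n + 2) := Fin.last (n + 1)

/-- The ideal of `P` and of the `x_i ^ q - g_i` (`z` excluded). -/
noncomputable def Jq {R : Type} [CommRing R] {c : ℕ} (q : ℕ) (P : MvPolynomial (Fin (c + 1)) R)
    (g : Fin c → MvPolynomial (Fin (c + 1)) R) : Ideal (MvPolynomial (Fin (c + 1)) R) :=
  Ideal.span (insert P (Set.range fun i => X i.succ ^ q - g i))

/-- The ideal of `P` and of all the `X_i ^ q - f_i` (`z` included). -/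
noncomputable def Jf {R : Type} [CommRing R] {c : ℕ} (q : ℕ) (P : MvPolynomial (Fin (c + 1)) R)
    (f : Fin (c + 1) → MvPolynomial (Fin (c + 1)) R) : Ideal (MvPolynomial (Fin (c + 1)) R) :=
  Ideal.span (insert P (Set.range fun i => X i ^ q - f i))

/-- The coefficients are fixed by the `q`-th power map, `q = p ^ s`. -/
def Fx {κ σ : Type} [Field κ] (p : ℕ) [ExpChar κ p] (s : ℕ) (A : MvPolynomial σ κ) : Prop :=
  map (iterateFrobenius κ p s) A = A

/-- The norm to the polynomial ring in the `x_i`: the determinant of the multiplication by `A` modulo `P`. -/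
noncomputable def nm {R : Type} [CommRing R] {c : ℕ} (P A : MvPolynomial (Fin (c + 1)) R) : MvPolynomial (Fin c) R :=
  (Matrix.of fun i j : Fin (dz P) =>
    ((Polynomial.X ^ (i : ℕ) * finSuccEquiv R c A) %ₘ finSuccEquiv R c P).coeff (j : ℕ)).det

/-- `f_1, …, f_n, x_(n+1)`. -/
noncomputable def mix {R : Type} [CommRing R] {n : ℕ} (f : Fin (n + 2) → MvPolynomial (Fin (n + 2)) R) :
    Fin (n + 1) → MvPolynomial (Fin (n + 2)) R :=
  Fin.snoc (α := fun _ => MvPolynomial (Fin (n + 2)) R) (fun i : Fin n => f (mid i)) (X (lst n))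

/-- The polynomial in all variables but the last one, over the polynomials in the last one. -/
noncomputable def spl {κ : Type} [Field κ] (c : ℕ) :
    MvPolynomial (Fin (c + 1)) κ →ₐ[κ] MvPolynomial (Fin c) (Polynomial κ) :=
  aeval (Fin.snoc (α := fun _ => MvPolynomial (Fin c) (Polynomial κ)) (fun i : Fin c => X i) (C Polynomial.X))

/-- The fibre over `(y_1, …, y_n)`: `P(Z, y_1, …, y_n, X)` with `Z` the variable of `Polynomial (Polynomial F)`, `X` the variable of `Polynomial F`. Only the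
`y (mid i)` are used. -/
noncomputable def spn {κ F : Type} [Field κ] [CommRing F] [Algebra κ F] {n : ℕ} (y : Fin (n + 2) → F)
    (P : MvPolynomial (Fin (n + 2)) κ) : Polynomial (Polynomial F) :=
  aeval (fun j : Fin (n + 2) => if j = 0 then Polynomial.X else if j = lst n then Polynomial.C Polynomial.X
    else Polynomial.C (Polynomial.C (y j))) P

/-- `A` has coefficients which are values of polynomials of degree `≤ C` at `y`. -/
def Cfn {κ L : Type} [Field κ] [Field L] [Algebra κ L] {r : ℕ} (C : ℕ) (y : Fin r → L) (A : Polynomial (Polynomial L)) : Prop :=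
  ∀ i j : ℕ, ∃ a : MvPolynomial (Fin r) κ, a.totalDegree ≤ C ∧ (A.coeff j).coeff i = aeval y a

/-- A point of `X` over the function field `L` of a curve with `ξ_i ^ q = f_i(ξ)` for the first `n` coordinates. -/
structure CvN {κ L : Type} [Field κ] [Field L] [Algebra κ L] {n : ℕ} (P : MvPolynomial (Fin (n + 2)) κ)
    (f : Fin (n + 2) → MvPolynomial (Fin (n + 2)) κ) (ξ : Fin (n + 2) → L) (q : ℕ) : Prop where
  tr : Transcendental κ (ξ (lst n))
  hP : aeval ξ P = 0
  hf : ∀ i : Fin n, ξ (mid i) ^ q = aeval ξ (f (mid i))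

/-! ## Algebra -/

/-- (N1) Standard monomials. PROOF. Copy `Pool/Agent/ZDO/Std.lean` with weights. Let `m = P.totalDegree`, `e = dz P ≥ 1`, and give `X 0` the weight `m + 1` and every `X i.succ` the weight `1`; `wt μ = (m + 1) μ 0 + ∑ i, μ i.succ` for an exponent `μ`; `Lt D H`: all monomials of `H` of weight `≥ D` have the coefficient `0`;
`Top μ H`: `Lt (wt μ) (H - monomial μ 1)`. `Top (single 0 e) P`: the coefficient of `X 0 ^ j` (`j < e`) in `P` is a polynomial of degree `≤ m` in the `x_i` (`totalDegree_coeff_finSuccEquiv_add_le`), so its monomials have weight `≤ m + (m + 1) j < (m + 1) e`. `Top (single i.succ q) (X i.succ ^ q - g i)`: the monomials of `g i` have weight `≤ (m + 1) * totalDegree < q`. The basis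
`gg μ = P ^ (μ 0 / e) * X 0 ^ (μ 0 % e) * ∏ i, (X i.succ ^ q - g i) ^ (μ i.succ / q) * X i.succ ^ (μ i.succ % q)` has `Top μ (gg μ)`; so `Ph : monomial μ c ↦ c • gg μ` is bijective (`ph_inj`, `ph_surj`), `Ph (X 0 ^ e * H) = P * Ph H`, `Ph (X i.succ ^ q * H) = (X i.succ ^ q - g i) * Ph H`; `gg μ` is the monomial if `μ 0 < e`, `μ i.succ < q`, and it is in the ideal otherwise. As in
`span_std`, `finrank_quot`: the `e * q ^ c` small monomials span the quotient. As in `small_eq_zero`: `rename Fin.succ H` has only small monomials (`1 ≤ e`, `totalDegree < q`), so `Ph` fixes it, while an element of the ideal is `Ph` of a sum of multiples of `X 0 ^ e` and `X i.succ ^ q`; compare coefficients: `rename Fin.succ H = 0`. -/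
def StmtStd : Prop :=
  ∀ (F : Type) [Field F] (c q : ℕ) (P : MvPolynomial (Fin (c + 1)) F) (g : Fin c → MvPolynomial (Fin (c + 1)) F),
    Mon P → 1 ≤ dz P → 1 ≤ q → (∀ i, (P.totalDegree + 1) * (g i).totalDegree < q) →
    Module.Finite F (MvPolynomial (Fin (c + 1)) F ⧸ Jq q P g) ∧
      Module.finrank F (MvPolynomial (Fin (c + 1)) F ⧸ Jq q P g) ≤ dz P * q ^ c ∧
      ∀ H : MvPolynomial (Fin c) F, H.totalDegree < q → rename Fin.succ H ∈ Jq q P g → H = 0

/-- (N2) The norm. PROOF. Compare `Lib/MP_16285c_agS/Hrx/Elim.lean` (`StmtElim`, same matrix, three variables). `P♯ = finSuccEquiv P` monic of degree `e`, `A♯ = finSuccEquiv A`, `M` the matrix. (1) In `D = R[x][Z] ⧸ (P♯)`: `Z^i A♯ = ∑ j, M i j Z^j`, so the vector `(1, Z, …, Z^(e-1))` is in the kernel of `A♯ • 1 - M` over `D`, and its determinant, multiplied with `1`, is `0`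
(adjugate; first entry of the vector is `1`; for `e = 0` `P♯ = 1`); this determinant is `± det M` modulo `A♯`. So `nm P A ∈ (P♯, A♯)`; go back by `finSuccEquiv` (`finSuccEquiv (rename Fin.succ R) = C R`). (2) If `det M = 0` there is `v ≠ 0` over `R[x]` with `v M = 0` (`Matrix.exists_vecMul_eq_zero_iff`), i.e. `V = ∑ v_i Z^i`, `0 ≠ V`, of degree `< e`, `P♯ ∣ V A♯`; `P♯` is prime, so `P♯ ∣ V` (impossible:
degree, `P♯` monic) or `P♯ ∣ A♯`. (3) `Polynomial.map_modByMonic`, `finSuccEquiv` commutes with `map` (compare `map_up` in `Lib/MP_16285c_ag/Base.lean`), `dz (map φ P) = dz P` (`S` nontrivial, monic; the two index types `Fin (dz P)` are equal: use a general `Fin e` version), `RingHom.map_det`. (4) Weights as in (N1): with `m = P.totalDegree` call `U ∈ R[x][Z]` of weight `≤ D` if its coefficient of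
`Z^j` has total degree `≤ D - (m + 1) j` and vanishes if `(m + 1) j > D`. `Z^i A♯` has weight `≤ (m + 1) (a + i)`, `a = A.totalDegree`; the remainder modulo `P♯` has the same bound (induction on the degree: subtract `u Z^(r-e) P♯`, `u` the leading coefficient; all terms of `P♯` have weight `≤ (m + 1) e`). So `M i j` has total degree `≤ (m + 1) (a + e)`, and the determinant at most `e` times that. -/
def StmtNm : Prop :=
  (∀ (R : Type) [CommRing R] (c : ℕ) (P A : MvPolynomial (Fin (c + 1)) R), Mon P →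
    rename Fin.succ (nm P A) ∈ Ideal.span {P, A}) ∧
  (∀ (R : Type) [CommRing R] [IsDomain R] (c : ℕ) (P A : MvPolynomial (Fin (c + 1)) R), Mon P → Prime P → ¬ P ∣ A →
    nm P A ≠ 0) ∧
  (∀ (R S : Type) [CommRing R] [CommRing S] [Nontrivial S] (φ : R →+* S) (c : ℕ) (P A : MvPolynomial (Fin (c + 1)) R), Mon P →
    map φ (nm P A) = nm (map φ P) (map φ A)) ∧
  ∀ (R : Type) [CommRing R] [IsDomain R] (c : ℕ) (P A : MvPolynomial (Fin (c + 1)) R), Mon P →
    (nm P A).totalDegree ≤ dz P * ((P.totalDegree + 1) * (A.totalDegree + dz P))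

/-- (N3) Nilpotency. PROOF (uses `StmtStd`). As `frob_points` in `Pool/Agent/ZDO/Hru.lean`. `Jf q P f ⊇ Jq q P (fun i => f i.succ)`, so the quotient `R` by `Jf` is finite of dimension `≤ dz P * q ^ c ≤ q ^ (c + 1)`. By hypothesis and the Nullstellensatz `B` is in the radical of `Jf`, so its class is nilpotent and `B ^ (q ^ (c + 1)) = 0` in `R` (`pow_eq_zero_of_finrank`). For `A` with fixed coefficients
`A ^ q = A(X_i ^ q) = bind₁ f A` in `R`; `bind₁ f A` has fixed coefficients again. So `B ^ (q ^ j) = (bind₁ f)^[j] B` in `R`. -/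
def StmtNilp : Prop :=
  ∀ (κ : Type) [Field κ] [IsAlgClosed κ] (p : ℕ) [Fact p.Prime] [CharP κ p] (c s : ℕ) (P B : MvPolynomial (Fin (c + 1)) κ)
    (f : Fin (c + 1) → MvPolynomial (Fin (c + 1)) κ), Mon P → 1 ≤ dz P → dz P ≤ p ^ s →
    (∀ i, (P.totalDegree + 1) * (f i).totalDegree < p ^ s) → Fx p s B → (∀ i, Fx p s (f i)) →
    (∀ a : Fin (c + 1) → κ, eval a P = 0 → (∀ i, a i ^ p ^ s = eval a (f i)) → eval a B = 0) →
    (bind₁ f)^[c + 1] B ∈ Jf (p ^ s) P f

/-- (N4) The last variable. PROOF. `spl c` is bijective: the inverse is `aeval (fun i => X i.castSucc)` over `Polynomial κ → MvPolynomial (Fin (c+1)) κ`, `Polynomial.aeval (X (Fin.last c))` (`eval₂Hom`); check both compositions on generators. Total degree: image of a monomial `X^μ` is `C (t ^ μ_last) * ∏ X i ^ μ i`. `Mon`, `dz` for `c + 1` variables (`X 0` is the first of at least two variables):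
`finSuccEquiv (spl (c+1) P) = (finSuccEquiv P).map (spl c)` (ring homomorphisms agree on `C a`, `X 0`, `X j.succ`; `(0 : Fin (c+1))` is `Fin.castSucc` of `0`), so monic goes to monic of the same degree and `totalDegree` does not increase. Prime: transport along the ring isomorphism (`MulEquiv.prime_iff`). -/
def StmtSpl : Prop :=
  ∀ (κ : Type) [Field κ] (c : ℕ),
    Function.Bijective (spl (κ := κ) c) ∧
    (∀ A : MvPolynomial (Fin (c + 1)) κ, (spl c A).totalDegree ≤ A.totalDegree) ∧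
    (∀ P : MvPolynomial (Fin (c + 2)) κ, Mon P → Mon (spl (c + 1) P) ∧ dz (spl (c + 1) P) = dz P) ∧
    (∀ P : MvPolynomial (Fin (c + 1)) κ, Prime P → Prime (spl c P)) ∧
    ∀ A : MvPolynomial (Fin (c + 1)) κ, rename Fin.succ (spl c A) = spl (c + 1) (rename Fin.succ A)

/-- (N5) One step of the chain of norms. Here `κ[t] = Polynomial κ`, `P, g_i` are polynomials in `z, x_1, …, x_n` over `κ[t]`, `B` in `x_1, …, x_n`; `S` is obtained from `B` by `x_i ↦ g_i`, `t ↦ t ^ q`. PROOF (uses `StmtNm`). Let `F : κ[t] → κ[t]` be the map of the coefficients by the `q`-th power map of `κ`; the coefficients of `B`, `P`, `g_i` are fixed by `F`. For `c : κ[t]` fixed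
by `F`: `c ^ q = expand q c` (`Polynomial.expand_char`-type: `Polynomial.map_iterateFrobenius_expand`, or `sum_pow_char_pow`). So modulo `x_i ^ q - g_i`: `B ^ q = ∑ c_μ ^ q ∏ x_i ^ (q μ_i) = ∑ expand q c_μ ∏ g_i ^ μ_i = S` (the `q`-th power is additive in characteristic `p`). `nm P S ∈ (P, S)` by `StmtNm` (1), which gives the first claim. Fixed: `StmtNm` (3) for `F` and `map F S = S`
(`F` commutes with `expand q`). Degree: `S.totalDegree ≤ B.totalDegree * D` (as `totalDegree_bind` in `ZDO/Hru.lean`) and `StmtNm` (4). -/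
def StmtStep : Prop :=
  ∀ (κ : Type) [Field κ] (p : ℕ) [Fact p.Prime] [CharP κ p] (n s D : ℕ) (P : MvPolynomial (Fin (n + 1)) (Polynomial κ))
    (g : Fin n → MvPolynomial (Fin (n + 1)) (Polynomial κ)) (B : MvPolynomial (Fin n) (Polynomial κ)), Mon P →
    map (Polynomial.mapRingHom (iterateFrobenius κ p s)) P = P →
    (∀ i, map (Polynomial.mapRingHom (iterateFrobenius κ p s)) (g i) = g i) →
    map (Polynomial.mapRingHom (iterateFrobenius κ p s)) B = B → (∀ i, (g i).totalDegree ≤ D) →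
    ∀ S : MvPolynomial (Fin (n + 1)) (Polynomial κ),
      S = eval₂ ((C : Polynomial κ →+* MvPolynomial (Fin (n + 1)) (Polynomial κ)).comp
        (Polynomial.expand κ (p ^ s) : Polynomial κ →+* Polynomial κ)) g B →
      (∃ U : MvPolynomial (Fin (n + 1)) (Polynomial κ),
        rename Fin.succ (nm P S) - U * (rename Fin.succ B) ^ p ^ s ∈ Jq (p ^ s) P g) ∧
      map (Polynomial.mapRingHom (iterateFrobenius κ p s)) (nm P S) = nm P S ∧
      (nm P S).totalDegree ≤ dz P * ((P.totalDegree + 1) * (B.totalDegree * D + dz P))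

/-- (N6) The curve `x_i ^ q = f_i`, `i ≤ n`. PROOF (uses `StmtStd`, `StmtNm`, `StmtSpl`, `StmtStep`). `K` = an algebraic closure of the field of fractions of `κ[t]`, `ι : κ[t] → K`. `P₀ = spl (n+1) P`, `g i = spl (n+1) (f (mid i))` over `κ[t]`, `P_K, g_K` their images over `K` (`Mon`, same `dz = e ≥ 1`: `P` is not a unit; total degrees `≤`). Let `q = p ^ s` be large.
Suppose that every point `x : Fin (n+1) → K` with `P_K(x) = 0`, `x i.succ ^ q = g_K i (x)` has `B'_K (x) = 0`, where `B'_K` is the image of `B₀ = spl n B'` in `MvPolynomial (Fin n) K`. By the Nullstellensatz and `StmtStd` for `K`, `c = n` (dimension `≤ e q ^ n ≤ q ^ (n+1)`), `(rename succ B'_K) ^ (q ^ (n+1)) ∈ Jq q P_K g_K` (`pow_eq_zero_of_finrank`, as in `StmtNilp`). Let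
`B_(j+1) = nm P₀ (S_j)`, `S_j` from `B_j` as in `StmtStep`. By induction on `j`: `rename succ B_j ∈ Jq + (rename succ B₀) ^ (q ^ j)` (`q`-th powers of a sum: characteristic `p`), coefficients fixed, `totalDegree B_j ≤ D_j` with `D_j` independent of `q` (recursion of `StmtStep`). So `rename succ B_(n+1)` maps into `Jq q P_K g_K`, and if `q > D_(n+1)` `StmtStd` gives `B_(n+1) = 0` over `K`, so over `κ[t]`
(`map_injective`). But `B_j ≠ 0` for all `j`: `S_j` is `spl (n+1)` of `aeval (mix f) A_j`, where `A_j ∈ MvPolynomial (Fin (n+1)) κ` is `(spl n)⁻¹ B_j` with the last variable replaced by its `q`-th power (not zero: `rename`-like substitution `X last ↦ X last ^ q` is injective, or `expand`). By `hmix` `P ∤ aeval (mix f) A_j`, so `P₀ ∤ S_j` (`spl` bijective) and `nm P₀ S_j ≠ 0` by `StmtNm` (2)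
(`StmtSpl`: `P₀` prime). Contradiction. So there is a point `x` over `K` with `B'_K(x) ≠ 0`; let `ξ j = x j` for `j ≤ n` and `ξ (lst n) = ι t`, as elements of `L = κ(ξ)` (`IntermediateField.adjoin κ (range ξ)`, a field of type `Type`), which is finite over `κ(ξ (lst n))` (each `ξ j` is algebraic over `κ(t)`); `ξ (lst n)` is transcendental. `aeval ξ A = eval x (spl A)_K`. Compare `Lib/MP_16285c_agS/Hrx/Curve.lean` for the last part. -/
def StmtCrv : Prop :=
  ∀ (κ : Type) [Field κ] [IsAlgClosed κ] (p : ℕ) [Fact p.Prime] [CharP κ p] (n : ℕ) (P : MvPolynomial (Fin (n + 2)) κ)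
    (f : Fin (n + 2) → MvPolynomial (Fin (n + 2)) κ), Irreducible P → Mon P →
    (∀ A : MvPolynomial (Fin (n + 1)) κ, P ∣ aeval (mix f) A → A = 0) →
    ∀ B' : MvPolynomial (Fin (n + 1)) κ, B' ≠ 0 → ∃ q₀ : ℕ, ∀ s : ℕ, 1 ≤ s → q₀ ≤ p ^ s → Fx p s P → Fx p s B' →
      (∀ i, Fx p s (f i)) →
      ∃ (L : Type) (_ : Field L) (_ : Algebra κ L) (ξ : Fin (n + 2) → L), IsCurveField κ L ∧
        IntermediateField.adjoin κ (Set.range ξ) = ⊤ ∧ CvN P f ξ (p ^ s) ∧ aeval (fun i => ξ (Fin.succ i)) B' ≠ 0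

/-! ## Heights -/

/-- (N7) A separating element. PROOF. `κ` is perfect (algebraically closed), `L` is finitely generated (`places_essFiniteType` in `Crv/Places.lean`): `exists_isTranscendenceBasis_and_isSeparable_of_perfectField` (Mathlib, `FieldTheory/SeparablyGenerated.lean`); the transcendence basis has one element `x` (`places_trdeg_le` and `IsCurveField`); `SDer` (2) gives `δ`. -/
def StmtSit : Prop :=
  SDer → ∀ (κ L : Type) [Field κ] [IsAlgClosed κ] [Field L] [Algebra κ L] [IsCurveField κ L],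
    ∃ (x : L) (δ : Derivation κ L L), Sit κ L x δ

/-- (N8) Poles at a place. PROOF (uses `StmtPnMv`). `m = P.totalDegree`, `μ = ∑ i : Fin (n+1), pl v (ξ i.succ)`. (a) As the CLAIM of (X8) in `Hrx/Spec.lean` (`Hrx/CvH.lean`): `P(ξ) = 0` reads `ξ₀ ^ e + ∑ j < e, c_j ξ₀ ^ j = 0`, `e = dz P ≥ 1`, `c_j` values of polynomials of total degree `≤ m` in the `ξ i.succ`, so `pl v c_j ≤ m μ`; if `a = pl v (ξ 0) > m μ` then `v (ξ₀ ^ e) = - e a` and the other terms
have order `≥ - m μ - (e-1) a > - e a`: a contradiction. So with `StmtPnMv`: `pl v (aeval ξ A) ≤ A.totalDegree * (1 + m) * μ` for all `A`. Let `C₁ = (1 + m) * ∑ j, (f j).totalDegree`. (b) `q * pl v (ξ (mid i)) = pl v (aeval ξ (f (mid i))) ≤ C₁ μ`; sum over `i : Fin n`: `q σ ≤ n C₁ (σ + λ)` with `σ = ∑ i, pl v (ξ (mid i))`, `λ = pl v (ξ (lst n))`, `μ = σ + λ`. If `q ≥ 2 n C₁ + 1`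
then `σ ≤ λ` (if `σ > λ` then `q σ ≤ 2 n C₁ σ`, `σ > 0`). (c) `q * pl v (ξ (mid i)) ≤ C₁ μ ≤ 2 C₁ λ`. (d) `pl v (aeval ξ A) ≤ A.totalDegree * (1 + m) * 2 * λ`. (e) If `λ > 0`: `pl v (aeval ξ (f (lst n))) ≤ 2 C₁ λ < q λ` for `q > 2 C₁`, and `v.oz (ξ (lst n) ^ q) = - q λ`, so the difference has the order `- q λ` (strict triangle; the second term may be `0`).
`C = 2 C₁`, `q₀ = 2 (n + 1) C₁ + 1`. -/
def StmtHt : Prop :=
  ∀ (κ : Type) [Field κ] [IsAlgClosed κ] (n : ℕ) (P : MvPolynomial (Fin (n + 2)) κ)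
    (f : Fin (n + 2) → MvPolynomial (Fin (n + 2)) κ), Mon P → 1 ≤ dz P → ∃ C q₀ : ℕ,
    ∀ (L : Type) [Field L] [Algebra κ L] [IsCurveField κ L] (ξ : Fin (n + 2) → L) (q : ℕ), CvN P f ξ q → q₀ ≤ q →
    ∀ v : Place κ L, pl v (ξ 0) ≤ P.totalDegree * ∑ i : Fin (n + 1), pl v (ξ i.succ) ∧
      (∑ i : Fin n, pl v (ξ (mid i)) ≤ pl v (ξ (lst n))) ∧
      (∀ i : Fin n, (q : ℤ) * pl v (ξ (mid i)) ≤ C * pl v (ξ (lst n))) ∧
      (∀ A : MvPolynomial (Fin (n + 2)) κ,
        pl v (aeval ξ A) ≤ A.totalDegree * (1 + P.totalDegree) * 2 * pl v (ξ (lst n))) ∧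
      (0 < pl v (ξ (lst n)) →
        v.oz (ξ (lst n) ^ q - aeval ξ (f (lst n))) = -((q : ℤ) * pl v (ξ (lst n))))

/-- (N9) `g = ξ_(n+1) ^ q - f_(n+1)(ξ)` is not zero, `Pn (ξ_(n+1)) ≥ 1`. PROOF (uses `StmtHt`, `StmtSit`, `SPrd`). `ξ (lst n)` is transcendental, so it has a pole: `Pn (ξ (lst n)) ≥ 1`: with `Sit x δ`, the product formula `Zn = Pn` and `SPrd`; if `Pn y = 0` then `y` has no poles; take a place `v`, the residue `c` of `y` at `v` (`MP7Z.exists_const`): `y - c` has no poles and a zero, or is `0`; `Zn (y - c) = Pn (y - c) = 0`, so `y = c`: a contradiction (places exist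
because `Pn x = [L : κ(x)] ≥ 1`). At a place with `0 < pl v (ξ (lst n))` the order of `g` is negative by `StmtHt`, so `g ≠ 0` (`v.oz 0 = 0`). -/
def StmtG0 : Prop :=
  ∀ (κ : Type) [Field κ] [IsAlgClosed κ] (n : ℕ) (P : MvPolynomial (Fin (n + 2)) κ)
    (f : Fin (n + 2) → MvPolynomial (Fin (n + 2)) κ), Mon P → 1 ≤ dz P → ∃ q₀ : ℕ,
    ∀ (L : Type) [Field L] [Algebra κ L] [IsCurveField κ L] (ξ : Fin (n + 2) → L) (q : ℕ), CvN P f ξ q → q₀ ≤ q →
      1 ≤ q → ξ (lst n) ^ q - aeval ξ (f (lst n)) ≠ 0 ∧ 1 ≤ Pn κ (ξ (lst n))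

/-! ## The universal function -/

/-- (N10) The universal function. PROOF (uses `StmtMin`, `StmtDim`). Copy `Lib/MP_16285c_agS/Hrx/Univ.lean` (`StmtUniv`) with the parameters `y : Fin (n+2) → L` (`x₀ = y (lst n)`, `z₀ = y 0`, `η = (y (mid i))_i`) in place of `η, x₀, z₀`, `R = MvPolynomial (Fin (n+2)) κ`, `spn y P` in place of `sp η P`. `(spn y P)` is monic of degree `dz P` and `Wt m (m * dz P)`, `m = P.totalDegree ≥ 1`;
`((spn y P).map (evalRingHom (y (lst n)))).eval (y 0) = aeval y P`. -/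
def StmtUniN : Prop :=
  ∀ (κ : Type) [Field κ] (n : ℕ) (P : MvPolynomial (Fin (n + 2)) κ), Irreducible P → Mon P → ∃ N C : ℕ, 1 ≤ N ∧
    ∀ (L : Type) [Field L] [Algebra κ L] (y : Fin (n + 2) → L), aeval y P = 0 → aeval y (pderiv 0 P) ≠ 0 →
    ∃ A A' H : Polynomial (Polynomial L), Wt P.totalDegree N A ∧ A.natDegree < dz P ∧ Cfn (κ := κ) C y A ∧
      Cfn (κ := κ) C y A' ∧
      A * (Polynomial.X - Polynomial.C (Polynomial.C (y 0))) ^ N -
        A' * Polynomial.C ((Polynomial.X - Polynomial.C (y (lst n))) ^ N) = spn y P * H ∧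
      ∀ c : L, A ≠ Polynomial.C (Polynomial.C c * (Polynomial.X - Polynomial.C (y (lst n))) ^ N)

/-- (N11) The value of the universal function has many poles. PROOF (uses `StmtRoot`, `StmtPnMv`, `SPn`). Copy `Lib/MP_16285c_agS/Hrx/Nrm.lean` (`StmtNrm`) with the parameters `y : Fin (n+2) → L`. -/
def StmtNrmN : Prop :=
  ∀ (κ : Type) [Field κ] [IsAlgClosed κ] (n : ℕ) (P : MvPolynomial (Fin (n + 2)) κ), Irreducible P → Mon P → ∀ N C₀ : ℕ,
    ∃ C : ℕ, ∀ (L : Type) [Field L] [Algebra κ L] [IsCurveField κ L] (x : L) (δ : Derivation κ L L), Sit κ L x δ →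
    ∀ (y : Fin (n + 2) → L) (u x₁ z₁ : L) (A : Polynomial (Polynomial L)), Irreducible (spn y P) → Cfn (κ := κ) C₀ y A →
    Wt P.totalDegree N A → A.natDegree < dz P →
    (∀ c : L, A ≠ Polynomial.C (Polynomial.C c * (Polynomial.X - Polynomial.C (y (lst n))) ^ N)) →
    ((spn y P).map (Polynomial.evalRingHom x₁)).eval z₁ = 0 →
    (A.map (Polynomial.evalRingHom x₁)).eval z₁ = u * (x₁ - y (lst n)) ^ N →
    Pn κ x₁ ≤ C * (∑ i, Pn κ (y i) + Pn κ u)

/-- (N12) The poles of `u = A(s₁) / g ^ N`, place by place. Notation: `y i = aeval ξ (f i)` (so `y (mid i) = ξ (mid i) ^ q`), `s₁ = (ξ (lst n) ^ q, ξ 0 ^ q)`, `g = ξ (lst n) ^ q - y (lst n)`, `g' = ξ 0 ^ q - y 0`, `λ = pl v (ξ (lst n))`, `Π = ∑ i, pl v (y i)`. PROOF (uses `StmtPnMv`). `hV` is the list of bounds of `StmtHt` at `v`. `A(s₁) = (A.map (evalRingHom (ξ (lst n) ^ q))).eval (ξ 0 ^ q)`;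
evaluating `hAA` at `s₁` (`(spn y P)` vanishes there: it is `aeval (fun i => ξ i ^ q) P` as `y (mid i) = ξ (mid i) ^ q`, `hF`) gives `A(s₁) g' ^ N = A'(s₁) g ^ N`. (1) `λ = 0`. Then all `ξ i` and all `aeval ξ B` have no pole, so the `y i`, the coefficients of `A`, `A'` (`Cfn`, `StmtPnMv`), `A(s₁)`, `A'(s₁)` have no pole. `G ∈ Jf q P f`: `aeval ξ G = a g + b g'` with `a, b` values of polynomials at `ξ`
(`P(ξ) = 0`, `ξ (mid i) ^ q = y (mid i)`), so `min (v g) (v g') ≤ v (G(ξ))` (with `v 0 = ∞`; use `v.ord` in `WithTop ℤ`). If `v g ≤ v g'`: `- v u ≤ N v g ≤ N v (G(ξ))`. Otherwise `g' ≠ 0`, `u = A'(s₁) / g' ^ N`, `- v u ≤ N v g' ≤ N v (G(ξ))`. (2) `λ > 0`: a term `c X ^ i Z ^ j` of `A`, `i + m j ≤ N`, has at `s₁` a pole of order `≤ C₀ Π + i q λ + j q pl v (ξ 0)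
≤ C₀ Π + i q λ + j m (q λ + ∑ q pl v (ξ (mid i))) ≤ C₀ Π + N q λ + N Π` (`q * pl v (ξ (mid i)) = pl v (y (mid i))`), and `v g = - q λ`, so `- v u ≤ (C₀ + N) Π + N q λ - N q λ`. -/
def StmtPtN : Prop :=
  ∀ (κ L : Type) [Field κ] [IsAlgClosed κ] [Field L] [Algebra κ L] [IsCurveField κ L] (n : ℕ) (P G : MvPolynomial (Fin (n + 2)) κ)
    (f : Fin (n + 2) → MvPolynomial (Fin (n + 2)) κ) (ξ : Fin (n + 2) → L) (q N C₀ : ℕ) (A A' H : Polynomial (Polynomial L)),
    CvN P f ξ q → 1 ≤ q → aeval (fun i => ξ i ^ q) P = 0 → G ∈ Jf q P f → aeval ξ G ≠ 0 →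
    ξ (lst n) ^ q - aeval ξ (f (lst n)) ≠ 0 → Wt P.totalDegree N A →
    Cfn (κ := κ) C₀ (fun i => aeval ξ (f i)) A → Cfn (κ := κ) C₀ (fun i => aeval ξ (f i)) A' →
    A * (Polynomial.X - Polynomial.C (Polynomial.C (aeval ξ (f 0)))) ^ N -
      A' * Polynomial.C ((Polynomial.X - Polynomial.C (aeval ξ (f (lst n)))) ^ N) = spn (fun i => aeval ξ (f i)) P * H →
    ∀ v : Place κ L, (pl v (ξ 0) ≤ P.totalDegree * ∑ i : Fin (n + 1), pl v (ξ i.succ)) →
      (∑ i : Fin n, pl v (ξ (mid i)) ≤ pl v (ξ (lst n))) →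
      (0 < pl v (ξ (lst n)) → v.oz (ξ (lst n) ^ q - aeval ξ (f (lst n))) = -((q : ℤ) * pl v (ξ (lst n)))) →
      pl v ((A.map (Polynomial.evalRingHom (ξ (lst n) ^ q))).eval (ξ 0 ^ q) /
          (ξ (lst n) ^ q - aeval ξ (f (lst n))) ^ N) ≤
        (C₀ + N) * ∑ i, pl v (aeval ξ (f i)) + N * zr v (aeval ξ G)

/-- (N13) Frobenius points in good coordinates. PROOF (uses `StmtNilp`, `StmtNm`, `StmtCrv`, `StmtSit`, `StmtHt`, `StmtG0`, `StmtUniN`, `StmtNrmN`, `StmtPtN`, `StmtPnMv`, `SPrd`, `SPn`). Let `G = (bind₁ f)^[n + 2] B`, not divisible by `P` (injectivity, `hinj`, `n + 2` times). `Q = bind₁ f (pderiv 0 P)` is not divisible by `P` either. `B' = nm P G * nm P Q * (h(x_1, …, x_n))`, where `h(x_1, …, x_n) = rename Fin.castSucc h`;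
`B' ≠ 0` (`StmtNm` (2)). `N, C₀` from `StmtUniN`. Let `q = p ^ s` be large, everything fixed (so `B'` is fixed: `StmtNm` (3), `bind₁`), and suppose that there is no point. `StmtNilp` (`c = n + 1`): `G ∈ Jf q P f`. `StmtCrv` for `B'`: `L, ξ`. `aeval ξ G ≠ 0`, `aeval ξ Q ≠ 0` (`nm P G ∈ (P, G)`, `P(ξ) = 0`), `h(ξ_1, …, ξ_n) ≠ 0`. `y i = aeval ξ (f i)`; `aeval y A = aeval ξ (bind₁ f A)`, so `aeval y P = 0`, `aeval y (pderiv 0 P) ≠ 0`.
`y (mid i) = ξ (mid i) ^ q`, `h(y) = h(ξ) ^ q ≠ 0` (fixed coefficients), so `spn y P` is irreducible by `hh`. `aeval (fun i => ξ i ^ q) P = (aeval ξ P) ^ q = 0`. `g ≠ 0` and `H₀ = Pn (ξ (lst n)) ≥ 1` by `StmtG0`. `A, A', H` from `StmtUniN` for `y`; `u = A(s₁) / g ^ N`. Sum of `StmtPtN` over the places (bounds from `StmtHt`): `Pn u ≤ (C₀ + N) ∑ Pn (y i) + N Zn (aeval ξ G)`, `Zn = Pn` (`SPrd`, `StmtSit`), and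
`Pn (aeval ξ A) ≤ 2 (1 + m) A.totalDegree H₀` (sum of `StmtHt`): so `Pn u ≤ C₃ H₀`, `∑ Pn (y i) ≤ C₂ H₀` with `C₂, C₃` independent of `q, L, ξ`. `StmtNrmN` with `x₁ = ξ (lst n) ^ q`, `z₁ = ξ 0 ^ q`: `q H₀ = Pn (ξ (lst n) ^ q) ≤ C₄ (C₂ + C₃) H₀`: a contradiction for `q > C₄ (C₂ + C₃)`. Compare `Lib/MP_16285c_agS/Hrx/Main.lean`. -/
def StmtHP0 : Prop :=
  ∀ (κ : Type) [Field κ] [IsAlgClosed κ] (p : ℕ) [Fact p.Prime] [CharP κ p] (n : ℕ) (P B : MvPolynomial (Fin (n + 2)) κ)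
    (f : Fin (n + 2) → MvPolynomial (Fin (n + 2)) κ) (h : MvPolynomial (Fin n) κ), Irreducible P → Mon P →
    ¬ P ∣ pderiv 0 P → P ∣ bind₁ f P → (∀ A, P ∣ bind₁ f A → P ∣ A) → ¬ P ∣ B → h ≠ 0 →
    (∀ (F : Type) [Field F] [Algebra κ F] (y : Fin (n + 2) → F), aeval (fun i : Fin n => y (mid i)) h ≠ 0 →
      Irreducible (spn y P)) →
    (∀ A : MvPolynomial (Fin (n + 1)) κ, P ∣ aeval (mix f) A → A = 0) →
    ∃ q₀ : ℕ, ∀ s : ℕ, 1 ≤ s → q₀ ≤ p ^ s → Fx p s P → Fx p s B → Fx p s h → (∀ i, Fx p s (f i)) →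
      ∃ a : Fin (n + 2) → κ, eval a P = 0 ∧ (∀ i, a i ^ p ^ s = eval a (f i)) ∧ eval a B ≠ 0

end Pool.Agent.Lib.MP_16285c_agX
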