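import Pool.Agent.Lib.MP_16285c_agX.Hrn.Spec
import Pool.Agent.Lib.MP_16285c_agS.Bez.Spec

/-!
# Coordinates, the cone, and Frobenius points of rational self-maps of hypersurfaces: statements

Sections A8, A9 of note 4936 on `MP_16285c_ag`. Continuation of `Hrn/Spec.lean` (same conventions: file `Hrn/X.lean`, `theorem tX : …`, namespace
`Pool.Agent.Lib.MP_16285c_agX`, auxiliary lemmas in `XM`; used statements are hypotheses). `Bez.StmtGeo`, `Bez.StmtBN1`, `Bez.StmtBN` are landed
(`Lib/MP_16285c_agS/Bez/Geo.lean`, `BN1.lean`, `BN.lean`, assembled in `Bez/All.lean`).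
-/

set_option autoImplicit false

namespace Pool.Agent.Lib.MP_16285c_agX

open MP7Z MvPolynomial
open scoped IntermediateField
open Pool.Agent.Lib.MP_16285c_ag (RM FrobPt)
open Pool.Agent.ZDO (Jc hz dd nn cn)

/-! ## Bertini -/

/-- (C1) `k` is algebraically closed in `E`, `K` between `k` and `E`. PROOF. Copy `Lib/MP_16285c_agS/Bez/BertA.lean` (`StmtBertA`): there the base field `κ` is algebraically closed; it is used only for: the value `u(s) ∈ K`, `s : κ`, is algebraic over `κ`, so it is in `κ`. Here `u(s) ∈ K ⊆ E` is algebraic over `k`, so it is in `k` by hypothesis; and `k` is infinite. -/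
def StmtBrtA : Prop :=
  ∀ (k E : Type) [Field k] [Infinite k] [Field E] [Algebra k E] (K : IntermediateField k E) (T : E),
    (∀ α : E, IsAlgebraic k α → ∃ c : k, algebraMap k E c = α) →
    Transcendental K T → ∀ α ∈ IntermediateField.adjoin k ((K : Set E) ∪ {T}),
      IsAlgebraic k⟮T⟯ α → α ∈ k⟮T⟯

/-- (C2) One linear form. PROOF (uses `StmtBrtA`; pattern `Lib/MP_16285c_agS/Bez/Bert0.lean`). `M = k(u)`; there are only finitely many intermediate fields of `E / M`. For `t : k` let `l_t = u 0 + t u 1`, `K_t` = the elements of `E` algebraic over `k⟮l_t⟯`, `L_t = adjoin M K_t`. Let `t ≠ t'`, `L_t = L_t'`, `T = l_t'`, `α` algebraic over `k⟮T⟯`; so `α ∈ L_t' = L_t`. `u 0, u 1` are linear combinations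
of `l_t ∈ K_t` and `T`, so `L_t`, as a set, is contained in `adjoin k (K_t ∪ {T} ∪ {u 2, …, u (m+1)})`. `T, u 2, …, u (m+1)` are algebraically independent over `K_t` (`l_t, T, u 2, …` are algebraically independent over `k`, being a linear change of `u`; `K_t` is algebraic over `k⟮l_t⟯`: `AlgebraicIndependent` over an algebraic extension, or transcendence degrees). `K_t(T)` is algebraically closed in the
rational function field `K_t(T)(u 2, …, u (m+1))` (Mathlib: `Mathlib/RingTheory/AlgebraicIndependent/AlgebraicClosure.lean`, `algebraicClosure` of a purely transcendental extension; for example the lemma used in `StmtGeo`; or: an element of `F(u)`, `u` algebraically independent over `F`, algebraic over `F` is in `F`: `MvRatFunc` / `IsFractionRing` of an integrally closed ring `F[u]`, integral elements over `F` in `F[u]` are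
constants). As `α` is algebraic over `K_t(T)` it is in `adjoin k (K_t ∪ {T})`, so `α ∈ k⟮T⟯` by `StmtBrtA`. Hence `t ↦ L_t` is injective on the set of the bad `t`. (`m = 0`: there are no further variables.) -/
def StmtBrtB : Prop :=
  ∀ (k E : Type) [Field k] [Infinite k] [Field E] [Algebra k E] (m : ℕ) (u : Fin (m + 2) → E), AlgebraicIndependent k u →
    (∀ α : E, IsAlgebraic k α → ∃ c : k, algebraMap k E c = α) →
    Module.Finite (IntermediateField.adjoin k (Set.range u)) E →
    Algebra.IsSeparable (IntermediateField.adjoin k (Set.range u)) E →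
    {t : k | ¬ ∀ α : E, IsAlgebraic k⟮u 0 + algebraMap k E t * u 1⟯ α →
      α ∈ k⟮u 0 + algebraMap k E t * u 1⟯}.Finite

/-- The linear forms with coefficients `C` in the elements `u`. -/
noncomputable def lin {κ E : Type} [Field κ] [Field E] [Algebra κ E] {r c : ℕ} (C : Matrix (Fin r) (Fin c) κ) (u : Fin c → E) (i : Fin r) : E :=
  ∑ j, algebraMap κ E (C i j) * u j

/-- (C3) Bertini. PROOF (uses `StmtBrtB`). CLAIM for `r ≤ N`: there are inverse matrices `C, D` such that the elements of `E` algebraic over `F_r = adjoin κ {lin C u i | i < r}` are in `F_r`. `r = 0`: `κ` is algebraically closed, `F_0` = the constants. `r → r + 1 ≤ N`: let `k = F_r` (a field of type `Type`, infinite), `u' j = lin C u (r + j)`, `j : Fin (m + 2)`, `m + 2 = N + 1 - r ≥ 2`. `u'` is algebraically independent over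
`k` (`lin C u` is algebraically independent over `κ`: an invertible linear change; then split off the first `r`: `AlgebraicIndependent` of a disjoint union, `algebraicIndependent_subtype…`, `AlgebraicIndependent.sumElim_iff` or the like), `adjoin k (range u')` has the same elements as `adjoin κ (range u)`, so `E` is finite and separable over it. `StmtBrtB`: all but finitely many `t : k` are good, `κ` is infinite and `κ → k` injective: take a
good `t : κ`; `C'` = `C` with the row `r` replaced by row `r` `+ t *` row `(r+1)` (a transvection times `C`, invertible); `F_(r+1) = k⟮u' 0 + t u' 1⟯` as sets (`IntermediateField.adjoin_adjoin_left`), algebraic over one is the same as algebraic over the other. Take `r = N`. -/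
def StmtBrtN : Prop :=
  ∀ (κ E : Type) [Field κ] [IsAlgClosed κ] [Field E] [Algebra κ E] (N : ℕ) (u : Fin (N + 1) → E), AlgebraicIndependent κ u →
    Module.Finite (IntermediateField.adjoin κ (Set.range u)) E →
    Algebra.IsSeparable (IntermediateField.adjoin κ (Set.range u)) E →
    ∃ C D : Matrix (Fin (N + 1)) (Fin (N + 1)) κ, C * D = 1 ∧ D * C = 1 ∧
      ∀ α : E, IsAlgebraic (IntermediateField.adjoin κ (Set.range fun i : Fin N => lin C u i.castSucc)) α →
        α ∈ IntermediateField.adjoin κ (Set.range fun i : Fin N => lin C u i.castSucc)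

/-- (C4) The last linear form. PROOF. `E` is algebraic over `κ(u)`, so `trdeg κ E = n + 1`. Candidates: `C` itself, and `C` with the last row replaced by last row `+` row `i`, `i < n` (a transvection). If for all of them the last form is algebraic over `F' = adjoin κ (range w)`, then `lin C u (last)` and all `lin C u i = (last + i) - last` are algebraic over `F'`, so all `u j` (`u = D (lin C u)`), so `E` is, and `trdeg κ E ≤ n`: a contradiction
(`w` would be a transcendence basis with `n` elements). So for one candidate `C'` the last form is transcendental over `F'`, and `Fin.snoc w (last form)` is algebraically independent (`AlgebraicIndependent.option_iff_transcendental` or `algebraicIndependent_of_finite…`; reindex `Option (Fin n) ≃ Fin (n + 1)`, `finSuccEquivLast`). -/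
def StmtLast : Prop :=
  ∀ (κ E : Type) [Field κ] [Field E] [Algebra κ E] (n : ℕ) (u : Fin (n + 1) → E) (w : Fin n → E), AlgebraicIndependent κ u →
    Algebra.IsAlgebraic (IntermediateField.adjoin κ (Set.range u)) E → AlgebraicIndependent κ w →
    ∀ C D : Matrix (Fin (n + 1)) (Fin (n + 1)) κ, C * D = 1 → D * C = 1 →
    ∃ C' D' : Matrix (Fin (n + 1)) (Fin (n + 1)) κ, C' * D' = 1 ∧ D' * C' = 1 ∧
      (∀ i : Fin n, C' i.castSucc = C i.castSucc) ∧
      AlgebraicIndependent κ (Fin.snoc (α := fun _ => E) w (lin C' u (Fin.last n)))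

/-- A generic point of the hypersurface `P = 0`. -/
structure GenN {κ E : Type} [Field κ] [Field E] [Algebra κ E] {c : ℕ} (P : MvPolynomial (Fin c) κ) (ξ : Fin c → E) : Prop where
  ker : ∀ A : MvPolynomial (Fin c) κ, aeval ξ A = 0 ↔ P ∣ A
  top : IntermediateField.adjoin κ (Set.range ξ) = ⊤

/-- (C5) The function field. PROOF. Existence: `E = FractionRing (MvPolynomial (Fin c) κ ⧸ span {P})`, `ξ i` the class of `X i` (`P` is prime). Part 2: `Q = finSuccEquiv κ c P` is monic, irreducible, of positive degree. `u i = ξ i.succ`. If `A(u) = 0` then `Q ∣ C A`, so `A = 0`. `ξ 0` is a root of the monic `Q^u`, `E = κ(u)(ξ 0)` is finite over `κ(u)`. Separable: `Q` is irreducible over the fraction field of `MvPolynomial (Fin c) κ`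
(`Polynomial.Monic.irreducible_iff_irreducible_map_fraction_map`), its derivative `finSuccEquiv (pderiv 0 P)` is not `0`, so it is separable there. Compare `StmtBert3` (`Lib/MP_16285c_agS/Hrx/Thr.lean`). -/
def StmtFun : Prop :=
  (∀ (κ : Type) [Field κ] (c : ℕ) (P : MvPolynomial (Fin c) κ), Irreducible P →
    ∃ (E : Type) (_ : Field E) (_ : Algebra κ E) (ξ : Fin c → E), GenN P ξ) ∧
  ∀ (κ E : Type) [Field κ] [Field E] [Algebra κ E] (c : ℕ) (P : MvPolynomial (Fin (c + 1)) κ) (ξ : Fin (c + 1) → E),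
    Irreducible P → Mon P → GenN P ξ → AlgebraicIndependent κ (fun i : Fin c => ξ i.succ) ∧
      Module.Finite (IntermediateField.adjoin κ (Set.range fun i : Fin c => ξ i.succ)) E ∧
      (¬ P ∣ pderiv 0 P → Algebra.IsSeparable (IntermediateField.adjoin κ (Set.range fun i : Fin c => ξ i.succ)) E)

/-- (C6) The fibres. PROOF (uses `Bez.StmtGeo`, `Bez.StmtBN1`, `StmtFun`; copy `Lib/MP_16285c_agS/Bez/Fib.lean` (`StmtFib`)). `k = adjoin κ {ξ (mid i)} ⊆ E`, `x = ξ (lst n)`, transcendental over `k` (`StmtFun`), `z = ξ 0`, `P₁ = spn y P` over `F = k` with `y (mid i) = ξ (mid i) ∈ k` (`y 0`, `y (lst n)` arbitrary): monic of degree `dz P`, `P₁(x, z) = aeval ξ P = 0`, the minimal polynomial of `z` over `k⟮x⟯` has the degree `dz P`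
(the image of `finSuccEquiv P`, irreducible over the field of fractions of `κ[ξ 1, …]`), it is separable. `StmtGeo`: `Ω`, `φ : k → Ω`. `R = MvPolynomial (Fin n) κ`, `ι : R → Ω`, `X i ↦ φ (ξ (mid i))`, injective (`StmtFun`). `P_R = spn` over `R` (with `y (mid i) = X i`), `P_R^ι = P₁^φ`. `StmtBN1` gives `h ∈ R`; for `y : Fin (n+2) → F` and `ψ = aeval (fun i => y (mid i)) : R → F`: `P_R^ψ = spn y P`. -/
def StmtFibN : Prop :=
  ∀ (κ E : Type) [Field κ] [IsAlgClosed κ] [Field E] [Algebra κ E] (n : ℕ) (P : MvPolynomial (Fin (n + 2)) κ) (ξ : Fin (n + 2) → E),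
    Irreducible P → Mon P → ¬ P ∣ pderiv 0 P → GenN P ξ →
    (∀ α : E, IsAlgebraic (IntermediateField.adjoin κ (Set.range fun i : Fin n => ξ (mid i))) α →
      α ∈ IntermediateField.adjoin κ (Set.range fun i : Fin n => ξ (mid i))) →
    ∃ h : MvPolynomial (Fin n) κ, h ≠ 0 ∧ ∀ (F : Type) [Field F] [Algebra κ F] (y : Fin (n + 2) → F),
      aeval (fun i : Fin n => y (mid i)) h ≠ 0 → Irreducible (spn y P)

/-! ## Linear changes of coordinates -/

/-- `A` in the coordinates `y`, `x = D y`. -/
noncomputable def lch {κ : Type} [Field κ] {c : ℕ} (D : Matrix (Fin c) (Fin c) κ) : MvPolynomial (Fin c) κ →ₐ[κ] MvPolynomial (Fin c) κ :=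
  aeval fun i => ∑ j, C (D i j) * X j

/-- The polynomial map `f` in the coordinates `y = C x`, `x = D y`. -/
noncomputable def lfm {κ : Type} [Field κ] {c : ℕ} (M D : Matrix (Fin c) (Fin c) κ) (f : Fin c → MvPolynomial (Fin c) κ) (i : Fin c) :
    MvPolynomial (Fin c) κ := ∑ j, C (M i j) * lch D (f j)

/-- (C7) Linear changes. `M * D = 1 = D * M`, `y = M x`. PROOF. `lch M ∘ lch D = id` (on generators: `∑ j, D i j ∑ l, M j l X l = X i`). `(lch D A)(y) = A(D y)`, so for `η = lin M ξ` (`D η = ξ`): `aeval η (lch D A) = aeval ξ A`; `adjoin κ (range η) = adjoin κ (range ξ)`. `bind₁ (lfm M D f) (lch D A)` `= lch D (bind₁ f A)`: on generators, `∑ j, D i j (lfm j) = ∑ j ∑ l, D i j M j l lch D (f l) = lch D (f i)`.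
(4) `a i = ∑ j, D i j * b j`: `eval a A = eval b (lch D A)`, `a i ^ q = ∑ j, (D i j) ^ q (b j) ^ q = ∑ j, D i j * eval b (lfm M D f j) = eval b (lch D (f i)) = eval a (f i)` (`q = p ^ s`, characteristic `p`, entries of `D` fixed). (5) the total degree does not increase under `lch` (`totalDegree` of a composition with linear forms), in both directions. -/
def StmtLch : Prop :=
  ∀ (κ : Type) [Field κ] (c : ℕ) (M D : Matrix (Fin c) (Fin c) κ), M * D = 1 → D * M = 1 →
    (∀ A : MvPolynomial (Fin c) κ, lch M (lch D A) = A ∧ lch D (lch M A) = A) ∧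
    (∀ (E : Type) [Field E] [Algebra κ E] (P : MvPolynomial (Fin c) κ) (ξ : Fin c → E), GenN P ξ →
      GenN (lch D P) (lin M ξ)) ∧
    (∀ (f : Fin c → MvPolynomial (Fin c) κ) (A : MvPolynomial (Fin c) κ), bind₁ (lfm M D f) (lch D A) = lch D (bind₁ f A)) ∧
    (∀ (p : ℕ) [Fact p.Prime] [CharP κ p] (s : ℕ) (P B : MvPolynomial (Fin c) κ) (f : Fin c → MvPolynomial (Fin c) κ),
      (∀ i j, D i j ^ p ^ s = D i j) →
      (∃ b : Fin c → κ, eval b (lch D P) = 0 ∧ (∀ i, b i ^ p ^ s = eval b (lfm M D f i)) ∧ eval b (lch D B) ≠ 0) →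
      ∃ a : Fin c → κ, eval a P = 0 ∧ (∀ i, a i ^ p ^ s = eval a (f i)) ∧ eval a B ≠ 0) ∧
    ∀ A : MvPolynomial (Fin c) κ, (lch D A).totalDegree = A.totalDegree

/-- (C8) Noether normalisation with a separable variable. PROOF. `P` is irreducible, so of positive total degree `d`; `κ` is algebraically closed. Not all `pderiv i P` are `0`: clear in characteristic `0`; in characteristic `p` all exponents would be divisible by `p` and `P` would be a `p`-th power (`κ` perfect; compare `Lib/MP_16285c_agS/Hrx/Dom.lean`). For `v : Fin (c+1) → κ` let `P_d(v)` be the value of the homogeneous component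
`homogeneousComponent d P` and `D_v P = ∑ i, v i * pderiv i P`. `P_d ≠ 0` and, for an `i` with `pderiv i P ≠ 0`, some coefficient of `D_v P` is a nonzero linear polynomial in `v`; `κ` is infinite, so there is `v` with `P_d(v) ≠ 0`, `D_v P ≠ 0` (`MvPolynomial.funext`-type, product of two nonzero polynomials). `v ≠ 0` (`d ≥ 1`), `v i₀ ≠ 0`. `D` = an invertible matrix with first column `v`: the other columns are the unit vectors
`e_j`, `j ≠ i₀` (determinant `± v i₀`); `M = D⁻¹`. `P₁ = lch D P`: the coefficient of `X 0 ^ d` is `P_d(v) ≠ 0` and the total degree is `d` (so all the other coefficients of `finSuccEquiv P₁` belong to smaller powers of `X 0`): `C b * P₁` is monic for `b = P_d(v)⁻¹`. `pderiv 0 P₁ = lch D (D_v P) ≠ 0` (chain rule; on products by induction, or `Derivation` extensionality), of total degree `< d`, so `P₁` does not divide it. -/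
def StmtNoe : Prop :=
  ∀ (κ : Type) [Field κ] [IsAlgClosed κ] (c : ℕ) (P : MvPolynomial (Fin (c + 1)) κ), Irreducible P →
    ∃ (M D : Matrix (Fin (c + 1)) (Fin (c + 1)) κ) (b : κ), M * D = 1 ∧ D * M = 1 ∧ b ≠ 0 ∧ Mon (C b * lch D P) ∧
      ¬ lch D P ∣ pderiv 0 (lch D P)

/-- (C9) Good coordinates for the last `n + 1` variables. `P` is already monic in `X 0`. PROOF (uses `StmtFun`, `StmtBrtN`, `StmtLast`, `StmtFibN`, `StmtLch`). `E, ξ` a generic point of `P` (`StmtFun`), `u i = ξ i.succ`, algebraically independent, `E` finite separable over `κ(u)`. `StmtBrtN` (`N = n`): `C₁, D₁`. Let `y j = aeval ξ (f j)`; `aeval y A = aeval ξ (bind₁ f A)`, so by `hinj` and `hPf` `y` has the same relations as `ξ`: `A(y) = 0 ↔ P ∣ A`;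
so the `y j.succ` are algebraically independent over `κ` and `w i = lin C₁ (fun j => y j.succ) i.castSucc`, `i : Fin n`, too (invertible linear change, subfamily). `StmtLast`: `C', D'`, with the same first `n` rows. `M, D` := the block matrices `1 ⊕ C'`, `1 ⊕ D'` (index `0` fixed: `M 0 0 = 1`, `M i.succ j.succ = C' i j`, other entries `0`). `lch D P` is monic in `X 0` of the same degree: `finSuccEquiv (lch D P) = (finSuccEquiv P).map (lch D')`;
`pderiv 0 (lch D P) = lch D (pderiv 0 P)`. `ξ' = lin M ξ` is a generic point of `lch D P` (`StmtLch`), `ξ' 0 = ξ 0`, `ξ' (mid i) = lin C₁ u i.castSucc`, so `κ(ξ' (mid i))` is algebraically closed in `E` and `StmtFibN` gives `h`. Last claim: `aeval ξ' (aeval (mix (lfm M D f)) A) = aeval (the family) A` with `aeval ξ' (lfm M D f (mid i)) = ∑ j, M (mid i) j * y j = w i` (`aeval ξ' (lch D (f j)) = aeval ξ (f j) = y j`)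
and `ξ' (lst n) = lin C' u (last)`; this family is algebraically independent. -/
def StmtCoo : Prop :=
  ∀ (κ : Type) [Field κ] [IsAlgClosed κ] (n : ℕ) (P : MvPolynomial (Fin (n + 2)) κ) (f : Fin (n + 2) → MvPolynomial (Fin (n + 2)) κ),
    Irreducible P → Mon P → ¬ P ∣ pderiv 0 P → P ∣ bind₁ f P → (∀ A, P ∣ bind₁ f A → P ∣ A) →
    ∃ (M D : Matrix (Fin (n + 2)) (Fin (n + 2)) κ) (h : MvPolynomial (Fin n) κ), M * D = 1 ∧ D * M = 1 ∧ Mon (lch D P) ∧
      ¬ lch D P ∣ pderiv 0 (lch D P) ∧ h ≠ 0 ∧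
      (∀ (F : Type) [Field F] [Algebra κ F] (y : Fin (n + 2) → F), aeval (fun i : Fin n => y (mid i)) h ≠ 0 →
        Irreducible (spn y (lch D P))) ∧
      ∀ A : MvPolynomial (Fin (n + 1)) κ, lch D P ∣ aeval (mix (lfm M D f)) A → A = 0

/-- (C10) Frobenius points of polynomial self-maps. PROOF (uses `StmtHP0`, `StmtNoe`, `StmtCoo`, `StmtLch`). First change (`StmtNoe`, `c = n + 1`): `M, D, b`; replace `P` by `C b * lch D P` (associated to `lch D P`; `eval = 0` is the same), `f` by `lfm M D f`, `B` by `lch D B`: irreducible, monic, separable; divisibilities are preserved (`StmtLch` (1), (3); `lch D` is bijective). Second change (`StmtCoo`) for these: `M', D', h`. `StmtHP0` in the new coordinates gives `q₀`. All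
entries of `D, M, D', M'`, `b`, all coefficients of `P`, `f i`, `B`, `h` are fixed by `x ↦ x ^ p ^ r` for a suitable `r ≥ 1` (`hfin`, common multiple: if `c ^ p ^ m = c` then `c ^ p ^ (m j) = c`). `s = s₀ r j` with `j` so large that `q₀ ≤ p ^ s`. Transfer the point back twice (`StmtLch` (4)). `Fx p s` of the transformed polynomials: `map` commutes with `lch` when the entries of `D` are fixed. -/
def StmtHP : Prop :=
  ∀ (κ : Type) [Field κ] [IsAlgClosed κ] (p : ℕ) [Fact p.Prime] [CharP κ p], (∀ c : κ, ∃ m : ℕ, 1 ≤ m ∧ c ^ p ^ m = c) →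
    ∀ (n : ℕ) (P B : MvPolynomial (Fin (n + 2)) κ) (f : Fin (n + 2) → MvPolynomial (Fin (n + 2)) κ), Irreducible P →
    P ∣ bind₁ f P → (∀ A, P ∣ bind₁ f A → P ∣ A) → ¬ P ∣ B → ∀ s₀ : ℕ, 1 ≤ s₀ →
    ∃ s : ℕ, 1 ≤ s ∧ s₀ ∣ s ∧ ∃ a : Fin (n + 2) → κ, eval a P = 0 ∧ (∀ i, a i ^ p ^ s = eval a (f i)) ∧ eval a B ≠ 0

/-! ## The cone and rational self-maps -/

/-- The value of `f_i` at a point. -/
noncomputable def fvn {κ L : Type} [Field κ] [Field L] [Algebra κ L] {c : ℕ} (f : RM κ c) (ξ : Fin c → L) (i : Fin c) : L :=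
  aeval ξ (f.num i) / aeval ξ (f.den i)

/-- `f` maps the hypersurface `P = 0` to itself. -/
def KeepsN {κ : Type} [Field κ] {c : ℕ} (P : MvPolynomial (Fin c) κ) (f : RM κ c) : Prop :=
  ∀ (L : Type) [Field L] [Algebra κ L] (ξ : Fin c → L), aeval ξ P = 0 → (∀ i, aeval ξ (f.den i) ≠ 0) →
    aeval (fvn f ξ) P = 0

/-- The restriction of `f` to the hypersurface is dominant. -/
def DomN {κ : Type} [Field κ] {c : ℕ} (P : MvPolynomial (Fin c) κ) (f : RM κ c) : Prop :=
  ∀ (E : Type) [Field E] [Algebra κ E] (ξ : Fin c → E), GenN P ξ → ∀ A : MvPolynomial (Fin c) κ,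
    aeval (fvn f ξ) A = 0 → P ∣ A

/-- (C11) The generic point of the cone. PROOF. `d = P.totalDegree`. `hz d A` is homogeneous of degree `d` if `A.totalDegree ≤ d`; `aeval` version of `hz_eval` (`ZDO/Cone.lean`): `aeval (T, T ξ) (hz d A) = T ^ d * aeval ξ A` for `T ≠ 0`. Let `A ∈ MvPolynomial (Fin (c+1)) κ`, `A = ∑ j, A_j` homogeneous components, `a_j ∈ MvPolynomial (Fin c) κ` the polynomial `A_j(1, x)`. `aeval (T, T ξ) A = ∑ j, T ^ j * aeval ξ a_j`. `T` is transcendental over
`κ(ξ) = E` (in `E'`), so this is `0` iff all `aeval ξ a_j = 0` iff `P ∣ a_j` for all `j`. If `P ∣ a_j`, `a_j = P b`, then `A_j = X 0 ^ (j - deg a_j) * hz (deg a_j) a_j` and `hz (d + e) (P * b) = hz d P * hz e b` (`e` = total degree of `b`, total degrees are additive over a field): `hz d P ∣ A_j`. Conversely, if `hz d P ∣ A` then `aeval (T, T ξ) A = 0`. So the kernel is `(hz d P)`: a prime ideal, `hz d P ≠ 0`: irreducible. -/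
def StmtCone : Prop :=
  ∀ (κ E E' : Type) [Field κ] [Field E] [Algebra κ E] [Field E'] [Algebra κ E'] [Algebra E E'] [IsScalarTower κ E E'] (c : ℕ)
    (P : MvPolynomial (Fin c) κ) (ξ : Fin c → E) (T : E'), Irreducible P → GenN P ξ → Transcendental E T →
    E⟮T⟯ = ⊤ → Irreducible (hz P.totalDegree P) ∧
      GenN (hz P.totalDegree P) (Fin.cons (α := fun _ => E') T fun i => T * algebraMap E E' (ξ i))

/-- (C12) The cone over a dominant rational self-map. PROOF (uses `StmtCone`). `E, ξ` a generic point of `P`, `E' = FractionRing (Polynomial E)`, `T = X`; `ξ^ = (T, T ξ)` generic for `P^ = hz d P`. `aeval ξ^ (cn e f 0) = T ^ e * aeval ξ (dd f)`, `aeval ξ^ (cn e f i.succ) = T ^ e * aeval ξ (nn f i) = T ^ e * aeval ξ (dd f) * fvn f ξ i` (`den i (ξ) ≠ 0`). Let `U = T ^ e * aeval ξ (dd f)`, transcendental over `E` (`e ≥ 1`, `aeval ξ (dd f) ≠ 0`).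
`y^ = (U, U * fvn f ξ)`. (1) `aeval y^ P^ = U ^ d * aeval (fvn f ξ) P = 0` (`KeepsN`). `aeval y^ A = aeval ξ^ (bind₁ (cn e f) A)`. (2) `A = ∑ A_j`, `a_j = A_j(1, x)`: `aeval y^ A = ∑ U ^ j * aeval (fvn f ξ) a_j = 0` gives `aeval (fvn f ξ) a_j = 0` for all `j`, so `P ∣ a_j` (`DomN`), `aeval ξ a_j = 0`, so `aeval ξ^ A = ∑ T ^ j aeval ξ a_j = 0`: `P^ ∣ A`. -/
def StmtConeF : Prop :=
  ∀ (κ : Type) [Field κ] (c e : ℕ) (P : MvPolynomial (Fin c) κ) (f : RM κ c), Irreducible P → (∀ i, ¬ P ∣ f.den i) →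
    KeepsN P f → DomN P f → 1 ≤ e → (dd f).totalDegree ≤ e → (∀ i, (nn f i).totalDegree ≤ e) →
    Irreducible (hz P.totalDegree P) ∧
    hz P.totalDegree P ∣ bind₁ (cn e f) (hz P.totalDegree P) ∧
    (∀ A, hz P.totalDegree P ∣ bind₁ (cn e f) A → hz P.totalDegree P ∣ A) ∧
    ∀ B : MvPolynomial (Fin c) κ, ¬ P ∣ B → ¬ hz P.totalDegree P ∣ X 0 * hz B.totalDegree B

/-- (C13) Frobenius points of rational self-maps of hypersurfaces (HRUN). PROOF (uses `StmtHP`, `StmtConeF`). `c = m + 1` variables. `e` := `1 +` the degrees of `dd f`, `nn f i`. `B₁ = B * dd f` (not divisible by the prime `P`; `dd f = ∏ den i`). `StmtHP` for `n = m`, `P^ = hz P.totalDegree P`, `cn e f`, `B^ = X 0 * hz B₁.totalDegree B₁` : `s`, and `a^` with `a^ 0 ≠ 0`. `a i = a^ i.succ / a^ 0`: `eval a P = 0`, `eval a B₁ ≠ 0` (`hz_eval`), so `eval a (dd f) ≠ 0` and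
`frobPt_of_cone` (`ZDO/Cone.lean`) gives `FrobPt f (p ^ s) a`. -/
def StmtHrun : Prop :=
  ∀ (κ : Type) [Field κ] [IsAlgClosed κ] (p : ℕ) [Fact p.Prime] [CharP κ p], (∀ c : κ, ∃ m : ℕ, 1 ≤ m ∧ c ^ p ^ m = c) →
    ∀ (m : ℕ) (P B : MvPolynomial (Fin (m + 1)) κ) (f : RM κ (m + 1)), Irreducible P → (∀ i, ¬ P ∣ f.den i) →
    KeepsN P f → DomN P f → ¬ P ∣ B → ∀ s₀ : ℕ, 1 ≤ s₀ →
    ∃ s : ℕ, 1 ≤ s ∧ s₀ ∣ s ∧ ∃ a : Fin (m + 1) → κ, eval a P = 0 ∧ FrobPt f (p ^ s) a ∧ eval a B ≠ 0

/-- (C14) The Jacobian criterion for dominance. PROOF (uses `StmtNm`, `StmtFun`). Let `ξ` be a generic point, `y = fvn f ξ` (the denominators do not vanish at `ξ`), `aeval y P = 0` (`KeepsN`), and suppose `aeval y A = 0`, `¬ P ∣ A`. `R = nm P A ≠ 0` and `R(y 1, …, y m) = 0` (`StmtNm`); `y 0` is algebraic over `κ(y 1, …, y m)` (`Mon P`, `P(y) = 0`). So `trdeg κ (κ(y)) < m = trdeg κ E` (`StmtFun`), and `E` is not algebraic over `F = adjoin κ (range y)`.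
`E` is a finitely generated field extension of `F`, not separable algebraic, so it is not formally unramified (`Algebra.FormallyUnramified.iff_isSeparable`), `Ω[E⁄F] ≠ 0` and there is a nonzero derivation `δ : Derivation F E E` (compose `KaehlerDifferential.D` with a linear functional). `δ (aeval ξ B) = ∑ j, aeval ξ (pderiv j B) * δ (ξ j)` for all `B`. So
`0 = δ (y i) * (den i (ξ)) ^ 2 = ∑ j, aeval ξ (Wd f i j) * δ (ξ j)` for all `i`, and the determinant `aeval ξ (Jc f)` of this system is not `0` (`¬ P ∣ Jc f`): all `δ (ξ j) = 0`, so `δ = 0` on `κ(ξ) = E`: a contradiction. -/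
def StmtDomJ : Prop :=
  ∀ (κ : Type) [Field κ] (m : ℕ) (P : MvPolynomial (Fin (m + 1)) κ) (f : RM κ (m + 1)), Irreducible P → Mon P →
    (∀ i, ¬ P ∣ f.den i) → ¬ P ∣ Jc f → KeepsN P f → DomN P f

end Pool.Agent.Lib.MP_16285c_agX
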